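import Mathlib

/-!
# The image of a recursively enumerable set by a computable function

PROOF. `REPred p` is `Partrec fun a => Part.assert (p a) fun _ => Part.some ()`; so there is a
code `c : Nat.Partrec.Code` with `(c.eval (encode a)).Dom ↔ p a` (`Nat.Partrec.Code.exists_code`),
and `(c.eval m).Dom ↔ ∃ k, (evaln k c m).isSome` (`Nat.Partrec.Code.evaln_complete`). The search
`Nat.rfindOpt fun m => ...` over the pairs `m = pair k a'`, accepting if `decode a' = some a`,
`f a = z` and `(evaln k c (encode a)).isSome`, is partial recursive (`Partrec.rfindOpt`,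
`Nat.Partrec.Code.primrec_evaln`), with domain the image.
-/

namespace Pool.Agent.H93NG

open Encodable Nat.Partrec

theorem rePred_image {α β : Type} [Primcodable α] [Primcodable β] [DecidableEq β] {p : α → Prop}
    (hp : REPred p) {f : α → β} (hf : Computable f) : REPred fun z => ∃ a, p a ∧ f a = z := by
  obtain ⟨c, hc⟩ := Code.exists_code.1 hp
  have hdom : ∀ a, (c.eval (encode a)).Dom ↔ p a := by
    intro a
    rw [hc]
    simp [Part.assert]
  let s : β → ℕ → Option ℕ := fun z m => (decode (α := α) m.unpair.2).bind fun a =>
    bif decide (f a = z) then Code.evaln m.unpair.1 c (encode a) else none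
  have hs : Computable₂ s := by
    have h2 : Computable fun r : (β × ℕ) × α => decide (f r.2 = r.1.1) :=
      (Primrec.eq (α := β)).decide.to_comp.comp
        (hf.comp Computable.snd) (Computable.fst.comp Computable.fst)
    have h5 : Computable fun r : (β × ℕ) × α => r.1.2.unpair.1 :=
      Computable.fst.comp (Computable.unpair.comp (Computable.snd.comp Computable.fst))
    have h6 : Computable fun r : (β × ℕ) × α => encode r.2 :=
      Computable.encode.comp Computable.snd
    have h7 : Computable fun r : (β × ℕ) × α =>
        (((r.1.2.unpair.1, c), encode r.2) : (ℕ × Code) × ℕ) :=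
      (h5.pair (Computable.const c)).pair h6
    have h3 : Computable fun r : (β × ℕ) × α =>
        Code.evaln r.1.2.unpair.1 c (encode r.2) := by
      have h10 := Code.primrec_evaln.to_comp.comp h7
      exact h10
    have h9 : Computable fun _ : (β × ℕ) × α => (none : Option ℕ) := Computable.const none
    have h1 : Computable fun r : (β × ℕ) × α => (bif decide (f r.2 = r.1.1) then
        Code.evaln r.1.2.unpair.1 c (encode r.2) else none : Option ℕ) :=
      Computable.cond h2 h3 h9
    have h8 : Computable fun q : β × ℕ => (decode q.2.unpair.2 : Option α) :=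
      Computable.decode.comp (Computable.snd.comp (Computable.unpair.comp Computable.snd))
    exact Computable.option_bind h8 h1.to₂
  have hP : Partrec fun z => Nat.rfindOpt (s z) := Partrec.rfindOpt hs
  refine hP.dom_re.of_eq fun z => ?_
  rw [Nat.rfindOpt_dom]
  constructor
  · rintro ⟨m, u, hm⟩
    simp only [s, Option.mem_def, Option.bind_eq_some_iff] at hm
    obtain ⟨a, -, ha⟩ := hm
    by_cases hfa : f a = z
    · simp only [hfa, decide_true, cond_true] at ha
      refine ⟨a, (hdom a).1 ?_, hfa⟩
      exact Part.dom_iff_mem.2 ⟨u, Code.evaln_sound ha⟩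
    · simp [hfa] at ha
  · rintro ⟨a, hpa, hfa⟩
    obtain ⟨y, hy⟩ := Part.dom_iff_mem.1 ((hdom a).2 hpa)
    obtain ⟨k, hk⟩ := Code.evaln_complete.1 hy
    refine ⟨Nat.pair k (encode a), y, ?_⟩
    simp only [s, Nat.unpair_pair, encodek, Option.bind_some, hfa, decide_true, cond_true]
    exact hk

end Pool.Agent.H93NG
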