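import Mathlib

/-!
# Grammars in Greibach normal form, coded as lists

A rule `(A, b, α)` replaces the nonterminal `A` by the terminal `b` followed by the word `α` of
nonterminals. The start symbol is `0`. A grammar is a list of rules.
-/

namespace Pool.Agent.H93NG

/-- Grammars in Greibach normal form with terminals `Fin n` and nonterminals `ℕ`. -/
abbrev Gnf (n : ℕ) := List (ℕ × Fin n × List ℕ)

/-- `Der G w st`: the word `st` of nonterminals derives the terminal word `w`. -/
inductive Der {n : ℕ} (G : Gnf n) : List (Fin n) → List ℕ → Prop
  | nil : Der G [] []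
  | step {A : ℕ} {b : Fin n} {α : List ℕ} {w : List (Fin n)} {st : List ℕ} :
      (A, b, α) ∈ G → Der G w (α ++ st) → Der G (b :: w) (A :: st)

/-- The language generated from the start symbol `0`. -/
def Gnf.lang {n : ℕ} (G : Gnf n) : Language (Fin n) := {w | Der G w [0]}

end Pool.Agent.H93NG
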