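import Pool.Agent.H93NG.Dyck
import Pool.Agent.H93NG.GDefs

/-!
# The universal language: definitions

Codes are words over `E n = Fin n ⊕ (Bool × Bool)`: a rule `(A, b, α)` is coded by the word of
pops of (the code of) `A`, the word of pushes of `α`, and the letter `b`.
`Opt x b y`: the word `y` of pushes and pops is an option of the code `x` for the letter `b`.
`ML x`: the language of the code `x`. `ann x v`: the word `v` with a copy of `x` before each
letter. `sliceE U x`: the slice at a word over any alphabet.
-/

namespace Pool.Agent.H93NG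

/-- The alphabet of codes. -/
abbrev E (n : ℕ) : Type := Fin n ⊕ (Bool × Bool)

/-- The code of a nonterminal on the stack. -/
def cdN (X : ℕ) : List Bool := List.replicate X true ++ [false]

/-- The word of pushes and pops of a rule `A → b α`. -/
def rword (A : ℕ) (α : List ℕ) : List (Bool × Bool) :=
  (cdN A).map (fun a => (a, false)) ++ (α.flatMap cdN).reverse.map (fun a => (a, true))

/-- The code of a rule. -/
def rcode {n : ℕ} (r : ℕ × Fin n × List ℕ) : List (E n) :=
  (rword r.1 r.2.2).map Sum.inr ++ [Sum.inl r.2.1]

/-- The code of a grammar. -/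
def gcode {n : ℕ} (G : Gnf n) : List (E n) := G.flatMap rcode

/-- `y` is an option of `x` for the letter `b`. -/
def Opt {n : ℕ} (x : List (E n)) (b : Fin n) (y : List (Bool × Bool)) : Prop :=
  ∃ u u' : List (E n), x = u ++ (y.map Sum.inr ++ Sum.inl b :: u') ∧
    ∀ e, u.getLast? = some e → e.isLeft

/-- The language of a code: push the start symbol, then one option for each letter. -/
def ML {n : ℕ} (x : List (E n)) : Language (Fin n) :=
  {v | ∃ ys : List (List (Bool × Bool)), List.Forall₂ (Opt x) v ys ∧
    (false, true) :: ys.flatten ∈ Dyck2}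

/-- Annotated words. -/
def ann {n : ℕ} (x : List (E n)) (v : List (Fin n)) : List (E n ⊕ Fin n) :=
  v.flatMap fun b => x.map Sum.inl ++ [Sum.inr b]

/-- Words cut into blocks. -/
def blocks {n : ℕ} (cs : List (List (E n) × Fin n)) : List (E n ⊕ Fin n) :=
  cs.flatMap fun p => p.1.map Sum.inl ++ [Sum.inr p.2]

/-- The universal language. -/
def Univ (n : ℕ) : Language (E n ⊕ (E n ⊕ Fin n)) :=
  {z | ∃ (x : List (E n)) (w : List (E n ⊕ Fin n)), z = x.map Sum.inl ++ w.map Sum.inr ∧
    ∀ v, w = ann x v → v ∈ ML x}

/-- The part of the consistent words: each block provides an option for its letter. -/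
def Cons (n : ℕ) : Language (E n ⊕ (E n ⊕ Fin n)) :=
  {z | ∃ (x : List (E n)) (cs : List (List (E n) × Fin n)),
    z = x.map Sum.inl ++ (blocks cs).map Sum.inr ∧
    ∃ ys : List (List (Bool × Bool)), List.Forall₂ (fun p y => Opt p.1 p.2 y) cs ys ∧
      (false, true) :: ys.flatten ∈ Dyck2}

/-- The words with a wrong annotation. -/
def Err (n : ℕ) : Language (E n ⊕ (E n ⊕ Fin n)) :=
  {z | ∃ (x : List (E n)) (w : List (E n ⊕ Fin n)), z = x.map Sum.inl ++ w.map Sum.inr ∧
    ∀ v, w ≠ ann x v}

/-- The slice of `U` at a word over any alphabet. -/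
def sliceE {E T : Type} (U : Language (E ⊕ T)) (x : List E) : Language T :=
  {w | x.map Sum.inl ++ w.map Sum.inr ∈ U}

end Pool.Agent.H93NG
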