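import Pool.Agent.H93NG.Final
import Pool.Agent.H93NG.UDefs
import Pool.Agent.H93NG.Image

/-!
# The bound theorem for slices at words over any finite alphabet

PROOF. Code a letter `e` by `ψ e = replicate (encode e) true ++ [false]`; `ψ* y = y.flatMap ψ` is
injective (a prefix code) and computable. `U' = {z | ∃ y w, z = (ψ* y).map inl ++ w.map inr ∧
y.map inl ++ w.map inr ∈ U}` is the image of `U` by the morphism `inl e ↦ (ψ e).map inl`,
`inr t ↦ [inr t]` restricted to the words of the form `y.map inl ++ w.map inr`
(`isRegular_bad.compl` or `format_iff`), so it is dominated by `U`, hence context-free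
(`dom_of_isContextFree`, `isContextFree_of_dom`), and `slice U' (ψ* y) = sliceE U y`. The set
`W' = {x | ∃ y ∈ W, ψ* y = x}` is recursively enumerable by `rePred_image`. Apply `exists_bound`.
-/

namespace Pool.Agent.H93NG

private theorem boundE_cdN_inj {A B : ℕ} {s t : List Bool} (h : cdN A ++ s = cdN B ++ t) :
    A = B ∧ s = t := by
  induction A generalizing B with
  | zero =>
    cases B with
    | zero => simpa [cdN] using h
    | succ B => simp [cdN, List.replicate_succ] at h
  | succ A ih =>
    cases B with
    | zero => simp [cdN, List.replicate_succ] at h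
    | succ B =>
      simp only [cdN, List.replicate_succ, List.cons_append, List.cons.injEq, true_and] at h
      obtain ⟨h1, h2⟩ := ih (B := B) h
      exact ⟨by rw [h1], h2⟩

/-- The code of a word. -/
private def boundEpsi {E : Type} [Primcodable E] (y : List E) : List Bool :=
  y.flatMap fun e => cdN (Encodable.encode e)

private theorem boundEpsi_inj {E : Type} [Primcodable E] {y y' : List E}
    (h : boundEpsi y = boundEpsi y') : y = y' := by
  induction y generalizing y' with
  | nil =>
    cases y' with
    | nil => rfl
    | cons e y' => simp [boundEpsi, cdN] at h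
  | cons e y ih =>
    cases y' with
    | nil => simp [boundEpsi, cdN] at h
    | cons e' y' =>
      simp only [boundEpsi, List.flatMap_cons] at h
      obtain ⟨h1, h2⟩ := boundE_cdN_inj h
      rw [Encodable.encode_injective h1, ih h2]

private theorem boundEpsi_computable {E : Type} [Primcodable E] :
    Computable (boundEpsi (E := E)) := by
  have hcd : Primrec cdN := by
    have h1 : Primrec (fun X : ℕ => (List.range X).map (fun _ => true) ++ [false]) :=
      Primrec.list_append.comp
        (Primrec.list_map Primrec.list_range (Primrec₂.const true)) (Primrec.const [false])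
    refine h1.of_eq ?_
    intro X
    simp [cdN, List.map_const']
  exact (Primrec.list_flatMap Primrec.id
    (hcd.comp (Primrec.encode.comp Primrec.snd)).to₂).to_comp

theorem exists_boundE {E T : Type} [Finite E] [Finite T] [Primcodable E]
    (U : Language (E ⊕ T)) (W : Set (List E)) (hU : U.IsContextFree)
    (hW : REPred fun x => x ∈ W) (hN : ∀ x ∈ W, NonGen (sliceE U x)) :
    ∃ (A : Type) (_ : Finite A) (L : Language A), L.IsContextFree ∧ NonGen L ∧
      ∀ x ∈ W, Dom L (sliceE U x) := by
  let U' : Language (Bool ⊕ T) := {z | ∃ (y : List E) (w : List T),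
    z = (boundEpsi y).map Sum.inl ++ w.map Sum.inr ∧ y.map Sum.inl ++ w.map Sum.inr ∈ U}
  let g : E ⊕ T → List (Bool ⊕ T) :=
    Sum.elim (fun e => (cdN (Encodable.encode e)).map Sum.inl) (fun t => [Sum.inr t])
  have hg : ∀ (y : List E) (w : List T), (y.map Sum.inl ++ w.map Sum.inr).flatMap g =
      (boundEpsi y).map Sum.inl ++ w.map Sum.inr := by
    intro y w
    rw [List.flatMap_append]
    congr 1
    · induction y with
      | nil => rfl
      | cons e y ih =>
        rw [List.map_cons, List.flatMap_cons, ih]
        simp [g, boundEpsi]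
    · induction w with
      | nil => rfl
      | cons t w ih =>
        rw [List.map_cons, List.flatMap_cons, ih]
        simp [g]
  have hU' : U'.IsContextFree := by
    apply isContextFree_of_dom
    have h1 := dom_inter_regular (dom_of_isContextFree hU) (isRegular_bad (T := T) (H := E)).compl
    have h2 := h1.trans (dom_quot _ [] [] (fun a : E ⊕ T => [a]) g)
    have h3 : U' = {v | ∃ w : List (E ⊕ T), [] ++ w.flatMap (fun a => [a]) ++ [] ∈
        ({v | v ∈ U ∧ v ∈ ({z | ¬ ∃ (h : List E) (w : List T),
      z = h.map Sum.inl ++ w.map Sum.inr} : Language (E ⊕ T))ᶜ} : Language (E ⊕ T)) ∧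
        w.flatMap g = v} := by
      apply Set.ext
      intro z
      simp only [flatMap_single, List.map_id', List.nil_append, List.append_nil]
      constructor
      · rintro ⟨y, w, rfl, h⟩
        exact ⟨y.map Sum.inl ++ w.map Sum.inr, ⟨h, fun hc => hc ⟨y, w, rfl⟩⟩, hg y w⟩
      · rintro ⟨v, ⟨h, hc⟩, rfl⟩
        obtain ⟨y, w, rfl⟩ : ∃ (h : List E) (w : List T), v = h.map Sum.inl ++ w.map Sum.inr := by
          by_contra hcon
          exact hc hcon
        exact ⟨y, w, hg y w, h⟩
    rw [h3]
    exact h2
  have hs : ∀ y : List E, slice U' (boundEpsi y) = sliceE U y := by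
    intro y
    apply Set.ext
    intro w
    constructor
    · rintro ⟨y', w', h1, h2⟩
      obtain ⟨h3, rfl⟩ := split_unique h1
      rw [boundEpsi_inj h3]
      exact h2
    · intro h
      exact ⟨y, w, rfl, h⟩
  obtain ⟨A, hA, L, h1, h2, h3⟩ := exists_bound U' {x | ∃ y, y ∈ W ∧ boundEpsi y = x} hU'
    (rePred_image hW boundEpsi_computable) (by
      rintro _ ⟨y, hy, rfl⟩
      rw [hs]
      exact hN y hy)
  refine ⟨A, hA, L, h1, h2, ?_⟩
  intro x hx
  rw [← hs]
  exact h3 _ ⟨x, hx, rfl⟩

end Pool.Agent.H93NG
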