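import Pool.Agent.H93NG.Defs

/-!
# Derivations of a context-free grammar as stack derivations

PROOFS.
* `ar_append`: from left to right by induction on the derivation (with `α ++ β` generalised);
  in the step `expand` the new stack is `(r.output ++ α') ++ β`. From right to left by induction on
  the derivation of `α`.
* `mem_language_iff_ar`: `w ∈ G.language` is
  `G.Derives [Symbol.nonterminal G.initial] (w.map Symbol.terminal)`
  (`ContextFreeGrammar.mem_language_iff`). More generally
  `G.Derives st (w.map Symbol.terminal) ↔ AR G w st`. From right to left: induction on `AR`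
  (`Derives.append_left` and so on). From left to right: head induction on the derivation
  (`Relation.ReflTransGen.head_induction_on`); in a step `st = p ++ [nonterminal r.input] ++ q`,
  `st' = p ++ r.output ++ q` (`ContextFreeRule.rewrites_iff`), use `ar_append` twice.
* `ar_sem`: induction on the derivation; for `expand` split the meaning of `r.output ++ st`.
-/

namespace Pool.Agent.H93NG

variable {B : Type}

theorem ar_append {G : ContextFreeGrammar B} {w : List B} {α β : List (Symbol B G.NT)} :
    AR G w (α ++ β) ↔ ∃ w₁ w₂, w = w₁ ++ w₂ ∧ AR G w₁ α ∧ AR G w₂ β := by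
  constructor
  · intro h
    generalize hx : α ++ β = st at h
    induction h generalizing α with
    | nil =>
      rw [List.append_eq_nil_iff] at hx
      obtain ⟨rfl, rfl⟩ := hx
      exact ⟨[], [], rfl, AR.nil, AR.nil⟩
    | @term b w st h ih =>
      cases α with
      | nil =>
        rw [List.nil_append] at hx
        subst hx
        exact ⟨[], b :: w, rfl, AR.nil, AR.term h⟩
      | cons a α =>
        rw [List.cons_append, List.cons.injEq] at hx
        obtain ⟨rfl, hx⟩ := hx
        obtain ⟨w₁, w₂, rfl, h1, h2⟩ := ih hx
        exact ⟨b :: w₁, w₂, rfl, AR.term h1, h2⟩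
    | @expand r w st hr h ih =>
      cases α with
      | nil =>
        rw [List.nil_append] at hx
        subst hx
        exact ⟨[], w, rfl, AR.nil, AR.expand hr h⟩
      | cons a α =>
        rw [List.cons_append, List.cons.injEq] at hx
        obtain ⟨rfl, rfl⟩ := hx
        obtain ⟨w₁, w₂, rfl, h1, h2⟩ := ih (α := r.output ++ α) (by rw [List.append_assoc])
        exact ⟨w₁, w₂, rfl, AR.expand hr h1, h2⟩
  · rintro ⟨w₁, w₂, rfl, h1, h2⟩
    induction h1 with
    | nil => exact h2
    | term _ ih => exact AR.term ih
    | @expand r w st hr _ ih =>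
      have ih' : AR G (w ++ w₂) (r.output ++ (st ++ β)) := by
        rw [← List.append_assoc]; exact ih
      exact AR.expand hr ih'

theorem ar_terminals {G : ContextFreeGrammar B} (w : List B) :
    AR G w (w.map Symbol.terminal) := by
  induction w with
  | nil => exact AR.nil
  | cons b w ih => exact AR.term ih

theorem derives_iff_ar (G : ContextFreeGrammar B) (w : List B) (st : List (Symbol B G.NT)) :
    G.Derives st (w.map Symbol.terminal) ↔ AR G w st := by
  constructor
  · intro h
    induction h using Relation.ReflTransGen.head_induction_on with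
    | refl => exact ar_terminals w
    | head h1 _ ih =>
      obtain ⟨r, hr, hrw⟩ := h1
      obtain ⟨p, q, rfl, rfl⟩ := hrw.exists_parts
      obtain ⟨w₁, w₂, rfl, h2, h3⟩ := ar_append.1 ih
      obtain ⟨w₃, w₄, rfl, h4, h5⟩ := ar_append.1 h2
      refine ar_append.2 ⟨w₃ ++ w₄, w₂, rfl, ar_append.2 ⟨w₃, w₄, rfl, h4, ?_⟩, h3⟩
      exact AR.expand hr (by rw [List.append_nil]; exact h5)
  · intro h
    induction h with
    | nil => exact Relation.ReflTransGen.refl
    | @term b w st _ ih =>
      have := ih.append_left [Symbol.terminal b]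
      simpa using this
    | @expand r w st hr _ ih =>
      have h1 : G.Produces ([Symbol.nonterminal r.input] ++ st) (r.output ++ st) := by
        have h2 : G.Produces [Symbol.nonterminal r.input] r.output :=
          ⟨r, hr, ContextFreeRule.Rewrites.input_output⟩
        exact h2.append_right st
      exact h1.trans_derives ih

theorem mem_language_iff_ar (G : ContextFreeGrammar B) (w : List B) :
    w ∈ G.language ↔ AR G w [Symbol.nonterminal G.initial] := by
  rw [ContextFreeGrammar.mem_language_iff, derives_iff_ar]

/-- The meaning of a word of symbols, from a meaning of the nonterminals. -/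
def Sem {N : Type} (I : N → Set (List B)) : List (Symbol B N) → List B → Prop
  | [], w => w = []
  | Symbol.terminal b :: st, w => ∃ w', w = b :: w' ∧ Sem I st w'
  | Symbol.nonterminal n :: st, w => ∃ w₁ w₂, w = w₁ ++ w₂ ∧ w₁ ∈ I n ∧ Sem I st w₂

theorem sem_append {N : Type} (I : N → Set (List B)) {α β : List (Symbol B N)} {w : List B}
    (h : Sem I (α ++ β) w) : ∃ w₁ w₂, w = w₁ ++ w₂ ∧ Sem I α w₁ ∧ Sem I β w₂ := by
  induction α generalizing w with
  | nil => exact ⟨[], w, rfl, rfl, h⟩
  | cons a α ih =>
    cases a with
    | terminal b =>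
      obtain ⟨w', rfl, h1⟩ := h
      obtain ⟨w₁, w₂, rfl, h2, h3⟩ := ih h1
      exact ⟨b :: w₁, w₂, rfl, ⟨w₁, rfl, h2⟩, h3⟩
    | nonterminal n =>
      obtain ⟨u, v, rfl, hu, h1⟩ := h
      obtain ⟨w₁, w₂, rfl, h2, h3⟩ := ih h1
      exact ⟨u ++ w₁, w₂, by rw [List.append_assoc], ⟨u, w₁, rfl, hu, h2⟩, h3⟩

/-- If the meaning is compatible with the rules, then everything derived is in the meaning. -/
theorem ar_sem {G : ContextFreeGrammar B} (I : G.NT → Set (List B))
    (hI : ∀ r ∈ G.rules, ∀ w, Sem I r.output w → w ∈ I r.input) {w : List B}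
    {st : List (Symbol B G.NT)} (h : AR G w st) : Sem I st w := by
  induction h with
  | nil => rfl
  | @term b w st _ ih => exact ⟨w, rfl, ih⟩
  | @expand r w st hr _ ih =>
    obtain ⟨w₁, w₂, rfl, h1, h2⟩ := sem_append I ih
    exact ⟨w₁, w₂, rfl, hI r hr w₁ h1, h2⟩

end Pool.Agent.H93NG
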