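import Pool.Agent.H93NG.Defs

/-!
# Transducers: the frozen form is the transducer form, and composition

PROOF of `tdom_of_dom`. Let `C, g, h, R, D` be given (`D : DFA C τ`). States: `Option` of the
subtype of `(x, y, q) : List A × List B × τ` with `x` a suffix of some `g c` (or `[]`), `y` a suffix
of some `h c` (or `[]`); a finite type. Moves: `(a :: x, y, q)` reads `a` and goes to `(x, y, q)`;
`(x, b :: y, q)` writes `b` and goes to `(x, y, q)`; `([], [], q)` goes to
`(g c, h c, D.step q c)` for each letter `c`; `([], [], q)` goes to `none` if `q ∈ D.accept`.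
Start `([], [], D.start)`, final `none`. A path from `(x, y, q)` to `none` reading `u`, writing
`v` exists iff there is `w` with `D.evalFrom q w ∈ D.accept`, `u = x ++ w.flatMap g`,
`v = y ++ w.flatMap h` (one direction by induction on the path, the other by induction on `x`,
`y`, `w`).

PROOF of `dom_of_tdom`. `C = σ × Option A × Option B × σ`, `g c = c.2.1.toList`,
`h c = c.2.2.1.toList`, the automaton has states `Option σ`: `some p` goes by `(p', a, b, q)` to
`some q` if `p = p'` and `δ p a b q`, and everything else goes to `none`. Start `some s`, accept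
`{some f}`. `D.evalFrom (some p) w = some q` iff `w` is a path.

PROOF of `TDom.trans`. States `σ × τ`; moves: both move along a middle letter; or the first alone
with middle `none`; or the second alone with middle `none`. A path of the product from `(p, p')` to
`(q, q')` reading `u`, writing `w` exists iff there is `v` with paths `p, u, v, q` and
`p', v, w, q'`: one direction by induction on the path; the other by induction on the first path,
with the lemma that a path `p', b :: v, w, q'` splits as a path reading nothing, one move reading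
`b`, and a path reading `v` (`path_cons_in`).
-/

namespace Pool.Agent.H93NG

variable {A B C σ τ : Type}

theorem Path.append {δ : σ → Option A → Option B → σ → Prop} {p q r : σ} {u u' : List A}
    {v v' : List B} (h : Path δ p u v q) (h' : Path δ q u' v' r) :
    Path δ p (u ++ u') (v ++ v') r := by
  induction h with
  | nil p => simpa using h'
  | cons hd _ ih =>
    have := Path.cons hd (ih h')
    simpa [List.append_assoc] using this

theorem Path.single {δ : σ → Option A → Option B → σ → Prop} {p q : σ} {a : Option A}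
    {b : Option B} (h : δ p a b q) : Path δ p a.toList b.toList q := by
  simpa using Path.cons h (Path.nil q)

private theorem Path.split_in' {δ : σ → Option A → Option B → σ → Prop} {p q : σ} {z : List A}
    {v : List B} (h : Path δ p z v q) : ∀ u u' : List A, z = u ++ u' →
    ∃ m v₁ v₂, v = v₁ ++ v₂ ∧ Path δ p u v₁ m ∧ Path δ m u' v₂ q := by
  induction h with
  | nil p =>
    intro u u' hz
    obtain ⟨rfl, rfl⟩ := List.append_eq_nil_iff.mp hz.symm
    exact ⟨p, [], [], rfl, Path.nil p, Path.nil p⟩
  | @cons p q r a b z v hd hp ih =>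
    intro u u' hz
    cases a with
    | none =>
      obtain ⟨m, v₁, v₂, rfl, h1, h2⟩ := ih u u' (by simpa using hz)
      refine ⟨m, b.toList ++ v₁, v₂, by simp, ?_, h2⟩
      simpa using Path.cons hd h1
    | some x =>
      cases u with
      | nil =>
        refine ⟨p, [], b.toList ++ v, by simp, Path.nil p, ?_⟩
        have hz' : u' = x :: z := by simpa using hz.symm
        subst hz'
        simpa using Path.cons hd hp
      | cons y u =>
        have hz' : x = y ∧ z = u ++ u' := by simpa using hz
        obtain ⟨rfl, hz''⟩ := hz'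
        obtain ⟨m, v₁, v₂, rfl, h1, h2⟩ := ih u u' hz''
        refine ⟨m, b.toList ++ v₁, v₂, by simp, ?_, h2⟩
        simpa using Path.cons hd h1

/-- A path splits where the input splits. -/
theorem Path.split_in {δ : σ → Option A → Option B → σ → Prop} {p q : σ} {u u' : List A}
    {v : List B} (h : Path δ p (u ++ u') v q) :
    ∃ m v₁ v₂, v = v₁ ++ v₂ ∧ Path δ p u v₁ m ∧ Path δ m u' v₂ q :=
  Path.split_in' h u u' rfl

private theorem Path.swap {δ : σ → Option A → Option B → σ → Prop} {p q : σ} {u : List A}
    {v : List B} (h : Path δ p u v q) : Path (fun p b a q => δ p a b q) p v u q := by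
  induction h with
  | nil p => exact Path.nil p
  | cons hd _ ih => exact Path.cons (δ := fun p b a q => δ p a b q) hd ih

/-- A path splits where the output splits. -/
theorem Path.split_out {δ : σ → Option A → Option B → σ → Prop} {p q : σ} {u : List A}
    {v v' : List B} (h : Path δ p u (v ++ v') q) :
    ∃ m u₁ u₂, u = u₁ ++ u₂ ∧ Path δ p u₁ v m ∧ Path δ m u₂ v' q := by
  obtain ⟨m, u₁, u₂, hu, h1, h2⟩ := h.swap.split_in
  exact ⟨m, u₁, u₂, hu, h1.swap, h2.swap⟩

/-! ### The frozen form gives a transducer -/

private theorem Path.subtype {δ : σ → Option A → Option B → σ → Prop} {S : Set σ}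
    (hS : ∀ p a b q, p ∈ S → δ p a b q → q ∈ S) {p q : σ} {u : List A} {v : List B}
    (h : Path δ p u v q) : ∀ hp : p ∈ S,
    ∃ hq : q ∈ S, Path (fun (x : S) a b (y : S) => δ x a b y) ⟨p, hp⟩ u v ⟨q, hq⟩ := by
  induction h with
  | nil p => exact fun hp => ⟨hp, Path.nil _⟩
  | @cons p q r a b u v hd _ ih =>
    intro hp
    obtain ⟨hr, h⟩ := ih (hS _ _ _ _ hp hd)
    exact ⟨hr, Path.cons (δ := fun (x : S) a b (y : S) => δ x a b y) (q := ⟨q, _⟩) hd h⟩

private theorem Path.of_subtype {δ : σ → Option A → Option B → σ → Prop} {S : Set σ}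
    {p q : S} {u : List A} {v : List B}
    (h : Path (fun (x : S) a b (y : S) => δ x a b y) p u v q) :
    Path δ (p : σ) u v (q : σ) := by
  induction h with
  | nil p => exact Path.nil _
  | cons hd _ ih => exact Path.cons hd ih

private inductive Mv (g : C → List A) (h : C → List B) (D : DFA C τ) :
    Option (List A × List B × τ) → Option A → Option B → Option (List A × List B × τ) → Prop
  | rd (a : A) (x : List A) (y : List B) (q : τ) :
      Mv g h D (some (a :: x, y, q)) (some a) none (some (x, y, q))
  | wr (b : B) (x : List A) (y : List B) (q : τ) :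
      Mv g h D (some (x, b :: y, q)) none (some b) (some (x, y, q))
  | ld (c : C) (q : τ) : Mv g h D (some ([], [], q)) none none (some (g c, h c, D.step q c))
  | fin (q : τ) : q ∈ D.accept → Mv g h D (some ([], [], q)) none none none

private theorem path_none {g : C → List A} {h : C → List B} {D : DFA C τ}
    {s t : Option (List A × List B × τ)} {u : List A} {v : List B}
    (hp : Path (Mv g h D) s u v t) : s = none → u = [] ∧ v = [] := by
  intro hs
  subst hs
  cases hp with
  | nil => exact ⟨rfl, rfl⟩
  | cons hd _ => cases hd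

private theorem word_of_path {g : C → List A} {h : C → List B} {D : DFA C τ}
    {s t : Option (List A × List B × τ)} {u : List A} {v : List B}
    (hp : Path (Mv g h D) s u v t) (ht : t = none) : ∀ x y q, s = some (x, y, q) →
    ∃ w : List C, D.evalFrom q w ∈ D.accept ∧ u = x ++ w.flatMap g ∧ v = y ++ w.flatMap h := by
  induction hp with
  | nil p =>
    intro x y q hs
    rw [ht] at hs
    cases hs
  | cons hd hp ih =>
    intro x y q hs
    subst hs
    cases hd with
    | rd a x y q =>
      obtain ⟨w, h1, rfl, rfl⟩ := ih ht x y q rfl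
      exact ⟨w, h1, by simp, by simp⟩
    | wr b x y q =>
      obtain ⟨w, h1, rfl, rfl⟩ := ih ht _ _ q rfl
      exact ⟨w, h1, by simp, by simp⟩
    | ld c q =>
      obtain ⟨w, h1, rfl, rfl⟩ := ih ht _ _ _ rfl
      exact ⟨c :: w, h1, by simp, by simp⟩
    | fin q hq =>
      obtain ⟨rfl, rfl⟩ := path_none hp rfl
      exact ⟨[], hq, by simp, by simp⟩

private theorem path_of_word {g : C → List A} {h : C → List B} {D : DFA C τ} (w : List C) :
    ∀ (x : List A) (y : List B) (q : τ), D.evalFrom q w ∈ D.accept →
    Path (Mv g h D) (some (x, y, q)) (x ++ w.flatMap g) (y ++ w.flatMap h) none := by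
  induction w with
  | nil =>
    intro x y q hq
    induction x with
    | nil =>
      induction y with
      | nil => exact Path.cons (Mv.fin q hq) (Path.nil _)
      | cons b y ih => exact Path.cons (Mv.wr b [] y q) ih
    | cons a x ih => exact Path.cons (Mv.rd a x y q) ih
  | cons c w ihw =>
    intro x y q hq
    induction x with
    | nil =>
      induction y with
      | nil =>
        have := Path.cons (Mv.ld (g := g) (h := h) (D := D) c q) (ihw (g c) (h c) (D.step q c) hq)
        simpa using this
      | cons b y ih => exact Path.cons (Mv.wr b [] y q) ih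
    | cons a x ih => exact Path.cons (Mv.rd a x y q) ih

private theorem finite_suffixes [Finite C] (g : C → List A) :
    {x : List A | x = [] ∨ ∃ c, x <:+ g c}.Finite := by
  have h1 : (⋃ c, {x : List A | x ∈ (g c).tails}).Finite :=
    Set.finite_iUnion fun c => List.finite_toSet _
  refine (h1.union (Set.finite_singleton [])).subset ?_
  rintro x (rfl | ⟨c, hc⟩)
  · exact Or.inr rfl
  · exact Or.inl (Set.mem_iUnion.mpr ⟨c, (List.mem_tails _ _).mpr hc⟩)

theorem tdom_of_dom {L : Language A} {M : Language B} (h : Dom L M) : TDom L M := by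
  obtain ⟨C, hC, g, h, R, ⟨τ, hτ, D, hD⟩, hM⟩ := h
  set FA : Set (List A) := {x : List A | x = [] ∨ ∃ c, x <:+ g c} with hFA
  set FB : Set (List B) := {x : List B | x = [] ∨ ∃ c, x <:+ h c} with hFB
  set S : Set (Option (List A × List B × τ)) :=
    {s | ∀ x, s = some x → x.1 ∈ FA ∧ x.2.1 ∈ FB} with hS
  have hSfin : S.Finite := by
    have h1 : (FA ×ˢ (FB ×ˢ (Set.univ : Set τ))).Finite :=
      (finite_suffixes g).prod ((finite_suffixes h).prod Set.finite_univ)
    refine ((h1.image some).union (Set.finite_singleton none)).subset ?_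
    intro s hs
    cases s with
    | none => exact Or.inr rfl
    | some x =>
      have := hs x rfl
      exact Or.inl ⟨x, ⟨this.1, this.2, Set.mem_univ _⟩, rfl⟩
  have hcl : ∀ p a b q, p ∈ S → Mv g h D p a b q → q ∈ S := by
    intro p a b q hp hm
    cases hm with
    | rd a x y q =>
      rintro _ ⟨⟩
      have := hp _ rfl
      refine ⟨?_, this.2⟩
      rcases this.1 with h0 | ⟨c, hc⟩
      · exact absurd h0 (by simp)
      · exact Or.inr ⟨c, (List.suffix_cons a x).trans hc⟩
    | wr b x y q =>
      rintro _ ⟨⟩
      have := hp _ rfl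
      refine ⟨this.1, ?_⟩
      rcases this.2 with h0 | ⟨c, hc⟩
      · exact absurd h0 (by simp)
      · exact Or.inr ⟨c, (List.suffix_cons b y).trans hc⟩
    | ld c q =>
      rintro _ ⟨⟩
      exact ⟨Or.inr ⟨c, List.suffix_rfl⟩, Or.inr ⟨c, List.suffix_rfl⟩⟩
    | fin q _ =>
      intro x hx
      cases hx
  have hs : (some ([], [], D.start) : Option (List A × List B × τ)) ∈ S := by
    rintro _ ⟨⟩
    exact ⟨Or.inl rfl, Or.inl rfl⟩
  have hf : (none : Option (List A × List B × τ)) ∈ S := by
    intro x hx
    cases hx
  have : Finite S := hSfin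
  refine ⟨S, inferInstance, fun x a b y => Mv g h D x a b y, ⟨_, hs⟩, ⟨_, hf⟩, ?_⟩
  intro v
  rw [hM]
  constructor
  · rintro ⟨w, hw, hL, rfl⟩
    refine ⟨_, hL, ?_⟩
    have hw' : D.evalFrom D.start w ∈ D.accept := by
      rw [← hD] at hw
      exact hw
    obtain ⟨_, hp⟩ := Path.subtype hcl (path_of_word w [] [] D.start hw') hs
    simpa using hp
  · rintro ⟨u, hu, hp⟩
    obtain ⟨w, hw, rfl, rfl⟩ := word_of_path (Path.of_subtype hp) rfl [] [] D.start rfl
    refine ⟨w, ?_, by simpa using hu, by simp⟩
    rw [← hD]
    exact hw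

/-! ### A transducer gives the frozen form -/

open Classical in
private noncomputable def autOf (δ : σ → Option A → Option B → σ → Prop) (s f : σ) :
    DFA (σ × Option A × Option B × σ) (Option σ) where
  step o c := match o with
    | none => none
    | some p => if p = c.1 ∧ δ c.1 c.2.1 c.2.2.1 c.2.2.2 then some c.2.2.2 else none
  start := some s
  accept := {some f}

private theorem autOf_none (δ : σ → Option A → Option B → σ → Prop) (s f : σ)
    (w : List (σ × Option A × Option B × σ)) : (autOf δ s f).evalFrom none w = none := by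
  induction w with
  | nil => rfl
  | cons c w ih => exact ih

private theorem path_of_autOf (δ : σ → Option A → Option B → σ → Prop) (s f : σ)
    (w : List (σ × Option A × Option B × σ)) : ∀ p q, (autOf δ s f).evalFrom (some p) w = some q →
    Path δ p (w.flatMap fun c => c.2.1.toList) (w.flatMap fun c => c.2.2.1.toList) q := by
  induction w with
  | nil =>
    intro p q hpq
    have : p = q := by simpa using hpq
    subst this
    exact Path.nil p
  | cons c w ih =>
    intro p q hpq
    have h1 : (autOf δ s f).evalFrom ((autOf δ s f).step (some p) c) w = some q := hpq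
    by_cases hc : p = c.1 ∧ δ c.1 c.2.1 c.2.2.1 c.2.2.2
    · have h2 : (autOf δ s f).step (some p) c = some c.2.2.2 := by
        simp only [autOf]
        rw [if_pos hc]
      rw [h2] at h1
      have h3 := ih _ _ h1
      obtain ⟨rfl, hδ⟩ := hc
      simpa using Path.cons hδ h3
    · have h2 : (autOf δ s f).step (some p) c = none := by
        simp only [autOf]
        rw [if_neg hc]
      rw [h2, autOf_none] at h1
      cases h1

private theorem autOf_of_path {δ : σ → Option A → Option B → σ → Prop} (s f : σ) {p q : σ}
    {u : List A} {v : List B} (h : Path δ p u v q) :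
    ∃ w : List (σ × Option A × Option B × σ), (autOf δ s f).evalFrom (some p) w = some q ∧
      (w.flatMap fun c => c.2.1.toList) = u ∧ (w.flatMap fun c => c.2.2.1.toList) = v := by
  induction h with
  | nil p => exact ⟨[], rfl, rfl, rfl⟩
  | @cons p q r a b u v hd _ ih =>
    obtain ⟨w, hw, rfl, rfl⟩ := ih
    refine ⟨(p, a, b, q) :: w, ?_, by simp, by simp⟩
    have h2 : (autOf δ s f).step (some p) (p, a, b, q) = some q := by
      simp only [autOf]
      rw [if_pos ⟨rfl, hd⟩]
    show (autOf δ s f).evalFrom ((autOf δ s f).step (some p) (p, a, b, q)) w = some r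
    rw [h2]
    exact hw

theorem dom_of_tdom [Finite A] [Finite B] {L : Language A} {M : Language B} (h : TDom L M) :
    Dom L M := by
  obtain ⟨σ, hσ, δ, s, f, hM⟩ := h
  refine ⟨σ × Option A × Option B × σ, inferInstance, fun c => c.2.1.toList,
    fun c => c.2.2.1.toList, (autOf δ s f).accepts,
    ⟨Option σ, Fintype.ofFinite _, autOf δ s f, rfl⟩, ?_⟩
  intro v
  rw [hM]
  constructor
  · rintro ⟨u, hu, hp⟩
    obtain ⟨w, hw, rfl, rfl⟩ := autOf_of_path s f hp
    exact ⟨w, hw, hu, rfl⟩
  · rintro ⟨w, hw, hu, rfl⟩
    exact ⟨_, hu, path_of_autOf δ s f w s f hw⟩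

/-! ### Composition -/

private theorem path_cons_in {δ : σ → Option A → Option B → σ → Prop} {p q : σ} {z : List A}
    {w : List B} (h : Path δ p z w q) : ∀ (b : A) (v : List A), z = b :: v →
    ∃ m c m' w₁ w₂, Path δ p [] w₁ m ∧ δ m (some b) c m' ∧ Path δ m' v w₂ q ∧
      w = w₁ ++ (c.toList ++ w₂) := by
  induction h with
  | nil p =>
    intro b v hz
    cases hz
  | @cons p q r a b z v hd hp ih =>
    intro x y hz
    cases a with
    | none =>
      obtain ⟨m, c, m', w₁, w₂, h1, h2, h3, rfl⟩ := ih x y (by simpa using hz)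
      refine ⟨m, c, m', b.toList ++ w₁, w₂, ?_, h2, h3, by simp⟩
      simpa using Path.cons hd h1
    | some x' =>
      have hz' : x' = x ∧ z = y := by simpa using hz
      obtain ⟨rfl, rfl⟩ := hz'
      exact ⟨p, b, q, [], v, Path.nil p, hd, hp, by simp⟩

private def Comp (δ : σ → Option A → Option B → σ → Prop)
    (δ' : τ → Option B → Option C → τ → Prop) :
    σ × τ → Option A → Option C → σ × τ → Prop := fun s a c t =>
  (∃ b, δ s.1 a (some b) t.1 ∧ δ' s.2 (some b) c t.2) ∨
  (s.2 = t.2 ∧ c = none ∧ δ s.1 a none t.1) ∨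
  (s.1 = t.1 ∧ a = none ∧ δ' s.2 none c t.2)

private theorem comp_split {δ : σ → Option A → Option B → σ → Prop}
    {δ' : τ → Option B → Option C → τ → Prop} {s t : σ × τ} {u : List A} {w : List C}
    (h : Path (Comp δ δ') s u w t) :
    ∃ v, Path δ s.1 u v t.1 ∧ Path δ' s.2 v w t.2 := by
  induction h with
  | nil p => exact ⟨[], Path.nil _, Path.nil _⟩
  | @cons p q r a c u w hd hp ih =>
    obtain ⟨v, h1, h2⟩ := ih
    rcases hd with ⟨b, hb, hb'⟩ | ⟨he, rfl, hb⟩ | ⟨he, rfl, hb⟩
    · exact ⟨b :: v, Path.cons hb h1, Path.cons hb' h2⟩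
    · refine ⟨v, Path.cons hb h1, ?_⟩
      rw [he]
      simpa using h2
    · refine ⟨v, ?_, Path.cons hb h2⟩
      rw [he]
      simpa using h1

private theorem comp_lift {δ : σ → Option A → Option B → σ → Prop}
    {δ' : τ → Option B → Option C → τ → Prop} (p : σ) {p' q' : τ} {v : List B} {w : List C}
    (h : Path δ' p' v w q') : v = [] → Path (Comp δ δ') (p, p') [] w (p, q') := by
  induction h with
  | nil p' => exact fun _ => Path.nil _
  | @cons p' q' r' b c v w hd hp ih =>
    intro hv
    cases b with
    | none =>
      have h1 : Comp δ δ' (p, p') none c (p, q') := Or.inr (Or.inr ⟨rfl, rfl, hd⟩)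
      exact Path.cons h1 (ih (by simpa using hv))
    | some x => exact absurd hv (by simp)

private theorem comp_join {δ : σ → Option A → Option B → σ → Prop}
    {δ' : τ → Option B → Option C → τ → Prop} {p q : σ} {u : List A} {v : List B}
    (h : Path δ p u v q) : ∀ {p' q' : τ} {w : List C}, Path δ' p' v w q' →
    Path (Comp δ δ') (p, p') u w (q, q') := by
  induction h with
  | nil p => exact fun h' => comp_lift p h' rfl
  | @cons p q r a b u v hd hp ih =>
    intro p' q' w h'
    cases b with
    | none =>
      have h1 : Comp δ δ' (p, p') a none (q, p') := Or.inr (Or.inl ⟨rfl, rfl, hd⟩)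
      exact Path.cons h1 (ih (by simpa using h'))
    | some x =>
      obtain ⟨m, c, m', w₁, w₂, h1, h2, h3, rfl⟩ := path_cons_in h' x v rfl
      have h4 : Comp δ δ' (p, m) a c (q, m') := Or.inl ⟨x, hd, h2⟩
      have h5 := (comp_lift (δ := δ) p h1 rfl).append (Path.cons h4 (ih h3))
      simpa using h5

theorem TDom.trans {L : Language A} {M : Language B} {N : Language C} (h : TDom L M)
    (h' : TDom M N) : TDom L N := by
  obtain ⟨σ, hσ, δ, s, f, hM⟩ := h
  obtain ⟨τ, hτ, δ', s', f', hN⟩ := h'
  refine ⟨σ × τ, inferInstance, Comp δ δ', (s, s'), (f, f'), ?_⟩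
  intro w
  rw [hN]
  constructor
  · rintro ⟨v, hv, hp'⟩
    obtain ⟨u, hu, hp⟩ := (hM v).mp hv
    exact ⟨u, hu, comp_join hp hp'⟩
  · rintro ⟨u, hu, hp⟩
    obtain ⟨v, h1, h2⟩ := comp_split hp
    exact ⟨v, (hM v).mpr ⟨u, hu, h1⟩, h2⟩

theorem Dom.trans [Finite A] [Finite C] {L : Language A} {M : Language B} {N : Language C}
    (h : Dom L M) (h' : Dom M N) : Dom L N :=
  dom_of_tdom ((tdom_of_dom h).trans (tdom_of_dom h'))

end Pool.Agent.H93NG
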