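import Pool.Agent.H93NG.Dyck
import Pool.Agent.H93NG.Gram
import Pool.Agent.H93NG.Trans

/-!
# Images of the Dyck language are context-free

PROOF. By `tdom_of_dom` take a transducer `δ` with states `σ` (finite), start `s`, final `f`, with
`v ∈ M` iff there is `u ∈ Dyck2` with `Path δ s u v f`. Grammar: nonterminals `σ × σ`, initial
`(s, f)`, rules (finitely many; a `Finset` by `Set.Finite.toFinset`, the types `σ`, `Option B`
are finite):
* `(p, p) → ε`;
* `(p, r) → (p, q) (q, r)`;
* `(p, q) → b` (or `ε`) if `δ p none b q`;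
* `(p, q) → b (p', q') b'` (with `b, b'` possibly absent) if `δ p (some (a, true)) b p'` and
  `δ q' (some (a, false)) b' q`.
Meaning of `(p, q)`: `{v | ∃ u ∈ Dyck2, Path δ p u v q}` (here `u ∈ Dyck2` is `Run u [] []`, use
`Run.frame` for the last rule). Everything derived is in the meaning by `ar_sem`.
Converse. Let `Gen p q v` be `AR G v [nonterminal (p, q)]`. Define for a stack `s : List Bool`
`Comp [] p v q := Gen p q v`,
`Comp (a :: s) p v q := ∃ p₁ p₂ v₁ b v₂, v = v₁ ++ b.toList ++ v₂ ∧ Gen p p₁ v₁ ∧
  δ p₁ (some (a, false)) b p₂ ∧ Comp s p₂ v₂ q`.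
Then `Gen p p' v₀` and `Comp s p' v q` give `Comp s p (v₀ ++ v) q`, and by induction on the path:
`Path δ p u v q` and `Run u s []` give `Comp s p v q` (silent move: rule three; push: rule
four and the definition of `Comp (a :: s)`; pop: `v₁ = []`, `p₁ = p`).
-/

namespace Pool.Agent.H93NG

/-- The rules of the triple construction. -/
inductive IsRule {B σ : Type} (δ : σ → Option (Bool × Bool) → Option B → σ → Prop) :
    ContextFreeRule B (σ × σ) → Prop
  | eps (p : σ) : IsRule δ ⟨(p, p), []⟩
  | cat (p q r : σ) : IsRule δ ⟨(p, r), [Symbol.nonterminal (p, q), Symbol.nonterminal (q, r)]⟩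
  | silent {p q : σ} {b : Option B} : δ p none b q →
      IsRule δ ⟨(p, q), b.toList.map Symbol.terminal⟩
  | wrap {p q p' q' : σ} {a : Bool} {b b' : Option B} : δ p (some (a, true)) b p' →
      δ q' (some (a, false)) b' q →
      IsRule δ ⟨(p, q), b.toList.map Symbol.terminal ++ (Symbol.nonterminal (p', q') ::
        b'.toList.map Symbol.terminal)⟩

theorem finite_isRule {B σ : Type} [Finite B] [Finite σ]
    (δ : σ → Option (Bool × Bool) → Option B → σ → Prop) :
    {r : ContextFreeRule B (σ × σ) | IsRule δ r}.Finite := by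
  let F₁ : σ → ContextFreeRule B (σ × σ) := fun p => ⟨(p, p), []⟩
  let F₂ : σ × σ × σ → ContextFreeRule B (σ × σ) := fun x =>
    ⟨(x.1, x.2.2), [Symbol.nonterminal (x.1, x.2.1), Symbol.nonterminal (x.2.1, x.2.2)]⟩
  let F₃ : σ × σ × Option B → ContextFreeRule B (σ × σ) := fun x =>
    ⟨(x.1, x.2.1), x.2.2.toList.map Symbol.terminal⟩
  let F₄ : (σ × σ) × (σ × σ) × Option B × Option B → ContextFreeRule B (σ × σ) := fun x =>
    ⟨x.1, x.2.2.1.toList.map Symbol.terminal ++ (Symbol.nonterminal x.2.1 ::
        x.2.2.2.toList.map Symbol.terminal)⟩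
  refine (((Set.finite_range F₁).union (Set.finite_range F₂)).union
    ((Set.finite_range F₃).union (Set.finite_range F₄))).subset ?_
  intro r hr
  have hr' : IsRule δ r := hr
  cases hr' with
  | eps p => exact Or.inl (Or.inl ⟨p, rfl⟩)
  | cat p q r => exact Or.inl (Or.inr ⟨(p, q, r), rfl⟩)
  | @silent p q b h => exact Or.inr (Or.inl ⟨(p, q, b), rfl⟩)
  | @wrap p q p' q' a b b' h h' => exact Or.inr (Or.inr ⟨((p, q), (p', q'), b, b'), rfl⟩)

/-- Meaning of a word of terminals followed by a word. -/
theorem sem_terminals {B N : Type} (I : N → Set (List B)) (l : List B)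
    (st : List (Symbol B N)) (w : List B) (h : Sem I (l.map Symbol.terminal ++ st) w) :
    ∃ w', w = l ++ w' ∧ Sem I st w' := by
  induction l generalizing w with
  | nil => exact ⟨w, by simp, by simpa using h⟩
  | cons b l ih =>
    have h' : ∃ w', w = b :: w' ∧ Sem I (l.map Symbol.terminal ++ st) w' := by
      simpa [Sem] using h
    obtain ⟨w', rfl, h2⟩ := h'
    obtain ⟨w'', rfl, h3⟩ := ih w' h2
    exact ⟨w'', by simp, h3⟩

/-- Computations with a given stack, in terms of computations with the empty stack. -/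
def Comp {B σ : Type} (δ : σ → Option (Bool × Bool) → Option B → σ → Prop)
    (Gen : σ → σ → List B → Prop) : List Bool → σ → List B → σ → Prop
  | [], p, v, q => Gen p q v
  | a :: s, p, v, q => ∃ (p₁ p₂ : σ) (v₁ : List B) (b : Option B) (v₂ : List B),
      v = v₁ ++ b.toList ++ v₂ ∧ Gen p p₁ v₁ ∧ δ p₁ (some (a, false)) b p₂ ∧
        Comp δ Gen s p₂ v₂ q

theorem comp_prepend {B σ : Type} {δ : σ → Option (Bool × Bool) → Option B → σ → Prop}
    {Gen : σ → σ → List B → Prop}
    (hcat : ∀ p q r v w, Gen p q v → Gen q r w → Gen p r (v ++ w))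
    {s : List Bool} {p p' q : σ} {v₀ v : List B} (h₀ : Gen p p' v₀)
    (h : Comp δ Gen s p' v q) : Comp δ Gen s p (v₀ ++ v) q := by
  cases s with
  | nil => exact hcat _ _ _ _ _ h₀ h
  | cons a s =>
    obtain ⟨p₁, p₂, v₁, b, v₂, rfl, h1, h2, h3⟩ := h
    exact ⟨p₁, p₂, v₀ ++ v₁, b, v₂, by simp, hcat _ _ _ _ _ h₀ h1, h2, h3⟩

theorem comp_of_path {B σ : Type} {δ : σ → Option (Bool × Bool) → Option B → σ → Prop}
    {Gen : σ → σ → List B → Prop} (hnil : ∀ p, Gen p p [])
    (hcat : ∀ p q r v w, Gen p q v → Gen q r w → Gen p r (v ++ w))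
    (hsil : ∀ p q b, δ p none b q → Gen p q b.toList)
    (hwrap : ∀ p q p' q' a b b' v, δ p (some (a, true)) b p' → δ q' (some (a, false)) b' q →
      Gen p' q' v → Gen p q (b.toList ++ v ++ b'.toList))
    {p q : σ} {u : List (Bool × Bool)} {v : List B} (hp : Path δ p u v q) :
    ∀ s : List Bool, Run u s [] → Comp δ Gen s p v q := by
  induction hp with
  | nil p =>
    intro s hs
    cases hs
    exact hnil p
  | @cons p q r a b u v hδ hpath ih =>
    intro s hs
    rcases a with _ | ⟨x, y⟩
    · exact comp_prepend hcat (hsil _ _ _ hδ) (ih s (by simpa using hs))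
    · have hs' : Run ((x, y) :: u) s [] := by simpa using hs
      cases hs' with
      | push h =>
        obtain ⟨p₁, p₂, v₁, b', v₂, rfl, h1, h2, h3⟩ := ih _ h
        have := comp_prepend hcat (hwrap _ _ _ _ _ _ _ _ hδ h2 h1) h3
        simpa [List.append_assoc] using this
      | pop h =>
        exact ⟨p, _, [], b, v, by simp, hnil p, hδ, ih _ h⟩

theorem isContextFree_of_dom {B : Type} [Finite B] {M : Language B} (h : Dom Dyck2 M) :
    M.IsContextFree := by
  obtain ⟨σ, hσ, δ, s, f, hM⟩ := tdom_of_dom h
  let G : ContextFreeGrammar B :=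
    { NT := σ × σ
      initial := (s, f)
      rules := (finite_isRule δ).toFinset }
  have hG : ∀ r, r ∈ G.rules ↔ IsRule δ r := fun r => by
    simp [G]
  refine ⟨G, ?_⟩
  have key : ∀ v : List B, v ∈ G.language ↔ v ∈ M := by
    intro v
    rw [mem_language_iff_ar, hM]
    constructor
    · intro hv
      let I : σ × σ → Set (List B) := fun x => {v | ∃ u, Run u [] [] ∧ Path δ x.1 u v x.2}
      have hI : ∀ r ∈ G.rules, ∀ w, Sem I r.output w → w ∈ I r.input := by
        intro r hr w hw
        have hr' := (hG r).1 hr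
        cases hr' with
        | eps p =>
          have hw' : w = [] := hw
          subst hw'
          exact ⟨[], Run.nil _, Path.nil p⟩
        | cat p q r =>
          obtain ⟨w₁, w₂, rfl, ⟨u₁, hu₁, hp₁⟩, w₃, w₄, rfl, ⟨u₂, hu₂, hp₂⟩, h3⟩ := hw
          have h3' : w₄ = [] := h3
          subst h3'
          refine ⟨u₁ ++ u₂, run_append.2 ⟨[], hu₁, hu₂⟩, ?_⟩
          have := hp₁.append hp₂
          simpa using this
        | @silent p q b hδ =>
          have hw' : Sem I (b.toList.map Symbol.terminal ++ []) w := by simpa using hw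
          obtain ⟨w', rfl, h2⟩ := sem_terminals I _ _ _ hw'
          have h2' : w' = [] := h2
          subst h2'
          refine ⟨[], Run.nil _, ?_⟩
          have := Path.single hδ
          simpa using this
        | @wrap p q p' q' a b b' hδ hδ' =>
          obtain ⟨w', rfl, h2⟩ := sem_terminals I _ _ _ hw
          obtain ⟨w₁, w₂, rfl, ⟨u₁, hu₁, hp₁⟩, h3⟩ := h2
          have h3' : Sem I (b'.toList.map Symbol.terminal ++ []) w₂ := by simpa using h3
          obtain ⟨w'', rfl, h4⟩ := sem_terminals I _ _ _ h3'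
          have h4' : w'' = [] := h4
          subst h4'
          refine ⟨[(a, true)] ++ (u₁ ++ [(a, false)]), ?_, ?_⟩
          · have hr1 : Run u₁ [a] [a] := by simpa using hu₁.frame [a]
            have hr2 : Run (u₁ ++ [(a, false)]) [a] [] :=
              run_append.2 ⟨[a], hr1, Run.pop (Run.nil _)⟩
            exact Run.push hr2
          · have h5 := (Path.single hδ).append (hp₁.append (Path.single hδ'))
            simpa using h5
      have hv' := ar_sem I hI hv
      obtain ⟨w₁, w₂, rfl, ⟨u, hu, hp⟩, h3⟩ := hv'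
      have h3' : w₂ = [] := h3
      subst h3'
      exact ⟨u, hu, by simpa using hp⟩
    · rintro ⟨u, hu, hp⟩
      have hexp : ∀ (r : ContextFreeRule B (σ × σ)), IsRule δ r → ∀ w, AR G w r.output →
          AR G w [Symbol.nonterminal r.input] := by
        intro r hr w hw
        exact AR.expand (G := G) (r := r) (st := []) ((hG r).2 hr) (by simpa using hw)
      have hterm : ∀ l : List B, AR G l (l.map Symbol.terminal) := by
        intro l
        induction l with
        | nil => exact AR.nil
        | cons b l ih => exact AR.term ih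
      have := comp_of_path (δ := δ) (Gen := fun p q v => AR G v [Symbol.nonterminal (p, q)])
        (fun p => hexp _ (IsRule.eps p) [] AR.nil)
        (fun p q r v w h1 h2 => hexp _ (IsRule.cat p q r) _
          ((ar_append (G := G) (w := v ++ w) (α := [Symbol.nonterminal (p, q)])
            (β := [Symbol.nonterminal (q, r)])).2 ⟨v, w, rfl, h1, h2⟩))
        (fun p q b hδ => hexp _ (IsRule.silent hδ) _ (hterm _))
        (fun p q p' q' a b b' v hδ hδ' h1 => hexp _ (IsRule.wrap hδ hδ') _
          ((ar_append (α := b.toList.map Symbol.terminal)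
            (β := [Symbol.nonterminal (p', q')] ++ b'.toList.map Symbol.terminal)).2
            ⟨b.toList, v ++ b'.toList, by simp, hterm _,
              ar_append.2 ⟨v, b'.toList, rfl, h1, hterm _⟩⟩))
        hp [] hu
      exact this
  ext v
  exact key v

end Pool.Agent.H93NG
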