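import Pool.Agent.H93NG.Defs

/-!
# Regular languages by forbidden factors and by prefixes

PROOF. Use `Language.IsRegular.of_finite_range_leftQuotient` (the left quotients
`{y | x ++ y ∈ L}`, see `Mathlib/Computability/MyhillNerode.lean`).

* `isRegular_factor`: if `x ∈ K` then the quotient by `x` is everything. If not, it is the quotient
  by the last `n` letters of `x` (`x.drop (x.length - n)`): a factor of `x ++ y` of length at most
  `n` which is not inside `x` ... starts in the last `n` letters of `x`, or in `y`. So the range
  is contained in `{univ} ∪ image of the words of length at most n`; use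
  `List.finite_length_le`.
* `isRegular_take`: the quotient by `x` is the quotient by `x.take k` when `k ≤ x.length`
  (`(x ++ y).take k = x.take k = ((x.take k) ++ y).take k`).
* `isRegular_last`: `x ≠ []` has the quotient of `[x.getLast]`; or a DFA with states `Option Z`.
* `isRegular_full`: everything is regular.
-/

namespace Pool.Agent.H93NG

variable {Z : Type}

theorem isRegular_factor [Finite Z] (F : Set (List Z)) (n : ℕ) (hF : ∀ f ∈ F, f.length ≤ n) :
    Language.IsRegular ({z | ∃ f ∈ F, f <:+: z} : Language Z) := by
  apply Language.IsRegular.of_finite_range_leftQuotient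
  set L : Language Z := {z | ∃ f ∈ F, f <:+: z} with hL
  have hmem : ∀ z : List Z, z ∈ L ↔ ∃ f ∈ F, f <:+: z := fun z => Iff.rfl
  refine (((List.finite_length_le Z n).image L.leftQuotient).union
    (Set.finite_singleton (Set.univ : Set (List Z)))).subset ?_
  rintro _ ⟨x, rfl⟩
  by_cases hx : ∃ f ∈ F, f <:+: x
  · right
    obtain ⟨f, hf, hfx⟩ := hx
    refine Set.mem_singleton_iff.2 (Set.eq_univ_of_forall fun y => ?_)
    exact (Language.mem_leftQuotient (L := L) x y).2
      ((hmem _).2 ⟨f, hf, hfx.trans (List.prefix_append x y).isInfix⟩)
  · left
    refine ⟨x.drop (x.length - n), ?_, ?_⟩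
    · show (x.drop (x.length - n)).length ≤ n
      rw [List.length_drop]
      omega
    · ext y
      rw [Language.mem_leftQuotient, Language.mem_leftQuotient, hmem, hmem]
      constructor
      · rintro ⟨f, hf, hfx⟩
        refine ⟨f, hf, hfx.trans ?_⟩
        refine ⟨x.take (x.length - n), [], ?_⟩
        rw [List.append_nil, ← List.append_assoc, List.take_append_drop]
      · rintro ⟨f, hf, s, t, hst⟩
        refine ⟨f, hf, ?_⟩
        have hfn := hF f hf
        by_cases hs : x.length - n ≤ s.length
        · refine ⟨s.drop (x.length - n), t, ?_⟩
          have h1 : (s ++ f ++ t).drop (x.length - n) = (x ++ y).drop (x.length - n) := by rw [hst]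
          rw [List.append_assoc, List.drop_append_of_le_length hs,
            List.drop_append_of_le_length (Nat.sub_le _ _)] at h1
          rw [List.append_assoc]
          exact h1
        · exfalso
          apply hx
          refine ⟨f, hf, ?_⟩
          have h1 : s ++ f <+: x := by
            apply List.prefix_of_prefix_length_le (l₃ := x ++ y)
            · exact ⟨t, hst⟩
            · exact List.prefix_append x y
            · rw [List.length_append]; omega
          exact (List.suffix_append s f).isInfix.trans h1.isInfix

theorem isRegular_take [Finite Z] (k : ℕ) (P : Set (List Z)) :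
    Language.IsRegular ({z | z.take k ∈ P} : Language Z) := by
  apply Language.IsRegular.of_finite_range_leftQuotient
  set L : Language Z := {z | z.take k ∈ P} with hL
  have hmem : ∀ z : List Z, z ∈ L ↔ z.take k ∈ P := fun z => Iff.rfl
  refine ((List.finite_length_le Z k).image L.leftQuotient).subset ?_
  rintro _ ⟨x, rfl⟩
  refine ⟨x.take k, by simp, ?_⟩
  ext y
  rw [Language.mem_leftQuotient, Language.mem_leftQuotient, hmem, hmem]
  have : (x.take k ++ y).take k = (x ++ y).take k := by
    rw [List.take_append, List.take_append, List.take_take, min_self, List.length_take]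
    rcases le_total k x.length with h | h
    · rw [min_eq_left h, Nat.sub_self, Nat.sub_eq_zero_of_le h]
    · rw [min_eq_right h]
  rw [this]

theorem isRegular_last [Finite Z] (P : Set (Option Z)) :
    Language.IsRegular ({z | z.getLast? ∈ P} : Language Z) := by
  apply Language.IsRegular.of_finite_range_leftQuotient
  set L : Language Z := {z | z.getLast? ∈ P} with hL
  have hmem : ∀ z : List Z, z ∈ L ↔ z.getLast? ∈ P := fun z => Iff.rfl
  refine (Set.finite_range (fun o : Option Z => ({y | y.getLast?.or o ∈ P} : Language Z))).subset ?_
  rintro _ ⟨x, rfl⟩
  refine ⟨x.getLast?, Set.ext fun y => ?_⟩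
  refine Iff.trans ?_ (Language.mem_leftQuotient (L := L) x y).symm
  rw [hmem, List.getLast?_append]
  exact Iff.rfl

end Pool.Agent.H93NG
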