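import Pool.Agent.H93NG.Trans
import Pool.Agent.H93NG.Reg

/-!
# Closure properties of the relation `Dom`

PROOFS.
* `dom_quot`: alphabet `Bool ⊕ C` (`inl false` has `g = P`, `h = []`; `inl true` has `g = Q`,
  `h = []`; `inr c` has `g c`, `h c`); regular language
  `{inl false :: w.map inr ++ [inl true]}` with a DFA with four states (start, inside, end, dead).
* `dom_inter_regular`: letters `B`, `g = h = fun b => [b]`, the regular language `R`
  (`Language.IsRegular` is the existence of a DFA; mind the universe of the state type).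
* `dom_empty`: the empty regular language.
* `Dom.union`: by `tdom_of_dom`: states `Bool ⊕ (σ₁ ⊕ σ₂)`, start `inl false` with silent moves to
  both starts, silent moves from both ends to `inl true`.
* `Dom.iUnion`: induction over the finite type (or a list enumerating it).
* `Dom.concat_left`: `R` regular by a DFA with states `τ`: states `τ ⊕ σ`, writes a word of `R`
  reading nothing, then moves silently from an accepting state to the start of the transducer.
  `Dom.concat_right`: the same on the other side, with states `σ ⊕ Option τ` say (a single final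
  state).
* `dom_regular`: `dom_quot` with `P = z ∈ L`, `g = fun _ => []`, `h c = [c]` gives everything;
  then `dom_inter_regular` and `Dom.trans`.
-/

namespace Pool.Agent.H93NG

variable {A B C : Type}

private theorem ops_congr {A B : Type} {L : Language A} {M M' : Language B} (h : Dom L M)
    (e : ∀ v, v ∈ M' ↔ v ∈ M) : Dom L M' := by
  have : M' = M := Set.ext e
  rw [this]; exact h

private theorem ops_rcongr {A : Type} {L L' : Language A} (h : L.IsRegular)
    (e : ∀ v, v ∈ L' ↔ v ∈ L) : L'.IsRegular := by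
  have : L' = L := Set.ext e
  rw [this]; exact h

/-- The inverse image of a regular language by a morphism. -/
private theorem ops_comap {A B : Type} (f : A → List B) {R : Language B} (hR : R.IsRegular) :
    Language.IsRegular ({w | w.flatMap f ∈ R} : Language A) := by
  obtain ⟨σ, hσ, D, rfl⟩ := hR
  let E : DFA A σ := ⟨fun q a => D.evalFrom q (f a), D.start, D.accept⟩
  have key : ∀ (w : List A) (q : σ), E.evalFrom q w = D.evalFrom q (w.flatMap f) := by
    intro w
    induction w with
    | nil => intro q; rfl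
    | cons a w ih =>
      intro q
      rw [DFA.evalFrom_cons, List.flatMap_cons, DFA.evalFrom_of_append, ih]
  refine ⟨σ, hσ, E, ?_⟩
  apply Set.ext
  intro w
  exact Iff.of_eq (congrArg (· ∈ D.accept) (key w D.start))

private theorem ops_top : Language.IsRegular ({w | True} : Language A) :=
  ⟨Unit, inferInstance, ⟨fun _ _ => (), (), Set.univ⟩, Set.ext fun _ => Iff.rfl⟩

private theorem ops_bot : Language.IsRegular ({w | False} : Language A) :=
  ⟨Unit, inferInstance, ⟨fun _ _ => (), (), ∅⟩, Set.ext fun _ => Iff.rfl⟩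

private theorem ops_and {R S : Language A} (hR : R.IsRegular) (hS : S.IsRegular) :
    Language.IsRegular ({w | w ∈ R ∧ w ∈ S} : Language A) :=
  ops_rcongr (hR.inf hS) fun _ => Iff.rfl

private theorem ops_or {R S : Language A} (hR : R.IsRegular) (hS : S.IsRegular) :
    Language.IsRegular ({w | w ∈ R ∨ w ∈ S} : Language A) :=
  ops_rcongr (hR.add hS) fun _ => Iff.rfl

private def opsL {C₁ C₂ : Type} : C₁ ⊕ C₂ → List C₁ := Sum.elim (fun c => [c]) fun _ => []

private def opsR {C₁ C₂ : Type} : C₁ ⊕ C₂ → List C₂ := Sum.elim (fun _ => []) fun c => [c]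

private theorem ops_flat_inl {C₁ C₂ D : Type} (f : C₁ → List D) (g : C₂ → List D)
    (w : List C₁) : (w.map Sum.inl).flatMap (Sum.elim f g) = w.flatMap f := by
  induction w with
  | nil => rfl
  | cons a w ih => simp [ih]

private theorem ops_flat_inr {C₁ C₂ D : Type} (f : C₁ → List D) (g : C₂ → List D)
    (w : List C₂) : (w.map Sum.inr).flatMap (Sum.elim f g) = w.flatMap g := by
  induction w with
  | nil => rfl
  | cons a w ih => simp [ih]

private theorem ops_flat_single (w : List A) : w.flatMap (fun a => [a]) = w := by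
  induction w with
  | nil => rfl
  | cons a w ih => simp

private theorem ops_flat_nil (w : List A) : w.flatMap (fun _ => ([] : List B)) = [] := by
  induction w with
  | nil => rfl
  | cons a w ih => simp

private theorem ops_sorted {C₁ C₂ : Type} : ∀ (w : List (C₁ ⊕ C₂)),
    (∀ (c : C₂) (b : C₁), ¬ [Sum.inr c, Sum.inl b] <:+: w) →
    w = (w.flatMap opsL).map Sum.inl ++ (w.flatMap opsR).map Sum.inr
  | [], _ => rfl
  | a :: w, hw => by
    have hw' : ∀ (c : C₂) (b : C₁), ¬ [Sum.inr c, Sum.inl b] <:+: w := fun c b h =>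
      hw c b (h.trans (List.infix_cons (List.infix_refl w)))
    have ih := ops_sorted w hw'
    cases a with
    | inl b =>
      rw [List.flatMap_cons, List.flatMap_cons]
      simp only [opsL, opsR, Sum.elim_inl, List.singleton_append, List.nil_append, List.map_cons,
        List.cons_append]
      exact congrArg _ ih
    | inr c =>
      -- all the letters of `w` are in `C₂`
      have h0 : w.flatMap opsL = [] := by
        cases w with
        | nil => rfl
        | cons d w =>
          cases d with
          | inl b => exact absurd ⟨[], w, rfl⟩ (hw c b)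
          | inr d =>
            by_contra hne
            rw [List.flatMap_cons, List.flatMap_cons] at ih
            simp only [opsL, opsR, Sum.elim_inr, List.nil_append] at ih hne
            cases h1 : w.flatMap opsL with
            | nil => exact hne h1
            | cons e l =>
              have : w.flatMap (Sum.elim (fun c => [c]) fun _ => []) = e :: l := h1
              rw [this] at ih
              simp at ih
      rw [List.flatMap_cons, List.flatMap_cons]
      rw [h0] at ih ⊢
      simp only [opsL, opsR, Sum.elim_inr, List.nil_append, List.map_nil] at ih ⊢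
      rw [List.map_append, List.map_cons, List.map_nil, List.singleton_append]
      exact congrArg _ ih

private theorem ops_flat_opsL {C₁ C₂ : Type} (w₁ : List C₁) (w₂ : List C₂) :
    (w₁.map Sum.inl ++ w₂.map Sum.inr).flatMap opsL = w₁ := by
  rw [List.flatMap_append]
  unfold opsL
  rw [ops_flat_inl, ops_flat_inr, ops_flat_single, ops_flat_nil, List.append_nil]

private theorem ops_flat_opsR {C₁ C₂ : Type} (w₁ : List C₁) (w₂ : List C₂) :
    (w₁.map Sum.inl ++ w₂.map Sum.inr).flatMap opsR = w₂ := by
  rw [List.flatMap_append]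
  unfold opsR
  rw [ops_flat_inl, ops_flat_inr, ops_flat_single, ops_flat_nil, List.nil_append]

/-- Concatenation on two alphabets. -/
private theorem ops_concat {C₁ C₂ : Type} [Finite C₁] [Finite C₂] {R₁ : Language C₁}
    {R₂ : Language C₂} (h₁ : R₁.IsRegular) (h₂ : R₂.IsRegular) :
    Language.IsRegular ({w | ∃ w₁ ∈ R₁, ∃ w₂ ∈ R₂, w = w₁.map Sum.inl ++ w₂.map Sum.inr} :
      Language (C₁ ⊕ C₂)) := by
  have hf := (isRegular_factor (Z := C₁ ⊕ C₂) {f | ∃ (c : C₂) (b : C₁),
    f = [Sum.inr c, Sum.inl b]} 2 (by rintro f ⟨c, b, rfl⟩; simp)).compl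
  have h := ops_and hf (ops_and (ops_comap (opsL (C₁ := C₁) (C₂ := C₂)) h₁)
    (ops_comap (opsR (C₁ := C₁) (C₂ := C₂)) h₂))
  refine ops_rcongr h ?_
  intro w
  constructor
  · rintro ⟨w₁, hw₁, w₂, hw₂, rfl⟩
    refine ⟨?_, ?_, ?_⟩
    · rintro ⟨f, ⟨c, b, rfl⟩, ⟨s, t, hst⟩⟩
      -- the word is sorted
      have hpw : (w₁.map Sum.inl ++ w₂.map Sum.inr).Pairwise
          (fun x y : C₁ ⊕ C₂ => ¬ (x.isRight ∧ y.isLeft)) := by
        rw [List.pairwise_append]
        refine ⟨?_, ?_, ?_⟩
        · rw [List.pairwise_map]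
          exact List.pairwise_of_forall fun x y => by simp
        · rw [List.pairwise_map]
          exact List.pairwise_of_forall fun x y => by simp
        · intro x hx y hy
          obtain ⟨x', _, rfl⟩ := List.mem_map.mp hx
          simp
      have hin : [Sum.inr c, Sum.inl b] <:+: w₁.map Sum.inl ++ w₂.map Sum.inr := ⟨s, t, hst⟩
      have := List.Pairwise.sublist hin.sublist hpw
      rw [List.pairwise_cons] at this
      exact this.1 (Sum.inl b) (by simp) ⟨rfl, rfl⟩
    · show (w₁.map Sum.inl ++ w₂.map Sum.inr).flatMap opsL ∈ R₁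
      rw [ops_flat_opsL]; exact hw₁
    · show (w₁.map Sum.inl ++ w₂.map Sum.inr).flatMap opsR ∈ R₂
      rw [ops_flat_opsR]; exact hw₂
  · rintro ⟨h0, h1, h2⟩
    exact ⟨w.flatMap opsL, h1, w.flatMap opsR, h2,
      ops_sorted w fun c b hf => h0 ⟨_, ⟨c, b, rfl⟩, hf⟩⟩

private theorem ops_unit (z : List A) [Finite A] :
    Language.IsRegular ({w | w = z} : Language A) := by
  refine ops_rcongr (isRegular_take (z.length + 1) {w | w = z}) ?_
  intro w
  constructor
  · rintro rfl
    exact List.take_of_length_le (Nat.le_succ _)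
  · intro h
    have h' : w.take (z.length + 1) = z := h
    have hl := congrArg List.length h'
    rw [List.length_take] at hl
    have hlt : w.length ≤ z.length + 1 := by omega
    rw [List.take_of_length_le hlt] at h'
    exact h'

theorem Dom.refl [Finite A] (L : Language A) : Dom L L := by
  refine ⟨A, inferInstance, fun a => [a], fun a => [a], _, ops_top, ?_⟩
  intro v
  constructor
  · intro hv
    exact ⟨v, trivial, by rw [ops_flat_single]; exact hv, ops_flat_single v⟩
  · rintro ⟨w, _, hw, rfl⟩
    exact hw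

theorem dom_quot [Finite A] [Finite B] [Finite C] (L : Language A) (P Q : List A)
    (g : C → List A) (h : C → List B) :
    Dom L ({v | ∃ w : List C, P ++ w.flatMap g ++ Q ∈ L ∧ w.flatMap h = v} : Language B) := by
  have h1 := ops_concat (ops_unit [()]) (ops_concat (ops_top (A := C)) (ops_unit [()]))
  refine ⟨Unit ⊕ (C ⊕ Unit), inferInstance, Sum.elim (fun _ => P) (Sum.elim g fun _ => Q),
    Sum.elim (fun _ => []) (Sum.elim h fun _ => []), _, h1, ?_⟩
  intro v
  have key : ∀ {D : Type} (x y : List D) (f : C → List D) (w : List C),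
      ((([()] : List Unit).map Sum.inl ++ ((w.map Sum.inl ++ ([()] : List Unit).map Sum.inr).map
        Sum.inr)).flatMap (Sum.elim (fun _ => x) (Sum.elim f fun _ => y))) =
        x ++ w.flatMap f ++ y := by
    intro D x y f w
    rw [List.flatMap_append, ops_flat_inl, ops_flat_inr, List.flatMap_append, ops_flat_inl,
      ops_flat_inr]
    simp
  constructor
  · rintro ⟨w, hw, rfl⟩
    refine ⟨([()] : List Unit).map Sum.inl ++ ((w.map Sum.inl ++ ([()] : List Unit).map
      Sum.inr).map Sum.inr), ⟨_, rfl, _, ⟨w, trivial, _, rfl, rfl⟩, rfl⟩, ?_, ?_⟩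
    · rw [key]; exact hw
    · rw [key]; simp
  · rintro ⟨w, ⟨_, rfl, _, ⟨w', _, _, rfl, rfl⟩, rfl⟩, hw, rfl⟩
    rw [key] at hw
    refine ⟨w', hw, ?_⟩
    rw [key]; simp

theorem dom_inter_regular [Finite A] [Finite B] {L : Language A} {M : Language B}
    (h : Dom L M) {R : Language B} (hR : R.IsRegular) :
    Dom L ({v | v ∈ M ∧ v ∈ R} : Language B) := by
  obtain ⟨C, hC, g, k, R₀, hR₀, hM⟩ := h
  refine ⟨C, hC, g, k, _, ops_and hR₀ (ops_comap k hR), ?_⟩
  intro v
  constructor
  · rintro ⟨hv, hvR⟩
    obtain ⟨w, hw, hg, rfl⟩ := (hM v).mp hv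
    exact ⟨w, ⟨hw, hvR⟩, hg, rfl⟩
  · rintro ⟨w, ⟨hw, hwR⟩, hg, rfl⟩
    exact ⟨(hM _).mpr ⟨w, hw, hg, rfl⟩, hwR⟩

theorem dom_empty [Finite A] [Finite B] (L : Language A) :
    Dom L ({v | False} : Language B) := by
  refine ⟨Unit, inferInstance, fun _ => [], fun _ => [], _, ops_bot, ?_⟩
  intro v
  constructor
  · intro h; exact h.elim
  · rintro ⟨w, hw, _⟩; exact hw.elim

theorem Dom.union [Finite A] [Finite B] {L : Language A} {M N : Language B} (h : Dom L M)
    (h' : Dom L N) : Dom L ({v | v ∈ M ∨ v ∈ N} : Language B) := by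
  obtain ⟨C, hC, g, k, R, hR, hM⟩ := h
  obtain ⟨C', hC', g', k', R', hR', hN⟩ := h'
  have h1 := ops_concat hR (ops_unit (A := C') [])
  have h2 := ops_concat (ops_unit (A := C) []) hR'
  refine ⟨C ⊕ C', inferInstance, Sum.elim g g', Sum.elim k k', _, ops_or h1 h2, ?_⟩
  intro v
  constructor
  · rintro (hv | hv)
    · obtain ⟨w, hw, hg, rfl⟩ := (hM v).mp hv
      refine ⟨w.map Sum.inl ++ ([] : List C').map Sum.inr, Or.inl ⟨w, hw, [], rfl, rfl⟩, ?_, ?_⟩
      · rw [List.flatMap_append, ops_flat_inl, ops_flat_inr]; simpa using hg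
      · rw [List.flatMap_append, ops_flat_inl, ops_flat_inr]; simp
    · obtain ⟨w, hw, hg, rfl⟩ := (hN v).mp hv
      refine ⟨([] : List C).map Sum.inl ++ w.map Sum.inr, Or.inr ⟨[], rfl, w, hw, rfl⟩, ?_, ?_⟩
      · rw [List.flatMap_append, ops_flat_inl, ops_flat_inr]; simpa using hg
      · rw [List.flatMap_append, ops_flat_inl, ops_flat_inr]; simp
  · rintro ⟨_, (⟨w, hw, _, rfl, rfl⟩ | ⟨_, rfl, w, hw, rfl⟩), hg, rfl⟩
    · rw [List.flatMap_append, ops_flat_inl, ops_flat_inr] at hg ⊢
      simp only [List.flatMap_nil, List.append_nil] at hg ⊢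
      exact Or.inl ((hM _).mpr ⟨w, hw, hg, rfl⟩)
    · rw [List.flatMap_append, ops_flat_inl, ops_flat_inr] at hg ⊢
      simp only [List.flatMap_nil, List.nil_append] at hg ⊢
      exact Or.inr ((hN _).mpr ⟨w, hw, hg, rfl⟩)

theorem Dom.iUnion [Finite A] [Finite B] {ι : Type} [Finite ι] {L : Language A}
    {M : ι → Language B} (h : ∀ i, Dom L (M i)) :
    Dom L ({v | ∃ i, v ∈ M i} : Language B) := by
  revert M
  refine Finite.induction_empty_option (P := fun ι : Type => ∀ {M : ι → Language B},
    (∀ i, Dom L (M i)) → Dom L ({v | ∃ i, v ∈ M i} : Language B)) ?_ ?_ ?_ ι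
  · intro ι₁ ι₂ e ih M hM
    refine ops_congr (ih (M := fun i => M (e i)) fun i => hM (e i)) ?_
    intro v
    constructor
    · rintro ⟨i, hi⟩
      exact ⟨e.symm i, by show v ∈ M (e (e.symm i)); rw [e.apply_symm_apply]; exact hi⟩
    · rintro ⟨i, hi⟩
      exact ⟨e i, hi⟩
  · intro M _
    refine ops_congr (dom_empty L) ?_
    intro v
    constructor
    · rintro ⟨i, _⟩; exact i.elim
    · intro h; exact h.elim
  · intro ι _ ih M hM
    refine ops_congr ((hM none).union (ih (M := fun i => M (some i)) fun i => hM (some i))) ?_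
    intro v
    constructor
    · rintro ⟨i, hi⟩
      cases i with
      | none => exact Or.inl hi
      | some i => exact Or.inr ⟨i, hi⟩
    · rintro (hv | ⟨i, hi⟩)
      · exact ⟨none, hv⟩
      · exact ⟨some i, hi⟩

theorem Dom.concat_left [Finite A] [Finite B] {L : Language A} {M : Language B} (h : Dom L M)
    {R : Language B} (hR : R.IsRegular) :
    Dom L ({v | ∃ r ∈ R, ∃ m ∈ M, v = r ++ m} : Language B) := by
  obtain ⟨C, hC, g, k, R₀, hR₀, hM⟩ := h
  refine ⟨B ⊕ C, inferInstance, Sum.elim (fun _ => []) g, Sum.elim (fun b => [b]) k, _,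
    ops_concat hR hR₀, ?_⟩
  intro v
  constructor
  · rintro ⟨r, hr, m, hm, rfl⟩
    obtain ⟨w, hw, hg, rfl⟩ := (hM m).mp hm
    refine ⟨r.map Sum.inl ++ w.map Sum.inr, ⟨r, hr, w, hw, rfl⟩, ?_, ?_⟩
    · rw [List.flatMap_append, ops_flat_inl, ops_flat_inr, ops_flat_nil]; exact hg
    · rw [List.flatMap_append, ops_flat_inl, ops_flat_inr, ops_flat_single]
  · rintro ⟨_, ⟨r, hr, w, hw, rfl⟩, hg, rfl⟩
    rw [List.flatMap_append, ops_flat_inl, ops_flat_inr] at hg ⊢
    rw [ops_flat_nil, List.nil_append] at hg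
    rw [ops_flat_single]
    exact ⟨r, hr, _, (hM _).mpr ⟨w, hw, hg, rfl⟩, rfl⟩

theorem Dom.concat_right [Finite A] [Finite B] {L : Language A} {M : Language B} (h : Dom L M)
    {R : Language B} (hR : R.IsRegular) :
    Dom L ({v | ∃ m ∈ M, ∃ r ∈ R, v = m ++ r} : Language B) := by
  obtain ⟨C, hC, g, k, R₀, hR₀, hM⟩ := h
  refine ⟨C ⊕ B, inferInstance, Sum.elim g (fun _ => []), Sum.elim k (fun b => [b]), _,
    ops_concat hR₀ hR, ?_⟩
  intro v
  constructor
  · rintro ⟨m, hm, r, hr, rfl⟩
    obtain ⟨w, hw, hg, rfl⟩ := (hM m).mp hm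
    refine ⟨w.map Sum.inl ++ r.map Sum.inr, ⟨w, hw, r, hr, rfl⟩, ?_, ?_⟩
    · rw [List.flatMap_append, ops_flat_inl, ops_flat_inr, ops_flat_nil, List.append_nil]
      exact hg
    · rw [List.flatMap_append, ops_flat_inl, ops_flat_inr, ops_flat_single]
  · rintro ⟨_, ⟨w, hw, r, hr, rfl⟩, hg, rfl⟩
    rw [List.flatMap_append, ops_flat_inl, ops_flat_inr] at hg ⊢
    rw [ops_flat_nil, List.append_nil] at hg
    rw [ops_flat_single]
    exact ⟨_, (hM _).mpr ⟨w, hw, hg, rfl⟩, r, hr, rfl⟩

theorem dom_regular [Finite A] [Finite B] {L : Language A} {z : List A} (hz : z ∈ L)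
    {R : Language B} (hR : R.IsRegular) : Dom L R := by
  have h := dom_inter_regular (dom_quot L z [] (fun _ : B => []) (fun b => [b])) hR
  refine ops_congr h ?_
  intro v
  constructor
  · intro hv
    refine ⟨⟨v, ?_, ops_flat_single v⟩, hv⟩
    rw [ops_flat_nil]
    simpa using hz
  · rintro ⟨_, hv⟩
    exact hv

end Pool.Agent.H93NG
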