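import Pool.Agent.H93NG.Dyck
import Pool.Agent.H93NG.Gram
import Pool.Agent.H93NG.Ops

/-!
# The theorem of Chomsky and Schützenberger

PROOF. Let `M` be the language of `G`. The set `V` of used symbols (all terminals, the initial
symbol, the inputs and the symbols of the outputs of the rules) is finite (`B` is finite and
`G.rules` is a `Finset`); take `num : Symbol B G.NT → ℕ` injective on `V` (a finite set injects
into `ℕ`; extend by `0`). Code of a symbol: `cd X = replicate (num X) true ++ [false]`, code of a
stack `en st = st.flatMap cd`. The code is a prefix code: `cd X ++ s = cd Y ++ t` with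
`X, Y ∈ V` implies `X = Y` and `s = t` (compare the lengths of the first runs of `true`).

Letters `C = B ⊕ {r // r ∈ G.rules}` (finite). `inl b`: `g` pops `cd (terminal b)` and
`h = [b]`; `inr r`: `g` pops `cd (nonterminal r.input)`, then pushes `en r.output`
(`((en r.output).reverse.map fun a => (a, true))`), `h = []`.
Claim: for `st` with all symbols in `V`: `AR G w st` iff there is `acts : List C` with
`acts.flatMap h = w` and `Run (acts.flatMap g) (en st) []`. (Induction on `AR`; and induction on
`acts` with `run_pop`, `run_push`.) Then `dom_quot` with `P` pushing `cd (nonterminal G.initial)`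
and `Q = []`.
-/

namespace Pool.Agent.H93NG

/-- A function to `ℕ` injective on a finite set. -/
theorem exists_num {X : Type} (V : Set X) (hV : V.Finite) :
    ∃ num : X → ℕ, ∀ x ∈ V, ∀ y ∈ V, num x = num y → x = y := by
  classical
  have : Finite V := hV
  obtain ⟨n, ⟨e⟩⟩ := Finite.exists_equiv_fin V
  refine ⟨fun x => if h : x ∈ V then (e ⟨x, h⟩ : ℕ) else 0, fun x hx y hy h => ?_⟩
  simp only [hx, hy, dif_pos] at h
  have h1 := e.injective (Fin.ext h)
  exact congrArg Subtype.val h1

/-- The code of a number is a prefix code. -/
theorem code_inj (n m : ℕ) (s t : List Bool)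
    (h : (List.replicate n true ++ [false]) ++ s = (List.replicate m true ++ [false]) ++ t) :
    n = m ∧ s = t := by
  induction n generalizing m with
  | zero =>
    cases m with
    | zero => simpa using h
    | succ m => simp [List.replicate_succ] at h
  | succ n ih =>
    cases m with
    | zero => simp [List.replicate_succ] at h
    | succ m =>
      have h' : (List.replicate n true ++ [false]) ++ s =
          (List.replicate m true ++ [false]) ++ t := by
        simpa [List.replicate_succ] using h
      obtain ⟨h1, h2⟩ := ih m h'
      exact ⟨by omega, h2⟩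

section

variable {B : Type} (G : ContextFreeGrammar B) (num : Symbol B G.NT → ℕ)

/-- The code of a symbol. -/
def cdS (X : Symbol B G.NT) : List Bool := List.replicate (num X) true ++ [false]

/-- The code of a stack. -/
def enS (st : List (Symbol B G.NT)) : List Bool := st.flatMap (cdS G num)

/-- The stack operations. -/
def gS : B ⊕ {r // r ∈ G.rules} → List (Bool × Bool)
  | Sum.inl b => (cdS G num (Symbol.terminal b)).map fun a => (a, false)
  | Sum.inr r => ((cdS G num (Symbol.nonterminal r.1.input)).map fun a => (a, false)) ++
      ((enS G num r.1.output).reverse.map fun a => (a, true))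

/-- The letters written. -/
def hS : B ⊕ {r // r ∈ G.rules} → List B
  | Sum.inl b => [b]
  | Sum.inr _ => []

/-- The used symbols. -/
def used : Set (Symbol B G.NT) :=
  Set.range Symbol.terminal ∪ ({Symbol.nonterminal G.initial} ∪
    ⋃ r ∈ G.rules, ({Symbol.nonterminal r.input} ∪ {X | X ∈ r.output}))

theorem used_finite [Finite B] : (used G).Finite := by
  refine (Set.finite_range _).union ((Set.finite_singleton _).union ?_)
  refine Set.Finite.biUnion (Finset.finite_toSet G.rules) fun r _ => ?_
  exact (Set.finite_singleton _).union (List.finite_toSet _)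

theorem used_terminal (b : B) : (Symbol.terminal b : Symbol B G.NT) ∈ used G := Or.inl ⟨b, rfl⟩

theorem used_initial : (Symbol.nonterminal G.initial : Symbol B G.NT) ∈ used G :=
  Or.inr (Or.inl rfl)

theorem used_input {r : ContextFreeRule B G.NT} (hr : r ∈ G.rules) :
    (Symbol.nonterminal r.input : Symbol B G.NT) ∈ used G :=
  Or.inr (Or.inr (Set.mem_biUnion hr (Or.inl rfl)))

theorem used_output {r : ContextFreeRule B G.NT} (hr : r ∈ G.rules) {X : Symbol B G.NT}
    (hX : X ∈ r.output) : X ∈ used G :=
  Or.inr (Or.inr (Set.mem_biUnion hr (Or.inr hX)))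

variable {G num}

theorem cdS_inj (hnum : ∀ x ∈ used G, ∀ y ∈ used G, num x = num y → x = y) {X Y : Symbol B G.NT}
    (hX : X ∈ used G) (hY : Y ∈ used G) {s t : List Bool}
    (h : cdS G num X ++ s = cdS G num Y ++ t) : X = Y ∧ s = t := by
  obtain ⟨h1, h2⟩ := code_inj _ _ _ _ h
  exact ⟨hnum X hX Y hY h1, h2⟩

theorem ar_acts {w : List B} {st : List (Symbol B G.NT)} (h : AR G w st) :
    ∃ acts : List (B ⊕ {r // r ∈ G.rules}), acts.flatMap (hS G) = w ∧
      Run (acts.flatMap (gS G num)) (enS G num st) [] := by
  induction h with
  | nil => exact ⟨[], rfl, Run.nil _⟩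
  | @term b w st _ ih =>
    obtain ⟨acts, h1, h2⟩ := ih
    refine ⟨Sum.inl b :: acts, by simp [hS, h1], ?_⟩
    rw [List.flatMap_cons]
    exact run_pop.2 ⟨enS G num st, by simp [enS], h2⟩
  | @expand r w st hr _ ih =>
    obtain ⟨acts, h1, h2⟩ := ih
    refine ⟨Sum.inr ⟨r, hr⟩ :: acts, by simp [hS, h1], ?_⟩
    rw [List.flatMap_cons]
    show Run ((((cdS G num (Symbol.nonterminal r.input)).map fun a => (a, false)) ++
      ((enS G num r.output).reverse.map fun a => (a, true))) ++ acts.flatMap (gS G num)) _ _
    rw [List.append_assoc]
    refine run_pop.2 ⟨enS G num st, by simp [enS], ?_⟩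
    refine run_push.2 ?_
    have : enS G num (r.output ++ st) = enS G num r.output ++ enS G num st := by simp [enS]
    rw [← this]
    exact h2

theorem acts_ar (hnum : ∀ x ∈ used G, ∀ y ∈ used G, num x = num y → x = y)
    (acts : List (B ⊕ {r // r ∈ G.rules})) : ∀ st : List (Symbol B G.NT),
    (∀ X ∈ st, X ∈ used G) → Run (acts.flatMap (gS G num)) (enS G num st) [] →
      AR G (acts.flatMap (hS G)) st := by
  induction acts with
  | nil =>
    intro st hst h
    have h0 : Run [] (enS G num st) [] := h
    have h1 : enS G num st = [] := by
      generalize enS G num st = x at h0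
      cases h0
      rfl
    cases st with
    | nil => exact AR.nil
    | cons X st => simp [enS, cdS] at h1
  | cons c acts ih =>
    intro st hst h
    rw [List.flatMap_cons] at h
    cases c with
    | inl b =>
      obtain ⟨s', h1, h2⟩ := run_pop.1 h
      cases st with
      | nil => simp [enS, cdS] at h1
      | cons X st =>
        have h3 : cdS G num X ++ enS G num st = cdS G num (Symbol.terminal b) ++ s' := by
          rw [← h1]; simp [enS]
        obtain ⟨rfl, h4⟩ := cdS_inj hnum (hst X List.mem_cons_self) (used_terminal G b) h3
        rw [← h4] at h2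
        exact AR.term (ih st (fun Y hY => hst Y (List.mem_cons_of_mem _ hY)) h2)
    | inr r =>
      obtain ⟨r, hr⟩ := r
      have h' : Run (((cdS G num (Symbol.nonterminal r.input)).map fun a => (a, false)) ++
        (((enS G num r.output).reverse.map fun a => (a, true)) ++ acts.flatMap (gS G num)))
          (enS G num st) [] := by
        rw [← List.append_assoc]; exact h
      obtain ⟨s', h1, h2⟩ := run_pop.1 h'
      have h5 := run_push.1 h2
      cases st with
      | nil => simp [enS, cdS] at h1
      | cons X st =>
        have h3 : cdS G num X ++ enS G num st =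
            cdS G num (Symbol.nonterminal r.input) ++ s' := by
          rw [← h1]; simp [enS]
        obtain ⟨rfl, h4⟩ := cdS_inj hnum (hst X List.mem_cons_self) (used_input G hr) h3
        rw [← h4] at h5
        have h6 : enS G num (r.output ++ st) = enS G num r.output ++ enS G num st := by
          simp [enS]
        rw [← h6] at h5
        refine AR.expand hr (ih (r.output ++ st) (fun Y hY => ?_) h5)
        rcases List.mem_append.1 hY with h7 | h7
        · exact used_output G hr h7
        · exact hst Y (List.mem_cons_of_mem _ h7)

end

theorem dom_of_isContextFree {B : Type} [Finite B] {M : Language B} (h : M.IsContextFree) :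
    Dom Dyck2 M := by
  obtain ⟨G, rfl⟩ := h
  obtain ⟨num, hnum⟩ := exists_num (used G) (used_finite G)
  have h1 := dom_quot (A := Bool × Bool) (B := B) (C := B ⊕ {r // r ∈ G.rules}) Dyck2
    ((cdS G num (Symbol.nonterminal G.initial)).reverse.map fun a => (a, true)) []
    (gS G num) (hS G)
  suffices key : G.language = ({v | ∃ w : List (B ⊕ {r // r ∈ G.rules}),
      ((cdS G num (Symbol.nonterminal G.initial)).reverse.map fun a => (a, true)) ++
        w.flatMap (gS G num) ++ [] ∈ Dyck2 ∧ w.flatMap (hS G) = v} : Language B) by
    rw [key]; exact h1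
  ext w
  rw [mem_language_iff_ar]
  have h2 : enS G num [Symbol.nonterminal G.initial] =
      cdS G num (Symbol.nonterminal G.initial) ++ [] := by simp [enS]
  constructor
  · intro h
    obtain ⟨acts, h3, h4⟩ := ar_acts (num := num) h
    refine ⟨acts, ?_, h3⟩
    rw [List.append_nil]
    refine run_push.2 ?_
    rw [← h2]
    exact h4
  · rintro ⟨acts, h3, rfl⟩
    rw [List.append_nil] at h3
    have h4 := run_push.1 h3
    rw [← h2] at h4
    refine acts_ar hnum acts _ (fun X hX => ?_) h4
    rw [List.mem_singleton] at hX
    subst hX
    exact used_initial G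

end Pool.Agent.H93NG
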