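import Pool.Agent.NB.Val

/-!
# A code for a recursively enumerable set of words

`num` is computable and injective; the search for the preimage followed by the semi-decision of
`W` is partial recursive. See `Pool/Agent/NB/Halt.lean` for the same method.
-/

namespace Pool.Agent.H93NG

open Turing

/-- The number with binary digits `1 x`, highest first. -/
def num (x : List Bool) : ℕ := x.foldl (fun n b => 2 * n + b.toNat) 1

theorem num_append (x : List Bool) (b : Bool) : num (x ++ [b]) = 2 * num x + b.toNat := by
  simp [num, List.foldl_append]

theorem num_pos (x : List Bool) : 0 < num x := by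
  induction x using List.reverseRecOn with
  | nil => simp [num]
  | append_singleton x b ih =>
    rw [num_append]
    omega

private theorem num_inj : ∀ (x y : List Bool), num x = num y → x = y := by
  intro x
  induction x using List.reverseRecOn with
  | nil =>
    intro y h
    induction y using List.reverseRecOn with
    | nil => rfl
    | append_singleton y b _ =>
      rw [num_append] at h
      have := num_pos y
      simp only [num, List.foldl_nil] at h
      simp only [num] at this
      omega
  | append_singleton x b ih =>
    intro y h
    induction y using List.reverseRecOn with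
    | nil =>
      rw [num_append] at h
      have := num_pos x
      have h1 : num [] = 1 := rfl
      omega
    | append_singleton y b' _ =>
      rw [num_append, num_append] at h
      have h1 : b.toNat < 2 := by cases b <;> simp
      have h2 : b'.toNat < 2 := by cases b' <;> simp
      have h3 : b.toNat = b'.toNat := by omega
      have h4 : num x = num y := by omega
      have h5 : b = b' := by
        cases b <;> cases b' <;> simp_all
      rw [ih y h4, h5]

private theorem primrec_num : Primrec num := by
  have h : Primrec₂ fun (_ : List Bool) (p : ℕ × Bool) => 2 * p.1 + p.2.toNat := by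
    have h1 : Primrec fun q : List Bool × (ℕ × Bool) => q.2.2.toNat := by
      have h2 : Primrec (fun b : Bool => b.toNat) := Primrec.dom_finite _
      exact h2.comp (Primrec.snd.comp Primrec.snd)
    exact Primrec.nat_add.comp (Primrec.nat_mul.comp (Primrec.const 2)
      (Primrec.fst.comp Primrec.snd)) h1
  exact (Primrec.list_foldl Primrec.id (Primrec.const 1) h).of_eq fun x => rfl

theorem exists_code (W : Set (List Bool)) (hW : REPred fun x => x ∈ W) :
    ∃ c : ToPartrec.Code, ∀ x : List Bool, (c.eval [num x]).Dom ↔ x ∈ W := by
  let s : ℕ → ℕ → Option (List Bool) := fun n k =>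
    (Encodable.decode (α := List Bool) k).bind fun x => if num x = n then some x else none
  have hs : Computable₂ s := by
    have h1 : Primrec₂ s := by
      refine Primrec.option_bind (Primrec.decode.comp Primrec.snd) ?_
      refine Primrec.ite (Primrec.eq.comp (primrec_num.comp Primrec.snd)
        (Primrec.fst.comp Primrec.fst)) (Primrec.option_some.comp Primrec.snd)
        (Primrec.const none)
    exact h1.to_comp
  let f' : ℕ →. List Bool := fun n => Nat.rfindOpt (s n)
  have hf' : Partrec f' := Partrec.rfindOpt hs
  have hf'1 : ∀ n x, x ∈ f' n → num x = n := by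
    intro n x hx
    obtain ⟨k, hk⟩ := Nat.rfindOpt_spec hx
    simp only [s, Option.mem_def, Option.bind_eq_some_iff] at hk
    obtain ⟨y, -, hy⟩ := hk
    split_ifs at hy with h
    · simp only [Option.some.injEq] at hy
      rw [← hy]
      exact h
  have hf'2 : ∀ x, x ∈ f' (num x) := by
    intro x
    have h1 : (f' (num x)).Dom := by
      refine Nat.rfindOpt_dom.2 ⟨Encodable.encode x, x, ?_⟩
      simp [s]
    obtain ⟨y, hy⟩ := Part.dom_iff_mem.1 h1
    have h2 := hf'1 _ _ hy
    rwa [num_inj _ _ h2] at hy
  let f : ℕ →. ℕ := fun n => (f' n).bind fun x =>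
    (Part.assert (x ∈ W) fun _ => Part.some ()).map fun _ => 0
  have hf : Partrec f := by
    refine Partrec.bind hf' ?_
    exact Partrec.map (hW.comp Computable.snd) ((Computable.const 0).to₂)
  have hfd : ∀ x, (f (num x)).Dom ↔ x ∈ W := by
    intro x
    have h1 : f' (num x) = Part.some x := Part.eq_some_iff.2 (hf'2 x)
    simp only [f, h1, Part.bind_some, Part.map_Dom]
    constructor
    · rintro ⟨h, -⟩
      exact h
    · intro h
      exact ⟨h, trivial⟩
  have hfc := Nat.Partrec'.part_iff₁.2 hf
  obtain ⟨c, hc⟩ := ToPartrec.Code.exists_code hfc
  refine ⟨c, fun x => ?_⟩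
  have h1 : c.eval [num x] = pure <$> f (num x) := hc ⟨[num x], rfl⟩
  rw [h1, ← hfd]
  rfl

open PartrecToTM2 NB

private theorem trNum_bit0 (n : Num) (h : n ≠ 0) : trNum n.bit0 = Γ'.bit0 :: trNum n := by
  cases n with
  | zero => exact absurd rfl h
  | pos p => rfl

private theorem enc_even (n : ℕ) (h : n ≠ 0) :
    enc (trList [2 * n]) = 5 * enc (trList [n]) + 3 := by
  have h1 : trNat (2 * n) = Γ'.bit0 :: trNat n := by
    have h2 : ((2 * n : ℕ) : Num) = Num.bit0 (n : Num) := by
      rw [← Num.bit0_of_bit0]
      push_cast
      ring
    unfold trNat
    rw [h2]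
    refine trNum_bit0 _ ?_
    intro h3
    apply h
    exact_mod_cast h3
  simp only [trList, h1, List.cons_append, enc, dig]

private theorem enc_odd (n : ℕ) (h : n ≠ 0) :
    enc (trList [2 * n + 1]) = 5 * enc (trList [n]) + 4 := by
  have h1 : trNat (2 * n + 1) = Γ'.bit1 :: trNat n := by
    have h2 : ((2 * n + 1 : ℕ) : Num) = Num.bit1 (n : Num) := by
      rw [← Num.bit1_of_bit1]
      push_cast
      ring
    unfold trNat
    rw [h2]
    have h3 : (n : Num) ≠ 0 := by
      intro h3
      apply h
      exact_mod_cast h3
    revert h3
    cases (n : Num) with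
    | zero => intro h3; exact absurd rfl h3
    | pos p => intro _; rfl
  simp only [trList, h1, List.cons_append, enc, dig]

/-- Pushing a bit on the main stack. -/
theorem enc_push (x : List Bool) (b : Bool) :
    NB.enc (PartrecToTM2.trList [num (x ++ [b])]) =
      5 * NB.enc (PartrecToTM2.trList [num x]) + (3 + b.toNat) := by
  have h := num_pos x
  rw [num_append]
  cases b with
  | false => exact enc_even _ (by omega)
  | true => exact enc_odd _ (by omega)

theorem enc_start : NB.enc (PartrecToTM2.trList [num []]) = 14 := by
  have h1 : trNat 1 = [Γ'.bit1] := by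
    unfold trNat
    rfl
  have h2 : num [] = 1 := rfl
  rw [h2]
  simp only [trList, h1, List.cons_append, List.nil_append, enc, dig]

end Pool.Agent.H93NG
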