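import Pool.Agent.H93NG.Dyck
import Pool.Agent.H93NG.Ops
import Pool.Agent.H93NG.Reg

/-!
# Sorted words, and the pairs of numbers outside an affine relation

PROOFS.
* `sorted_eq_seg`: a word over `Fin d` without a descent `[i, i']`, `i' < i`, is
  `(List.finRange d).flatMap fun i => replicate (w.count i) i`: both are sorted (`Pairwise (≤)`)
  and are permutations of each other (same counts); `List.Perm.eq_of_pairwise` /
  `List.eq_of_perm_of_sorted`. For `sorted_eq_seg'` (letters `Sum.inl i` of `Fin d ⊕ J`) write the
  word as `w'.map Sum.inl`.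
* `dom_four`: letters `Fin 4`, `g`, `h`, and the regular language of the words without descents
  (`isRegular_factor` and `Language.IsRegular.compl`), without factor `[1, 1]`, with factor `[1]`
  and with factor `[3]`: by `sorted_eq_seg` for `d = 4` these are the words `0^u 1 2^m 3^l`,
  `1 ≤ l`.
* `dom_bad`: the pairs `(x, y)` such that there is no `u` with `x = a + p u`, `y = b + q u`
  (`0 < p`) are the union of
  - `x = c`, `y` arbitrary, for each `c < a`;
  - `x = a + c + p u`, `y` arbitrary, for each `0 < c < p`;
  - `x = a + p u`, `y = m`, `b + q u = m + l`, `1 ≤ l`;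
  - `x = a + p u`, `y = m + l`, `b + q u = m`, `1 ≤ l`.
  Each is an instance of `dom_four` (`false` is the block letter, `true` the middle letter), for
  example the third with `g 0 = replicate q open`, `h 0 = replicate p false`,
  `g 1 = replicate b open`, `h 1 = replicate a false ++ [true]`, `g 2 = [close]`,
  `h 2 = [false]`, `g 3 = [close]`, `h 3 = []` where `open = (false, true)`,
  `close = (false, false)` (`dyck_count`); for the first two all `g = []`.
-/

namespace Pool.Agent.H93NG

private theorem cnt_pairwise {d : ℕ} : ∀ (w : List (Fin d)),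
    (∀ i i' : Fin d, i' < i → ¬ [i, i'] <:+: w) → w.Pairwise (· ≤ ·)
  | [], _ => List.Pairwise.nil
  | a :: w, hw => by
    have hw' : ∀ i i' : Fin d, i' < i → ¬ [i, i'] <:+: w := fun i i' h h' =>
      hw i i' h (h'.trans (List.infix_cons (List.infix_refl w)))
    have ih := cnt_pairwise w hw'
    rw [List.pairwise_cons]
    refine ⟨?_, ih⟩
    cases w with
    | nil => intro b hb; simp at hb
    | cons b w =>
      have hab : a ≤ b := by
        by_contra h
        exact hw a b (not_le.mp h) ⟨[], w, by simp⟩
      intro c hc
      rcases List.mem_cons.mp hc with rfl | hc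
      · exact hab
      · exact hab.trans ((List.pairwise_cons.mp ih).1 c hc)

private theorem cnt_pairwise_seg {d : ℕ} (f : Fin d → ℕ) :
    ((List.finRange d).flatMap fun i => List.replicate (f i) i).Pairwise (· ≤ ·) := by
  rw [List.pairwise_flatMap]
  refine ⟨fun a _ => List.pairwise_replicate.mpr (Or.inr le_rfl), ?_⟩
  refine (List.pairwise_lt_finRange d).imp ?_
  intro a b hab x hx y hy
  rw [List.eq_of_mem_replicate hx, List.eq_of_mem_replicate hy]
  exact hab.le

private theorem cnt_count_seg {d : ℕ} (f : Fin d → ℕ) (i : Fin d) :
    ((List.finRange d).flatMap fun i => List.replicate (f i) i).count i = f i := by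
  rw [List.count_flatMap, List.sum_map_eq_nsmul_single i]
  · rw [List.count_eq_one_of_mem (List.nodup_finRange d) (List.mem_finRange i)]
    simp
  · intro a' ha' _
    simp [List.count_replicate, ha']

theorem sorted_eq_seg {d : ℕ} (w : List (Fin d))
    (hw : ∀ i i' : Fin d, i' < i → ¬ [i, i'] <:+: w) :
    w = (List.finRange d).flatMap fun i => List.replicate (w.count i) i := by
  refine List.Perm.eq_of_pairwise (le := (· ≤ ·)) (fun a b _ _ h h' => le_antisymm h h')
    (cnt_pairwise w hw) (cnt_pairwise_seg _) ?_
  rw [List.perm_iff_count]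
  intro a
  rw [cnt_count_seg]

private theorem cnt_exists_map {d : ℕ} {J : Type} : ∀ (w : List (Fin d ⊕ J)),
    (∀ a ∈ w, a.isLeft) → ∃ w' : List (Fin d), w = w'.map Sum.inl
  | [], _ => ⟨[], rfl⟩
  | a :: w, hl => by
    obtain ⟨w', hw'⟩ := cnt_exists_map w fun b hb => hl b (List.mem_cons_of_mem _ hb)
    have ha := hl a List.mem_cons_self
    cases a with
    | inl i => exact ⟨i :: w', by rw [hw']; rfl⟩
    | inr j => simp at ha

theorem sorted_eq_seg' {d : ℕ} {J : Type} [DecidableEq J] (w : List (Fin d ⊕ J))
    (hl : ∀ a ∈ w, a.isLeft) (hw : ∀ i i' : Fin d, i' < i → ¬ [Sum.inl i, Sum.inl i'] <:+: w) :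
    w = seg fun i => w.count (Sum.inl i) := by
  obtain ⟨w', rfl⟩ := cnt_exists_map w hl
  have h := sorted_eq_seg w' fun i i' hi h => hw i i' hi (by
    have := List.IsInfix.map (Sum.inl : Fin d → Fin d ⊕ J) h
    simpa using this)
  conv_lhs => rw [h]
  unfold seg
  rw [List.map_flatMap]
  congr 1
  funext i
  have hc : (w'.map (Sum.inl : Fin d → Fin d ⊕ J)).count (Sum.inl i) = w'.count i := by
    unfold List.count
    rw [List.countP_map]
    rfl
  rw [List.map_replicate]
  exact congrArg (fun n => List.replicate n (Sum.inl i)) hc.symm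

private theorem cnt_congr {A B : Type} {L : Language A} {M M' : Language B} (h : Dom L M)
    (e : ∀ v, v ∈ M' ↔ v ∈ M) : Dom L M' := by
  have : M' = M := Set.ext e
  rw [this]; exact h

private theorem cnt_rcongr {A : Type} {L L' : Language A} (h : L.IsRegular)
    (e : ∀ v, v ∈ L' ↔ v ∈ L) : L'.IsRegular := by
  have : L' = L := Set.ext e
  rw [this]; exact h

/-- The words `0^u 1 2^m 3^l`. -/
private def cntWord (u m l : ℕ) : List (Fin 4) :=
  List.replicate u 0 ++ [1] ++ List.replicate m 2 ++ List.replicate l 3

private theorem cnt_seg_four (f : Fin 4 → ℕ) :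
    ((List.finRange 4).flatMap fun i => List.replicate (f i) i) =
      List.replicate (f 0) 0 ++ List.replicate (f 1) 1 ++ List.replicate (f 2) 2 ++
        List.replicate (f 3) 3 := by
  have : List.finRange 4 = [0, 1, 2, 3] := by decide
  rw [this]
  simp

private theorem cnt_regular : Language.IsRegular
    ({w | ∃ u m l : ℕ, 1 ≤ l ∧ w = cntWord u m l} : Language (Fin 4)) := by
  have h1 := (isRegular_factor (Z := Fin 4) {f | ∃ i i' : Fin 4, i' < i ∧ f = [i, i']} 2
    (by rintro f ⟨i, i', _, rfl⟩; simp)).compl
  have h2 := (isRegular_factor (Z := Fin 4) {f | f = [1, 1]} 2 (by rintro f rfl; simp)).compl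
  have h3 := isRegular_factor (Z := Fin 4) {f | f = [1]} 1 (by rintro f rfl; simp)
  have h4 := isRegular_factor (Z := Fin 4) {f | f = [3]} 1 (by rintro f rfl; simp)
  refine cnt_rcongr (((h1.inf h2).inf h3).inf h4) ?_
  intro w
  constructor
  · rintro ⟨u, m, l, hl, rfl⟩
    have hseg : cntWord u m l =
        ((List.finRange 4).flatMap fun i => List.replicate (![u, 1, m, l] i) i) := by
      rw [cnt_seg_four]; rfl
    have hpw : (cntWord u m l).Pairwise (· ≤ ·) := by
      rw [hseg]; exact cnt_pairwise_seg _
    have hc : (cntWord u m l).count 1 = 1 := by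
      rw [hseg, cnt_count_seg]; rfl
    refine ⟨⟨⟨?_, ?_⟩, ?_⟩, ?_⟩
    · rintro ⟨f, ⟨i, i', hi, rfl⟩, hf⟩
      have := List.Pairwise.sublist hf.sublist hpw
      rw [List.pairwise_cons] at this
      exact absurd (this.1 i' (by simp)) (not_le.mpr hi)
    · rintro ⟨f, rfl, hf⟩
      have := hf.sublist.count_le 1
      rw [hc] at this
      simp at this
    · exact ⟨[1], rfl, ⟨List.replicate u 0, List.replicate m 2 ++ List.replicate l 3, by
        simp [cntWord]⟩⟩
    · refine ⟨[3], rfl, ⟨List.replicate u 0 ++ [1] ++ List.replicate m 2 ++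
        List.replicate (l - 1) 3, [], ?_⟩⟩
      obtain ⟨k, rfl⟩ : ∃ k, l = k + 1 := ⟨l - 1, by omega⟩
      simp [cntWord, List.replicate_succ']
  · rintro ⟨⟨⟨h1, h2⟩, h3⟩, h4⟩
    have h5 := sorted_eq_seg w fun i i' hi hf => h1 ⟨[i, i'], ⟨i, i', hi, rfl⟩, hf⟩
    rw [cnt_seg_four] at h5
    obtain ⟨f, rfl, h3⟩ := h3
    obtain ⟨f, rfl, h4⟩ := h4
    have h6 : 1 ≤ w.count 1 := by
      have := h3.sublist.count_le 1
      simpa using this
    have h7 : 1 ≤ w.count 3 := by
      have := h4.sublist.count_le 3
      simpa using this
    have h8 : w.count 1 ≤ 1 := by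
      by_contra hcon
      apply h2
      refine ⟨[1, 1], rfl, ?_⟩
      obtain ⟨k, hk⟩ : ∃ k, w.count 1 = k + 1 + 1 := ⟨w.count 1 - 2, by omega⟩
      refine ⟨List.replicate (w.count 0) 0, List.replicate k 1 ++ List.replicate (w.count 2) 2 ++
        List.replicate (w.count 3) 3, ?_⟩
      conv_rhs => rw [h5]
      rw [hk, List.replicate_succ, List.replicate_succ]
      simp
    refine ⟨w.count 0, w.count 2, w.count 3, h7, ?_⟩
    have h9 : w.count 1 = 1 := le_antisymm h8 h6
    conv_lhs => rw [h5]
    rw [h9]
    rfl

theorem dom_four {B : Type} [Finite B] (g : Fin 4 → List (Bool × Bool)) (h : Fin 4 → List B) :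
    Dom Dyck2 ({v | ∃ u m l : ℕ, 1 ≤ l ∧
      (List.replicate u (g 0)).flatten ++ g 1 ++ (List.replicate m (g 2)).flatten ++
        (List.replicate l (g 3)).flatten ∈ Dyck2 ∧
      v = (List.replicate u (h 0)).flatten ++ h 1 ++ (List.replicate m (h 2)).flatten ++
        (List.replicate l (h 3)).flatten} : Language B) := by
  have hfl : ∀ {C : Type} (k : Fin 4 → List C) (u m l : ℕ), (cntWord u m l).flatMap k =
      (List.replicate u (k 0)).flatten ++ k 1 ++ (List.replicate m (k 2)).flatten ++
        (List.replicate l (k 3)).flatten := by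
    intro C k u m l
    simp [cntWord, List.flatMap_append, List.flatMap_replicate]
  refine ⟨Fin 4, inferInstance, g, h, _, cnt_regular, ?_⟩
  intro v
  constructor
  · rintro ⟨u, m, l, hl, hm, hv⟩
    refine ⟨cntWord u m l, ⟨u, m, l, hl, rfl⟩, ?_, ?_⟩
    · rw [hfl]; exact hm
    · rw [hfl]; exact hv.symm
  · rintro ⟨w, ⟨u, m, l, hl, rfl⟩, hm, hv⟩
    refine ⟨u, m, l, hl, ?_, ?_⟩
    · rw [← hfl]; exact hm
    · rw [← hfl]; exact hv.symm

private theorem cnt_flat_nil {A : Type} (l : ℕ) :
    (List.replicate l ([] : List A)).flatten = [] := by simp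

private theorem cnt_radd {A : Type} (x y : ℕ) (a : A) :
    List.replicate (x + y) a = List.replicate x a ++ List.replicate y a :=
  List.replicate_add x y a

private theorem cnt_nil_mem : ([] : List (Bool × Bool)) ∈ Dyck2 := Run.nil []

theorem dom_bad (p q a b : ℕ) (hp : 0 < p) :
    Dom Dyck2 ({w | ∃ x y : ℕ, (¬ ∃ u, x = a + p * u ∧ y = b + q * u) ∧
      w = List.replicate x false ++ true :: List.replicate y false} : Language Bool) := by
  -- words `x = c`
  have d1 : ∀ c : Fin a, Dom Dyck2 ({w | ∃ y : ℕ,
      w = List.replicate (c : ℕ) false ++ true :: List.replicate y false} : Language Bool) := by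
    intro c
    have h := dom_four (B := Bool) (fun _ => [])
      ![[], List.replicate (c : ℕ) false ++ [true], [false], []]
    refine cnt_congr h ?_
    intro w
    constructor
    · rintro ⟨y, rfl⟩
      refine ⟨0, y, 1, le_rfl, ?_, ?_⟩
      · simpa using cnt_nil_mem
      · simp
    · rintro ⟨u, m, l, _, _, rfl⟩
      exact ⟨m, by simp⟩
  have d2 : ∀ c : Fin p, Dom Dyck2 ({w | ∃ u y : ℕ, 0 < (c : ℕ) ∧
      w = List.replicate (a + c + p * u) false ++ true :: List.replicate y false} :
        Language Bool) := by
    intro c
    by_cases hc : 0 < (c : ℕ)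
    · have h := dom_four (B := Bool) (fun _ => [])
        ![List.replicate p false, List.replicate (a + (c : ℕ)) false ++ [true], [false], []]
      refine cnt_congr h ?_
      intro w
      constructor
      · rintro ⟨u, y, _, rfl⟩
        refine ⟨u, y, 1, le_rfl, ?_, ?_⟩
        · simpa using cnt_nil_mem
        · simp only [Matrix.cons_val_zero, Matrix.cons_val_one, Matrix.cons_val,
            List.flatten_replicate_replicate, List.flatten_replicate_singleton]
          rw [show a + (c : ℕ) + p * u = u * p + (a + c) by ring,
            cnt_radd (u * p) (a + c)]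
          simp only [List.append_assoc, List.cons_append, List.nil_append, cnt_flat_nil,
            List.append_nil]
      · rintro ⟨u, m, l, _, _, rfl⟩
        refine ⟨u, m, hc, ?_⟩
        simp only [Matrix.cons_val_zero, Matrix.cons_val_one, Matrix.cons_val,
          List.flatten_replicate_replicate, List.flatten_replicate_singleton]
        rw [show a + (c : ℕ) + p * u = u * p + (a + c) by ring,
          cnt_radd (u * p) (a + c)]
        simp only [List.append_assoc, List.cons_append, List.nil_append, cnt_flat_nil,
          List.append_nil]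
    · have h := dom_empty (A := Bool × Bool) (B := Bool) Dyck2
      refine cnt_congr h ?_
      intro w
      constructor
      · rintro ⟨u, y, h, _⟩
        exact absurd h hc
      · intro h
        exact h.elim
  have d3 : Dom Dyck2 ({w | ∃ u m l : ℕ, 1 ≤ l ∧ b + q * u = m + l ∧
      w = List.replicate (a + p * u) false ++ true :: List.replicate m false} :
        Language Bool) := by
    have h := dom_four (B := Bool)
      ![List.replicate q (false, true), List.replicate b (false, true), [(false, false)],
        [(false, false)]]
      ![List.replicate p false, List.replicate a false ++ [true], [false], []]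
    refine cnt_congr h ?_
    intro w
    have key : ∀ u m l : ℕ, ((List.replicate u (List.replicate q (false, true))).flatten ++
        List.replicate b (false, true) ++ (List.replicate m [(false, false)]).flatten ++
          (List.replicate l [(false, false)]).flatten ∈ Dyck2) ↔ b + q * u = m + l := by
      intro u m l
      rw [List.flatten_replicate_replicate, List.flatten_replicate_singleton,
        List.flatten_replicate_singleton, List.replicate_append_replicate, List.append_assoc,
        List.replicate_append_replicate, dyck_count]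
      constructor
      · intro h; rw [← h]; ring
      · intro h; rw [← h]; ring
    have key2 : ∀ u m l : ℕ, (List.replicate u (List.replicate p false)).flatten ++
        (List.replicate a false ++ [true]) ++ (List.replicate m [false]).flatten ++
          (List.replicate l []).flatten =
          List.replicate (a + p * u) false ++ true :: List.replicate m false := by
      intro u m l
      rw [List.flatten_replicate_replicate, List.flatten_replicate_singleton,
        show a + p * u = u * p + a by ring, cnt_radd (u * p) a]
      simp only [List.append_assoc, List.cons_append, List.nil_append, cnt_flat_nil,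
        List.append_nil]
    constructor
    · rintro ⟨u, m, l, hl, he, rfl⟩
      exact ⟨u, m, l, hl, (key u m l).mpr he, (key2 u m l).symm⟩
    · rintro ⟨u, m, l, hl, he, rfl⟩
      exact ⟨u, m, l, hl, (key u m l).mp he, key2 u m l⟩
  have d4 : Dom Dyck2 ({w | ∃ u m l : ℕ, 1 ≤ l ∧ b + q * u = m ∧
      w = List.replicate (a + p * u) false ++ true :: List.replicate (m + l) false} :
        Language Bool) := by
    have h := dom_four (B := Bool)
      ![List.replicate q (false, true), List.replicate b (false, true), [(false, false)], []]
      ![List.replicate p false, List.replicate a false ++ [true], [false], [false]]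
    refine cnt_congr h ?_
    intro w
    have key : ∀ u m l : ℕ, ((List.replicate u (List.replicate q (false, true))).flatten ++
        List.replicate b (false, true) ++ (List.replicate m [(false, false)]).flatten ++
          (List.replicate l []).flatten ∈ Dyck2) ↔ b + q * u = m := by
      intro u m l
      have h0 : (List.replicate l ([] : List (Bool × Bool))).flatten = [] := by simp
      rw [h0, List.append_nil, List.flatten_replicate_replicate,
        List.flatten_replicate_singleton, List.replicate_append_replicate, dyck_count]
      constructor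
      · intro h; rw [← h]; ring
      · intro h; rw [← h]; ring
    have key2 : ∀ u m l : ℕ, (List.replicate u (List.replicate p false)).flatten ++
        (List.replicate a false ++ [true]) ++ (List.replicate m [false]).flatten ++
          (List.replicate l [false]).flatten =
          List.replicate (a + p * u) false ++ true :: List.replicate (m + l) false := by
      intro u m l
      rw [List.flatten_replicate_replicate, List.flatten_replicate_singleton,
        List.flatten_replicate_singleton, show a + p * u = u * p + a by ring,
        cnt_radd m l, cnt_radd (u * p) a]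
      simp only [List.append_assoc, List.cons_append, List.nil_append]
    constructor
    · rintro ⟨u, m, l, hl, he, rfl⟩
      exact ⟨u, m, l, hl, (key u m l).mpr he, (key2 u m l).symm⟩
    · rintro ⟨u, m, l, hl, he, rfl⟩
      exact ⟨u, m, l, hl, (key u m l).mp he, key2 u m l⟩
  have hU := ((Dom.iUnion d1).union (Dom.iUnion d2)).union (d3.union d4)
  refine cnt_congr hU ?_
  intro w
  constructor
  · rintro ⟨x, y, hxy, rfl⟩
    by_cases hx : x < a
    · exact Or.inl (Or.inl ⟨⟨x, hx⟩, y, rfl⟩)
    · have hx' : a ≤ x := not_lt.mp hx
      have hdm := Nat.div_add_mod (x - a) p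
      have hlt := Nat.mod_lt (x - a) hp
      by_cases hc : 0 < (x - a) % p
      · refine Or.inl (Or.inr ⟨⟨(x - a) % p, hlt⟩, (x - a) / p, y, hc, ?_⟩)
        have : x = a + (x - a) % p + p * ((x - a) / p) := by omega
        rw [← this]
      · have h0 : x = a + p * ((x - a) / p) := by omega
        rcases lt_trichotomy y (b + q * ((x - a) / p)) with h | h | h
        · refine Or.inr (Or.inl ⟨(x - a) / p, y, b + q * ((x - a) / p) - y, by omega, by omega, ?_⟩)
          rw [← h0]
        · exact absurd ⟨(x - a) / p, h0, h⟩ hxy
        · refine Or.inr (Or.inr ⟨(x - a) / p, _, y - (b + q * ((x - a) / p)), by omega, rfl, ?_⟩)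
          rw [← h0, show b + q * ((x - a) / p) + (y - (b + q * ((x - a) / p))) = y by omega]
  · rintro ((⟨c, y, rfl⟩ | ⟨c, u, y, hc, rfl⟩) | (⟨u, m, l, hl, he, rfl⟩ | ⟨u, m, l, hl, he, rfl⟩))
    · refine ⟨c, y, ?_, rfl⟩
      rintro ⟨u, hu, _⟩
      have := c.isLt
      generalize p * u = t at hu
      omega
    · refine ⟨a + c + p * u, y, ?_, rfl⟩
      rintro ⟨v, hv, _⟩
      have h1 : (c : ℕ) + p * u = p * v := by omega
      have h2 : ((c : ℕ) + p * u) % p = c := by
        rw [Nat.add_mul_mod_self_left, Nat.mod_eq_of_lt c.isLt]
      rw [h1, Nat.mul_mod_right] at h2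
      omega
    · refine ⟨a + p * u, m, ?_, rfl⟩
      rintro ⟨v, hv, hm⟩
      have h1 : p * u = p * v := by omega
      have h2 : u = v := Nat.eq_of_mul_eq_mul_left hp h1
      subst h2
      omega
    · refine ⟨a + p * u, m + l, ?_, rfl⟩
      rintro ⟨v, hv, hm⟩
      have h1 : p * u = p * v := by omega
      have h2 : u = v := Nat.eq_of_mul_eq_mul_left hp h1
      subst h2
      omega

end Pool.Agent.H93NG
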