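import Mathlib

/-!
# Context-free non-generators: definitions

`Dom L M`: the language `M` is the image `h (g⁻¹ L ∩ R)` of `L` (the form of the frozen statement
of MP_94383a_lc), that is, `M` lies in the rational cone of `L`.
The plan is in `Pool/Agent/H93NG/BLUEPRINT.md`.
-/

namespace Pool.Agent.H93NG

/-- `M = h (g⁻¹ L ∩ R)` for some morphisms `g`, `h` and a regular `R`. -/
def Dom {A B : Type} (L : Language A) (M : Language B) : Prop :=
  ∃ (C : Type) (_ : Finite C) (g : C → List A) (h : C → List B) (R : Language C),
    (∃ (σ : Type) (_ : Fintype σ) (D : DFA C σ), D.accepts = R) ∧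
    ∀ v : List B, v ∈ M ↔ ∃ w : List C, w ∈ R ∧ w.flatMap g ∈ L ∧ w.flatMap h = v

/-- `L` does not dominate some context-free language. -/
def NonGen {A : Type} (L : Language A) : Prop :=
  ¬ ∀ (B : Type) (_ : Finite B) (M : Language B), M.IsContextFree → Dom L M

/-- Computations of a letter transducer: from `p` to `q`, reading `u`, writing `v`. -/
inductive Path {A B σ : Type} (δ : σ → Option A → Option B → σ → Prop) :
    σ → List A → List B → σ → Prop
  | nil (p : σ) : Path δ p [] [] p
  | cons {p q r : σ} {a : Option A} {b : Option B} {u : List A} {v : List B} :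
      δ p a b q → Path δ q u v r → Path δ p (a.toList ++ u) (b.toList ++ v) r

/-- `M` is the image of `L` by a letter transducer with finitely many states. -/
def TDom {A B : Type} (L : Language A) (M : Language B) : Prop :=
  ∃ (σ : Type) (_ : Finite σ) (δ : σ → Option A → Option B → σ → Prop) (s f : σ),
    ∀ v : List B, v ∈ M ↔ ∃ u, u ∈ L ∧ Path δ s u v f

/-- The run of a word of pushes `(a, true)` and pops `(a, false)` from one stack to another (top of
the stack first). -/
inductive Run : List (Bool × Bool) → List Bool → List Bool → Prop
  | nil (s : List Bool) : Run [] s s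
  | push {a : Bool} {w : List (Bool × Bool)} {s t : List Bool} :
      Run w (a :: s) t → Run ((a, true) :: w) s t
  | pop {a : Bool} {w : List (Bool × Bool)} {s t : List Bool} :
      Run w s t → Run ((a, false) :: w) (a :: s) t

/-- The Dyck language on two pairs of brackets. -/
def Dyck2 : Language (Bool × Bool) := {w | Run w [] []}

/-- Stack derivations of a context-free grammar: `AR G w st`, the symbols `st` (read from the left)
derive the word `w`, expanding the first symbol each time. -/
inductive AR {B : Type} (G : ContextFreeGrammar B) : List B → List (Symbol B G.NT) → Prop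
  | nil : AR G [] []
  | term {b : B} {w : List B} {st : List (Symbol B G.NT)} :
      AR G w st → AR G (b :: w) (Symbol.terminal b :: st)
  | expand {r : ContextFreeRule B G.NT} {w : List B} {st : List (Symbol B G.NT)} :
      r ∈ G.rules → AR G w (r.output ++ st) → AR G w (Symbol.nonterminal r.input :: st)

/-- An affine rule on `ℕ^d`: it moves `a + p u` to `b + q u`, coordinatewise. -/
structure ARule (d : ℕ) where
  p : Fin d → ℕ
  q : Fin d → ℕ
  a : Fin d → ℕ
  b : Fin d → ℕ
  hp : ∀ i, 0 < p i

/-- The relation of an affine rule. -/
def ARule.Rel {d : ℕ} (r : ARule d) (x y : Fin d → ℕ) : Prop :=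
  ∀ i, ∃ u : ℕ, x i = r.a i + r.p i * u ∧ y i = r.b i + r.q i * u

/-- A system: finitely many affine rules, each with an emitted word, an initial vector and a time
coordinate. -/
structure Sys where
  d : ℕ
  J : Type
  fin : Finite J
  rule : J → ARule d
  em : J → List Bool
  init : Fin d → ℕ
  tm : Fin d
  time : ∀ j x y, (rule j).Rel x y → y = 0 ∨ y tm = x tm + 1
  zero : ∀ j y, ¬ (rule j).Rel 0 y

/-- Letters of histories: block letters and rules. -/
abbrev Sys.H (S : Sys) : Type := Fin S.d ⊕ S.J

/-- The word of a vector: sorted blocks. -/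
def seg {d : ℕ} {J : Type} (x : Fin d → ℕ) : List (Fin d ⊕ J) :=
  (List.finRange d).flatMap fun i => List.replicate (x i) (Sum.inl i)

/-- `Hist S x h`: `h` is the history of a computation from the vector `x` to `0`. -/
inductive Hist (S : Sys) : (Fin S.d → ℕ) → List S.H → Prop
  | nil : Hist S 0 []
  | step {j : S.J} {x y : Fin S.d → ℕ} {h : List S.H} :
      (S.rule j).Rel x y → Hist S y h → Hist S x (seg x ++ Sum.inr j :: h)

/-- Valid histories. -/
def Sys.Valid (S : Sys) (h : List S.H) : Prop := Hist S S.init h

/-- The word emitted by a history. -/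
def Sys.emit (S : Sys) (h : List S.H) : List Bool := h.flatMap (Sum.elim (fun _ => []) S.em)

/-- The slice of `U` at `x`. -/
def slice {S : Type} (U : Language (Bool ⊕ S)) (x : List Bool) : Language S :=
  {w | x.map Sum.inl ++ w.map Sum.inr ∈ U}

end Pool.Agent.H93NG
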