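import Pool.Agent.H93NG.Defs

/-!
# The Dyck language on two pairs of brackets

PROOFS. `Run` is a partial injective function of the stack, so all of this is by induction on the
word. `dyck_pump`: let `x` run from `[]` to `α`. From `x ++ z`, `z` runs from `α` to `[]`; from
`x ++ (y ++ y) ++ z`, `y` runs from `α` to `β`, from `β` to `γ`, and `z` from `γ` to `[]`, so
`γ = α` by injectivity. From `x ++ (y ++ y ++ y) ++ z`: the third `y` runs from `γ = α` to `β`
(it is a function) and `z` from `β` to `[]`. So `x ++ y ++ z` runs from `[]` to `[]`.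
-/

namespace Pool.Agent.H93NG

theorem run_nil_iff {s t : List Bool} : Run [] s t ↔ s = t := by
  constructor
  · intro h
    cases h
    rfl
  · rintro rfl
    exact Run.nil _

theorem run_push_iff {a : Bool} {w : List (Bool × Bool)} {s t : List Bool} :
    Run ((a, true) :: w) s t ↔ Run w (a :: s) t := by
  constructor
  · intro h
    cases h
    assumption
  · exact Run.push

theorem run_pop_iff {a : Bool} {w : List (Bool × Bool)} {s t : List Bool} :
    Run ((a, false) :: w) s t ↔ ∃ s', s = a :: s' ∧ Run w s' t := by
  constructor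
  · intro h
    cases h
    exact ⟨_, rfl, by assumption⟩
  · rintro ⟨s', rfl, h⟩
    exact Run.pop h

theorem run_append {u w : List (Bool × Bool)} {s t : List Bool} :
    Run (u ++ w) s t ↔ ∃ m, Run u s m ∧ Run w m t := by
  induction u generalizing s with
  | nil => simp [run_nil_iff]
  | cons c u ih =>
    obtain ⟨a, b⟩ := c
    cases b
    · simp only [List.cons_append, run_pop_iff, ih]
      constructor
      · rintro ⟨s', hs, m, h1, h2⟩
        exact ⟨m, ⟨s', hs, h1⟩, h2⟩
      · rintro ⟨m, ⟨s', hs, h1⟩, h2⟩
        exact ⟨s', hs, m, h1, h2⟩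
    · simp only [List.cons_append, run_push_iff, ih]

theorem Run.eq {w : List (Bool × Bool)} {s t t' : List Bool} (h : Run w s t) (h' : Run w s t') :
    t = t' := by
  induction h with
  | nil s => exact run_nil_iff.1 h'
  | push _ ih => exact ih (run_push_iff.1 h')
  | pop _ ih =>
    obtain ⟨s', hs, h''⟩ := run_pop_iff.1 h'
    obtain ⟨-, rfl⟩ := List.cons.inj hs
    exact ih h''

theorem Run.inj {w : List (Bool × Bool)} {s s' t : List Bool} (h : Run w s t)
    (h' : Run w s' t) : s = s' := by
  induction h generalizing s' with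
  | nil s => exact (run_nil_iff.1 h').symm
  | push _ ih => exact (List.cons.inj (ih (run_push_iff.1 h'))).2
  | pop _ ih =>
    obtain ⟨s'', rfl, h''⟩ := run_pop_iff.1 h'
    rw [ih h'']

/-- Pushing the word `l` (its first letter ends up on the top). -/
theorem run_push {l : List Bool} {w : List (Bool × Bool)} {s t : List Bool} :
    Run ((l.reverse.map fun a => (a, true)) ++ w) s t ↔ Run w (l ++ s) t := by
  induction l generalizing w with
  | nil => simp
  | cons a l ih =>
    rw [List.reverse_cons, List.map_append, List.append_assoc, ih]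
    simp [run_push_iff]

/-- Popping the word `l`. -/
theorem run_pop {l : List Bool} {w : List (Bool × Bool)} {s t : List Bool} :
    Run ((l.map fun a => (a, false)) ++ w) s t ↔ ∃ s', s = l ++ s' ∧ Run w s' t := by
  induction l generalizing s with
  | nil => simp
  | cons a l ih =>
    simp only [List.map_cons, List.cons_append, run_pop_iff, ih]
    constructor
    · rintro ⟨s', rfl, s'', rfl, h⟩
      exact ⟨s'', rfl, h⟩
    · rintro ⟨s'', rfl, h⟩
      exact ⟨_, rfl, s'', rfl, h⟩

/-- A run is still a run above a deeper stack. -/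
theorem Run.frame {w : List (Bool × Bool)} {s t : List Bool} (h : Run w s t) (r : List Bool) :
    Run w (s ++ r) (t ++ r) := by
  induction h with
  | nil s => exact Run.nil _
  | push _ ih => exact Run.push ih
  | pop _ ih => exact Run.pop ih

/-- `n` opening brackets and `k` closing brackets of one kind. -/
theorem dyck_count (n k : ℕ) :
    List.replicate n (false, true) ++ List.replicate k (false, false) ∈ Dyck2 ↔ n = k := by
  have h1 : List.replicate n ((false, true) : Bool × Bool) =
      ((List.replicate n false).reverse.map fun a => (a, true)) := by simp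
  have h2 : List.replicate k ((false, false) : Bool × Bool) =
      ((List.replicate k false).map fun a => (a, false)) ++ [] := by simp
  change Run _ [] [] ↔ _
  rw [h1, run_push, h2, run_pop]
  simp only [run_nil_iff, List.append_nil]
  constructor
  · rintro ⟨s', h, rfl⟩
    have := congrArg List.length h
    simpa using this
  · rintro rfl
    exact ⟨[], by simp, rfl⟩

theorem dyck_pump {x y z : List (Bool × Bool)} (h0 : x ++ z ∈ Dyck2)
    (h2 : x ++ (y ++ y) ++ z ∈ Dyck2) (h3 : x ++ (y ++ y ++ y) ++ z ∈ Dyck2) :
    x ++ y ++ z ∈ Dyck2 := by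
  obtain ⟨α, hx, hz⟩ := run_append.1 h0
  obtain ⟨γ, hxyy, hz'⟩ := run_append.1 h2
  obtain ⟨α', hx', hyy⟩ := run_append.1 hxyy
  obtain rfl := hx.eq hx'
  obtain ⟨β, hy, hy'⟩ := run_append.1 hyy
  obtain rfl := hz.inj hz'
  obtain ⟨β', hxyyy, hz''⟩ := run_append.1 h3
  obtain ⟨α'', hx'', hyyy⟩ := run_append.1 hxyyy
  obtain rfl := hx.eq hx''
  obtain ⟨γ', hyy', hy''⟩ := run_append.1 hyyy
  obtain rfl := hyy.eq hyy'
  obtain rfl := hy.eq hy''
  exact run_append.2 ⟨β, run_append.2 ⟨α, hx, hy⟩, hz''⟩

end Pool.Agent.H93NG
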