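import Pool.Agent.H93NG.Defs

/-!
# Histories are rigid, and few of them have short blocks
-/

namespace Pool.Agent.H93NG

private theorem rules_seg {d : ℕ} {J : Type} (x : Fin d → ℕ) :
    (seg x : List (Fin d ⊕ J)).filterMap Sum.getRight? = [] := by
  rw [List.filterMap_eq_nil_iff]
  intro a ha
  simp only [seg, List.mem_flatMap, List.mem_replicate] at ha
  obtain ⟨i, -, -, rfl⟩ := ha
  rfl

private theorem rel_det {d : ℕ} (r : ARule d) {x y y' : Fin d → ℕ} (h : r.Rel x y)
    (h' : r.Rel x y') : y = y' := by
  funext i
  obtain ⟨u, h1, h2⟩ := h i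
  obtain ⟨u', h1', h2'⟩ := h' i
  have h3 : r.p i * u = r.p i * u' := by omega
  have h4 : u = u' := Nat.eq_of_mul_eq_mul_left (r.hp i) h3
  rw [h2, h2', h4]

private theorem hist_det (S : Sys) {x : Fin S.d → ℕ} {h : List S.H} (hh : Hist S x h) :
    ∀ {h' : List S.H}, Hist S x h' →
      h.filterMap Sum.getRight? = h'.filterMap Sum.getRight? → h = h' := by
  induction hh with
  | nil =>
    intro h' hh' e
    cases hh' with
    | nil => rfl
    | step h1 h2 => exact absurd h1 (S.zero _ _)
  | @step j x y h h1 h2 ih =>
    intro h' hh' e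
    cases hh' with
    | nil => exact absurd h1 (S.zero _ _)
    | @step j' _ y' h' h1' h2' =>
      simp only [List.filterMap_append, rules_seg, List.nil_append, List.filterMap_cons,
        Sum.getRight?_inr, List.cons.injEq] at e
      obtain ⟨rfl, e⟩ := e
      obtain rfl := rel_det _ h1 h1'
      rw [ih h2' e]

theorem valid_rigid (S : Sys) (i : Fin S.d) (p s : List S.H) (k k' : ℕ)
    (h : S.Valid (p ++ List.replicate k (Sum.inl i) ++ s))
    (h' : S.Valid (p ++ List.replicate k' (Sum.inl i) ++ s)) : k = k' := by
  have h1 := hist_det S h h' (by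
    simp only [List.filterMap_append]
    congr 2
    rw [List.filterMap_eq_nil_iff.2, List.filterMap_eq_nil_iff.2]
    · intro a ha
      rw [List.eq_of_mem_replicate ha]
      rfl
    · intro a ha
      rw [List.eq_of_mem_replicate ha]
      rfl)
  have h2 := congrArg List.length h1
  simp only [List.length_append, List.length_replicate] at h2
  omega

private theorem seg_zero {d : ℕ} {J : Type} : (seg (0 : Fin d → ℕ) : List (Fin d ⊕ J)) = [] := by
  simp [seg]

private theorem replicate_infix_seg {d : ℕ} {J : Type} (x : Fin d → ℕ) (i : Fin d) :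
    List.replicate (x i) (Sum.inl i) <:+: (seg x : List (Fin d ⊕ J)) := by
  have h := List.mem_finRange i
  obtain ⟨a, b, hab⟩ := List.append_of_mem h
  refine ⟨a.flatMap fun i => List.replicate (x i) (Sum.inl i),
    b.flatMap fun i => List.replicate (x i) (Sum.inl i), ?_⟩
  simp [seg, hab]

private theorem length_seg {d : ℕ} {J : Type} (x : Fin d → ℕ) (n : ℕ) (h : ∀ i, x i ≤ n) :
    (seg x : List (Fin d ⊕ J)).length ≤ d * n := by
  have key : ∀ l : List (Fin d), (l.flatMap fun i => List.replicate (x i)
      (Sum.inl i : Fin d ⊕ J)).length ≤ l.length * n := by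
    intro l
    induction l with
    | nil => simp
    | cons a l ih =>
      rw [List.flatMap_cons, List.length_append, List.length_replicate, List.length_cons,
        Nat.add_mul]
      have := h a
      omega
  simpa [seg] using key (List.finRange d)

private theorem hist_short (S : Sys) (n : ℕ) {x : Fin S.d → ℕ} {h : List S.H}
    (hh : Hist S x h) (hs : ∀ i : Fin S.d, ¬ List.replicate (n + 1) (Sum.inl i) <:+: h) :
    x = 0 ∧ h = [] ∨ ∃ k : ℕ, k + x S.tm ≤ n + 1 ∧ h.length ≤ k * (S.d * n + 1) := by
  induction hh with
  | nil => left; exact ⟨rfl, rfl⟩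
  | @step j x y h h1 h2 ih =>
    right
    have hx : ∀ i, x i ≤ n := by
      intro i
      by_contra hc
      apply hs i
      refine List.IsInfix.trans ?_ (List.prefix_append _ _).isInfix
      refine List.IsInfix.trans ?_ (replicate_infix_seg x i)
      refine ⟨[], List.replicate (x i - (n + 1)) (Sum.inl i), ?_⟩
      rw [List.nil_append, ← List.replicate_add]
      have : n + 1 + (x i - (n + 1)) = x i := by omega
      rw [this]
    have hl : (seg x : List S.H).length ≤ S.d * n := length_seg x n hx
    have hs' : ∀ i : Fin S.d, ¬ List.replicate (n + 1) (Sum.inl i) <:+: h := by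
      intro i hi
      exact hs i (hi.trans ((List.suffix_cons _ _).isInfix.trans (List.suffix_append _ _).isInfix))
    rcases ih hs' with ⟨rfl, rfl⟩ | ⟨k, hk1, hk2⟩
    · refine ⟨1, ?_, ?_⟩
      · have := hx S.tm
        omega
      · simp only [List.length_append, List.length_cons, List.length_nil]
        omega
    · rcases S.time _ _ _ h1 with h3 | h3
      · subst h3
        cases h2 with
        | nil =>
          refine ⟨1, ?_, ?_⟩
          · have := hx S.tm
            omega
          · simp only [List.length_append, List.length_cons, List.length_nil]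
            omega
        | step h4 _ => exact absurd h4 (S.zero _ _)
      · refine ⟨k + 1, by omega, ?_⟩
        simp only [List.length_append, List.length_cons]
        rw [Nat.add_mul]
        omega

theorem valid_short_finite (S : Sys) (n : ℕ) :
    {h : List S.H | S.Valid h ∧ ∀ i : Fin S.d,
      ¬ List.replicate (n + 1) (Sum.inl i) <:+: h}.Finite := by
  have := S.fin
  refine (List.finite_length_le S.H ((n + 1) * (S.d * n + 1))).subset ?_
  rintro h ⟨h1, h2⟩
  rcases hist_short S n h1 h2 with ⟨-, rfl⟩ | ⟨k, hk1, hk2⟩
  · simp
  · refine hk2.trans (Nat.mul_le_mul_right _ (by omega))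

end Pool.Agent.H93NG
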