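import Pool.Agent.H93NG.HistB

/-!
# The words that are not valid histories form an image of the Dyck language

`not_valid_iff` gives four kinds of errors; the first three are regular, and the fourth is a
regular language times a preimage of the language of `dom_bad` times a regular language.
-/

namespace Pool.Agent.H93NG

private theorem beq_inl {α β : Type} [BEq α] [BEq β] (a b : α) :
    ((Sum.inl a : α ⊕ β) == Sum.inl b) = (a == b) := rfl
private theorem beq_inr {α β : Type} [BEq α] [BEq β] (a b : β) :
    ((Sum.inr a : α ⊕ β) == Sum.inr b) = (a == b) := rfl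
private theorem beq_lr {α β : Type} [BEq α] [BEq β] (a : α) (b : β) :
    ((Sum.inl a : α ⊕ β) == Sum.inr b) = false := rfl
private theorem beq_rl {α β : Type} [BEq α] [BEq β] (a : α) (b : β) :
    ((Sum.inr b : α ⊕ β) == Sum.inl a) = false := rfl

private instance lawfulSumC {α β : Type} [BEq α] [BEq β] [LawfulBEq α] [LawfulBEq β] :
    LawfulBEq (α ⊕ β) where
  eq_of_beq {a b} h := by
    cases a <;> cases b
    · rw [beq_inl] at h; rw [eq_of_beq h]
    · rw [beq_lr] at h; exact absurd h (by simp)
    · rw [beq_rl] at h; exact absurd h (by simp)
    · rw [beq_inr] at h; rw [eq_of_beq h]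
  rfl {a} := by
    cases a
    · rw [beq_inl]; exact beq_self_eq_true _
    · rw [beq_inr]; exact beq_self_eq_true _

private theorem flatMap_single' {α : Type} (l : List α) : l.flatMap (fun a => [a]) = l := by
  induction l with
  | nil => rfl
  | cons a l ih => rw [List.flatMap_cons, ih]; rfl

/-- Preimages. -/
private theorem dom_pre {A B C : Type} [Finite A] [Finite B] [Finite C] {L : Language A}
    {M : Language B} (h : Dom L M) (g : C → List B) :
    Dom L ({w | w.flatMap g ∈ M} : Language C) := by
  have h1 := h.trans (dom_quot M [] [] g (fun c => [c]))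
  convert h1 using 1
  ext w
  simp only [flatMap_single', List.nil_append, List.append_nil]
  constructor
  · intro hw
    exact ⟨w, hw, rfl⟩
  · rintro ⟨w, hw, rfl⟩
    exact hw

private theorem isRegular_err1 (S : Sys) [Finite S.J] :
    Language.IsRegular ({h | S.Err1 h} : Language S.H) := by
  have h := isRegular_factor (Z := S.H)
    {f | ∃ i i' : Fin S.d, i' < i ∧ f = [Sum.inl i, Sum.inl i']} 2
    (by rintro f ⟨i, i', -, rfl⟩; simp)
  convert h using 1
  ext z
  constructor
  · rintro ⟨i, i', h1, h2⟩
    exact ⟨_, ⟨i, i', h1, rfl⟩, h2⟩
  · rintro ⟨_, ⟨i, i', h1, rfl⟩, h2⟩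
    exact ⟨i, i', h1, h2⟩

private theorem takeWhile_take {α : Type} (p : α → Bool) (l : List α) (n : ℕ) :
    (l.take n).takeWhile p = (l.takeWhile p).take n := by
  induction l generalizing n with
  | nil => simp
  | cons a l ih =>
    cases n with
    | zero => simp
    | succ n =>
      rw [List.take_succ_cons, List.takeWhile_cons, List.takeWhile_cons]
      split_ifs with h
      · rw [List.take_succ_cons, ih]
      · simp

private theorem isRegular_err2 (S : Sys) [Finite S.J] :
    Language.IsRegular ({h | S.Err2 h} : Language S.H) := by
  have h := isRegular_take (Z := S.H) ((seg S.init : List S.H).length + 1)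
    {f | f.takeWhile Sum.isLeft ≠ seg S.init}
  convert h using 1
  ext z
  change (z.takeWhile Sum.isLeft ≠ seg S.init) ↔
    ((z.take ((seg S.init : List S.H).length + 1)).takeWhile Sum.isLeft ≠ seg S.init)
  rw [takeWhile_take, not_iff_not]
  constructor
  · intro h
    rw [h, List.take_of_length_le (by omega)]
  · intro h
    have h1 : (z.takeWhile Sum.isLeft).length ≤ (seg S.init : List S.H).length := by
      have h2 := congrArg List.length h
      rw [List.length_take] at h2
      omega
    rw [List.take_of_length_le (by omega)] at h
    exact h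

private theorem isRegular_err3 (S : Sys) [Finite S.J] :
    Language.IsRegular ({h | S.Err3 h} : Language S.H) := by
  exact isRegular_last (Z := S.H) {o | ∃ i : Fin S.d, o = some (Sum.inl i)}

section err4

open Classical in
/-- The morphism reading the coordinate `i` and the rule `j`. -/
private noncomputable def rg (S : Sys) (j : S.J) (i : Fin S.d) : S.H → List Bool
  | Sum.inl i' => if i' = i then [false] else []
  | Sum.inr j' => if j' = j then [true] else [true, true]

open Classical in
private theorem rg_block (S : Sys) (j : S.J) (i : Fin S.d) (X : List S.H)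
    (hX : ∀ a ∈ X, a.isLeft) :
    X.flatMap (rg S j i) = List.replicate (X.count (Sum.inl i)) false := by
  induction X with
  | nil => simp
  | cons a X ih =>
    rw [List.flatMap_cons, ih (fun b hb => hX b (List.mem_cons_of_mem _ hb))]
    cases a with
    | inr j' => exact absurd (hX _ (List.mem_cons_self ..)) (by simp)
    | inl i' =>
      by_cases h : i' = i
      · subst h
        rw [List.count_cons_self, List.replicate_succ]
        simp [rg]
      · have h' : (Sum.inl i' : S.H) ≠ Sum.inl i := fun e => h (Sum.inl_injective e)
        rw [List.count_cons_of_ne h']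
        simp [rg, h]

private theorem split_first {α : Type} (p : α → Bool) (l : List α) :
    (∀ a ∈ l, p a) ∨ ∃ X b Y, l = X ++ b :: Y ∧ (∀ a ∈ X, p a) ∧ p b = false := by
  induction l with
  | nil => left; simp
  | cons a l ih =>
    by_cases h : p a = true
    · rcases ih with ih | ⟨X, b, Y, rfl, h1, h2⟩
      · left
        intro b hb
        rcases List.mem_cons.1 hb with rfl | hb
        · exact h
        · exact ih b hb
      · right
        refine ⟨a :: X, b, Y, rfl, ?_, h2⟩
        intro b hb
        rcases List.mem_cons.1 hb with rfl | hb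
        · exact h
        · exact h1 b hb
    · right
      exact ⟨[], a, l, rfl, by simp, by simpa using h⟩

open Classical in
private theorem mem_mid (S : Sys) (j : S.J) (i : Fin S.d) (w : List S.H) (P : ℕ → ℕ → Prop) :
    (∃ x y : ℕ, P x y ∧ w.flatMap (rg S j i) =
      List.replicate x false ++ true :: List.replicate y false) ↔
    ∃ X Y : List S.H, w = X ++ Sum.inr j :: Y ∧ (∀ a ∈ X, a.isLeft) ∧ (∀ a ∈ Y, a.isLeft) ∧
      P (X.count (Sum.inl i)) (Y.count (Sum.inl i)) := by
  constructor
  · rintro ⟨x, y, hP, e⟩
    rcases split_first Sum.isLeft w with h | ⟨X, b, Y, rfl, h1, h2⟩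
    · rw [rg_block S j i w h] at e
      have : true ∈ List.replicate (w.count (Sum.inl i)) false := by
        rw [e]
        simp
      simp at this
    · cases b with
      | inl i' => simp at h2
      | inr j' =>
        rw [List.flatMap_append, List.flatMap_cons, rg_block S j i X h1] at e
        have hc := congrArg (List.count true) e
        by_cases hj : j' = j
        · subst hj
          simp only [rg, if_true] at e
          rcases split_first Sum.isLeft Y with h | ⟨X', b, Y', rfl, h3, h4⟩
          · rw [rg_block S j' i Y h] at e
            have e1 : List.replicate (X.count (Sum.inl i)) false ++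
                true :: List.replicate (Y.count (Sum.inl i)) false =
                List.replicate x false ++ true :: List.replicate y false := e
            have hx : X.count (Sum.inl i) = x ∧ Y.count (Sum.inl i) = y := by
              have h5 := (List.append_cons_inj_of_notMem (by simp) (by simp)).1 e1
              have h6 := congrArg List.length h5.1
              have h7 := congrArg List.length h5.2.2
              simp only [List.length_replicate] at h6 h7
              exact ⟨h6, h7⟩
            refine ⟨X, Y, rfl, h1, h, ?_⟩
            rw [hx.1, hx.2]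
            exact hP
          · exfalso
            cases b with
            | inl i' => simp at h4
            | inr j'' =>
              simp only [List.count_append, List.count_cons, List.count_replicate,
                List.flatMap_append, List.flatMap_cons, rg] at hc
              split_ifs at hc <;> simp_all
        · exfalso
          simp only [List.count_append, List.count_replicate, rg, hj, if_false,
            List.count_cons] at hc
          simp at hc
          omega
  · rintro ⟨X, Y, rfl, h1, h2, h3⟩
    refine ⟨_, _, h3, ?_⟩
    rw [List.flatMap_append, List.flatMap_cons, rg_block S j i X h1, rg_block S j i Y h2]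
    simp [rg]

private theorem isRegular_notLeftLast (S : Sys) [Finite S.J] :
    Language.IsRegular ({α | ∀ a, α.getLast? = some a → a.isRight} : Language S.H) := by
  exact isRegular_last (Z := S.H) {o | ∀ a, o = some a → a.isRight}

private theorem isRegular_notLeftHead (S : Sys) [Finite S.J] :
    Language.IsRegular ({α | ∀ a, α.head? = some a → a.isRight} : Language S.H) := by
  have h := isRegular_take (Z := S.H) 1 {o | ∀ a, o.head? = some a → a.isRight}
  convert h using 1
  ext z
  cases z with
  | nil => exact Iff.rfl
  | cons a z => exact Iff.rfl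

private theorem dom_err4 (S : Sys) [Finite S.J] (j : S.J) (i : Fin S.d) :
    Dom Dyck2 ({h | S.Err4 j i h} : Language S.H) := by
  have h1 := dom_pre (dom_bad ((S.rule j).p i) ((S.rule j).q i) ((S.rule j).a i)
    ((S.rule j).b i) ((S.rule j).hp i)) (rg S j i)
  have h2 := (h1.concat_right (isRegular_notLeftHead S)).concat_left (isRegular_notLeftLast S)
  convert h2 using 1
  ext z
  constructor
  · rintro ⟨α, X, Y, β, rfl, hX, hY, hα, hβ, hb⟩
    refine ⟨α, hα, _, ⟨X ++ Sum.inr j :: Y, ?_, β, hβ, rfl⟩, by simp⟩
    exact (mem_mid S j i _ _).2 ⟨X, Y, rfl, hX, hY, hb⟩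
  · rintro ⟨α, hα, _, ⟨m, hm, β, hβ, rfl⟩, rfl⟩
    obtain ⟨X, Y, rfl, hX, hY, hb⟩ := (mem_mid S j i m _).1 hm
    exact ⟨α, X, Y, β, by simp, hX, hY, hα, hβ, hb⟩

end err4

theorem dom_not_valid (S : Sys) : Dom Dyck2 ({h | ¬ S.Valid h} : Language S.H) := by
  have := S.fin
  have h0 : ([] : List (Bool × Bool)) ∈ Dyck2 := Run.nil []
  have h1 : Dom Dyck2 ({h | S.Err1 h} : Language S.H) := dom_regular h0 (isRegular_err1 S)
  have h2 : Dom Dyck2 ({h | S.Err2 h} : Language S.H) := dom_regular h0 (isRegular_err2 S)
  have h3 : Dom Dyck2 ({h | S.Err3 h} : Language S.H) := dom_regular h0 (isRegular_err3 S)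
  have h4 : Dom Dyck2 ({h | ∃ ji : S.J × Fin S.d, h ∈ ({h | S.Err4 ji.1 ji.2 h} :
      Language S.H)} : Language S.H) := Dom.iUnion fun ji => dom_err4 S ji.1 ji.2
  have h5 := h1.union (h2.union (h3.union h4))
  convert h5 using 1
  ext z
  refine (not_valid_iff S z).trans ?_
  constructor
  · rintro (h | h | h | ⟨j, i, h⟩)
    · exact Or.inl h
    · exact Or.inr (Or.inl h)
    · exact Or.inr (Or.inr (Or.inl h))
    · exact Or.inr (Or.inr (Or.inr ⟨(j, i), h⟩))
  · rintro (h | h | h | ⟨⟨j, i⟩, h⟩)
    · exact Or.inl h
    · exact Or.inr (Or.inl h)
    · exact Or.inr (Or.inr (Or.inl h))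
    · exact Or.inr (Or.inr (Or.inr ⟨j, i, h⟩))

end Pool.Agent.H93NG
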