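import Pool.Agent.H93NG.Code
import Pool.Agent.H93NG.HistA
import Pool.Agent.NB.Machine

/-!
# A recursively enumerable set of words is the set of emissions of a system

PROOF. Take the code `c` of `exists_code`. As in `Pool/Agent/NB/Machine.lean`, the states
`Qf = stateSet c` (finite), `nm : Option St × Option Γ' → ℕ` injective on them; here shift it so
that `1 ≤ nm s < N₀` for all `s`, `N = N₀ + 1`. Coordinates `Fin 6`: state, four stacks (base 5
without digit 0), time. `x 0 = N₀` is the state of the guessing phase.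
Rules (`J = (Qf × Option Γ') ⊕ Bool ⊕ Unit ⊕ Option Γ'`, `p, q, a, b` for each coordinate):
* `(st, a)`: the rule `NB.ruleAt N nm hN st a` on the first five coordinates (`Fin.snoc`), time
  `u ↦ u + 1` (`p = q = 1, a = 0, b = 1`); emits `[]`.
* `push bit`: state `N₀ + N u ↦ N₀ + N u`, main stack `u ↦ 5 u + (3 + bit)`, other stacks fixed
  (`u ↦ u`), time `+ 1`; emits `[bit]`.
* `start`: state `N₀ + N u ↦ nm (start state of c) + N u`, stacks fixed, time `+ 1`; emits `[]`.
* `halt v`: state `nm (none, v) + N u ↦ 0` (`q = 0, b = 0`), all other coordinates `u ↦ 0`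
  (`p = 1, a = 0, q = 0, b = 0`); emits `[]`.
-/

namespace Pool.Agent.H93NG

open Turing Turing.PartrecToTM2 Relation

/-- An integer rule on five coordinates and a clock. -/
def ofRule (r : NB.Rule 5) : ARule 6 where
  p := Fin.snoc (α := fun _ => ℕ) r.p 1
  q := Fin.snoc (α := fun _ => ℕ) r.q 1
  a := Fin.snoc (α := fun _ => ℕ) r.a 0
  b := Fin.snoc (α := fun _ => ℕ) r.b 1
  hp := by
    intro i
    refine Fin.lastCases ?_ (fun i => ?_) i
    · rw [Fin.snoc_last]; exact one_pos
    · rw [Fin.snoc_castSucc]; exact lt_of_le_of_lt (Nat.zero_le _) (r.ha i)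

theorem ofRule_rel {r : NB.Rule 5} {x y : Fin 6 → ℕ} :
    (ofRule r).Rel x y ↔ (∃ u : Fin 5 → ℤ, (fun i : Fin 5 => (x i.castSucc : ℤ)) = r.src u ∧
      (fun i : Fin 5 => (y i.castSucc : ℤ)) = r.tgt u) ∧ y (Fin.last 5) = x (Fin.last 5) + 1 := by
  constructor
  · intro h
    refine ⟨?_, ?_⟩
    · choose u hu using h
      refine ⟨fun i => (u i.castSucc : ℤ), ?_, ?_⟩
      · funext i
        have h1 := (hu i.castSucc).1
        simp only [ofRule, Fin.snoc_castSucc] at h1
        simp only [NB.Rule.src]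
        rw [h1]
        push_cast
        ring
      · funext i
        have h1 := (hu i.castSucc).2
        simp only [ofRule, Fin.snoc_castSucc] at h1
        simp only [NB.Rule.tgt]
        rw [h1]
        push_cast
        ring
    · obtain ⟨u, h1, h2⟩ := h (Fin.last 5)
      simp only [ofRule, Fin.snoc_last] at h1 h2
      omega
  · rintro ⟨⟨u, h1, h2⟩, h3⟩ i
    refine Fin.lastCases ?_ (fun i => ?_) i
    · refine ⟨x (Fin.last 5), ?_, ?_⟩
      · simp only [ofRule, Fin.snoc_last]; omega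
      · simp only [ofRule, Fin.snoc_last]; omega
    · have h4 := congrFun h1 i
      have h5 := congrFun h2 i
      simp only [NB.Rule.src, NB.Rule.tgt] at h4 h5
      have h6 := r.ha i
      have h7 : 0 ≤ u i := by
        by_contra hneg
        have h8 : u i ≤ -1 := by omega
        have h9 : (r.p i : ℤ) * u i ≤ -(r.p i : ℤ) := by nlinarith
        have h10 : (0 : ℤ) ≤ (x i.castSucc : ℤ) := Int.natCast_nonneg _
        omega
      obtain ⟨v, hv⟩ := Int.eq_ofNat_of_zero_le h7
      rw [hv] at h4 h5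
      refine ⟨v, ?_, ?_⟩
      · simp only [ofRule, Fin.snoc_castSucc]
        exact_mod_cast h4
      · simp only [ofRule, Fin.snoc_castSucc]
        exact_mod_cast h5

/-- The halting rule at the state `s`. -/
def haltRule (N s : ℕ) (hN : 0 < N) : ARule 6 where
  p := Fin.cons (α := fun _ => ℕ) N (fun _ => 1)
  q := 0
  a := Fin.cons (α := fun _ => ℕ) s (fun _ => 0)
  b := 0
  hp := by
    intro i
    refine Fin.cases ?_ (fun i => ?_) i
    · rw [Fin.cons_zero]; exact hN
    · rw [Fin.cons_succ]; exact one_pos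

theorem haltRule_rel {N s : ℕ} {hN : 0 < N} {x y : Fin 6 → ℕ} :
    (haltRule N s hN).Rel x y ↔ (∃ u : ℕ, x 0 = s + N * u) ∧ y = 0 := by
  constructor
  · intro h
    refine ⟨?_, ?_⟩
    · obtain ⟨u, h1, -⟩ := h 0
      exact ⟨u, h1⟩
    · funext i
      obtain ⟨u, -, h2⟩ := h i
      simpa [haltRule] using h2
  · rintro ⟨⟨u, h1⟩, rfl⟩ i
    refine Fin.cases ?_ (fun i => ?_) i
    · exact ⟨u, h1, by simp [haltRule]⟩
    · refine ⟨x i.succ, ?_, ?_⟩
      · simp [haltRule]
      · simp [haltRule]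

/-- A vector from the state, the stacks and the time. -/
def V6 (s : ℕ) (f : K' → ℕ) (t : ℕ) : Fin 6 → ℕ := Fin.snoc (α := fun _ => ℕ) (NB.mk5 s f) t

theorem V6_zero (s : ℕ) (f : K' → ℕ) (t : ℕ) : V6 s f t 0 = s := by
  have h : (0 : Fin 6) = Fin.castSucc 0 := rfl
  rw [V6, h, Fin.snoc_castSucc]
  rfl

theorem V6_last (s : ℕ) (f : K' → ℕ) (t : ℕ) : V6 s f t (Fin.last 5) = t := by
  rw [V6, Fin.snoc_last]

theorem V6_cast (s : ℕ) (f : K' → ℕ) (t : ℕ) :
    (fun i : Fin 5 => (V6 s f t i.castSucc : ℤ)) = NB.mk5 (s : ℤ) (fun k => (f k : ℤ)) := by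
  apply NB.ext5
  · simp only [V6, Fin.snoc_castSucc, NB.mk5_zero]
  · intro k
    simp only [V6, Fin.snoc_castSucc, NB.mk5_idx]

theorem eq_V6 {y : Fin 6 → ℕ} {s : ℕ} {f : K' → ℕ} {t : ℕ}
    (h : (fun i : Fin 5 => (y i.castSucc : ℤ)) = NB.mk5 (s : ℤ) (fun k => (f k : ℤ)))
    (ht : y (Fin.last 5) = t) : y = V6 s f t := by
  rw [← V6_cast s f t] at h
  funext i
  refine Fin.lastCases ?_ (fun i => ?_) i
  · rw [V6_last, ht]
  · exact_mod_cast congrFun h i

theorem emit_seg {S : Sys} (x : Fin S.d → ℕ) : S.emit (seg x) = [] := by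
  simp only [Sys.emit, seg, List.flatMap_eq_nil_iff, List.mem_flatMap]
  rintro a ⟨i, -, hi⟩
  rw [List.eq_of_mem_replicate hi]
  rfl

theorem emit_step {S : Sys} (x : Fin S.d → ℕ) (j : S.J) (h : List S.H) :
    S.emit (seg x ++ Sum.inr j :: h) = S.em j ++ S.emit h := by
  have h1 : S.emit (seg x ++ Sum.inr j :: h) = S.emit (seg x) ++ S.emit (Sum.inr j :: h) := by
    simp only [Sys.emit, List.flatMap_append]
  rw [h1, emit_seg]
  simp only [Sys.emit, List.flatMap_cons, Sum.elim_inr, List.nil_append]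

section machine

variable (c : ToPartrec.Code)

/-- The finite set of states. -/
noncomputable def Qf : Finset (Option NB.St × Option Γ') := (NB.stateSet_finite c).toFinset

theorem mem_Qf {c : ToPartrec.Code} {s : Option NB.St × Option Γ'} :
    s ∈ Qf c ↔ s ∈ NB.stateSet c := by simp [Qf]

theorem exists_nm : ∃ nm : Option NB.St × Option Γ' → ℕ, Set.InjOn nm (NB.stateSet c) ∧
    (∀ s, nm s < (Qf c).card + 1) ∧ ∀ s, 0 < nm s := by
  obtain ⟨num, hinj, hlt, -⟩ := NB.exists_num (Qf c) (none, none) (mem_Qf.2 (NB.halt_mem c none))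
  refine ⟨fun s => num s + 1, ?_, ?_, ?_⟩
  · intro s hs t ht h
    exact hinj (mem_Qf.2 hs) (mem_Qf.2 ht) (by simpa using h)
  · intro s
    simpa using hlt s
  · intro s
    exact Nat.succ_pos _

/-- The numbers of the states. -/
noncomputable def nm : Option NB.St × Option Γ' → ℕ := (exists_nm c).choose

theorem nm_inj : Set.InjOn (nm c) (NB.stateSet c) := (exists_nm c).choose_spec.1

/-- The guessing state. -/
noncomputable def N0 : ℕ := (Qf c).card + 1

theorem nm_lt (s : Option NB.St × Option Γ') : nm c s < N0 c := (exists_nm c).choose_spec.2.1 s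

theorem nm_pos (s : Option NB.St × Option Γ') : 0 < nm c s := (exists_nm c).choose_spec.2.2 s

theorem nm_lt' (s : Option NB.St × Option Γ') : nm c s < N0 c + 1 := (nm_lt c s).trans (by omega)

theorem closed : NB.Closed (nm c) (NB.stateSet c) :=
  ⟨nm_inj c, fun C C' hC h => NB.step_closed c C C' hC h⟩

/-- The first state of the machine. -/
def s0 : Option NB.St × Option Γ' := (some (tr (trNormal c Cont'.halt)), none)

theorem ruleAt_zero {N : ℕ} {num : Option NB.St × Option Γ' → ℕ} {hN : ∀ s, num s < N}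
    (st : Option NB.St × Option Γ') (a : Option Γ') :
    (NB.ruleAt N num hN st a).a 0 = num st ∧ (NB.ruleAt N num hN st a).p 0 = N := by
  obtain ⟨s, v⟩ := st
  rcases s with _ | s
  · exact ⟨rfl, rfl⟩
  cases s with
  | push k f q => exact ⟨rfl, rfl⟩
  | peek k f q => exact ⟨rfl, rfl⟩
  | pop k f q =>
    cases a with
    | none => exact ⟨rfl, rfl⟩
    | some g => exact ⟨rfl, rfl⟩
  | load f q => exact ⟨rfl, rfl⟩
  | branch f q₁ q₂ => exact ⟨rfl, rfl⟩
  | goto f => exact ⟨rfl, rfl⟩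
  | halt => exact ⟨rfl, rfl⟩

theorem bit_lt (b : Bool) : 3 + b.toNat < 5 := by
  cases b <;> decide

/-- The names of the rules. -/
abbrev JJ : Type := (Qf c × Option Γ') ⊕ (Bool ⊕ (Unit ⊕ Option Γ'))

/-- The rules. -/
noncomputable def theRule : JJ c → ARule 6
  | Sum.inl sa => ofRule (NB.ruleAt (N0 c + 1) (nm c) (nm_lt' c) sa.1.1 sa.2)
  | Sum.inr (Sum.inl b) => ofRule (NB.srule (N0 c + 1) (N0 c) (N0 c) (by omega) (by omega)
      K'.main 1 0 5 (3 + b.toNat) (by norm_num) (bit_lt b))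
  | Sum.inr (Sum.inr (Sum.inl _)) => ofRule (NB.srule (N0 c + 1) (N0 c) (nm c (s0 c)) (by omega)
      (nm_lt' c _) K'.main 1 0 1 0 (by norm_num) (by norm_num))
  | Sum.inr (Sum.inr (Sum.inr v)) => haltRule (N0 c + 1) (nm c (none, v)) (by omega)

/-- The emissions. -/
def theEm : JJ c → List Bool
  | Sum.inl _ => []
  | Sum.inr (Sum.inl b) => [b]
  | Sum.inr (Sum.inr _) => []

/-- The vector of a configuration. -/
noncomputable def Mc (C : NB.SCfg) (t : ℕ) : Fin 6 → ℕ :=
  V6 (nm c (C.1, C.2.1)) (fun j => NB.enc (C.2.2 j)) t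

/-- The vector of the guessing phase. -/
noncomputable def Gc (x : List Bool) (t : ℕ) : Fin 6 → ℕ :=
  V6 (N0 c) (fun j => NB.enc (K'.elim (trList [num x]) [] [] [] j)) t

theorem theRule_time (j : JJ c) (x y : Fin 6 → ℕ) (h : (theRule c j).Rel x y) :
    y = 0 ∨ y (Fin.last 5) = x (Fin.last 5) + 1 := by
  rcases j with sa | b | u | v
  · exact Or.inr (ofRule_rel.1 h).2
  · exact Or.inr (ofRule_rel.1 h).2
  · exact Or.inr (ofRule_rel.1 h).2
  · exact Or.inl ((haltRule_rel (N := N0 c + 1) (s := nm c (none, v)) (hN := by omega)).1 h).2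

/-- The state needed by a rule. -/
noncomputable def src0 : JJ c → ℕ
  | Sum.inl sa => nm c sa.1.1
  | Sum.inr (Sum.inl _) => N0 c
  | Sum.inr (Sum.inr (Sum.inl _)) => N0 c
  | Sum.inr (Sum.inr (Sum.inr v)) => nm c (none, v)

theorem src0_le (j : JJ c) : src0 c j ≤ N0 c := by
  rcases j with sa | b | u | v
  · exact (nm_lt c _).le
  · exact le_rfl
  · exact le_rfl
  · exact (nm_lt c _).le

theorem src0_pos (j : JJ c) : 0 < src0 c j := by
  rcases j with sa | b | u | v
  · exact nm_pos c _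
  · exact Nat.succ_pos _
  · exact Nat.succ_pos _
  · exact nm_pos c _

theorem theRule_src0 (j : JJ c) (x y : Fin 6 → ℕ) (h : (theRule c j).Rel x y) :
    ∃ u : ℕ, x 0 = src0 c j + (N0 c + 1) * u := by
  rcases j with sa | b | u | v
  · obtain ⟨u, h1, -⟩ := h 0
    refine ⟨u, ?_⟩
    rw [h1]
    have h2 := ruleAt_zero (hN := nm_lt' c) sa.1.1 sa.2
    change (NB.ruleAt (N0 c + 1) (nm c) (nm_lt' c) sa.1.1 sa.2).a 0 +
      (NB.ruleAt (N0 c + 1) (nm c) (nm_lt' c) sa.1.1 sa.2).p 0 * u = _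
    rw [h2.1, h2.2]
    rfl
  · obtain ⟨u, h1, -⟩ := h 0
    exact ⟨u, h1⟩
  · obtain ⟨u, h1, -⟩ := h 0
    exact ⟨u, h1⟩
  · obtain ⟨u, h1⟩ := ((haltRule_rel (N := N0 c + 1) (s := nm c (none, v)) (hN := by omega)).1 h).1
    exact ⟨u, h1⟩

theorem theRule_zero (j : JJ c) (y : Fin 6 → ℕ) : ¬ (theRule c j).Rel 0 y := by
  intro h
  obtain ⟨u, hu⟩ := theRule_src0 c j 0 y h
  have h1 := src0_pos c j
  simp only [Pi.zero_apply] at hu
  have h2 : 0 ≤ (N0 c + 1) * u := Nat.zero_le _
  omega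

/-- A rule applies only at its state. -/
theorem theRule_state (j : JJ c) (x y : Fin 6 → ℕ) (h : (theRule c j).Rel x y)
    (hx : x 0 ≤ N0 c) : x 0 = src0 c j := by
  obtain ⟨u, hu⟩ := theRule_src0 c j x y h
  rcases Nat.eq_zero_or_pos u with rfl | hpos
  · simpa using hu
  · have h1 : N0 c + 1 ≤ (N0 c + 1) * u := Nat.le_mul_of_pos_right _ hpos
    omega

/-- The system. -/
noncomputable abbrev sys : Sys where
  d := 6
  J := JJ c
  fin := inferInstance
  rule := theRule c
  em := theEm c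
  init := Gc c [] 0
  tm := Fin.last 5
  time := theRule_time c
  zero := theRule_zero c

theorem hstep (j : JJ c) {x y : Fin 6 → ℕ} {h : List (sys c).H} (hr : (theRule c j).Rel x y)
    (hh : Hist (sys c) y h) : Hist (sys c) x (seg x ++ Sum.inr j :: h) :=
  Hist.step (S := sys c) (j := j) hr hh

theorem hind {P : (Fin 6 → ℕ) → List (sys c).H → Prop} (h0 : P 0 [])
    (h1 : ∀ (j : JJ c) (x y : Fin 6 → ℕ) (h : List (sys c).H), (theRule c j).Rel x y →
      Hist (sys c) y h → P y h → P x (seg x ++ Sum.inr j :: h)) {x : Fin 6 → ℕ}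
    {h : List (sys c).H} (hh : Hist (sys c) x h) : P x h := by
  refine Hist.rec (S := sys c) (motive := fun x h _ => P x h) h0 ?_ hh
  intro j x y h hr hh ih
  exact h1 j x y h hr hh ih

theorem hist_zero {h : List (sys c).H} (hh : Hist (sys c) (0 : Fin 6 → ℕ) h) : h = [] := by
  refine hind c (P := fun x h => x = 0 → h = []) (fun _ => rfl) ?_ hh rfl
  intro j x y h hr _ _ hx
  subst hx
  exact absurd hr (theRule_zero c _ _)

theorem Mc_cast (C : NB.SCfg) (t : ℕ) :
    (fun i : Fin 5 => (Mc c C t i.castSucc : ℤ)) = NB.encC (nm c) C := V6_cast _ _ _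

theorem Gc_cast (x : List Bool) (t : ℕ) :
    (fun i : Fin 5 => (Gc c x t i.castSucc : ℤ)) =
      NB.mk5 (N0 c : ℤ) (fun j => (NB.enc (K'.elim (trList [num x]) [] [] [] j) : ℤ)) :=
  V6_cast _ _ _

theorem Mc_cast' (C : NB.SCfg) (t : ℕ) :
    (fun i : Fin 5 => (Mc c C t i.castSucc : ℤ)) =
      NB.mk5 (nm c (C.1, C.2.1) : ℤ) (fun j => (NB.enc (C.2.2 j) : ℤ)) := V6_cast _ _ _

theorem Mc_zero (C : NB.SCfg) (t : ℕ) : Mc c C t 0 = nm c (C.1, C.2.1) := V6_zero _ _ _

theorem Gc_zero (x : List Bool) (t : ℕ) : Gc c x t 0 = N0 c := V6_zero _ _ _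

theorem sstep_none {C : NB.SCfg} : NB.sstep C = none ↔ C.1 = none := by
  obtain ⟨s, v, S⟩ := C
  rcases s with _ | s
  · simp [NB.sstep]
  · cases s <;> simp [NB.sstep]

theorem mem_sstep_of {C C' : NB.SCfg} (h : C' ∈ NB.sstep C) :
    StateTransition.eval NB.sstep C = StateTransition.eval NB.sstep C' :=
  StateTransition.reaches_eval (ReflTransGen.single h)

theorem hist_Mc {y : Fin 6 → ℕ} {h : List (sys c).H} (hh : Hist (sys c) y h) :
    ∀ (C : NB.SCfg) (t : ℕ), y = Mc c C t → (C.1, C.2.1) ∈ NB.stateSet c →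
      (sys c).emit h = [] ∧ (StateTransition.eval NB.sstep C).Dom := by
  refine hind c (P := fun y h => ∀ (C : NB.SCfg) (t : ℕ), y = Mc c C t →
    (C.1, C.2.1) ∈ NB.stateSet c →
      (sys c).emit h = [] ∧ (StateTransition.eval NB.sstep C).Dom) ?_ ?_ hh
  · intro C t hy hC
    have h1 := congrFun hy 0
    rw [Mc_zero] at h1
    have h2 := nm_pos c (C.1, C.2.1)
    rw [← h1] at h2
    exact absurd h2 (by simp)
  · intro j x y h hr hh ih C t hx hC
    subst hx
    have hst := theRule_state c j _ _ hr (by rw [Mc_zero]; exact (nm_lt c _).le)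
    rw [Mc_zero] at hst
    have hem : (sys c).emit (seg (Mc c C t) ++ Sum.inr j :: h) = theEm c j ++ (sys c).emit h :=
      emit_step (S := sys c) (Mc c C t) j h
    rw [hem]
    rcases j with sa | b | u | v
    · obtain ⟨⟨u, h1, h2⟩, h3⟩ := ofRule_rel.1 hr
      rw [Mc_cast] at h1
      obtain ⟨C', h4, h5⟩ := NB.forward (closed c) sa.1.1 (mem_Qf.1 sa.1.2) sa.2 u C hC h1
      have hC' : (C'.1, C'.2.1) ∈ NB.stateSet c := by
        rcases h4 with rfl | h4
        · exact hC
        · exact NB.step_closed c C C' hC h4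
      have h6 := ih C' _ (eq_V6 (h2.trans h5.symm) rfl) hC'
      refine ⟨h6.1, ?_⟩
      rcases h4 with rfl | h4
      · exact h6.2
      · rw [mem_sstep_of h4]
        exact h6.2
    · exact absurd hst (nm_lt c _).ne
    · exact absurd hst (nm_lt c _).ne
    · have h1 : y = 0 :=
        ((haltRule_rel (N := N0 c + 1) (s := nm c (none, v)) (hN := by omega)).1 hr).2
      subst h1
      have h2 := hist_zero c hh
      subst h2
      refine ⟨rfl, ?_⟩
      have h3 : (C.1, C.2.1) = (none, v) := nm_inj c hC (NB.halt_mem c v) hst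
      have h4 : C.1 = none := congrArg Prod.fst h3
      have h5 : C ∈ StateTransition.eval NB.sstep C :=
        StateTransition.mem_eval.2 ⟨ReflTransGen.refl, sstep_none.2 h4⟩
      exact Part.dom_iff_mem.2 ⟨C, h5⟩

theorem exists_hist_Mc {C : NB.SCfg} (hC : (C.1, C.2.1) ∈ NB.stateSet c)
    (hd : (StateTransition.eval NB.sstep C).Dom) : ∀ t, ∃ h, Hist (sys c) (Mc c C t) h := by
  obtain ⟨b, hb⟩ := Part.dom_iff_mem.1 hd
  obtain ⟨h1, h2⟩ := StateTransition.mem_eval.1 hb
  clear hb hd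
  revert hC
  induction h1 using ReflTransGen.head_induction_on with
  | refl =>
    intro hC t
    have h3 := sstep_none.1 h2
    refine ⟨_, hstep c (Sum.inr (Sum.inr (Sum.inr b.2.1))) (y := 0)
      ((haltRule_rel (hN := by omega)).2 ⟨⟨0, ?_⟩, rfl⟩) (Hist.nil (S := sys c))⟩
    rw [Mc_zero, h3]
    simp
  | @head C C' h4 _ ih =>
    intro hC t
    obtain ⟨h, hh⟩ := ih (NB.step_closed c C C' hC h4) (t + 1)
    obtain ⟨a, u, h6, h7⟩ := NB.exists_rule_of_step (hN := nm_lt' c) C C' h4
    refine ⟨_, hstep c (Sum.inl (⟨(C.1, C.2.1), mem_Qf.2 hC⟩, a))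
      (ofRule_rel.2 ⟨⟨u, ?_, ?_⟩, ?_⟩) hh⟩
    · rw [Mc_cast]; exact h6
    · rw [Mc_cast]; exact h7
    · simp only [Mc, V6_last]

theorem dom_iff (W : Set (List Bool)) (hc : ∀ x : List Bool, (c.eval [num x]).Dom ↔ x ∈ W)
    (x : List Bool) : (StateTransition.eval NB.sstep (NB.sinit c [num x])).Dom ↔ x ∈ W := by
  rw [NB.small_eval, ← hc x]
  rfl

theorem push_rel (x : List Bool) (b : Bool) (t : ℕ) (y : Fin 6 → ℕ) :
    (theRule c (Sum.inr (Sum.inl b))).Rel (Gc c x t) y ↔ y = Gc c (x ++ [b]) (t + 1) := by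
  have key : ∀ u : Fin 5 → ℤ, (fun i : Fin 5 => (Gc c x t i.castSucc : ℤ)) =
      (NB.srule (N0 c + 1) (N0 c) (N0 c) (by omega) (by omega)
      K'.main 1 0 5 (3 + b.toNat) (by norm_num) (bit_lt b)).src u ↔
      u = NB.mk5 0 (fun j => (NB.enc (K'.elim (trList [num x]) [] [] [] j) : ℤ)) := by
    intro u
    rw [Gc_cast, NB.srule_src, NB.mk5_eq]
    simp only [NB.mk5_zero, NB.mk5_idx]
    constructor
    · rintro ⟨h1, h2⟩
      apply NB.ext5
      · rw [NB.mk5_zero]
        have h3 : ((N0 c : ℤ) + 1) * u 0 = 0 := by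
          push_cast at h1
          linarith
        rcases mul_eq_zero.1 h3 with h4 | h4
        · omega
        · exact h4
      · intro k
        rw [NB.mk5_idx]
        have h3 := h2 k
        split_ifs at h3
        · rw [h3]
          push_cast
          ring
        · exact h3.symm
    · rintro rfl
      refine ⟨by simp, ?_⟩
      intro k
      split_ifs
      · simp
      · simp
  have hval : (NB.srule (N0 c + 1) (N0 c) (N0 c) (by omega) (by omega)
      K'.main 1 0 5 (3 + b.toNat) (by norm_num) (bit_lt b)).tgt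
      (NB.mk5 0 (fun j => (NB.enc (K'.elim (trList [num x]) [] [] [] j) : ℤ))) =
      (fun i : Fin 5 => (Gc c (x ++ [b]) (t + 1) i.castSucc : ℤ)) := by
    rw [Gc_cast, NB.srule_tgt]
    apply NB.ext5
    · simp
    · intro k
      simp only [NB.mk5_idx]
      cases k
      · simp only [if_true, K'.elim_main, enc_push]
        push_cast
        ring
      · simp
      · simp
      · simp
  constructor
  · intro h
    obtain ⟨⟨u, h1, h2⟩, h3⟩ := ofRule_rel.1 h
    have h4 := (key u).1 h1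
    subst h4
    rw [hval] at h2
    funext i
    refine Fin.lastCases ?_ (fun i => ?_) i
    · rw [h3]
      simp only [Gc, V6_last]
    · exact_mod_cast congrFun h2 i
  · rintro rfl
    refine ofRule_rel.2 ⟨⟨_, (key _).2 rfl, hval.symm⟩, ?_⟩
    simp only [Gc, V6_last]

theorem start_rel (x : List Bool) (t : ℕ) (y : Fin 6 → ℕ) :
    (theRule c (Sum.inr (Sum.inr (Sum.inl ())))).Rel (Gc c x t) y ↔
      y = Mc c (NB.sinit c [num x]) (t + 1) := by
  have key : ∀ u : Fin 5 → ℤ, (fun i : Fin 5 => (Gc c x t i.castSucc : ℤ)) =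
      (NB.srule (N0 c + 1) (N0 c) (nm c (s0 c)) (by omega)
      (nm_lt' c _) K'.main 1 0 1 0 (by norm_num) (by norm_num)).src u ↔
      u = NB.mk5 0 (fun j => (NB.enc (K'.elim (trList [num x]) [] [] [] j) : ℤ)) := by
    intro u
    rw [Gc_cast, NB.srule_src, NB.mk5_eq]
    simp only [NB.mk5_zero, NB.mk5_idx]
    constructor
    · rintro ⟨h1, h2⟩
      apply NB.ext5
      · rw [NB.mk5_zero]
        have h3 : ((N0 c : ℤ) + 1) * u 0 = 0 := by
          push_cast at h1
          linarith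
        rcases mul_eq_zero.1 h3 with h4 | h4
        · omega
        · exact h4
      · intro k
        rw [NB.mk5_idx]
        have h3 := h2 k
        split_ifs at h3
        · rw [h3]
          push_cast
          ring
        · exact h3.symm
    · rintro rfl
      refine ⟨by simp, ?_⟩
      intro k
      split_ifs
      · simp
      · simp
  have hval : (NB.srule (N0 c + 1) (N0 c) (nm c (s0 c)) (by omega)
      (nm_lt' c _) K'.main 1 0 1 0 (by norm_num) (by norm_num)).tgt
      (NB.mk5 0 (fun j => (NB.enc (K'.elim (trList [num x]) [] [] [] j) : ℤ))) =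
      (fun i : Fin 5 => (Mc c (NB.sinit c [num x]) (t + 1) i.castSucc : ℤ)) := by
    rw [Mc_cast', NB.srule_tgt]
    apply NB.ext5
    · simp [NB.sinit, s0]
    · intro k
      simp only [NB.mk5_idx, NB.sinit]
      split_ifs
      · simp
      · simp
  constructor
  · intro h
    obtain ⟨⟨u, h1, h2⟩, h3⟩ := ofRule_rel.1 h
    have h4 := (key u).1 h1
    subst h4
    rw [hval] at h2
    funext i
    refine Fin.lastCases ?_ (fun i => ?_) i
    · rw [h3]
      simp only [Gc, Mc, V6_last]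
    · exact_mod_cast congrFun h2 i
  · rintro rfl
    refine ofRule_rel.2 ⟨⟨_, (key _).2 rfl, hval.symm⟩, ?_⟩
    simp only [Gc, Mc, V6_last]

theorem hist_Gc (W : Set (List Bool)) (hc : ∀ x : List Bool, (c.eval [num x]).Dom ↔ x ∈ W)
    {y : Fin 6 → ℕ} {h : List (sys c).H} (hh : Hist (sys c) y h) :
    ∀ (x : List Bool) (t : ℕ), y = Gc c x t → x ++ (sys c).emit h ∈ W := by
  refine hind c (P := fun y h => ∀ (x : List Bool) (t : ℕ), y = Gc c x t →
    x ++ (sys c).emit h ∈ W) ?_ ?_ hh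
  · intro x t hy
    have h1 := congrFun hy 0
    rw [Gc_zero] at h1
    exact absurd h1 (by simp [N0])
  · intro j z y h hr hh ih x t hz
    subst hz
    have hst := theRule_state c j _ _ hr (by rw [Gc_zero])
    rw [Gc_zero] at hst
    have hem : (sys c).emit (seg (Gc c x t) ++ Sum.inr j :: h) = theEm c j ++ (sys c).emit h :=
      emit_step (S := sys c) (Gc c x t) j h
    rw [hem]
    rcases j with sa | b | u | v
    · exact absurd hst.symm (nm_lt c _).ne
    · have h1 := (push_rel c x b t y).1 hr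
      have h2 := ih (x ++ [b]) (t + 1) h1
      change x ++ ([b] ++ (sys c).emit h) ∈ W
      rw [← List.append_assoc]
      exact h2
    · have h1 := (start_rel c x t y).1 hr
      obtain ⟨h2, h3⟩ := hist_Mc c hh _ _ h1 (NB.init_mem c none)
      rw [dom_iff c W hc] at h3
      change x ++ ([] ++ (sys c).emit h) ∈ W
      rw [h2]
      simpa using h3
    · exact absurd hst.symm (nm_lt c _).ne

theorem exists_hist_Gc (W : Set (List Bool)) (hc : ∀ x : List Bool, (c.eval [num x]).Dom ↔ x ∈ W)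
    (y : List Bool) : ∀ (x : List Bool) (t : ℕ), x ++ y ∈ W →
      ∃ h, Hist (sys c) (Gc c x t) h ∧ (sys c).emit h = y := by
  induction y with
  | nil =>
    intro x t hx
    rw [List.append_nil] at hx
    have h1 := (dom_iff c W hc x).2 hx
    obtain ⟨h, hh⟩ := exists_hist_Mc c (NB.init_mem c none) h1 (t + 1)
    have h2 := hist_Mc c hh _ _ rfl (NB.init_mem c none)
    refine ⟨_, hstep c (Sum.inr (Sum.inr (Sum.inl ()))) ((start_rel c x t _).2 rfl) hh, ?_⟩
    refine (emit_step (S := sys c) (Gc c x t) (Sum.inr (Sum.inr (Sum.inl ()))) h).trans ?_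
    rw [h2.1]
    rfl
  | cons b y ih =>
    intro x t hx
    have h1 : (x ++ [b]) ++ y ∈ W := by simpa using hx
    obtain ⟨h, hh, he⟩ := ih (x ++ [b]) (t + 1) h1
    refine ⟨_, hstep c (Sum.inr (Sum.inl b)) ((push_rel c x b t _).2 rfl) hh, ?_⟩
    refine (emit_step (S := sys c) (Gc c x t) (Sum.inr (Sum.inl b)) h).trans ?_
    rw [he]
    rfl

end machine

theorem exists_sys (W : Set (List Bool)) (hW : REPred fun x => x ∈ W) :
    ∃ S : Sys, ∀ x : List Bool, x ∈ W ↔ ∃ h, S.Valid h ∧ S.emit h = x := by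
  obtain ⟨c, hc⟩ := exists_code W hW
  refine ⟨sys c, fun x => ⟨?_, ?_⟩⟩
  · intro hx
    exact exists_hist_Gc c W hc x [] 0 hx
  · rintro ⟨h, hh, rfl⟩
    exact hist_Gc c W hc hh [] 0 rfl

end Pool.Agent.H93NG
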