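import Pool.Agent.H93NG.Split
import Pool.Agent.H93NG.Reg

/-!
# Long blocks do not help

PROOF. By `tdom_of_dom` let `δ` be a transducer with states `σ`, `n = Nat.card σ`, and
`v ∈ Dyck2 ↔ ∃ u ∈ L, Path δ s u v f`. Let `Long = {z | ∃ a, blk a ∧ replicate (n + 1) a <:+: z}`,
a regular language (`isRegular_factor`).
Claim: if `z ∈ Long` and `Path δ s z v f` then `v ∈ Dyck2`. If `z ∈ L` this is the hypothesis. If
not, `z = p ++ replicate (n + 1) a ++ s'`; cut the path at the `n + 2` places in and around the
block (`Path.split_in`, `List.replicate_add`): two of the states agree, so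
`n + 1 = i + l + j` with `l ≥ 1`, `i + j ≥ 1` (choose two among the `n + 1` places
`0, ..., n`), and the path is `x y z'` with the loop `y` reading `replicate l a`. Running the loop
`k = 0, 2, 3` times gives a path reading
`p ++ replicate (n + 1 + (k - 1) l) a ++ s'`, which is in `L` by the hypothesis (the length of the
block is positive and has changed). So the outputs `x y^k z'`, `k = 0, 2, 3`, are in `Dyck2`, and
`dyck_pump` gives the case `k = 1`.
So `Dyck2 = T Long ∪ T (L ∩ Short)` where `T` is the image by the transducer; by `dyck_split` one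
of the two dominates `Dyck2`. The first does not: `Dom Long (T Long)` and `Dom.trans` would
contradict `not_dom_regular`. So the second does, and `Dom (L ∩ Short) (T (L ∩ Short))`.
-/

namespace Pool.Agent.H93NG

private theorem pump_aux {Z B σ : Type} [Finite σ] {δ : σ → Option Z → Option B → σ → Prop}
    {s f : σ} {a : Z} {p s' : List Z} : ∀ (m : ℕ) (T : Finset σ) (c : σ) (x z : List B),
    (∀ t ∈ T, ∃ i l x₁ x₂, i + l = T.card ∧ 1 ≤ l ∧ x = x₁ ++ x₂ ∧
      Path δ s (p ++ List.replicate i a) x₁ t ∧ Path δ t (List.replicate l a) x₂ c) →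
    T.card + m = Nat.card σ + 1 →
    Path δ s (p ++ List.replicate T.card a) x c →
    Path δ c (List.replicate m a ++ s') z f →
    ∃ i l j x' y z' q, i + l + j = Nat.card σ + 1 ∧ 1 ≤ l ∧ 1 ≤ j ∧ x ++ z = x' ++ y ++ z' ∧
      Path δ s (p ++ List.replicate i a) x' q ∧ Path δ q (List.replicate l a) y q ∧
      Path δ q (List.replicate j a ++ s') z' f := by
  classical
  intro m
  induction m with
  | zero =>
    intro T c x z _ hc
    exfalso
    have : Fintype σ := Fintype.ofFinite σ
    have h := Finset.card_le_univ T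
    rw [Nat.card_eq_fintype_card] at hc
    omega
  | succ m ih =>
    intro T c x z hT hc h1 h2
    by_cases hcT : c ∈ T
    · obtain ⟨i, l, x₁, x₂, h3, h4, rfl, h5, h6⟩ := hT c hcT
      exact ⟨i, l, m + 1, x₁, x₂, z, c, by omega, h4, by omega, rfl, h5, h6, h2⟩
    · have e : List.replicate (m + 1) a ++ s' = [a] ++ (List.replicate m a ++ s') := by
        rw [List.replicate_succ]; rfl
      rw [e] at h2
      obtain ⟨c', y, z', rfl, h3, h4⟩ := h2.split_in
      have hcard : (insert c T).card = T.card + 1 := Finset.card_insert_of_notMem hcT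
      have e2 : ∀ k, List.replicate (k + 1) a = List.replicate k a ++ [a] := fun k => by
        rw [← List.replicate_one (a := a), ← List.replicate_add]
      have := ih (insert c T) c' (x ++ y) z' (by
        intro t ht
        rw [hcard]
        rcases Finset.mem_insert.1 ht with rfl | ht
        · exact ⟨T.card, 1, x, y, rfl, le_refl _, rfl, h1, by simpa using h3⟩
        · obtain ⟨i, l, x₁, x₂, h5, h6, rfl, h7, h8⟩ := hT t ht
          refine ⟨i, l + 1, x₁, x₂ ++ y, by omega, by omega, by simp, h7, ?_⟩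
          rw [e2]
          exact h8.append h3) (by omega) (by
        rw [hcard, e2, ← List.append_assoc]
        exact h1.append h3) h4
      obtain ⟨i, l, j, x', y', z'', q, h5, h6, h7, h8, h9⟩ := this
      exact ⟨i, l, j, x', y', z'', q, h5, h6, h7, by rw [← h8]; simp, h9⟩

theorem rigid_short {Z : Type} [Finite Z] (blk : Z → Prop) {L : Language Z}
    (hL : ∀ a, blk a → ∀ (p s : List Z) (k k' : ℕ), 1 ≤ k → 1 ≤ k' → k ≠ k' →
      p ++ List.replicate k a ++ s ∉ L → p ++ List.replicate k' a ++ s ∈ L)
    (h : Dom L Dyck2) :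
    ∃ n : ℕ, Dom ({z | z ∈ L ∧ ∀ a, blk a → ¬ List.replicate (n + 1) a <:+: z} : Language Z)
      Dyck2 := by
  obtain ⟨σ, _, δ, s, f, hδ⟩ := tdom_of_dom h
  refine ⟨Nat.card σ, ?_⟩
  have hclaim : ∀ z v, (∃ a, blk a ∧ List.replicate (Nat.card σ + 1) a <:+: z) →
      Path δ s z v f → v ∈ Dyck2 := by
    rintro z v ⟨a, ha, p, s', rfl⟩ hp
    by_cases hz : p ++ List.replicate (Nat.card σ + 1) a ++ s' ∈ L
    · exact (hδ v).2 ⟨_, hz, hp⟩
    rw [List.append_assoc] at hp
    obtain ⟨c, x, z, rfl, h1, h2⟩ := hp.split_in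
    obtain ⟨i, l, j, x', y, z', q, h3, h4, h5, h6, h7, h8, h9⟩ :=
      pump_aux (δ := δ) (s := s) (f := f) (a := a) (p := p) (s' := s') (Nat.card σ + 1) ∅ c x z
        (by simp) (by simp) (by simpa using h1) h2
    have hin : ∀ k, k ≠ 1 → p ++ List.replicate (i + k * l + j) a ++ s' ∈ L := by
      intro k hk
      refine hL a ha p s' (Nat.card σ + 1) _ (by omega) (by omega) ?_ hz
      rw [← h3]
      intro he
      have h10 : 1 * l = k * l := by omega
      exact hk (Nat.eq_of_mul_eq_mul_right h4 h10).symm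
    have e : ∀ k, p ++ List.replicate (i + k * l + j) a ++ s' =
        (p ++ List.replicate i a) ++ (List.replicate (k * l) a ++
          (List.replicate j a ++ s')) := by
      intro k
      simp only [List.replicate_add, List.append_assoc]
    have m0 : x' ++ z' ∈ Dyck2 := by
      refine (hδ _).2 ⟨_, hin 0 (by omega), ?_⟩
      rw [e, zero_mul, List.replicate_zero, List.nil_append]
      exact h7.append h9
    have m2 : x' ++ (y ++ y) ++ z' ∈ Dyck2 := by
      refine (hδ _).2 ⟨_, hin 2 (by omega), ?_⟩
      rw [e, two_mul, List.replicate_add, List.append_assoc x']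
      exact h7.append ((h8.append h8).append h9)
    have m3 : x' ++ (y ++ y ++ y) ++ z' ∈ Dyck2 := by
      refine (hδ _).2 ⟨_, hin 3 (by omega), ?_⟩
      have e3 : 3 * l = l + l + l := by omega
      rw [e, e3, List.replicate_add, List.replicate_add, List.append_assoc x']
      exact h7.append (((h8.append h8).append h8).append h9)
    rw [h6]
    exact dyck_pump m0 m2 m3
  have hreg : Language.IsRegular
      ({z | ∃ g ∈ {g : List Z | ∃ a, blk a ∧ g = List.replicate (Nat.card σ + 1) a},
        g <:+: z} : Language Z) :=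
    isRegular_factor _ (Nat.card σ + 1) (by
      rintro g ⟨a, _, rfl⟩
      simp)
  have hsplit : Dom ({z | z ∈ ({z | ∃ g ∈ {g : List Z | ∃ a, blk a ∧
      g = List.replicate (Nat.card σ + 1) a}, g <:+: z} : Language Z) ∨
      z ∈ ({z | z ∈ L ∧ ∀ a, blk a → ¬ List.replicate (Nat.card σ + 1) a <:+: z} :
        Language Z)} : Language Z) Dyck2 := by
    refine dom_of_tdom ⟨σ, inferInstance, δ, s, f, fun v => ?_⟩
    constructor
    · intro hv
      obtain ⟨u, hu, hp⟩ := (hδ v).1 hv
      refine ⟨u, ?_, hp⟩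
      by_cases hlong : ∃ a, blk a ∧ List.replicate (Nat.card σ + 1) a <:+: u
      · obtain ⟨a, ha, hf⟩ := hlong
        exact Or.inl ⟨_, ⟨a, ha, rfl⟩, hf⟩
      · push Not at hlong
        exact Or.inr ⟨hu, hlong⟩
    · rintro ⟨u, hu | hu, hp⟩
      · obtain ⟨g, ⟨a, ha, rfl⟩, hf⟩ := hu
        exact hclaim u v ⟨a, ha, hf⟩ hp
      · exact (hδ v).2 ⟨u, hu.1, hp⟩
  rcases hsplit.split with h1 | h1
  · exact absurd h1 (not_dom_regular hreg)
  · exact h1

end Pool.Agent.H93NG
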