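import Pool.Agent.H93NG.CS
import Pool.Agent.H93NG.CFL
import Pool.Agent.H93NG.Rigid
import Pool.Agent.H93NG.HistA
import Pool.Agent.H93NG.HistC
import Pool.Agent.H93NG.Mach

/-!
# Recursively enumerable families of non-generators are bounded
-/

namespace Pool.Agent.H93NG

variable {T : Type}

/-- `L` is a non-generator iff it does not dominate the Dyck language. -/
theorem nonGen_iff {A : Type} [Finite A] (L : Language A) : NonGen L ↔ ¬ Dom L Dyck2 := by
  constructor
  · intro h h'
    exact h fun B _ M hM => h'.trans (dom_of_isContextFree hM)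
  · intro h h'
    exact h (h' (Bool × Bool) inferInstance Dyck2 (isContextFree_of_dom (Dom.refl _)))

/-- The language above all slices at emitted words. -/
def big (S : Sys) (U : Language (Bool ⊕ T)) : Language (S.H ⊕ T) :=
  {z | ∀ (h : List S.H) (w : List T), z = h.map Sum.inl ++ w.map Sum.inr → S.Valid h →
    w ∈ slice U (S.emit h)}

/-- The decomposition of a word into history and rest is unique. -/
theorem split_unique {H : Type} {h h' : List H} {w w' : List T}
    (e : h.map (Sum.inl : H → H ⊕ T) ++ w.map Sum.inr = h'.map Sum.inl ++ w'.map Sum.inr) :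
    h = h' ∧ w = w' := by
  induction h generalizing h' with
  | nil =>
    cases h' with
    | nil => simpa using List.map_injective_iff.2 Sum.inr_injective e
    | cons a h' => cases w <;> simp at e
  | cons b h ih =>
    cases h' with
    | nil => cases w' <;> simp at e
    | cons a h' =>
      simp only [List.map_cons, List.cons_append, List.cons.injEq, Sum.inl.injEq] at e
      obtain ⟨rfl, rfl⟩ := ih e.2
      exact ⟨by rw [e.1], rfl⟩

/-- Words that are not a history letters word followed by a word over `T`. -/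
theorem format_iff {H : Type} (z : List (H ⊕ T)) :
    (¬ ∃ (h : List H) (w : List T), z = h.map Sum.inl ++ w.map Sum.inr) ↔
      ∃ (t : T) (c : H), [Sum.inr t, Sum.inl c] <:+: z := by
  constructor
  · intro hz
    by_contra hc
    apply hz
    clear hz
    induction z with
    | nil => exact ⟨[], [], rfl⟩
    | cons a z ih =>
      obtain ⟨h, w, rfl⟩ := ih (fun ⟨t, c, h⟩ => hc ⟨t, c, h.trans (List.suffix_cons _ _).isInfix⟩)
      cases a with
      | inl c => exact ⟨c :: h, w, rfl⟩
      | inr t =>
        cases h with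
        | nil => exact ⟨[], t :: w, rfl⟩
        | cons c h =>
          exact absurd ⟨t, c, ⟨[], h.map Sum.inl ++ w.map Sum.inr, rfl⟩⟩ hc
  · rintro ⟨t, c, hf⟩ ⟨h, w, rfl⟩
    induction h with
    | nil =>
      have : (Sum.inl c : H ⊕ T) ∈ w.map (Sum.inr : T → H ⊕ T) :=
        hf.subset (by simp)
      simp at this
    | cons b h ih =>
      rw [List.map_cons, List.cons_append, List.infix_cons_iff] at hf
      rcases hf with hf | hf
      · obtain ⟨r, hr⟩ := hf
        simp at hr
      · exact ih hf

theorem isRegular_bad [Finite T] {H : Type} [Finite H] :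
    Language.IsRegular ({z | ¬ ∃ (h : List H) (w : List T),
      z = h.map Sum.inl ++ w.map Sum.inr} : Language (H ⊕ T)) := by
  have h := isRegular_factor (Z := H ⊕ T) {f | ∃ (t : T) (c : H), f = [Sum.inr t, Sum.inl c]} 2
    (by rintro f ⟨t, c, rfl⟩; simp)
  convert h using 1
  ext z
  refine (format_iff z).trans ?_
  constructor
  · rintro ⟨t, c, h⟩
    exact ⟨_, ⟨t, c, rfl⟩, h⟩
  · rintro ⟨_, ⟨t, c, rfl⟩, h⟩
    exact ⟨t, c, h⟩

theorem isRegular_right [Finite T] {H : Type} [Finite H] :
    Language.IsRegular ({z | ∃ w : List T, z = w.map Sum.inr} : Language (H ⊕ T)) := by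
  have h := (isRegular_factor (Z := H ⊕ T) {f | ∃ c : H, f = [Sum.inl c]} 1
    (by rintro f ⟨c, rfl⟩; simp)).compl
  convert h using 1
  ext z
  constructor
  · rintro ⟨w, rfl⟩ ⟨_, ⟨c, rfl⟩, h⟩
    have := h.subset (List.mem_singleton_self _)
    simp at this
  · intro hz
    induction z with
    | nil => exact ⟨[], rfl⟩
    | cons a z ih =>
      obtain ⟨w, rfl⟩ := ih (fun ⟨f, hf, h⟩ => hz ⟨f, hf, h.trans (List.suffix_cons _ _).isInfix⟩)
      cases a with
      | inl c => exact absurd ⟨_, ⟨c, rfl⟩, ⟨[], w.map Sum.inr, rfl⟩⟩ hz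
      | inr t => exact ⟨t :: w, rfl⟩

/-- Adding one letter in front. -/
theorem isRegular_cons {Z : Type} (a : Z) {R : Language Z} (hR : R.IsRegular) :
    Language.IsRegular ({z | ∃ r ∈ R, z = a :: r} : Language Z) := by
  apply Language.IsRegular.of_finite_range_leftQuotient
  have h := hR.finite_range_leftQuotient
  refine ((h.insert ({z | ∃ r ∈ R, z = a :: r} : Language Z)).insert
    ({z | False} : Language Z)).subset ?_
  rintro _ ⟨x, rfl⟩
  cases x with
  | nil => right; left; rfl
  | cons b x =>
    by_cases hb : b = a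
    · right
      right
      refine ⟨x, ?_⟩
      subst hb
      ext y
      constructor
      · intro hy
        exact ⟨_, hy, rfl⟩
      · rintro ⟨r, hr, e⟩
        simp only [List.cons_append, List.cons.injEq, true_and] at e
        subst e
        exact hr
    · left
      ext y
      constructor
      · rintro ⟨r, hr, e⟩
        simp only [List.cons_append, List.cons.injEq] at e
        exact hb e.1
      · intro hy
        exact absurd hy id

theorem isRegular_prefix {Z : Type} (w : List Z) {R : Language Z} (hR : R.IsRegular) :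
    Language.IsRegular ({z | ∃ r ∈ R, z = w ++ r} : Language Z) := by
  induction w with
  | nil =>
    convert hR using 1
    ext z
    constructor
    · rintro ⟨r, hr, rfl⟩
      exact hr
    · intro hz
      exact ⟨z, hz, rfl⟩
  | cons a w ih =>
    convert isRegular_cons a ih using 1
    ext z
    constructor
    · rintro ⟨r, hr, rfl⟩
      exact ⟨_, ⟨r, hr, rfl⟩, rfl⟩
    · rintro ⟨_, ⟨r, hr, rfl⟩, rfl⟩
      exact ⟨r, hr, rfl⟩

theorem isRegular_union {Z ι : Type} [Finite Z] {s : Set ι} (hs : s.Finite) {M : ι → Language Z}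
    (h : ∀ i, (M i).IsRegular) :
    Language.IsRegular ({z | ∃ i ∈ s, z ∈ M i} : Language Z) := by
  induction s, hs using Set.Finite.induction_on with
  | empty =>
    convert isRegular_factor (Z := Z) ∅ 0 (by simp) using 1
    ext z
    constructor
    · rintro ⟨i, hi, -⟩
      exact absurd hi (Set.notMem_empty _)
    · rintro ⟨i, hi, -⟩
      exact absurd hi (Set.notMem_empty _)
  | @insert i s _ _ ih =>
    convert (h i).add ih using 1
    ext z
    constructor
    · rintro ⟨j, rfl | hj, hz⟩
      · exact Or.inl hz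
      · exact Or.inr ⟨j, hj, hz⟩
    · rintro (hz | ⟨j, hj, hz⟩)
      · exact ⟨i, Or.inl rfl, hz⟩
      · exact ⟨j, Or.inr hj, hz⟩

/-- Reading a word of histories and letters as a word of the alphabet of `U`. -/
def rd (S : Sys) : S.H ⊕ T → List (Bool ⊕ T)
  | Sum.inl (Sum.inl _) => []
  | Sum.inl (Sum.inr j) => (S.em j).map Sum.inl
  | Sum.inr t => [Sum.inr t]

theorem rd_left (S : Sys) (h : List S.H) :
    (h.map (Sum.inl : S.H → S.H ⊕ T)).flatMap (rd S) = (S.emit h).map Sum.inl := by
  induction h with
  | nil => rfl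
  | cons a h ih =>
    rw [List.map_cons, List.flatMap_cons, ih]
    cases a <;> simp [rd, Sys.emit]

theorem rd_right (S : Sys) (w : List T) :
    (w.map (Sum.inr : T → S.H ⊕ T)).flatMap (rd S) = w.map Sum.inr := by
  induction w with
  | nil => rfl
  | cons a h ih =>
    rw [List.map_cons, List.flatMap_cons, ih]
    simp [rd]

theorem flatMap_single {α β : Type} (f : α → β) (l : List α) :
    l.flatMap (fun a => [f a]) = l.map f := by
  induction l with
  | nil => rfl
  | cons a l ih => rw [List.flatMap_cons, ih]; rfl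

theorem big_isContextFree [Finite T] (S : Sys) (U : Language (Bool ⊕ T)) (hU : U.IsContextFree) :
    (big S U).IsContextFree := by
  have := S.fin
  apply isContextFree_of_dom
  have h1 : Dom Dyck2 ({z | ¬ ∃ (h : List S.H) (w : List T),
      z = h.map Sum.inl ++ w.map Sum.inr} : Language (S.H ⊕ T)) :=
    dom_regular (L := Dyck2) (z := []) (Run.nil []) isRegular_bad
  have h2 : Dom Dyck2 ({z | ∃ h : List S.H, ¬ S.Valid h ∧ z = h.map Sum.inl} :
      Language (S.H ⊕ T)) := by
    have h := (dom_not_valid S).trans (dom_quot _ [] [] (fun a : S.H => [a])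
      (fun a : S.H => [(Sum.inl a : S.H ⊕ T)]))
    convert h using 1
    ext z
    simp only [flatMap_single, List.map_id', List.nil_append, List.append_nil]
    constructor
    · rintro ⟨h, h1, rfl⟩
      exact ⟨h, h1, rfl⟩
    · rintro ⟨h, h1, rfl⟩
      exact ⟨h, h1, rfl⟩
  have h3 := h2.concat_right (isRegular_right (T := T) (H := S.H))
  have h4 : Dom Dyck2 ({z | z.flatMap (rd S) ∈ U} : Language (S.H ⊕ T)) := by
    have h := (dom_of_isContextFree hU).trans (dom_quot _ [] [] (rd S)
      (fun a : S.H ⊕ T => [a]))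
    convert h using 1
    ext z
    simp only [flatMap_single, List.map_id', List.nil_append, List.append_nil]
    constructor
    · intro h
      exact ⟨z, h, rfl⟩
    · rintro ⟨h, h1, rfl⟩
      exact h1
  have h5 := (h1.union h3).union h4
  convert h5 using 1
  ext z
  constructor
  · intro hz
    by_cases hf : ∃ (h : List S.H) (w : List T), z = h.map Sum.inl ++ w.map Sum.inr
    · obtain ⟨h, w, rfl⟩ := hf
      by_cases hv : S.Valid h
      · right
        have := hz h w rfl hv
        change (h.map Sum.inl ++ w.map Sum.inr).flatMap (rd S) ∈ U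
        rw [List.flatMap_append, rd_left, rd_right]
        exact this
      · left
        right
        exact ⟨_, ⟨h, hv, rfl⟩, _, ⟨w, rfl⟩, rfl⟩
    · left
      left
      exact hf
  · rintro ((hz | ⟨_, ⟨h, hv, rfl⟩, _, ⟨w, rfl⟩, rfl⟩) | hz)
    · intro h w e
      exact absurd ⟨h, w, e⟩ hz
    · intro h' w' e hv'
      obtain ⟨rfl, rfl⟩ := split_unique e
      exact absurd hv' hv
    · intro h w e _
      subst e
      change (h.map Sum.inl ++ w.map Sum.inr).flatMap (rd S) ∈ U at hz
      rw [List.flatMap_append, rd_left, rd_right] at hz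
      exact hz

/-- A factorisation of a word of histories and letters around a block. -/
theorem block_split {H : Type} {h : List H} {w : List T} {p s : List (H ⊕ T)} {c : H} {k : ℕ}
    (hk : 1 ≤ k)
    (e : p ++ List.replicate k (Sum.inl c) ++ s = h.map Sum.inl ++ w.map Sum.inr) :
    ∃ p' s' : List H, p = p'.map Sum.inl ∧ s = s'.map Sum.inl ++ w.map Sum.inr ∧
      h = p' ++ List.replicate k c ++ s' := by
  have key : ∀ (p : List (H ⊕ T)) (h : List H) (s : List (H ⊕ T)),
      p ++ Sum.inl c :: s = h.map Sum.inl ++ w.map Sum.inr →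
      ∃ p' s' : List H, p = p'.map Sum.inl ∧ s = s'.map Sum.inl ++ w.map Sum.inr ∧
        h = p' ++ c :: s' := by
    intro p
    induction p with
    | nil =>
      intro h s e
      cases h with
      | nil => cases w <;> simp at e
      | cons a h =>
        simp only [List.nil_append, List.map_cons, List.cons_append, List.cons.injEq,
          Sum.inl.injEq] at e
        exact ⟨[], h, rfl, e.2, by rw [e.1]; rfl⟩
    | cons b p ih =>
      intro h s e
      cases h with
      | nil =>
        have : (Sum.inl c : H ⊕ T) ∈ ([] : List H).map Sum.inl ++ w.map Sum.inr := by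
          rw [← e]
          simp
        simp at this
      | cons a h =>
        simp only [List.cons_append, List.map_cons, List.cons.injEq] at e
        obtain ⟨p', s', h1, h2, h3⟩ := ih h s e.2
        exact ⟨a :: p', s', by rw [e.1, h1]; rfl, h2, by rw [h3]; rfl⟩
  have rep : ∀ (k : ℕ) (h : List H), List.replicate k (Sum.inl c) ++ s =
      h.map Sum.inl ++ w.map Sum.inr →
      ∃ s' : List H, s = s'.map Sum.inl ++ w.map Sum.inr ∧ h = List.replicate k c ++ s' := by
    intro k
    induction k with
    | zero =>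
      intro h e
      exact ⟨h, by simpa using e, by simp⟩
    | succ k ih =>
      intro h e
      obtain ⟨p', s', h1, h2, h3⟩ := key [] h (List.replicate k (Sum.inl c) ++ s) (by
        rw [← e, List.replicate_succ]
        simp)
      obtain rfl : p' = [] := by simpa using h1.symm
      obtain ⟨s'', h4, h5⟩ := ih s' h2
      exact ⟨s'', h4, by rw [h3, h5, List.replicate_succ]; simp⟩
  obtain ⟨k, rfl⟩ : ∃ k', k = k' + 1 := ⟨k - 1, by omega⟩
  obtain ⟨p', s', h1, h2, h3⟩ := key p h (List.replicate k (Sum.inl c) ++ s) (by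
    rw [← e, List.replicate_succ]
    simp)
  obtain ⟨s'', h4, h5⟩ := rep k s' h2
  exact ⟨p', s'', h1, h4, by rw [h3, h5, List.replicate_succ]; simp⟩

theorem big_nonGen [Finite T] (S : Sys) (U : Language (Bool ⊕ T))
    (hU : ∀ h, S.Valid h → NonGen (slice U (S.emit h))) : NonGen (big S U) := by
  have := S.fin
  rw [nonGen_iff]
  intro hL
  obtain ⟨n, hn⟩ := rigid_short (fun a => ∃ i : Fin S.d, a = (Sum.inl (Sum.inl i) : S.H ⊕ T)) (by
    rintro a ⟨i, rfl⟩ p s k k' hk hk' hne h1
    by_contra h2
    simp only [big] at h1 h2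
    have h1' : ∃ (h : List S.H) (w : List T), p ++ List.replicate k (Sum.inl (Sum.inl i)) ++ s =
        h.map Sum.inl ++ w.map Sum.inr ∧ S.Valid h := by
      by_contra hc
      exact h1 fun h w e hv => absurd ⟨h, w, e, hv⟩ hc
    have h2' : ∃ (h : List S.H) (w : List T), p ++ List.replicate k' (Sum.inl (Sum.inl i)) ++ s =
        h.map Sum.inl ++ w.map Sum.inr ∧ S.Valid h := by
      by_contra hc
      exact h2 fun h w e hv => absurd ⟨h, w, e, hv⟩ hc
    obtain ⟨h, w, e, hv⟩ := h1'
    obtain ⟨h', w', e', hv'⟩ := h2'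
    obtain ⟨p1, s1, rfl, rfl, rfl⟩ := block_split hk e
    obtain ⟨p2, s2, h3, h4, rfl⟩ := block_split hk' e'
    obtain ⟨rfl, rfl⟩ := split_unique h4
    obtain rfl := List.map_injective_iff.2 Sum.inl_injective h3
    exact hne (valid_rigid S i _ _ _ _ hv hv')) hL
  let F : Set (List S.H) := {h | S.Valid h ∧ ∀ i : Fin S.d,
    ¬ List.replicate (n + 1) (Sum.inl i) <:+: h}
  have hF : F.Finite := valid_short_finite S n
  have : Finite F := hF
  let Sh : Language (S.H ⊕ T) := {z | ∀ a : S.H ⊕ T, (∃ i : Fin S.d, a = Sum.inl (Sum.inl i)) →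
    ¬ List.replicate (n + 1) a <:+: z}
  have hSh : Sh.IsRegular := by
    have h := (isRegular_factor (Z := S.H ⊕ T)
      {f | ∃ i : Fin S.d, f = List.replicate (n + 1) (Sum.inl (Sum.inl i))} (n + 1)
      (by rintro f ⟨i, rfl⟩; simp)).compl
    convert h using 1
    ext z
    constructor
    · rintro hz ⟨_, ⟨i, rfl⟩, hf⟩
      exact hz _ ⟨i, rfl⟩ hf
    · rintro hz _ ⟨i, rfl⟩ hf
      exact hz ⟨_, ⟨i, rfl⟩, hf⟩
  let Pf : List S.H → Language (S.H ⊕ T) := fun h =>
    {z | ∃ r ∈ ({z | ∃ w : List T, z = w.map Sum.inr} : Language (S.H ⊕ T)),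
      z = h.map Sum.inl ++ r}
  have hPf : ∀ h, (Pf h).IsRegular := fun h => isRegular_prefix _ isRegular_right
  let T0 : Language (S.H ⊕ T) := Sh ⊓ ({z | ∃ h ∈ F, z ∈ Pf h} : Language (S.H ⊕ T))ᶜ
  have hT0 : T0.IsRegular := hSh.inf (isRegular_union hF hPf).compl
  let X : Option F → Language (S.H ⊕ T) := fun o => match o with
    | none => T0
    | some h => {z | ∃ r ∈ ({z | ∃ w ∈ slice U (S.emit h.1), z = w.map Sum.inr} :
        Language (S.H ⊕ T)), z = h.1.map Sum.inl ++ r}
  have hX : Dom ({z | ∃ o, z ∈ X o} : Language (S.H ⊕ T)) Dyck2 := by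
    convert hn using 1
    ext z
    constructor
    · rintro ⟨o, hz⟩
      cases o with
      | none =>
        refine ⟨?_, hz.1⟩
        intro h w e hv
        refine absurd ?_ hz.2
        refine ⟨h, ⟨hv, fun i hi => hz.1 _ ⟨i, rfl⟩ ?_⟩, _, ⟨w, rfl⟩, e⟩
        obtain ⟨a, b, rfl⟩ := hi
        rw [e]
        refine ⟨a.map Sum.inl, b.map Sum.inl ++ w.map Sum.inr, ?_⟩
        simp
      | some h =>
        obtain ⟨h, hv, hh⟩ := h
        obtain ⟨_, ⟨w, hw, rfl⟩, rfl⟩ := hz
        refine ⟨?_, ?_⟩
        · intro h' w' e hv'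
          obtain ⟨rfl, rfl⟩ := split_unique e
          exact hw
        · rintro _ ⟨i, rfl⟩ ⟨a, b, e⟩
          obtain ⟨p', s', -, -, rfl⟩ := block_split (by omega) e
          exact hh i ⟨p', s', rfl⟩
    · rintro ⟨hz1, hz2⟩
      by_cases hz : ∃ h ∈ F, z ∈ Pf h
      · obtain ⟨h, hh, _, ⟨w, rfl⟩, rfl⟩ := hz
        exact ⟨some ⟨h, hh⟩, _, ⟨w, hz1 h w rfl hh.1, rfl⟩, rfl⟩
      · exact ⟨none, hz2, hz⟩
  obtain ⟨o, ho⟩ := hX.split_finite
  cases o with
  | none => exact not_dom_regular hT0 ho
  | some h =>
    refine (nonGen_iff _).1 (hU h.1 h.2.1) (Dom.trans ?_ ho)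
    have h1 := dom_quot (slice U (S.emit h.1)) [] [] (fun t : T => [t])
      (fun t : T => [(Sum.inr t : S.H ⊕ T)])
    have h2 : Dom (slice U (S.emit h.1)) ({z | ∃ w ∈ slice U (S.emit h.1), z = w.map Sum.inr} :
        Language (S.H ⊕ T)) := by
      convert h1 using 1
      ext z
      simp only [flatMap_single, List.map_id', List.nil_append, List.append_nil]
      constructor
      · rintro ⟨w, h1, rfl⟩
        exact ⟨w, h1, rfl⟩
      · rintro ⟨w, h1, rfl⟩
        exact ⟨w, h1, rfl⟩
    have h3 : Language.IsRegular ({z | z = h.1.map Sum.inl} : Language (S.H ⊕ T)) := by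
      have h4 := isRegular_prefix (h.1.map (Sum.inl : S.H → S.H ⊕ T))
        (isRegular_take (Z := S.H ⊕ T) 1 {[]})
      convert h4 using 1
      ext z
      constructor
      · rintro rfl
        exact ⟨[], rfl, by simp⟩
      · rintro ⟨r, hr, rfl⟩
        have : r = [] := by
          cases r with
          | nil => rfl
          | cons a r =>
            have hr' : (a :: r).take 1 = [] := hr
            simp at hr'
        rw [this, List.append_nil]
        rfl
    have h5 := h2.concat_left h3
    convert h5 using 1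
    ext z
    constructor
    · rintro ⟨r, hr, rfl⟩
      exact ⟨_, rfl, r, hr, rfl⟩
    · rintro ⟨_, rfl, r, hr, rfl⟩
      exact ⟨r, hr, rfl⟩

theorem big_dom [Finite T] (S : Sys) (U : Language (Bool ⊕ T)) (h : List S.H) (hh : S.Valid h) :
    Dom (big S U) (slice U (S.emit h)) := by
  have := S.fin
  have h1 := dom_quot (big S U) (h.map Sum.inl) [] (fun t : T => [(Sum.inr t : S.H ⊕ T)])
    (fun t : T => [t])
  convert h1 using 1
  ext w
  simp only [flatMap_single, List.map_id', List.append_nil]
  constructor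
  · intro hw
    refine ⟨w, ?_, rfl⟩
    intro h' w' e hv'
    obtain ⟨rfl, rfl⟩ := split_unique e
    exact hw
  · rintro ⟨w, hw, rfl⟩
    exact hw h w rfl hh

/-- The bound theorem. -/
theorem exists_bound [Finite T] (U : Language (Bool ⊕ T)) (W : Set (List Bool))
    (hU : U.IsContextFree) (hW : REPred fun x => x ∈ W) (hN : ∀ x ∈ W, NonGen (slice U x)) :
    ∃ (A : Type) (_ : Finite A) (L : Language A), L.IsContextFree ∧ NonGen L ∧
      ∀ x ∈ W, Dom L (slice U x) := by
  obtain ⟨S, hS⟩ := exists_sys W hW
  have := S.fin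
  refine ⟨S.H ⊕ T, inferInstance, big S U, big_isContextFree S U hU, big_nonGen S U ?_, ?_⟩
  · intro h hh
    exact hN _ ((hS _).2 ⟨h, hh, rfl⟩)
  · intro x hx
    obtain ⟨h, hh, rfl⟩ := (hS x).1 hx
    exact big_dom S U h hh

end Pool.Agent.H93NG
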