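import Pool.Agent.H93NG.UMain

/-!
# Grammars with arbitrary terminals

`GnfN`: grammars in Greibach normal form whose terminals and nonterminals are natural numbers. They
are coded by grammars over two terminals: the letter `k` becomes `0 0^k 1`.
-/

namespace Pool.Agent.H93NG

/-- Grammars in Greibach normal form; terminals and nonterminals are natural numbers. -/
abbrev GnfN := List (ℕ × ℕ × List ℕ)

/-- `DerN G w st`: the word `st` of nonterminals derives the terminal word `w`. -/
inductive DerN (G : GnfN) : List ℕ → List ℕ → Prop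
  | nil : DerN G [] []
  | step {A b : ℕ} {α w st : List ℕ} :
      (A, b, α) ∈ G → DerN G w (α ++ st) → DerN G (b :: w) (A :: st)

/-- The language generated from the start symbol `0`. -/
def GnfN.lang (G : GnfN) : Language ℕ := {w | DerN G w [0]}

/-- The code of a letter. -/
def lcd (k : ℕ) : List (Fin 2) := 0 :: (List.replicate k 0 ++ [1])

/-- The code of a rule. -/
def rcd (r : ℕ × ℕ × List ℕ) : Gnf 2 :=
  (2 * r.1, 0, (2 * r.2.1 + 1) :: r.2.2.map (fun x => 2 * x)) :: (1, 1, []) ::
    (List.range r.2.1).map (fun j => (2 * j + 3, 0, [2 * j + 1]))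

/-- The code of a grammar. -/
def gcd2 (G : GnfN) : Gnf 2 := G.flatMap rcd

theorem gcd2_computable : Computable gcd2 := by
  have hdbl : Primrec fun x : ℕ => 2 * x := Primrec.nat_mul.comp (Primrec.const 2) Primrec.id
  have hmap : Primrec fun l : List ℕ => l.map (fun x => 2 * x) :=
    Primrec.list_map Primrec.id (hdbl.comp Primrec.snd).to₂
  have h1 : Primrec fun r : ℕ × ℕ × List ℕ => (2 * r.1, (0 : Fin 2),
      (2 * r.2.1 + 1) :: r.2.2.map (fun x => 2 * x)) := by
    refine Primrec.pair (hdbl.comp Primrec.fst) (Primrec.pair (Primrec.const 0) ?_)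
    refine Primrec.list_cons.comp ?_ ?_
    · exact Primrec.succ.comp (hdbl.comp (Primrec.fst.comp Primrec.snd))
    · exact hmap.comp (Primrec.snd.comp Primrec.snd)
  have h2 : Primrec fun j : ℕ => (2 * j + 3, (0 : Fin 2), [2 * j + 1]) := by
    refine Primrec.pair ?_ (Primrec.pair (Primrec.const 0) ?_)
    · exact Primrec.nat_add.comp hdbl (Primrec.const 3)
    · exact Primrec.list_cons.comp (Primrec.succ.comp hdbl) (Primrec.const [])
  have h3 : Primrec rcd := by
    unfold rcd
    refine Primrec.list_cons.comp h1 (Primrec.list_cons.comp (Primrec.const (1, 1, [])) ?_)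
    exact Primrec.list_map (Primrec.list_range.comp (Primrec.fst.comp Primrec.snd))
      (h2.comp Primrec.snd).to₂
  exact (Primrec.list_flatMap Primrec.id (h3.comp Primrec.snd).to₂).to_comp

theorem mem_gcd2 {G : GnfN} {X : ℕ} {b : Fin 2} {β : List ℕ} (h : (X, b, β) ∈ gcd2 G) :
    (∃ A k α, (A, k, α) ∈ G ∧ X = 2 * A ∧ b = 0 ∧ β = (2 * k + 1) :: α.map (fun x => 2 * x)) ∨
      (X = 1 ∧ b = 1 ∧ β = []) ∨ ∃ j, X = 2 * j + 3 ∧ b = 0 ∧ β = [2 * j + 1] := by
  unfold gcd2 at h
  rw [List.mem_flatMap] at h
  obtain ⟨⟨A, k, α⟩, hr, h⟩ := h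
  unfold rcd at h
  simp only [List.mem_cons, Prod.mk.injEq, List.mem_map, List.mem_range] at h
  rcases h with ⟨rfl, rfl, rfl⟩ | ⟨rfl, rfl, rfl⟩ | ⟨j, _, rfl, rfl, rfl⟩
  · exact Or.inl ⟨A, k, α, hr, rfl, rfl, rfl⟩
  · exact Or.inr (Or.inl ⟨rfl, rfl, rfl⟩)
  · exact Or.inr (Or.inr ⟨j, rfl, rfl, rfl⟩)

private theorem der_odd {G : GnfN} {k : ℕ} {st : List ℕ} {w : List (Fin 2)}
    (h : Der (gcd2 G) w ((2 * k + 1) :: st)) :
    ∃ w', w = List.replicate k 0 ++ [1] ++ w' ∧ Der (gcd2 G) w' st := by
  induction k generalizing w with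
  | zero =>
    cases h with
    | @step _ b α w _ hr hw =>
      rcases mem_gcd2 hr with ⟨A, k, α, _, h1, _⟩ | ⟨_, rfl, rfl⟩ | ⟨j, h1, _⟩
      · omega
      · exact ⟨w, rfl, hw⟩
      · omega
  | succ k ih =>
    cases h with
    | @step _ b α w _ hr hw =>
      rcases mem_gcd2 hr with ⟨A, k, α, _, h1, _⟩ | ⟨h1, _⟩ | ⟨j, h1, rfl, rfl⟩
      · omega
      · omega
      · have hj : j = k := by omega
        subst hj
        obtain ⟨w', rfl, h2⟩ := ih hw
        exact ⟨w', rfl, h2⟩

private theorem der_sound {G : GnfN} (n : ℕ) : ∀ (w : List (Fin 2)) (st : List ℕ),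
    w.length ≤ n → Der (gcd2 G) w (st.map (fun x => 2 * x)) →
      ∃ u, DerN G u st ∧ w = u.flatMap lcd := by
  induction n with
  | zero =>
    intro w st hw h
    have hw' : w = [] := List.length_eq_zero_iff.1 (by omega)
    subst hw'
    cases st with
    | nil => exact ⟨[], DerN.nil, rfl⟩
    | cons A st =>
      generalize hs : (A :: st).map (fun x => 2 * x) = s at h
      cases h
      simp at hs
  | succ n ih =>
    intro w st hw h
    cases st with
    | nil =>
      generalize hs : ([] : List ℕ).map (fun x => 2 * x) = s at h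
      cases h with
      | nil => exact ⟨[], DerN.nil, rfl⟩
      | step _ _ => simp at hs
    | cons A st =>
      generalize hs : (A :: st).map (fun x => 2 * x) = s at h
      cases h with
      | nil => simp at hs
      | @step X b β w st' hr hw2 =>
        simp only [List.map_cons, List.cons.injEq] at hs
        obtain ⟨rfl, rfl⟩ := hs
        rcases mem_gcd2 hr with ⟨A', k, α, h0, h1, rfl, rfl⟩ | ⟨h1, _⟩ | ⟨j, h1, _⟩
        · have hA : A' = A := by omega
          subst hA
          rw [List.cons_append, ← List.map_append] at hw2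
          obtain ⟨w', rfl, h2⟩ := der_odd hw2
          obtain ⟨u, h3, rfl⟩ := ih w' (α ++ st) (by simp at hw; omega) h2
          refine ⟨k :: u, DerN.step h0 h3, ?_⟩
          simp [lcd]
        · omega
        · omega

private theorem der_odd' {G : GnfN} {k : ℕ} {r : ℕ × ℕ × List ℕ} (hr : r ∈ G) (hk : k ≤ r.2.1)
    {st : List ℕ} {w : List (Fin 2)} (h : Der (gcd2 G) w st) :
    Der (gcd2 G) (List.replicate k 0 ++ [1] ++ w) ((2 * k + 1) :: st) := by
  induction k with
  | zero =>
    refine Der.step (α := []) ?_ h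
    refine List.mem_flatMap.2 ⟨r, hr, ?_⟩
    simp [rcd]
  | succ k ih =>
    have h1 := ih (by omega)
    refine Der.step (α := [2 * k + 1]) ?_ h1
    refine List.mem_flatMap.2 ⟨r, hr, ?_⟩
    unfold rcd
    refine List.mem_cons_of_mem _ (List.mem_cons_of_mem _ (List.mem_map.2 ⟨k, ?_, ?_⟩))
    · exact List.mem_range.2 (by omega)
    · rw [show 2 * (k + 1) + 1 = 2 * k + 3 by omega]

private theorem der_complete {G : GnfN} {u st : List ℕ} (h : DerN G u st) :
    Der (gcd2 G) (u.flatMap lcd) (st.map (fun x => 2 * x)) := by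
  induction h with
  | nil => exact Der.nil
  | @step A b α w st hr _ ih =>
    rw [List.map_append] at ih
    have h1 := der_odd' (k := b) hr le_rfl ih
    rw [← List.cons_append] at h1
    refine Der.step (α := (2 * b + 1) :: α.map (fun x => 2 * x)) ?_ h1
    refine List.mem_flatMap.2 ⟨_, hr, ?_⟩
    unfold rcd
    exact List.mem_cons_self

theorem gcd2_lang (G : GnfN) : (gcd2 G).lang = {w | ∃ u ∈ G.lang, w = u.flatMap lcd} := by
  ext w
  constructor
  · intro h
    obtain ⟨u, h1, h2⟩ := der_sound w.length w [0] le_rfl h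
    exact ⟨u, h1, h2⟩
  · rintro ⟨u, h1, rfl⟩
    exact der_complete h1

private theorem lcd_inj {k l : ℕ} {s t : List (Fin 2)}
    (h : List.replicate k 0 ++ [1] ++ s = List.replicate l 0 ++ [1] ++ t) : k = l ∧ s = t := by
  induction k generalizing l with
  | zero =>
    cases l with
    | zero => simpa using h
    | succ l => simp [List.replicate_succ] at h
  | succ k ih =>
    cases l with
    | zero => simp [List.replicate_succ] at h
    | succ l =>
      simp only [List.replicate_succ, List.cons_append, List.cons.injEq, true_and] at h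
      obtain ⟨h1, h2⟩ := ih h
      exact ⟨by rw [h1], h2⟩

theorem flatMap_lcd_inj {u v : List ℕ} (h : u.flatMap lcd = v.flatMap lcd) : u = v := by
  induction u generalizing v with
  | nil =>
    cases v with
    | nil => rfl
    | cons b v => simp [lcd] at h
  | cons a u ih =>
    cases v with
    | nil => simp [lcd] at h
    | cons b v =>
      rw [List.flatMap_cons, List.flatMap_cons] at h
      unfold lcd at h
      rw [List.cons_append, List.cons_append, List.cons.injEq] at h
      obtain ⟨h1, h2⟩ := lcd_inj h.2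
      rw [h1, ih h2]

private theorem derN_letters {G : GnfN} {u st : List ℕ} (h : DerN G u st) :
    ∀ k ∈ u, k ∈ G.map (fun r => r.2.1) := by
  induction h with
  | nil => simp
  | @step A b α w st hr _ ih =>
    intro k hk
    rcases List.mem_cons.1 hk with rfl | hk
    · exact List.mem_map.2 ⟨_, hr, rfl⟩
    · exact ih k hk

theorem dom_gcd2 (G : GnfN) : Dom (gcd2 G).lang G.lang := by
  have hfin : Finite {k : ℕ // k ∈ G.map (fun r => r.2.1)} :=
    (List.finite_toSet (G.map fun r => r.2.1)).to_subtype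
  refine ⟨{k : ℕ // k ∈ G.map (fun r => r.2.1)}, hfin, fun k => lcd k.1, fun k => [k.1],
    Set.univ, ⟨Unit, inferInstance, ⟨fun _ _ => (), (), Set.univ⟩, ?_⟩, ?_⟩
  · ext z
    exact ⟨fun _ => trivial, fun _ => trivial⟩
  · intro v
    rw [gcd2_lang]
    constructor
    · intro hv
      have h1 := derN_letters hv
      lift v to List {k : ℕ // k ∈ G.map (fun r => r.2.1)} using h1
      refine ⟨v, trivial, ⟨_, hv, ?_⟩, ?_⟩
      · rw [List.flatMap_map]
      · rw [flatMap_single]
    · rintro ⟨w, _, ⟨u, h1, h2⟩, rfl⟩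
      rw [flatMap_single]
      have h3 : (w.map Subtype.val).flatMap lcd = u.flatMap lcd := by
        rw [List.flatMap_map]
        exact h2
      rw [flatMap_lcd_inj h3]
      exact h1

theorem nonGen_gcd2 (G : GnfN) (h : NonGen G.lang) : NonGen (gcd2 G).lang := by
  rw [nonGen_iff]
  intro h'
  apply h
  intro B _ N hN
  have hfin : Finite {k : ℕ // k ∈ G.map (fun r => r.2.1)} :=
    (List.finite_toSet (G.map fun r => r.2.1)).to_subtype
  let L' : Language {k : ℕ // k ∈ G.map (fun r => r.2.1)} := {w | w.map Subtype.val ∈ G.lang}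
  have h1 : Dom L' (gcd2 G).lang := by
    have h2 := dom_quot L' [] [] (fun a => [a]) (fun a => lcd a.1)
    convert h2 using 1
    rw [gcd2_lang]
    ext z
    simp only [flatMap_single, List.map_id', List.nil_append, List.append_nil]
    constructor
    · rintro ⟨u, hu, rfl⟩
      have h1 := derN_letters hu
      lift u to List {k : ℕ // k ∈ G.map (fun r => r.2.1)} using h1
      exact ⟨u, hu, by rw [List.flatMap_map]⟩
    · rintro ⟨w, hw, rfl⟩
      exact ⟨_, hw, by rw [List.flatMap_map]⟩
  obtain ⟨C, hC, g, k, R, hR, hM⟩ := (h1.trans h').trans (dom_of_isContextFree hN)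
  refine ⟨C, hC, fun c => (g c).map Subtype.val, k, R, hR, ?_⟩
  intro v
  rw [hM]
  have key : ∀ w : List C, w.flatMap (fun c => (g c).map Subtype.val) =
      (w.flatMap g).map Subtype.val := fun w => by rw [List.map_flatMap]
  constructor
  · rintro ⟨w, h1, h2, h3⟩
    exact ⟨w, h1, by rw [key]; exact h2, h3⟩
  · rintro ⟨w, h1, h2, h3⟩
    rw [key] at h2
    exact ⟨w, h1, h2, h3⟩

end Pool.Agent.H93NG
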