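import Pool.Agent.H93NG.UDefs

/-!
# The code of a grammar

PROOFS.
* `opt_gcode`: by induction on `G`: the options of `gcode G` for `b` are the words `rword A α`,
  `(A, b, α) ∈ G`. (The letters `Sum.inl _` end the codes of the rules, and `u` is empty or ends
  with such a letter, so `u` is the code of an initial part of `G`; peel off one rule at a time.)
* `ml_gcode`: `Run (rword A α ++ y) st t` iff `st` is the code of `A` followed by `s'` and
  `Run y (α.flatMap cdN ++ s') t` (`run_pop`, `run_push`); the codes `cdN` form a prefix code:
  `cdN A ++ s = cdN B ++ t` implies `A = B` and `s = t`. So for each `st : List ℕ`: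
  `Der G v st` iff there are options `ys` with `Run ys.flatten (st.flatMap cdN) []` (induction on
  the derivation, resp. on `v`). The start: `(false, true)` pushes `cdN 0 = [false]`.
* `gcode_computable`: `Primrec` combinators (`Primrec.list_flatMap`, `Primrec.list_map`,
  `Primrec.list_reverse`, `Primrec.list_append`; `cdN X` as `(List.range X).map (fun _ => true)`).
-/

namespace Pool.Agent.H93NG

private theorem gcode_split {n : ℕ} {p q : List (Bool × Bool)} {b c : Fin n} {u v : List (E n)}
    (h : p.map Sum.inr ++ Sum.inl b :: u = q.map Sum.inr ++ Sum.inl c :: v) :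
    p = q ∧ b = c ∧ u = v := by
  induction p generalizing q with
  | nil =>
    cases q with
    | nil =>
      simp only [List.map_nil, List.nil_append, List.cons.injEq, Sum.inl.injEq] at h
      exact ⟨rfl, h.1, h.2⟩
    | cons a q => simp at h
  | cons a p ih =>
    cases q with
    | nil => simp at h
    | cons a' q =>
      simp only [List.map_cons, List.cons_append, List.cons.injEq, Sum.inr.injEq] at h
      obtain ⟨h1, h2, h3⟩ := ih h.2
      exact ⟨by rw [h.1, h1], h2, h3⟩

private theorem gcode_peel {n : ℕ} {p : List (Bool × Bool)} {b : Fin n} {u r t : List (E n)}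
    (h : p.map Sum.inr ++ Sum.inl b :: r = u ++ t) (hu : u ≠ [])
    (hl : ∀ e, u.getLast? = some e → e.isLeft) :
    ∃ u2 : List (E n), r = u2 ++ t ∧ ∀ e, u2.getLast? = some e → e.isLeft := by
  induction p generalizing u with
  | nil =>
    cases u with
    | nil => exact absurd rfl hu
    | cons c u2 =>
      simp only [List.map_nil, List.nil_append, List.cons_append, List.cons.injEq] at h
      refine ⟨u2, h.2, ?_⟩
      intro e he
      apply hl e
      rw [List.getLast?_cons, he]
      rfl
  | cons a p ih =>
    cases u with
    | nil => exact absurd rfl hu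
    | cons c u2 =>
      simp only [List.map_cons, List.cons_append, List.cons.injEq] at h
      have hne : u2 ≠ [] := by
        rintro rfl
        have := hl c (by simp)
        rw [← h.1] at this
        simp at this
      refine ih h.2 hne ?_
      intro e he
      apply hl e
      rw [List.getLast?_cons, he]
      rfl

private theorem gcode_last {n : ℕ} (l : Gnf n) (e : E n) (he : (gcode l).getLast? = some e) :
    e.isLeft := by
  induction l using List.reverseRecOn with
  | nil => simp [gcode] at he
  | append_singleton l r _ =>
    have h1 : gcode (l ++ [r]) =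
        (gcode l ++ (rword r.1 r.2.2).map Sum.inr) ++ [Sum.inl r.2.1] := by
      simp [gcode, rcode]
    rw [h1, List.getLast?_append] at he
    simp at he
    rw [← he]
    rfl

theorem opt_gcode {n : ℕ} (G : Gnf n) (b : Fin n) (y : List (Bool × Bool)) :
    Opt (gcode G) b y ↔ ∃ A α, (A, b, α) ∈ G ∧ y = rword A α := by
  constructor
  · rintro ⟨u, u', hx, hl⟩
    induction G generalizing u with
    | nil => simp [gcode] at hx
    | cons r G ih =>
      have h1 : gcode (r :: G) =
          (rword r.1 r.2.2).map Sum.inr ++ Sum.inl r.2.1 :: gcode G := by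
        simp [gcode, rcode]
      rw [h1] at hx
      by_cases hu : u = []
      · subst hu
        rw [List.nil_append] at hx
        obtain ⟨h2, h3, _⟩ := gcode_split hx
        refine ⟨r.1, r.2.2, ?_, h2.symm⟩
        rw [← h3]
        exact List.mem_cons_self
      · obtain ⟨u2, h2, h3⟩ := gcode_peel hx hu hl
        obtain ⟨A, α, h4, h5⟩ := ih u2 h2 h3
        exact ⟨A, α, List.mem_cons_of_mem _ h4, h5⟩
  · rintro ⟨A, α, h, rfl⟩
    obtain ⟨l1, l2, rfl⟩ := List.append_of_mem h
    refine ⟨gcode l1, gcode l2, ?_, gcode_last l1⟩
    simp [gcode, rcode]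

private theorem cdN_inj {A B : ℕ} {s t : List Bool} (h : cdN A ++ s = cdN B ++ t) :
    A = B ∧ s = t := by
  induction A generalizing B with
  | zero =>
    cases B with
    | zero => simpa [cdN] using h
    | succ B => simp [cdN, List.replicate_succ] at h
  | succ A ih =>
    cases B with
    | zero => simp [cdN, List.replicate_succ] at h
    | succ B =>
      simp only [cdN, List.replicate_succ, List.cons_append, List.cons.injEq, true_and] at h
      obtain ⟨h1, h2⟩ := ih (B := B) h
      exact ⟨by rw [h1], h2⟩

private theorem run_rword {A : ℕ} {α : List ℕ} {y : List (Bool × Bool)} {s t : List Bool} :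
    Run (rword A α ++ y) s t ↔ ∃ s', s = cdN A ++ s' ∧ Run y (α.flatMap cdN ++ s') t := by
  unfold rword
  rw [List.append_assoc, run_pop]
  simp only [run_push]

private theorem der_iff {n : ℕ} (G : Gnf n) (v : List (Fin n)) (st : List ℕ) :
    Der G v st ↔ ∃ ys : List (List (Bool × Bool)), List.Forall₂ (Opt (gcode G)) v ys ∧
      Run ys.flatten (st.flatMap cdN) [] := by
  constructor
  · intro h
    induction h with
    | nil => exact ⟨[], List.Forall₂.nil, Run.nil _⟩
    | step hr _ ih =>
      obtain ⟨ys, h1, h2⟩ := ih
      refine ⟨_ :: ys, List.Forall₂.cons ((opt_gcode _ _ _).2 ⟨_, _, hr, rfl⟩) h1, ?_⟩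
      rw [List.flatten_cons, run_rword]
      refine ⟨_, List.flatMap_cons, ?_⟩
      rw [List.flatMap_append] at h2
      exact h2
  · rintro ⟨ys, h1, h2⟩
    induction h1 generalizing st with
    | nil =>
      rw [List.flatten_nil, run_nil_iff] at h2
      cases st with
      | nil => exact Der.nil
      | cons B st => simp [cdN] at h2
    | cons ho _ ih =>
      obtain ⟨A, α, h3, rfl⟩ := (opt_gcode _ _ _).1 ho
      rw [List.flatten_cons, run_rword] at h2
      obtain ⟨s', h4, h5⟩ := h2
      cases st with
      | nil => simp [cdN] at h4
      | cons B st =>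
        rw [List.flatMap_cons] at h4
        obtain ⟨rfl, rfl⟩ := cdN_inj h4
        refine Der.step h3 (ih _ ?_)
        rw [List.flatMap_append]
        exact h5

theorem ml_gcode {n : ℕ} (G : Gnf n) : ML (gcode G) = G.lang := by
  ext v
  change (∃ ys : List (List (Bool × Bool)), List.Forall₂ (Opt (gcode G)) v ys ∧
    Run ((false, true) :: ys.flatten) [] []) ↔ Der G v [0]
  rw [der_iff]
  simp only [run_push_iff]
  rfl

theorem gcode_computable {n : ℕ} : Computable (gcode (n := n)) := by
  have hcd : Primrec cdN := by
    have h1 : Primrec (fun X : ℕ => (List.range X).map (fun _ => true) ++ [false]) :=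
      Primrec.list_append.comp
        (Primrec.list_map Primrec.list_range (Primrec₂.const true)) (Primrec.const [false])
    refine h1.of_eq ?_
    intro X
    simp [cdN, List.map_const']
  have hw : Primrec (fun r : ℕ × Fin n × List ℕ => rword r.1 r.2.2) := by
    have h1 : Primrec (fun r : ℕ × Fin n × List ℕ => (cdN r.1).map (fun a => (a, false))) :=
      Primrec.list_map (hcd.comp Primrec.fst)
        (Primrec.pair Primrec.snd (Primrec.const false)).to₂
    have h2 : Primrec (fun r : ℕ × Fin n × List ℕ =>
        (r.2.2.flatMap cdN).reverse.map (fun a => (a, true))) :=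
      Primrec.list_map
        (Primrec.list_reverse.comp
          (Primrec.list_flatMap (Primrec.snd.comp Primrec.snd) (hcd.comp Primrec.snd).to₂))
        (Primrec.pair Primrec.snd (Primrec.const true)).to₂
    exact Primrec.list_append.comp h1 h2
  have hr : Primrec (rcode (n := n)) := by
    have h1 : Primrec (fun r : ℕ × Fin n × List ℕ =>
        ((rword r.1 r.2.2).map Sum.inr : List (E n))) :=
      Primrec.list_map hw (Primrec.sumInr.comp Primrec.snd).to₂
    have h2 : Primrec (fun r : ℕ × Fin n × List ℕ => ([Sum.inl r.2.1] : List (E n))) :=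
      Primrec.list_cons.comp
        (Primrec.sumInl.comp (Primrec.fst.comp Primrec.snd)) (Primrec.const [])
    exact Primrec.list_append.comp h1 h2
  exact (Primrec.list_flatMap Primrec.id (hr.comp Primrec.snd).to₂).to_comp

end Pool.Agent.H93NG
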