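import Pool.Agent.H93NG.GDefs

/-!
# A finite family of languages closed under derivatives is generated by a grammar in normal form

PROOF. Let `e : I → ℕ` be injective with `e i₀ = 0`. The grammar `G` has the rules
`(e i, b, l'.map e)` for `l ∈ R i b` and `l'` a sublist of `l` obtained by deleting some entries
`j` with `[] ∈ L j` (finitely many; `Set.Finite.toFinset.toList` of the set of these triples, or
of a set containing them). Claim: for all `v` and all lists `l` of indices,
`Der G v (l.map e)` iff `v ∈ Prd L⁺ l`, where `L⁺ j = L j \ {[]}`. By strong induction on the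
length of `v`. For `l = j :: l₀` and `v = b :: w`: a rule `(e j, b, l'.map e)`, and
`w ∈ Prd L⁺ (l' ++ l₀)` by induction, so `w = w₁ ++ w₂` with `w₁ ∈ Prd L⁺ l' ⊆ Prd L l`, so
`b :: w₁ ∈ L j`. Conversely if `b :: w₁ ∈ L⁺ j` then `w₁ ∈ Prd L l` for some `l ∈ R j b`, and with
`l'` the entries whose factor is not empty, `w₁ ∈ Prd L⁺ l'`.
-/

namespace Pool.Agent.H93NG

/-- Products of languages along a list of indices. -/
def Prd {I B : Type} (L : I → Set (List B)) : List I → Set (List B)
  | [] => {[]}
  | i :: l => {w | ∃ w₁ w₂, w = w₁ ++ w₂ ∧ w₁ ∈ L i ∧ w₂ ∈ Prd L l}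

/-- `GnfDel L l' l`: the list `l'` is obtained from `l` by deleting indices of languages with the
empty word. -/
inductive GnfDel {I B : Type} (L : I → Set (List B)) : List I → List I → Prop
  | nil : GnfDel L [] []
  | keep {l' l : List I} (j : I) : GnfDel L l' l → GnfDel L (j :: l') (j :: l)
  | drop {l' l : List I} (j : I) : [] ∈ L j → GnfDel L l' l → GnfDel L l' (j :: l)

theorem GnfDel.sublist {I B : Type} {L : I → Set (List B)} {l' l : List I}
    (h : GnfDel L l' l) : l'.Sublist l := by
  induction h with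
  | nil => exact List.Sublist.refl _
  | keep j _ ih => exact ih.cons_cons j
  | drop j _ _ ih => exact ih.cons j

theorem prd_append {I B : Type} (L : I → Set (List B)) (l₁ l₂ : List I) (w : List B) :
    w ∈ Prd L (l₁ ++ l₂) ↔ ∃ w₁ w₂, w = w₁ ++ w₂ ∧ w₁ ∈ Prd L l₁ ∧ w₂ ∈ Prd L l₂ := by
  induction l₁ generalizing w with
  | nil =>
    constructor
    · intro h
      exact ⟨[], w, rfl, rfl, h⟩
    · rintro ⟨w₁, w₂, rfl, h1, h2⟩
      have h1' : w₁ = [] := h1
      subst h1'
      exact h2
  | cons i l ih =>
    constructor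
    · rintro ⟨u, v, rfl, hu, hv⟩
      obtain ⟨w₁, w₂, rfl, h1, h2⟩ := (ih v).1 hv
      exact ⟨u ++ w₁, w₂, by rw [List.append_assoc], ⟨u, w₁, rfl, hu, h1⟩, h2⟩
    · rintro ⟨w₁, w₂, rfl, ⟨u, v, rfl, hu, hv⟩, h2⟩
      exact ⟨u, v ++ w₂, by rw [List.append_assoc], hu, (ih _).2 ⟨v, w₂, rfl, hv, h2⟩⟩

/-- the languages without the empty word -/
def GnfPos {I B : Type} (L : I → Set (List B)) : I → Set (List B) := fun j => {w | w ∈ L j ∧ w ≠ []}

theorem prd_of_del {I B : Type} {L : I → Set (List B)} {l' l : List I} (h : GnfDel L l' l)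
    {w : List B} (hw : w ∈ Prd (GnfPos L) l') : w ∈ Prd L l := by
  induction h generalizing w with
  | nil => exact hw
  | keep j _ ih =>
    obtain ⟨u, v, rfl, hu, hv⟩ := hw
    exact ⟨u, v, rfl, hu.1, ih hv⟩
  | drop j hj _ ih => exact ⟨[], w, rfl, hj, ih hw⟩

theorem exists_del {I B : Type} {L : I → Set (List B)} {l : List I}
    {w : List B} (hw : w ∈ Prd L l) : ∃ l', GnfDel L l' l ∧ w ∈ Prd (GnfPos L) l' := by
  induction l generalizing w with
  | nil => exact ⟨[], GnfDel.nil, hw⟩
  | cons j l ih =>
    obtain ⟨u, v, rfl, hu, hv⟩ := hw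
    obtain ⟨l', h1, h2⟩ := ih hv
    by_cases hu0 : u = []
    · subst hu0
      exact ⟨l', GnfDel.drop j hu h1, h2⟩
    · exact ⟨j :: l', GnfDel.keep j h1, u, v, rfl, ⟨hu, hu0⟩, h2⟩

theorem exists_gnf_of_derivatives {I : Type} [Finite I] {n : ℕ} (L : I → Set (List (Fin n)))
    (R : I → Fin n → Set (List I)) (hR : ∀ i b, (R i b).Finite)
    (h : ∀ i b w, b :: w ∈ L i ↔ ∃ l ∈ R i b, w ∈ Prd L l) (i₀ : I) :
    ∃ G : Gnf n, ∀ v, v ≠ [] → (v ∈ L i₀ ↔ v ∈ G.lang) := by
  classical
  -- the coding of the indices
  obtain ⟨e, he, he0⟩ : ∃ e : I → ℕ, Function.Injective e ∧ e i₀ = 0 := by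
    obtain ⟨f, hf⟩ := Countable.exists_injective_nat I
    refine ⟨fun i => if i = i₀ then 0 else f i + 1, ?_, by simp⟩
    intro i j hij
    by_cases hi : i = i₀
    · by_cases hj : j = i₀
      · rw [hi, hj]
      · simp [hi, hj] at hij
    · by_cases hj : j = i₀
      · simp [hi, hj] at hij
      · simp only [hi, hj, if_false] at hij
        exact hf (Nat.succ.inj hij)
  -- the rules
  let S : Set (ℕ × Fin n × List ℕ) :=
    {t | ∃ i b l l', l ∈ R i b ∧ GnfDel L l' l ∧ t = (e i, b, l'.map e)}
  have hS : S.Finite := by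
    have h1 : (⋃ i, ⋃ b, ⋃ l ∈ R i b, (fun l' : List I => (e i, b, l'.map e)) ''
        {l' | l' ∈ l.sublists} : Set (ℕ × Fin n × List ℕ)).Finite := by
      refine Set.finite_iUnion fun i => Set.finite_iUnion fun b => ?_
      refine (hR i b).biUnion fun l _ => ?_
      exact (List.finite_toSet _).image _
    refine h1.subset ?_
    rintro t ⟨i, b, l, l', hl, hd, rfl⟩
    refine Set.mem_iUnion.2 ⟨i, Set.mem_iUnion.2 ⟨b, Set.mem_iUnion₂.2 ⟨l, hl, l', ?_, rfl⟩⟩⟩
    exact List.mem_sublists.2 hd.sublist
  let G : Gnf n := hS.toFinset.toList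
  have hG : ∀ t, t ∈ G ↔ t ∈ S := by
    intro t
    show t ∈ hS.toFinset.toList ↔ t ∈ S
    rw [Finset.mem_toList, Set.Finite.mem_toFinset]
  -- the claim
  have key : ∀ (m : ℕ) (v : List (Fin n)), v.length ≤ m → ∀ l : List I,
      (Der G v (l.map e) ↔ v ∈ Prd (GnfPos L) l) := by
    intro m
    induction m with
    | zero =>
      intro v hv l
      have hv0 : v = [] := List.length_eq_zero_iff.1 (Nat.le_zero.1 hv)
      subst hv0
      cases l with
      | nil => exact ⟨fun _ => rfl, fun _ => Der.nil⟩
      | cons j l =>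
        constructor
        · intro h1
          rw [List.map_cons] at h1
          cases h1
        · rintro ⟨w₁, w₂, h1, h2, _⟩
          exact absurd (List.append_eq_nil_iff.1 h1.symm).1 h2.2
    | succ m ih =>
      intro v hv l
      cases v with
      | nil =>
        cases l with
        | nil => exact ⟨fun _ => rfl, fun _ => Der.nil⟩
        | cons j l =>
          constructor
          · intro h1
            rw [List.map_cons] at h1
            cases h1
          · rintro ⟨w₁, w₂, h1, h2, _⟩
            exact absurd (List.append_eq_nil_iff.1 h1.symm).1 h2.2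
      | cons b w =>
        have hw : w.length ≤ m := by
          rw [List.length_cons] at hv
          exact Nat.le_of_succ_le_succ hv
        cases l with
        | nil =>
          constructor
          · intro h1
            rw [List.map_nil] at h1
            cases h1
          · intro h1
            exact absurd h1 (List.cons_ne_nil _ _)
        | cons j l₀ =>
          constructor
          · intro h1
            rw [List.map_cons] at h1
            cases h1 with
            | @step _ _ α _ _ hmem hder =>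
              obtain ⟨i, b', l, l', hl, hd, ht⟩ := (hG _).1 hmem
              rw [Prod.mk.injEq, Prod.mk.injEq] at ht
              obtain ⟨h2, rfl, rfl⟩ := ht
              have h3 := he h2
              subst h3
              rw [← List.map_append] at hder
              have h4 := (ih w hw _).1 hder
              obtain ⟨w₁, w₂, rfl, h5, h6⟩ := (prd_append _ _ _ _).1 h4
              exact ⟨b :: w₁, w₂, rfl,
                ⟨(h _ _ _).2 ⟨l, hl, prd_of_del hd h5⟩, List.cons_ne_nil _ _⟩, h6⟩
          · rintro ⟨u₁, u₂, h1, ⟨h2, h3⟩, h4⟩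
            cases u₁ with
            | nil => exact absurd rfl h3
            | cons b' w₁ =>
              rw [List.cons_append, List.cons.injEq] at h1
              obtain ⟨rfl, rfl⟩ := h1
              obtain ⟨l, hl, h5⟩ := (h _ _ _).1 h2
              obtain ⟨l', hd, h6⟩ := exists_del h5
              rw [List.map_cons]
              refine Der.step (α := l'.map e) ((hG _).2 ⟨j, b, l, l', hl, hd, rfl⟩) ?_
              rw [← List.map_append]
              exact (ih _ hw _).2 ((prd_append _ _ _ _).2 ⟨w₁, u₂, rfl, h6, h4⟩)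
  refine ⟨G, fun v hv => ?_⟩
  have h1 := key v.length v le_rfl [i₀]
  rw [List.map_cons, List.map_nil, he0] at h1
  show v ∈ L i₀ ↔ Der G v [0]
  rw [h1]
  constructor
  · intro h2
    exact ⟨v, [], by rw [List.append_nil], ⟨h2, hv⟩, rfl⟩
  · rintro ⟨w₁, w₂, rfl, h2, h3⟩
    have h3' : w₂ = [] := h3
    subst h3'
    rw [List.append_nil]
    exact h2.1

end Pool.Agent.H93NG
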