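import Pool.Agent.H93NG.Gram

/-!
# Left spines of derivations

`Sp G A X w`: the symbol `A` has a derivation tree whose left spine (up to symbols deriving the
empty word) ends in `X`, and `w` is derived by the right contexts. `Up G X Y`: `Y` is above `X`
with empty contexts.

PROOFS.
* `Sp.trans`: induction on the second spine (the definition adds a rule at the lower end).
* `ar_cons`: by induction on the derivation `AR G v st` with `v = b :: w`: for `term`, `γ = []`,
  `Z = terminal b` and the spine is `refl`. For `expand r`: `r.output ++ st' = γ ++ Z :: β`; if `Z`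
  is in `r.output = γ ++ Z :: β'`, `β = β' ++ st'`, then by `ar_append` the word of `β` splits, and
  `Sp.trans` with the one step spine from `nonterminal r.input` to `Z` gives the claim with
  `[] ++ nonterminal r.input :: st'`; if `Z` is in `st'` then `γ = r.output ++ γ'`, and the new `γ`
  is `nonterminal r.input :: γ'`, which derives the empty word. The converse is `ar_append` and
  `ar_of_sp`.
* `ar_of_sp`: induction on the spine.
* `ar_single_cons`: `ar_cons` for `st = [A]` (and `ar_of_sp` for the converse).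
* `sp_cons`: from left to right by induction on the spine: `w₁ ++ w₂ = b :: w`; if `w₁ = []` use
  the induction hypothesis and `Up.step`; otherwise `w₁ = b :: w'`, `Y = X`. From right to left:
  induction on `Up`.
-/

namespace Pool.Agent.H93NG

variable {B : Type}

/-- Left spines. -/
inductive Sp (G : ContextFreeGrammar B) : Symbol B G.NT → Symbol B G.NT → List B → Prop
  | refl (A : Symbol B G.NT) : Sp G A A []
  | step {A X : Symbol B G.NT} {r : ContextFreeRule B G.NT} {γ β : List (Symbol B G.NT)}
      {w₁ w₂ : List B} : r ∈ G.rules → r.output = γ ++ X :: β → AR G [] γ → AR G w₁ β →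
      Sp G A (Symbol.nonterminal r.input) w₂ → Sp G A X (w₁ ++ w₂)

/-- Spines with empty contexts. -/
inductive Up (G : ContextFreeGrammar B) : Symbol B G.NT → Symbol B G.NT → Prop
  | refl (X : Symbol B G.NT) : Up G X X
  | step {X Y : Symbol B G.NT} {r : ContextFreeRule B G.NT} {γ β : List (Symbol B G.NT)} :
      r ∈ G.rules → r.output = γ ++ X :: β → AR G [] γ → AR G [] β →
      Up G (Symbol.nonterminal r.input) Y → Up G X Y

theorem Sp.trans {G : ContextFreeGrammar B} {C A X : Symbol B G.NT} {u v : List B}
    (h : Sp G C A u) (h' : Sp G A X v) : Sp G C X (v ++ u) := by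
  induction h' with
  | refl => exact h
  | step hr ho hγ hβ _ ih =>
    rw [List.append_assoc]
    exact Sp.step hr ho hγ hβ ih

theorem ar_of_sp {G : ContextFreeGrammar B} {A X : Symbol B G.NT} {v w : List B}
    (h : Sp G A X w) (hv : AR G v [X]) : AR G (v ++ w) [A] := by
  induction h generalizing v with
  | refl => rwa [List.append_nil]
  | @step X r γ β w₁ w₂ hr ho hγ hβ _ ih =>
    have h1 : AR G (v ++ w₁) r.output := by
      rw [ho]
      refine ar_append.2 ⟨[], v ++ w₁, rfl, hγ, ?_⟩
      rw [← List.singleton_append]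
      exact ar_append.2 ⟨v, w₁, rfl, hv, hβ⟩
    have h2 : AR G (v ++ w₁) [Symbol.nonterminal r.input] :=
      AR.expand hr (by rwa [List.append_nil])
    rw [← List.append_assoc]
    exact ih h2

theorem ar_cons {G : ContextFreeGrammar B} {b : B} {w : List B} {st : List (Symbol B G.NT)} :
    AR G (b :: w) st ↔ ∃ γ Z β w₁ w₂, st = γ ++ Z :: β ∧ w = w₁ ++ w₂ ∧ AR G [] γ ∧
      Sp G Z (Symbol.terminal b) w₁ ∧ AR G w₂ β := by
  constructor
  · intro h
    generalize hx : b :: w = v at h
    induction h with
    | nil => exact absurd hx (List.cons_ne_nil _ _)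
    | @term b' w' st' h ih =>
      rw [List.cons.injEq] at hx
      obtain ⟨rfl, rfl⟩ := hx
      exact ⟨[], _, st', [], w, rfl, rfl, AR.nil, Sp.refl _, h⟩
    | @expand r w' st' hr h ih =>
      obtain ⟨γ, Z, β, w₁, w₂, h1, h2, h3, h4, h5⟩ := ih hx
      rw [List.append_eq_append_iff] at h1
      rcases h1 with ⟨a', h6, h7⟩ | ⟨c', h6, h7⟩
      · refine ⟨Symbol.nonterminal r.input :: a', Z, β, w₁, w₂, by rw [h7, List.cons_append], h2,
          ?_, h4, h5⟩
        exact AR.expand hr (by rw [← h6]; exact h3)
      · cases c' with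
        | nil =>
          rw [List.append_nil] at h6
          rw [List.nil_append] at h7
          refine ⟨[Symbol.nonterminal r.input], Z, β, w₁, w₂, by rw [← h7]; rfl, h2, ?_, h4, h5⟩
          exact AR.expand hr (by rw [h6, List.append_nil]; exact h3)
        | cons c c' =>
          rw [List.cons_append, List.cons.injEq] at h7
          obtain ⟨rfl, rfl⟩ := h7
          obtain ⟨u₁, u₂, rfl, h8, h9⟩ := ar_append.1 h5
          have h10 : Sp G (Symbol.nonterminal r.input) Z (u₁ ++ []) :=
            Sp.step hr h6 h3 h8 (Sp.refl _)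
          rw [List.append_nil] at h10
          refine ⟨[], Symbol.nonterminal r.input, st', w₁ ++ u₁, u₂, rfl, ?_, AR.nil,
            Sp.trans h10 h4, h9⟩
          rw [h2, List.append_assoc]
  · rintro ⟨γ, Z, β, w₁, w₂, rfl, rfl, h3, h4, h5⟩
    have h6 : AR G ([b] ++ w₁) [Z] := ar_of_sp h4 (AR.term AR.nil)
    refine ar_append.2 ⟨[], b :: (w₁ ++ w₂), rfl, h3, ?_⟩
    rw [← List.singleton_append (x := Z)]
    exact ar_append.2 ⟨b :: w₁, w₂, rfl, h6, h5⟩

theorem ar_nil_right {G : ContextFreeGrammar B} {w : List B} (h : AR G w []) : w = [] := by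
  cases h
  rfl

theorem ar_single_cons {G : ContextFreeGrammar B} {b : B} {w : List B} {A : Symbol B G.NT} :
    AR G (b :: w) [A] ↔ Sp G A (Symbol.terminal b) w := by
  constructor
  · intro h
    obtain ⟨γ, Z, β, w₁, w₂, h1, rfl, h3, h4, h5⟩ := ar_cons.1 h
    cases γ with
    | nil =>
      rw [List.nil_append, List.cons.injEq] at h1
      obtain ⟨rfl, rfl⟩ := h1
      rw [ar_nil_right h5, List.append_nil]
      exact h4
    | cons c γ =>
      rw [List.cons_append, List.cons.injEq] at h1
      exact absurd h1.2.symm (by simp)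
  · intro h
    exact ar_of_sp h (AR.term AR.nil)

theorem sp_cons {G : ContextFreeGrammar B} {b : B} {w : List B} {A X : Symbol B G.NT} :
    Sp G A X (b :: w) ↔ ∃ (Y : Symbol B G.NT) (r : ContextFreeRule B G.NT)
      (γ β : List (Symbol B G.NT)) (w₁ w₂ : List B), Up G X Y ∧ r ∈ G.rules ∧
      r.output = γ ++ Y :: β ∧ AR G [] γ ∧ w = w₁ ++ w₂ ∧ AR G (b :: w₁) β ∧
      Sp G A (Symbol.nonterminal r.input) w₂ := by
  constructor
  · intro h
    generalize hx : b :: w = v at h
    induction h with
    | refl => exact absurd hx (List.cons_ne_nil _ _)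
    | @step X r γ β w₁ w₂ hr ho hγ hβ hsp ih =>
      cases w₁ with
      | nil =>
        obtain ⟨Y, r', γ', β', u₁, u₂, h1, h2, h3, h4, h5, h6, h7⟩ := ih hx
        exact ⟨Y, r', γ', β', u₁, u₂, Up.step hr ho hγ hβ h1, h2, h3, h4, h5, h6, h7⟩
      | cons b' w₁ =>
        rw [List.cons_append, List.cons.injEq] at hx
        obtain ⟨rfl, rfl⟩ := hx
        exact ⟨X, r, γ, β, w₁, w₂, Up.refl _, hr, ho, hγ, rfl, hβ, hsp⟩
  · rintro ⟨Y, r, γ, β, w₁, w₂, hup, hr, ho, hγ, rfl, hβ, hsp⟩
    have base : Sp G A Y ((b :: w₁) ++ w₂) := Sp.step hr ho hγ hβ hsp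
    clear hr ho hγ hβ hsp
    rw [List.cons_append] at base
    induction hup with
    | refl X => exact base
    | @step X Y r' γ' β' hr' ho' hγ' hβ' _ ih => exact Sp.step hr' ho' hγ' hβ' (ih base)

end Pool.Agent.H93NG
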