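import Pool.Agent.H93NG.GnfA
import Pool.Agent.H93NG.GnfB

/-!
# The Greibach normal form

PROOF. Let `M` be the language of the grammar `G` (`B = Fin n`). `V` = the finite set of used
symbols (all terminals, the initial symbol, the inputs and the symbols of the outputs of the
rules), as a subtype. Indices `I = V ⊕ (V × V)`; `L (inl X) = {w | AR G w [X]}`,
`L (inr (A, X)) = {w | Sp G A X w}`.
Derivatives: `R (inl A) b = {[inr (A, terminal b)]}` by `ar_single_cons`. `R (inr (A, X)) b` is the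
set of the lists `inr (Z, terminal b) :: (β₂.map inl) ++ [inr (A, nonterminal r.input)]` for all
`Y`, `r`, `γ`, `β₁`, `Z`, `β₂` with `Up G X Y`, `r ∈ G.rules`,
`r.output = γ ++ Y :: (β₁ ++ Z :: β₂)`, `AR G [] γ`, `AR G [] β₁`, by `sp_cons` and `ar_cons`
(all these symbols are used symbols); it is finite since its elements have length at most the
maximal length of an output plus `2` (`List.finite_length_le`). The word of `β₂` (a list of used
symbols, `List.attach` or `List.pmap`) is in `Prd L (β₂.map inl)` iff `AR G w β₂` (`ar_append`,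
induction). Then `exists_gnf_of_derivatives` with `i₀ = inl (nonterminal G.initial)` and
`mem_language_iff_ar`.
-/

namespace Pool.Agent.H93NG

theorem gnfC_prd_append {I B : Type} (L : I → Set (List B)) (l₁ l₂ : List I) (w : List B) :
    w ∈ Prd L (l₁ ++ l₂) ↔ ∃ u v, w = u ++ v ∧ u ∈ Prd L l₁ ∧ v ∈ Prd L l₂ := by
  induction l₁ generalizing w with
  | nil =>
    constructor
    · intro h
      exact ⟨[], w, rfl, rfl, h⟩
    · rintro ⟨u, v, rfl, hu, hv⟩
      have hu' : u = [] := hu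
      subst hu'
      exact hv
  | cons i l₁ ih =>
    constructor
    · rintro ⟨w₁, w₂, rfl, h1, h2⟩
      obtain ⟨u, v, rfl, hu, hv⟩ := (ih w₂).1 h2
      exact ⟨w₁ ++ u, v, by rw [List.append_assoc], ⟨w₁, u, rfl, h1, hu⟩, hv⟩
    · rintro ⟨u, v, rfl, ⟨w₁, w₂, rfl, h1, h2⟩, hv⟩
      exact ⟨w₁, w₂ ++ v, by rw [List.append_assoc], h1, (ih _).2 ⟨w₂, v, rfl, h2, hv⟩⟩

/-- The used symbols of a grammar. -/
def gnfCUsed {B : Type} (G : ContextFreeGrammar B) : Set (Symbol B G.NT) :=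
  Set.range Symbol.terminal ∪ {Symbol.nonterminal G.initial} ∪
    (⋃ r ∈ G.rules, ({Symbol.nonterminal r.input} ∪ {X | X ∈ r.output}))

theorem gnfC_used_finite {B : Type} [Finite B] (G : ContextFreeGrammar B) :
    (gnfCUsed G).Finite := by
  refine ((Set.finite_range _).union (Set.finite_singleton _)).union ?_
  refine Set.Finite.biUnion (Finset.finite_toSet G.rules) fun r _ => ?_
  exact (Set.finite_singleton _).union (List.finite_toSet r.output)

theorem gnfC_terminal_used {B : Type} (G : ContextFreeGrammar B) (b : B) :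
    Symbol.terminal b ∈ gnfCUsed G := Or.inl (Or.inl ⟨b, rfl⟩)

theorem gnfC_initial_used {B : Type} (G : ContextFreeGrammar B) :
    Symbol.nonterminal G.initial ∈ gnfCUsed G := Or.inl (Or.inr rfl)

theorem gnfC_input_used {B : Type} (G : ContextFreeGrammar B) {r : ContextFreeRule B G.NT}
    (hr : r ∈ G.rules) : Symbol.nonterminal r.input ∈ gnfCUsed G :=
  Or.inr (Set.mem_iUnion₂.2 ⟨r, hr, Or.inl rfl⟩)

theorem gnfC_output_used {B : Type} (G : ContextFreeGrammar B) {r : ContextFreeRule B G.NT}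
    (hr : r ∈ G.rules) {X : Symbol B G.NT} (hX : X ∈ r.output) : X ∈ gnfCUsed G :=
  Or.inr (Set.mem_iUnion₂.2 ⟨r, hr, Or.inr hX⟩)

/-- The languages. -/
def gnfCL {B : Type} (G : ContextFreeGrammar B) :
    (gnfCUsed G) ⊕ ((gnfCUsed G) × (gnfCUsed G)) → Set (List B)
  | Sum.inl X => {w | AR G w [X.1]}
  | Sum.inr (A, X) => {w | Sp G A.1 X.1 w}

/-- The derivatives. -/
def gnfCR {B : Type} (G : ContextFreeGrammar B) :
    (gnfCUsed G) ⊕ ((gnfCUsed G) × (gnfCUsed G)) → B →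
      Set (List ((gnfCUsed G) ⊕ ((gnfCUsed G) × (gnfCUsed G))))
  | Sum.inl A, b => {[Sum.inr (A, ⟨Symbol.terminal b, gnfC_terminal_used G b⟩)]}
  | Sum.inr (A, X), b => {l | ∃ (Y : Symbol B G.NT) (r : ContextFreeRule B G.NT)
      (hr : r ∈ G.rules) (γ β₁ : List (Symbol B G.NT)) (Z : gnfCUsed G)
      (β₂ : List (gnfCUsed G)), Up G X.1 Y ∧
      r.output = γ ++ Y :: (β₁ ++ Z.1 :: β₂.map Subtype.val) ∧ AR G [] γ ∧ AR G [] β₁ ∧
      l = (Sum.inr (Z, ⟨Symbol.terminal b, gnfC_terminal_used G b⟩) :: β₂.map Sum.inl) ++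
        [Sum.inr (A, ⟨Symbol.nonterminal r.input, gnfC_input_used G hr⟩)]}

theorem gnfC_prd_inl {B : Type} (G : ContextFreeGrammar B) (β : List (gnfCUsed G))
    (w : List B) : w ∈ Prd (gnfCL G) (β.map Sum.inl) ↔ AR G w (β.map Subtype.val) := by
  induction β generalizing w with
  | nil =>
    constructor
    · intro h
      have h' : w = [] := h
      subst h'
      exact AR.nil
    · intro h
      exact ar_nil_right h
  | cons X β ih =>
    rw [List.map_cons, List.map_cons, ← List.singleton_append (x := X.1), ar_append]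
    constructor
    · rintro ⟨w₁, w₂, rfl, h1, h2⟩
      exact ⟨w₁, w₂, rfl, h1, (ih w₂).1 h2⟩
    · rintro ⟨w₁, w₂, rfl, h1, h2⟩
      exact ⟨w₁, w₂, rfl, h1, (ih w₂).2 h2⟩

theorem gnfC_R_finite {B : Type} [Finite B] (G : ContextFreeGrammar B)
    (i : (gnfCUsed G) ⊕ ((gnfCUsed G) × (gnfCUsed G))) (b : B) : (gnfCR G i b).Finite := by
  have hF : Finite (gnfCUsed G) := (gnfC_used_finite G).to_subtype
  obtain ⟨K, hK⟩ : ∃ K, ∀ r ∈ G.rules, r.output.length ≤ K :=
    ⟨G.rules.sup fun r => r.output.length,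
      fun r hr => Finset.le_sup (f := fun r => r.output.length) hr⟩
  cases i with
  | inl A => exact Set.finite_singleton _
  | inr AX =>
    obtain ⟨A, X⟩ := AX
    refine (List.finite_length_le _ (K + 2)).subset ?_
    rintro l ⟨Y, r, hr, γ, β₁, Z, β₂, -, h1, -, -, rfl⟩
    have h2 := hK r hr
    rw [h1] at h2
    simp only [List.length_append, List.length_cons, List.length_map, Set.mem_ofPred_eq,
      List.length_nil] at h2 ⊢
    omega

theorem gnfC_deriv {B : Type} (G : ContextFreeGrammar B)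
    (i : (gnfCUsed G) ⊕ ((gnfCUsed G) × (gnfCUsed G))) (b : B) (w : List B) :
    b :: w ∈ gnfCL G i ↔ ∃ l ∈ gnfCR G i b, w ∈ Prd (gnfCL G) l := by
  cases i with
  | inl A =>
    have h0 : b :: w ∈ gnfCL G (Sum.inl A) ↔ AR G (b :: w) [A.1] := Iff.rfl
    rw [h0, ar_single_cons]
    constructor
    · intro h
      exact ⟨_, rfl, w, [], by rw [List.append_nil], h, rfl⟩
    · rintro ⟨l, hl, h⟩
      have hl' : l = [Sum.inr (A, ⟨Symbol.terminal b, gnfC_terminal_used G b⟩)] := hl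
      subst hl'
      obtain ⟨w₁, w₂, rfl, h1, h2⟩ := h
      have h2' : w₂ = [] := h2
      subst h2'
      rw [List.append_nil]
      exact h1
  | inr AX =>
    obtain ⟨A, X⟩ := AX
    have h0 : b :: w ∈ gnfCL G (Sum.inr (A, X)) ↔ Sp G A.1 X.1 (b :: w) := Iff.rfl
    rw [h0, sp_cons]
    constructor
    · rintro ⟨Y, r, γ, β, w₁, w₂, hup, hr, ho, hγ, rfl, hβ, hsp⟩
      obtain ⟨γ', Z, β₂, u₁, u₂, rfl, rfl, hγ', hZ, hβ₂⟩ := ar_cons.1 hβ
      have hZu : Z ∈ gnfCUsed G := gnfC_output_used G hr (by rw [ho]; simp)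
      have hβu : ∀ Q ∈ β₂, Q ∈ gnfCUsed G := fun Q hQ =>
        gnfC_output_used G hr (by rw [ho]; simp [hQ])
      have hmap : (β₂.pmap Subtype.mk hβu).map Subtype.val = β₂ := by
        rw [List.map_pmap]
        simp
      refine ⟨_, ⟨Y, r, hr, γ, γ', ⟨Z, hZu⟩, β₂.pmap Subtype.mk hβu, hup, ?_, hγ, hγ', rfl⟩, ?_⟩
      · rw [hmap]
        exact ho
      · rw [gnfC_prd_append]
        refine ⟨u₁ ++ u₂, w₂, rfl, ⟨u₁, u₂, rfl, hZ, ?_⟩, ⟨w₂, [], by rw [List.append_nil], hsp, rfl⟩⟩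
        rw [gnfC_prd_inl, hmap]
        exact hβ₂
    · rintro ⟨l, ⟨Y, r, hr, γ, β₁, Z, β₂, hup, ho, hγ, hβ₁, rfl⟩, h⟩
      rw [gnfC_prd_append] at h
      obtain ⟨u, v, rfl, ⟨u₁, u₂, rfl, hZ, hβ⟩, ⟨w₂, w₃, rfl, hsp, h3⟩⟩ := h
      have h3' : w₃ = [] := h3
      subst h3'
      rw [gnfC_prd_inl] at hβ
      rw [List.append_nil]
      refine ⟨Y, r, γ, β₁ ++ Z.1 :: β₂.map Subtype.val, u₁ ++ u₂, w₂, hup, hr, ho, hγ, rfl, ?_,
        hsp⟩
      exact ar_cons.2 ⟨β₁, Z.1, β₂.map Subtype.val, u₁, u₂, rfl, rfl, hβ₁, hZ, hβ⟩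

theorem exists_gnf {n : ℕ} (M : Language (Fin n)) (hM : M.IsContextFree) :
    ∃ G : Gnf n, ∀ v, v ≠ [] → (v ∈ M ↔ v ∈ G.lang) := by
  obtain ⟨G, rfl⟩ := hM
  have hF : Finite (gnfCUsed G) := (gnfC_used_finite G).to_subtype
  obtain ⟨G', hG'⟩ := exists_gnf_of_derivatives (gnfCL G) (gnfCR G) (gnfC_R_finite G)
    (gnfC_deriv G) (Sum.inl ⟨Symbol.nonterminal G.initial, gnfC_initial_used G⟩)
  refine ⟨G', fun v hv => ?_⟩
  rw [← hG' v hv, mem_language_iff_ar]
  exact Iff.rfl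

end Pool.Agent.H93NG
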