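import Pool.Agent.H93NG.Count

/-!
# A word is not a valid history iff it has one of four kinds of errors

PROOF of `not_valid_iff`. Call a letter `Sum.inl i` a block letter and `Sum.inr j` a rule letter.

From left to right, by contraposition. Claim: a word `h` with no error of the kinds 1, 3, 4
satisfies `Hist S (fun i => (h.takeWhile Sum.isLeft).count (Sum.inl i)) h`. Induction on the
length. Let `X = h.takeWhile Sum.isLeft`, `h = X ++ h.dropWhile Sum.isLeft`. If the rest is empty
then `h = X`; if `X ≠ []` its last letter is a block letter (error 3), so `h = []`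
(`Hist.nil`, the counts are `0`). If the rest is `Sum.inr j :: h'`, then `h'` has none of the
errors (for error 4 of `h'` at `α ++ _`, take `X ++ Sum.inr j :: α` in `h`), and no error 4 at
`α = []` for `h`, with `Y = h'.takeWhile Sum.isLeft`, gives `(S.rule j).Rel` of the counts of `X`
and `Y`. And `X = seg (counts of X)` by `sorted_eq_seg'`. Use `Hist.step`. Finally no error 2 says
that the first segment is `seg S.init`, so the counts are `S.init`.

From right to left: by induction on `Hist S x h`: `h.takeWhile Sum.isLeft = seg x`, no error 1, no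
error 3, no error 4. For error 4 in `seg x ++ Sum.inr j' :: h' = α ++ (X ++ Sum.inr j :: Y) ++ β`:
if `α = []` then `X = seg x`, `j = j'`, `Y` is the first segment of `h'`, so the counts are `x i`
and `y i`, contradiction with `Rel`. If the last letter of `α` is a rule letter then the
decomposition is one of `h'` (with `α' = []` or `α'` ending in a rule letter).
-/

namespace Pool.Agent.H93NG

/-- Error 1: a descent inside a segment. -/
def Sys.Err1 (S : Sys) (h : List S.H) : Prop :=
  ∃ i i' : Fin S.d, i' < i ∧ [Sum.inl i, Sum.inl i'] <:+: h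

/-- Error 2: the first segment is not that of the initial vector. -/
def Sys.Err2 (S : Sys) (h : List S.H) : Prop := h.takeWhile Sum.isLeft ≠ seg S.init

/-- Error 3: the last letter is a block letter. -/
def Sys.Err3 (S : Sys) (h : List S.H) : Prop := ∃ i : Fin S.d, h.getLast? = some (Sum.inl i)

open Classical in
/-- Error 4: two consecutive segments `X`, `Y` whose counts of `i` do not obey the rule `j`
between them. -/
def Sys.Err4 (S : Sys) (j : S.J) (i : Fin S.d) (h : List S.H) : Prop :=
  ∃ α X Y β : List S.H, h = α ++ (X ++ Sum.inr j :: Y) ++ β ∧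
    (∀ a ∈ X, a.isLeft) ∧ (∀ a ∈ Y, a.isLeft) ∧
    (∀ a, α.getLast? = some a → a.isRight) ∧ (∀ a, β.head? = some a → a.isRight) ∧
    ¬ ∃ u : ℕ, X.count (Sum.inl i) = (S.rule j).a i + (S.rule j).p i * u ∧
      Y.count (Sum.inl i) = (S.rule j).b i + (S.rule j).q i * u

section helpers

theorem lawfulSum {α β : Type} [BEq α] [BEq β] [LawfulBEq α] [LawfulBEq β] :
    LawfulBEq (α ⊕ β) where
  eq_of_beq := by
    rintro (a | a) (b | b) h
    · exact congrArg Sum.inl (eq_of_beq (a := a) (b := b) h)
    · exact absurd h (by simp [BEq.beq, Sum.instBEq.beq])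
    · exact absurd h (by simp [BEq.beq, Sum.instBEq.beq])
    · exact congrArg Sum.inr (eq_of_beq (a := a) (b := b) h)
  rfl := by
    rintro (a | a)
    · exact beq_self_eq_true a
    · exact beq_self_eq_true a

variable {d : ℕ} {J : Type}

theorem seg_left (x : Fin d → ℕ) : ∀ a ∈ (seg x : List (Fin d ⊕ J)), a.isLeft := by
  intro a ha
  simp only [seg, List.mem_flatMap, List.mem_replicate] at ha
  obtain ⟨i, -, -, rfl⟩ := ha
  rfl

theorem seg_count [DecidableEq J] (x : Fin d → ℕ) (i : Fin d) :
    (seg x : List (Fin d ⊕ J)).count (Sum.inl i) = x i := by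
  have : LawfulBEq (Fin d ⊕ J) := lawfulSum
  unfold seg
  rw [List.count_flatMap]
  have h1 : ((List.count (Sum.inl i : Fin d ⊕ J)) ∘ fun j : Fin d =>
      List.replicate (x j) (Sum.inl j)) = fun j => if j = i then x i else 0 := by
    funext j
    simp only [Function.comp]
    by_cases hj : j = i
    · subst hj; simp
    · rw [if_neg hj, List.count_eq_zero]
      intro hm
      have := (List.mem_replicate.1 hm).2
      exact hj (Sum.inl.inj this).symm
  rw [h1, ← List.sum_toFinset _ (List.nodup_finRange d)]
  simp

theorem seg_no_descent (x : Fin d → ℕ) {i i' : Fin d} (hlt : i' < i) :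
    ¬ [Sum.inl i, Sum.inl i'] <:+: (seg x : List (Fin d ⊕ J)) := by
  intro hh
  have hp : (seg x : List (Fin d ⊕ J)).Pairwise
      (fun a b => ∀ k k' : Fin d, a = Sum.inl k → b = Sum.inl k' → k ≤ k') := by
    unfold seg
    rw [List.pairwise_flatMap]
    refine ⟨fun k _ => ?_, ?_⟩
    · rw [List.pairwise_replicate]
      right
      intro k1 k2 h1 h2
      rw [Sum.inl.inj (h1.symm.trans h2)]
    · refine (List.pairwise_lt_finRange d).imp ?_
      intro k k' hk a ha b hb k1 k2 h1 h2
      rw [List.mem_replicate] at ha hb
      have e1 : k1 = k := Sum.inl.inj (h1.symm.trans ha.2)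
      have e2 : k2 = k' := Sum.inl.inj (h2.symm.trans hb.2)
      rw [e1, e2]
      exact hk.le
  have h2 := hp.sublist hh.sublist
  have h3 : i ≤ i' := by
    have := (List.pairwise_cons.1 h2).1 (Sum.inl i') (by simp)
    exact this i i' rfl rfl
  exact absurd hlt (not_lt.2 h3)

/-- A two-letter factor of `P ++ c :: Q` that avoids `c` is a factor of `P` or of `Q`. -/
theorem infix_split {α : Type} {a b c : α} (ha : a ≠ c) (hb : b ≠ c) :
    ∀ {P Q : List α}, [a, b] <:+: P ++ c :: Q → [a, b] <:+: P ∨ [a, b] <:+: Q
  | [], Q, h => by
    rcases List.infix_cons_iff.1 (by simpa using h) with h1 | h1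
    · exact absurd (List.cons_prefix_cons.1 h1).1 ha
    · exact Or.inr h1
  | p :: P, Q, h => by
    rcases List.infix_cons_iff.1 (by simpa using h) with h1 | h1
    · obtain ⟨rfl, h2⟩ := List.cons_prefix_cons.1 h1
      cases P with
      | nil =>
        have h3 : b = c := by simpa using h2
        exact absurd h3 hb
      | cons q P' =>
        have h3 : b = q := by simpa using h2
        subst h3
        exact Or.inl ⟨[], P', by simp⟩
    · rcases infix_split ha hb h1 with h2 | h2
      · exact Or.inl (h2.trans (List.infix_cons (List.infix_refl _)))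
      · exact Or.inr h2

/-- The decomposition of a word at its first rule letter is unique. -/
theorem first_unique {α β : Type} {X X' : List (α ⊕ β)} {j j' : β} {Z Z' : List (α ⊕ β)}
    (hX : ∀ a ∈ X, a.isLeft) (hX' : ∀ a ∈ X', a.isLeft)
    (h : X ++ Sum.inr j :: Z = X' ++ Sum.inr j' :: Z') : X = X' ∧ j = j' ∧ Z = Z' := by
  induction X generalizing X' with
  | nil =>
    cases X' with
    | nil => simpa using h
    | cons b X' =>
      simp only [List.nil_append, List.cons_append, List.cons.injEq] at h
      have := hX' b (by simp)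
      rw [← h.1] at this
      simp at this
  | cons a X ih =>
    cases X' with
    | nil =>
      simp only [List.nil_append, List.cons_append, List.cons.injEq] at h
      have := hX a (by simp)
      rw [h.1] at this
      simp at this
    | cons b X' =>
      simp only [List.cons_append, List.cons.injEq] at h
      obtain ⟨rfl, h2⟩ := h
      obtain ⟨rfl, rfl, rfl⟩ := ih (fun a ha => hX a (by simp [ha]))
        (fun a ha => hX' a (by simp [ha])) h2
      exact ⟨rfl, rfl, rfl⟩

/-- A word is made of block letters, or has a first rule letter. -/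
theorem split_left {α β : Type} : ∀ l : List (α ⊕ β),
    (∀ a ∈ l, a.isLeft) ∨ ∃ A j A', l = A ++ Sum.inr j :: A' ∧ ∀ a ∈ A, a.isLeft
  | [] => Or.inl (by simp)
  | Sum.inr j :: l => Or.inr ⟨[], j, l, rfl, by simp⟩
  | Sum.inl i :: l => by
    rcases split_left l with h | ⟨A, j, A', rfl, h⟩
    · left
      intro a ha
      rcases List.mem_cons.1 ha with rfl | ha
      · rfl
      · exact h a ha
    · right
      refine ⟨Sum.inl i :: A, j, A', rfl, ?_⟩
      intro a ha
      rcases List.mem_cons.1 ha with rfl | ha
      · rfl
      · exact h a ha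

theorem takeWhile_left {α β : Type} {X : List (α ⊕ β)} {j : β} {Z : List (α ⊕ β)}
    (hX : ∀ a ∈ X, a.isLeft) : (X ++ Sum.inr j :: Z).takeWhile Sum.isLeft = X := by
  induction X with
  | nil => simp
  | cons a X ih =>
    simp only [List.cons_append]
    rw [List.takeWhile_cons_of_pos (hX a (by simp)), ih (fun a ha => hX a (by simp [ha]))]

theorem takeWhile_left' {α β : Type} {X Z : List (α ⊕ β)}
    (hX : ∀ a ∈ X, a.isLeft) (hZ : ∀ a, Z.head? = some a → a.isRight) :
    (X ++ Z).takeWhile Sum.isLeft = X := by
  cases Z with
  | nil =>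
    rw [List.append_nil, List.takeWhile_eq_self_iff.2 hX]
  | cons z Z =>
    have := hZ z rfl
    cases z with
    | inl a => simp at this
    | inr j => exact takeWhile_left hX

end helpers

/-- A nonempty word whose letters are all block letters ends with a block letter. -/
theorem getLast_left {α β : Type} {X : List (α ⊕ β)} (hX : ∀ a ∈ X, a.isLeft) (hne : X ≠ []) :
    ∃ i, X.getLast? = some (Sum.inl i) := by
  have h1 := hX _ (List.getLast_mem hne)
  rw [List.getLast?_eq_some_getLast hne]
  cases hc : X.getLast hne with
  | inl i => exact ⟨i, rfl⟩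
  | inr j => rw [hc] at h1; simp at h1

open Classical in
theorem hist_noerr (S : Sys) {x : Fin S.d → ℕ} {h : List S.H} (H : Hist S x h) :
    h.takeWhile Sum.isLeft = seg x ∧ ¬ S.Err1 h ∧ ¬ S.Err3 h ∧ ∀ j i, ¬ S.Err4 j i h := by
  induction H with
  | nil =>
    refine ⟨?_, ?_, ?_, ?_⟩
    · simp [seg]
    · rintro ⟨i, i', -, hh⟩
      simpa using hh.length_le
    · rintro ⟨i, hh⟩
      simp at hh
    · rintro j i ⟨α, X, Y, β, hh, -⟩
      have := congrArg List.length hh
      simp at this
  | @step j x y h' hrel H' ih =>
    obtain ⟨ih0, ih1, ih3, ih4⟩ := ih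
    refine ⟨takeWhile_left (seg_left x), ?_, ?_, ?_⟩
    · rintro ⟨i, i', hlt, hh⟩
      rcases infix_split (by simp) (by simp) hh with h1 | h1
      · -- a descent inside `seg x`
        exact seg_no_descent x hlt h1
      · exact ih1 ⟨i, i', hlt, h1⟩
    · rintro ⟨i, hh⟩
      rw [List.getLast?_append_of_ne_nil _ (by simp)] at hh
      rcases List.eq_nil_or_concat h' with rfl | ⟨l, a, rfl⟩
      · simp at hh
      · refine ih3 ⟨i, ?_⟩
        rw [List.getLast?_cons] at hh
        simpa using hh
    · rintro j' i ⟨α, X, Y, β, hh, hX, hY, hα, hβ, hno⟩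
      rcases List.eq_nil_or_concat α with rfl | ⟨α0, a, rfl⟩
      · obtain ⟨h1, h2, h3⟩ := first_unique (seg_left x) hX
          (show seg x ++ Sum.inr j :: h' = X ++ Sum.inr j' :: (Y ++ β) by simpa using hh)
        subst h1; subst h2
        have hY' : Y = seg y := by
          rw [← ih0, h3, takeWhile_left' hY hβ]
        apply hno
        rw [hY', seg_count, seg_count]
        exact hrel i
      · rw [List.concat_eq_append] at hh hα
        have ha : a.isRight := hα a (by simp)
        rcases split_left (α0 ++ [a]) with hl | ⟨A, j1, A', hA, hAl⟩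
        · have := hl a (by simp)
          cases a with
          | inl k => simp at ha
          | inr k => simp at this
        · rw [hA] at hh hα
          obtain ⟨h1, h2, h3⟩ := first_unique (seg_left x) hAl
            (show seg x ++ Sum.inr j :: h' =
              A ++ Sum.inr j1 :: (A' ++ (X ++ Sum.inr j' :: Y) ++ β) by simpa using hh)
          refine ih4 j' i ⟨A', X, Y, β, h3, hX, hY, ?_, hβ, hno⟩
          intro b hb
          refine hα b ?_
          rw [List.getLast?_append_of_ne_nil _ (by simp), List.getLast?_cons, hb]
          rfl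

open Classical in
theorem hist_of_noerr (S : Sys) : ∀ (n : ℕ) (h : List S.H), h.length ≤ n → ¬ S.Err1 h →
    ¬ S.Err3 h → (∀ j i, ¬ S.Err4 j i h) →
    Hist S (fun i => (h.takeWhile Sum.isLeft).count (Sum.inl i)) h := by
  intro n
  induction n with
  | zero =>
    intro h hn _ _ _
    have : h = [] := List.eq_nil_of_length_eq_zero (by omega)
    subst this
    have e : (fun i => (([] : List S.H).takeWhile Sum.isLeft).count (Sum.inl i)) =
      (0 : Fin S.d → ℕ) := by
      funext i
      simp
    rw [e]
    exact Hist.nil
  | succ n ih =>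
    intro h hn h1 h3 h4
    rcases split_left h with hl | ⟨X, j, h', rfl, hX⟩
    · by_cases hne : h = []
      · subst hne
        have e : (fun i => (([] : List S.H).takeWhile Sum.isLeft).count (Sum.inl i)) =
          (0 : Fin S.d → ℕ) := by
          funext i
          simp
        rw [e]
        exact Hist.nil
      · exact absurd (getLast_left hl hne) h3
    · have hlen : h'.length ≤ n := by
        simp only [List.length_append, List.length_cons] at hn
        omega
      have g1 : ¬ S.Err1 h' := by
        rintro ⟨i, i', hlt, hh⟩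
        exact h1 ⟨i, i', hlt, hh.trans ⟨X ++ [Sum.inr j], [], by simp⟩⟩
      have g3 : ¬ S.Err3 h' := by
        rintro ⟨i, hh⟩
        refine h3 ⟨i, ?_⟩
        rw [List.getLast?_append_of_ne_nil _ (by simp), List.getLast?_cons, hh]
        rfl
      have g4 : ∀ j i, ¬ S.Err4 j i h' := by
        rintro j' i ⟨α, X', Y, β, rfl, hX', hY, hα, hβ, hno⟩
        refine h4 j' i ⟨X ++ Sum.inr j :: α, X', Y, β, by simp, hX', hY, ?_, hβ, hno⟩
        intro a ha
        rw [List.getLast?_append_of_ne_nil _ (by simp), List.getLast?_cons] at ha
        cases hα2 : α.getLast? with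
        | none =>
          rw [hα2] at ha
          simp at ha
          rw [← ha]
          rfl
        | some b =>
          rw [hα2] at ha
          simp at ha
          subst ha
          exact hα _ hα2
      have H' := ih h' hlen g1 g3 g4
      have hrel : (S.rule j).Rel (fun i => X.count (Sum.inl i))
          (fun i => (h'.takeWhile Sum.isLeft).count (Sum.inl i)) := by
        intro i
        by_contra hno
        refine h4 j i ⟨[], X, h'.takeWhile Sum.isLeft, h'.dropWhile Sum.isLeft, ?_, hX, ?_, ?_, ?_,
          hno⟩
        · simp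
        · intro a ha
          exact List.mem_takeWhile_imp ha
        · intro a ha
          simp at ha
        · intro a ha
          have := List.head?_dropWhile_not (Sum.isLeft) h'
          rw [ha] at this
          simpa using this
      have hseg : X = seg fun i => X.count (Sum.inl i) := by
        refine sorted_eq_seg' X hX ?_
        intro i i' hlt hh
        exact h1 ⟨i, i', hlt, hh.trans ⟨[], Sum.inr j :: h', by simp⟩⟩
      have e : (fun i => ((X ++ Sum.inr j :: h').takeWhile Sum.isLeft).count (Sum.inl i)) =
          fun i => X.count (Sum.inl i) := by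
        rw [takeWhile_left hX]
      rw [e]
      conv_rhs => rw [hseg]
      exact Hist.step hrel H'

theorem not_valid_iff (S : Sys) (h : List S.H) :
    ¬ S.Valid h ↔ S.Err1 h ∨ S.Err2 h ∨ S.Err3 h ∨ ∃ j i, S.Err4 j i h := by
  classical
  constructor
  · intro hv
    by_contra hcon
    rw [not_or, not_or, not_or] at hcon
    obtain ⟨h1, h2, h3, h4'⟩ := hcon
    have h4 : ∀ j i, ¬ S.Err4 j i h := fun j i hh => h4' ⟨j, i, hh⟩
    apply hv
    have H := hist_of_noerr S h.length h le_rfl h1 h3 h4
    have h2' : h.takeWhile Sum.isLeft = seg S.init := by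
      by_contra h5
      exact h2 h5
    have e : (fun i => (h.takeWhile Sum.isLeft).count (Sum.inl i)) = S.init := by
      funext i
      rw [h2', seg_count]
    rw [e] at H
    exact H
  · intro he hv
    obtain ⟨h0, h1, h3, h4⟩ := hist_noerr S hv
    rcases he with he | he | he | ⟨j, i, he⟩
    · exact h1 he
    · exact he h0
    · exact h3 he
    · exact h4 j i he

end Pool.Agent.H93NG
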