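import Mathlib

/-!
# Linear languages
-/

namespace Pool.Agent.H93NG

/-- A linear language: it is generated by a context-free grammar such that the right-hand side of
each rule contains at most one nonterminal. -/
def IsLinear {B : Type} (M : Language B) : Prop :=
  ∃ G : ContextFreeGrammar B, G.language = M ∧ ∀ r ∈ G.rules,
    (∃ u : List B, r.output = u.map Symbol.terminal) ∨
    ∃ (u : List B) (X : G.NT) (v : List B),
      r.output = u.map Symbol.terminal ++ Symbol.nonterminal X :: v.map Symbol.terminal

end Pool.Agent.H93NG
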