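import Pool.Agent.H93NG.Defs

/-!
# Substitutions

`Subst M f`: replace each letter `a` of the words of `M` by the words of `f a`.
`SubCl 𝓑`: the closure of a family under rational transductions and substitutions (finite
alphabets). `Lin2`: the words `u ū` of pushes and pops with one turn, a generator of the rational
cone of the linear languages.
-/

namespace Pool.Agent.H93NG

/-- Substitution. -/
def Subst {A B : Type} (M : Language A) (f : A → Language B) : Language B :=
  {v | ∃ u ∈ M, ∃ vs : List (List B), List.Forall₂ (fun a v => v ∈ f a) u vs ∧ v = vs.flatten}

/-- The closure of a family of languages under rational transductions and substitutions. -/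
inductive SubCl (𝓑 : ∀ B : Type, Language B → Prop) : ∀ B : Type, Language B → Prop
  | base {B : Type} {M : Language B} : Finite B → 𝓑 B M → SubCl 𝓑 B M
  | dom {A B : Type} {L : Language A} {M : Language B} :
      Finite A → Finite B → SubCl 𝓑 A L → Dom L M → SubCl 𝓑 B M
  | subst {A B : Type} {M : Language A} {f : A → Language B} :
      Finite A → Finite B → SubCl 𝓑 A M → (∀ a, SubCl 𝓑 B (f a)) → SubCl 𝓑 B (Subst M f)

/-- The language of the words of pushes followed by the matching pops. -/
def Lin2 : Language (Bool × Bool) :=
  {w | ∃ u : List Bool, w = u.map (fun a => (a, true)) ++ u.reverse.map (fun a => (a, false))}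

end Pool.Agent.H93NG
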