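import Pool.Agent.H93NG.LDefs
import Pool.Agent.H93NG.SDefs
import Pool.Agent.H93NG.Final

/-!
# Every linear language lies in the cone of `Lin2`

A derivation of a linear grammar is a sequence `x` of rules; the word is the word of the left parts
of the rules of `x` followed by the word of the right parts of the rules of `x.reverse`. The pushes
of `Lin2` code `x` and the pops code `x.reverse`.
-/

namespace Pool.Agent.H93NG

private theorem isRegular_chain {Z : Type} [Finite Z] (S : Set Z) (rel : Z → Z → Prop) :
    Language.IsRegular ({z | ∃ a z', z = a :: z' ∧ a ∈ S ∧ List.IsChain rel z} : Language Z) := by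
  set L : Language Z := {z | ∃ a z', z = a :: z' ∧ a ∈ S ∧ List.IsChain rel z} with hL
  have hmem : ∀ z : List Z, z ∈ L ↔ ∃ a z', z = a :: z' ∧ a ∈ S ∧ List.IsChain rel z :=
    fun z => Iff.rfl
  apply Language.IsRegular.of_finite_range_leftQuotient
  refine (((Set.finite_range fun a : Z => ({y | List.IsChain rel (a :: y)} : Language Z)).insert
    ({z | False} : Language Z)).insert L).subset ?_
  rintro _ ⟨x, rfl⟩
  rcases List.eq_nil_or_concat x with rfl | ⟨x, a, rfl⟩
  · left
    rfl
  · rw [List.concat_eq_append]
    by_cases hx : x ++ [a] ∈ L
    · right; right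
      refine ⟨a, Set.ext fun y => ?_⟩
      refine Iff.trans ?_ (Language.mem_leftQuotient (L := L) _ y).symm
      obtain ⟨b, z', h1, h2, h3⟩ := (hmem _).1 hx
      rw [hmem]
      constructor
      · intro h
        refine ⟨b, z' ++ y, by rw [h1]; rfl, h2, ?_⟩
        rw [List.append_assoc, List.singleton_append]
        exact List.isChain_split.2 ⟨h3, h⟩
      · rintro ⟨_, _, _, _, h⟩
        rw [List.append_assoc, List.singleton_append] at h
        exact (List.isChain_split.1 h).2
    · right; left
      refine Set.ext fun y => ?_
      refine (Language.mem_leftQuotient (L := L) _ y).trans ?_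
      constructor
      · intro h
        apply hx
        obtain ⟨b, z', h1, h2, h3⟩ := (hmem _).1 h
        rw [List.append_assoc, List.singleton_append] at h3
        have h4 := (List.isChain_split.1 h3).1
        refine (hmem _).2 ?_
        cases x with
        | nil =>
          simp only [List.nil_append, List.singleton_append, List.cons.injEq] at h1
          obtain ⟨rfl, _⟩ := h1
          exact ⟨a, [], rfl, h2, h4⟩
        | cons c x =>
          simp only [List.cons_append, List.cons.injEq] at h1
          obtain ⟨rfl, _⟩ := h1
          exact ⟨c, x ++ [a], rfl, h2, h4⟩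
      · intro h
        exact absurd h id

section

variable {B T N : Type} (inp : T → N) (inn : T → Option N)

/-- Sequences of rules of a derivation from `X`. -/
def OKs : N → List T → Prop
  | _, [] => False
  | X, r :: x => inp r = X ∧ ((inn r = none ∧ x = []) ∨ ∃ Y, inn r = some Y ∧ OKs Y x)

/-- Consecutive letters. -/
def relL : T × Bool → T × Bool → Prop
  | (r, true), (r', true) => inn r = some (inp r')
  | (r, true), (_, false) => inn r = none
  | (_, false), (_, true) => False
  | (_, false), (_, false) => True

theorem chain_form {z : List (T × Bool)} (h : List.IsChain (relL inp inn) z) :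
    ∃ x y : List T, z = x.map (fun r => (r, true)) ++ y.map (fun r => (r, false)) := by
  induction z with
  | nil => exact ⟨[], [], rfl⟩
  | cons c z ih =>
    obtain ⟨r, b⟩ := c
    obtain ⟨x, y, rfl⟩ := ih h.tail
    cases b with
    | true => exact ⟨r :: x, y, rfl⟩
    | false =>
      cases x with
      | nil => exact ⟨[], r :: y, rfl⟩
      | cons s x =>
        simp only [List.map_cons, List.cons_append, List.isChain_cons_cons] at h
        exact absurd h.1 id

theorem chain_false (y : List T) : List.IsChain (relL inp inn) (y.map fun r => (r, false)) := by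
  induction y with
  | nil => exact List.IsChain.nil
  | cons r y ih =>
    cases y with
    | nil => exact List.IsChain.singleton _
    | cons s y => exact List.isChain_cons_cons.2 ⟨trivial, ih⟩

theorem chain_iff (r s : T) (x y : List T) :
    List.IsChain (relL inp inn) ((r, true) :: (x.map (fun r => (r, true)) ++
      (s :: y).map (fun r => (r, false)))) ↔
      (inn r = none ∧ x = []) ∨ ∃ Y, inn r = some Y ∧ OKs inp inn Y x := by
  induction x generalizing r with
  | nil =>
    simp only [List.map_nil, List.nil_append, List.map_cons, List.isChain_cons_cons, OKs,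
      and_true, and_false, exists_false, or_false]
    constructor
    · intro h
      exact h.1
    · intro h
      exact ⟨h, chain_false inp inn (s :: y)⟩
  | cons r' x ih =>
    have ih' := ih r'
    simp only [List.map_cons, List.cons_append, List.isChain_cons_cons] at ih' ⊢
    rw [ih']
    simp only [OKs, reduceCtorEq, and_false, false_or]
    constructor
    · rintro ⟨h1, h2⟩
      exact ⟨inp r', h1, rfl, h2⟩
    · rintro ⟨Y, h1, h2, h3⟩
      refine ⟨?_, h3⟩
      change inn r = some (inp r')
      rw [h1, h2]

end

private theorem map_split {T : Type} {x x' y y' : List T}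
    (e : x.map (fun r => (r, true)) ++ y.map (fun r => (r, false)) =
      x'.map (fun r => (r, true)) ++ y'.map (fun r => (r, false))) : x = x' ∧ y = y' := by
  induction x generalizing x' with
  | nil =>
    cases x' with
    | nil =>
      refine ⟨rfl, List.map_injective_iff.2 (fun a b h => by simpa using h :
        Function.Injective fun r : T => (r, false)) (by simpa using e)⟩
    | cons a x' => cases y <;> simp at e
  | cons b x ih =>
    cases x' with
    | nil => cases y' <;> simp at e
    | cons a x' =>
      simp only [List.map_cons, List.cons_append, List.cons.injEq, Prod.mk.injEq, and_true] at e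
      obtain ⟨rfl, e⟩ := e
      obtain ⟨rfl, rfl⟩ := ih e
      exact ⟨rfl, rfl⟩

private theorem code_flat {T : Type} (num : T → ℕ) (hnum : Function.Injective num) {x y : List T}
    (h : x.flatMap (fun t => List.replicate (num t) true ++ [false]) =
      y.flatMap (fun t => List.replicate (num t) true ++ [false])) : x = y := by
  induction x generalizing y with
  | nil =>
    cases y with
    | nil => rfl
    | cons b y => simp at h
  | cons a x ih =>
    cases y with
    | nil => simp at h
    | cons b y =>
      rw [List.flatMap_cons, List.flatMap_cons] at h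
      obtain ⟨h1, h2⟩ := code_inj _ _ _ _ h
      rw [hnum h1, ih h2]

theorem dom_of_isLinear {B : Type} [Finite B] {M : Language B} (hM : IsLinear M) :
    Dom Lin2 M := by
  classical
  obtain ⟨G, rfl, hG⟩ := hM
  let T := {r // r ∈ G.rules}
  have hT : Finite T := inferInstance
  have spec : ∀ r : T, ∃ (o : Option G.NT) (u v : List B),
      (o = none ∧ v = [] ∧ r.1.output = u.map Symbol.terminal) ∨
      ∃ Y, o = some Y ∧
        r.1.output = u.map Symbol.terminal ++ Symbol.nonterminal Y :: v.map Symbol.terminal := by
    intro r
    rcases hG r.1 r.2 with ⟨u, hu⟩ | ⟨u, X, v, hu⟩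
    · exact ⟨none, u, [], Or.inl ⟨rfl, rfl, hu⟩⟩
    · exact ⟨some X, u, v, Or.inr ⟨X, rfl, hu⟩⟩
  choose inn lt rt hspec using spec
  let inp : T → G.NT := fun r => r.1.input
  -- terminal words
  have hterm : ∀ {w u : List B}, AR G w (u.map Symbol.terminal) → w = u := by
    intro w u h
    induction u generalizing w with
    | nil =>
      generalize hs : ([] : List B).map (Symbol.terminal (N := G.NT)) = s at h
      cases h with
      | nil => rfl
      | term _ => simp at hs
      | expand _ _ => simp at hs
    | cons b u ih =>
      generalize hs : (b :: u).map (Symbol.terminal (N := G.NT)) = s at h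
      cases h with
      | nil => simp at hs
      | term h =>
        simp only [List.map_cons, List.cons.injEq, Symbol.terminal.injEq] at hs
        obtain ⟨rfl, rfl⟩ := hs
        rw [ih h]
      | expand _ _ => simp at hs
  -- derivations give sequences of rules
  have h1 : ∀ {w : List B} {st : List (Symbol B G.NT)}, AR G w st → ∀ (u : List B) (X : G.NT)
      (v : List B), st = u.map Symbol.terminal ++ Symbol.nonterminal X :: v.map Symbol.terminal →
      ∃ x : List T, OKs inp inn X x ∧
        w = u ++ (x.flatMap lt ++ x.reverse.flatMap rt) ++ v := by
    intro w st h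
    induction h with
    | nil =>
      intro u X v e
      cases u <;> simp at e
    | term _ ih =>
      intro u X v e
      cases u with
      | nil => simp at e
      | cons c u =>
        simp only [List.map_cons, List.cons_append, List.cons.injEq, Symbol.terminal.injEq] at e
        obtain ⟨rfl, e⟩ := e
        obtain ⟨x, h1, h2⟩ := ih u X v e
        exact ⟨x, h1, by rw [h2]; rfl⟩
    | @expand r w st hr hw ih =>
      intro u X v e
      cases u with
      | cons c u => simp at e
      | nil =>
        simp only [List.map_nil, List.nil_append, List.cons.injEq, Symbol.nonterminal.injEq] at e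
        obtain ⟨rfl, rfl⟩ := e
        rcases hspec ⟨r, hr⟩ with ⟨h1, h2, h3⟩ | ⟨Y, h1, h3⟩
        · change r.output = _ at h3
          rw [h3, ← List.map_append] at hw
          refine ⟨[⟨r, hr⟩], ⟨rfl, Or.inl ⟨h1, rfl⟩⟩, ?_⟩
          rw [hterm hw]
          simp [h2]
        · change r.output = _ at h3
          obtain ⟨x, h4, h5⟩ := ih (lt ⟨r, hr⟩) Y (rt ⟨r, hr⟩ ++ v) (by rw [h3]; simp)
          refine ⟨⟨r, hr⟩ :: x, ⟨rfl, Or.inr ⟨Y, h1, h4⟩⟩, ?_⟩
          rw [h5]
          simp
  -- sequences of rules give derivations
  have h2 : ∀ (x : List T) (X : G.NT), OKs inp inn X x →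
      AR G (x.flatMap lt ++ x.reverse.flatMap rt) [Symbol.nonterminal X] := by
    intro x
    induction x with
    | nil => intro X h; exact absurd h id
    | cons r x ih =>
      rintro X ⟨rfl, h⟩
      refine AR.expand r.2 ?_
      rw [List.append_nil]
      rcases hspec r with ⟨h3, h4, h5⟩ | ⟨Y, h3, h5⟩
      · rcases h with ⟨_, rfl⟩ | ⟨Y, h, _⟩
        · rw [h5]
          simp only [List.flatMap_cons, List.flatMap_nil, List.append_nil, List.reverse_singleton,
            h4]
          exact ar_terminals _
        · rw [h3] at h
          cases h
      · rcases h with ⟨h, _⟩ | ⟨Y', h, h6⟩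
        · rw [h3] at h
          cases h
        · rw [h3] at h
          cases h
          rw [h5]
          have h7 := ih Y h6
          rw [show Symbol.nonterminal Y :: (rt r).map Symbol.terminal =
            [Symbol.nonterminal Y] ++ (rt r).map Symbol.terminal from rfl]
          refine ar_append.2 ⟨lt r, (x.flatMap lt ++ x.reverse.flatMap rt) ++ rt r, ?_,
            ar_terminals _, ar_append.2 ⟨_, _, rfl, h7, ar_terminals _⟩⟩
          simp
  -- the coding
  obtain ⟨k, ⟨e⟩⟩ := Finite.exists_equiv_fin T
  let num : T → ℕ := fun t => (e t).val
  have hnum : Function.Injective num := fun a b h => e.injective (Fin.ext h)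
  let cd : T → List Bool := fun t => List.replicate (num t) true ++ [false]
  let g : T × Bool → List (Bool × Bool) := fun c =>
    match c with
    | (t, true) => (cd t).map fun a => (a, true)
    | (t, false) => (cd t).reverse.map fun a => (a, false)
  let hh : T × Bool → List B := fun c =>
    match c with
    | (t, true) => lt t
    | (t, false) => rt t
  have hg1 : ∀ x : List T, (x.map fun r => (r, true)).flatMap g =
      (x.flatMap cd).map fun a => (a, true) := by
    intro x
    rw [List.flatMap_map, List.map_flatMap]
  have hg2 : ∀ y : List T, (y.map fun r => (r, false)).flatMap g =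
      (y.reverse.flatMap cd).reverse.map fun a => (a, false) := by
    intro y
    rw [List.flatMap_map, List.reverse_flatMap, List.reverse_reverse, List.map_flatMap]
    rfl
  have hh1 : ∀ x : List T, (x.map fun r => (r, true)).flatMap hh = x.flatMap lt := by
    intro x
    rw [List.flatMap_map]
  have hh2 : ∀ y : List T, (y.map fun r => (r, false)).flatMap hh = y.flatMap rt := by
    intro y
    rw [List.flatMap_map]
  have hR := isRegular_chain (Z := T × Bool) {c | inp c.1 = G.initial ∧ c.2 = true}
    (relL inp inn)
  have d1 := dom_inter_regular (dom_quot Lin2 [] [] g (fun c => [c])) hR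
  have d2 := d1.trans (dom_quot _ [] [] (fun c => [c]) hh)
  convert d2 using 1
  ext v
  simp only [flatMap_single, List.map_id', List.nil_append, List.append_nil]
  rw [mem_language_iff_ar]
  constructor
  · intro h
    obtain ⟨x, h3, h4⟩ := h1 h [] G.initial [] rfl
    simp only [List.nil_append, List.append_nil] at h4
    cases x with
    | nil => exact absurd h3 id
    | cons r x =>
      refine ⟨(r :: x).map (fun r => (r, true)) ++ (r :: x).reverse.map (fun r => (r, false)),
        ⟨⟨_, ⟨(r :: x).flatMap cd, ?_⟩, rfl⟩, ?_⟩, ?_⟩
      · rw [List.flatMap_append, hg1, hg2, List.reverse_reverse]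
      · obtain ⟨s, y, hy⟩ : ∃ s y, (r :: x).reverse = s :: y := by
          cases h5 : (r :: x).reverse with
          | nil => simp at h5
          | cons s y => exact ⟨s, y, rfl⟩
        refine ⟨(r, true), x.map (fun r => (r, true)) ++
          (r :: x).reverse.map (fun r => (r, false)), rfl, ⟨h3.1, rfl⟩, ?_⟩
        rw [hy]
        exact (chain_iff inp inn r s x y).2 h3.2
      · rw [List.flatMap_append, hh1, hh2, h4]
  · rintro ⟨z, ⟨⟨z', ⟨u, hu⟩, rfl⟩, c, z'', h3, ⟨h4, h5⟩, h6⟩, rfl⟩
    obtain ⟨x, y, rfl⟩ := chain_form inp inn h6
    rw [List.flatMap_append, hg1, hg2] at hu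
    obtain ⟨h7, h8⟩ := map_split hu
    rw [List.reverse_inj, ← h7] at h8
    have h9 := code_flat num hnum h8
    rw [List.flatMap_append, hh1, hh2]
    have hy : y = x.reverse := by rw [← h9, List.reverse_reverse]
    subst hy
    cases x with
    | nil => simp at h3
    | cons r x =>
      obtain ⟨s, y, hy⟩ : ∃ s y, (r :: x).reverse = s :: y := by
        cases h5 : (r :: x).reverse with
        | nil => simp at h5
        | cons s y => exact ⟨s, y, rfl⟩
      refine h2 _ _ ⟨?_, ?_⟩
      · simp only [List.map_cons, List.cons_append, List.cons.injEq] at h3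
        rw [← h3.1] at h4
        exact h4
      · rw [hy] at h6
        exact (chain_iff inp inn r s x y).1 h6

end Pool.Agent.H93NG
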