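import Pool.Agent.H93NG.RR
import Pool.Agent.H93NG.Ops
import Pool.Agent.H93NG.Dyck

/-!
# Pairs of different words form an image of the Dyck language

PROOF. Let `o = (false, true)`, `c = (false, false)` be the brackets. `x ≠ y` iff
(a) `x = p ++ e :: q`, `y = p' ++ e' :: q'` with `p.length = p'.length`, `e ≠ e'`; or
(b) `x.length < y.length`; or (c) `y.length < x.length`.
The set of the words of (a) for fixed `e ≠ e'` is the image of `Dyck2` by the relation
`(o / inl a)* (ε / inl e) (ε / inl a)* (c / inr a)* (ε / inr e') (ε / inr a)*`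
(`RR.map` for `(o / inl a)*`, `RR.free` for `(ε / inl a)*`, `RR.word` for `(ε / inl e)`, `RR.mul`), since
a word `o^n c^m` is in `Dyck2` iff `n = m` (`dyck_count`). Similarly (b) is the image by
`(o / inl a)* (c / inr a)* (ε / inr a)+` and (c) by `(o / inl a)* (c / inr a)* (c / ε)+`; here
`ρ+` is `ρ ρ*`. Use `RR.dom`, `Dom.union`, `Dom.iUnion`.
-/

namespace Pool.Agent.H93NG

private def nqO : Bool × Bool := (false, true)

private def nqC : Bool × Bool := (false, false)

private theorem nq_flat_const {E A : Type} (a : A) (w : List E) :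
    w.flatMap (fun _ => [a]) = List.replicate w.length a := by
  induction w with
  | nil => rfl
  | cons b w ih => simp [ih, List.replicate_succ]

private theorem nq_flat_map {E B : Type} (g : E → B) (w : List E) :
    w.flatMap (fun a => [g a]) = w.map g := by
  induction w with
  | nil => rfl
  | cons b w ih =>
    rw [List.flatMap_cons, ih]
    rfl

private theorem nq_congr {A B : Type} {L : Language A} {M M' : Language B} (h : Dom L M)
    (e : ∀ v, v ∈ M' ↔ v ∈ M) : Dom L M' := by
  have : M' = M := Set.ext e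
  rw [this]
  exact h

private theorem nq_flat_nil {E B : Type} (w : List E) :
    w.flatMap (fun _ => ([] : List B)) = [] := by
  induction w with
  | nil => rfl
  | cons b w ih => simp

/-- Reading `a` for each letter written by `g`. -/
private theorem nq_rr {E A B : Type} [Finite E] (a : A) (g : E → B) :
    RR (fun (u : List A) (v : List B) =>
      ∃ w : List E, u = List.replicate w.length a ∧ v = w.map g) := by
  refine (RR.map (fun _ : E => [a]) (fun b => [g b])).congr ?_
  intro u v
  simp only [nq_flat_const, nq_flat_map]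

private theorem nq_rrf {E A B : Type} [Finite E] (g : E → B) :
    RR (fun (u : List A) (v : List B) => u = [] ∧ ∃ w : List E, v = w.map g) := by
  refine (RR.free (A := A) (fun b => [g b])).congr ?_
  intro u v
  simp only [nq_flat_map]

private theorem nq_a {E : Type} [Finite E] (e e' : E) :
    RR (fun (u : List (Bool × Bool)) (v : List (E ⊕ E)) => ∃ p q p' q' : List E,
      u = List.replicate p.length nqO ++ List.replicate p'.length nqC ∧
      v = (p ++ e :: q).map Sum.inl ++ (p' ++ e' :: q').map Sum.inr) := by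
  have h := RR.mul (nq_rr nqO (Sum.inl : E → E ⊕ E))
    (RR.mul (RR.word [] [Sum.inl e]) (RR.mul (nq_rrf (Sum.inl : E → E ⊕ E))
      (RR.mul (nq_rr nqC (Sum.inr : E → E ⊕ E))
        (RR.mul (RR.word [] [Sum.inr e']) (nq_rrf (Sum.inr : E → E ⊕ E))))))
  refine h.congr ?_
  intro u v
  constructor
  · rintro ⟨p, q, p', q', rfl, rfl⟩
    refine ⟨_, _, _, _, rfl, ?_, ⟨p, rfl, rfl⟩, [], _, _, _, rfl, rfl, ⟨rfl, rfl⟩, [], _, _, _,
      rfl, rfl, ⟨rfl, q, rfl⟩, _, [], _, _, (List.append_nil _).symm, rfl, ⟨p', rfl, rfl⟩, [], [],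
      _, _, rfl, rfl, ⟨rfl, rfl⟩, rfl, q', rfl⟩
    simp
  · rintro ⟨_, _, _, _, rfl, rfl, ⟨p, rfl, rfl⟩, _, _, _, _, rfl, rfl, ⟨rfl, rfl⟩, _, _, _, _,
      rfl, rfl, ⟨rfl, q, rfl⟩, _, _, _, _, rfl, rfl, ⟨p', rfl, rfl⟩, _, _, _, _, rfl, rfl,
      ⟨rfl, rfl⟩, rfl, q', rfl⟩
    exact ⟨p, q, p', q', by simp, by simp⟩

private theorem nq_b {E : Type} [Finite E] (e' : E) :
    RR (fun (u : List (Bool × Bool)) (v : List (E ⊕ E)) => ∃ p p' q' : List E,
      u = List.replicate p.length nqO ++ List.replicate p'.length nqC ∧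
      v = p.map Sum.inl ++ (p' ++ e' :: q').map Sum.inr) := by
  have h := RR.mul (nq_rr nqO (Sum.inl : E → E ⊕ E))
      (RR.mul (nq_rr nqC (Sum.inr : E → E ⊕ E))
        (RR.mul (RR.word [] [Sum.inr e']) (nq_rrf (Sum.inr : E → E ⊕ E))))
  refine h.congr ?_
  intro u v
  constructor
  · rintro ⟨p, p', q', rfl, rfl⟩
    refine ⟨_, _, _, _, rfl, ?_, ⟨p, rfl, rfl⟩, _, [], _, _, (List.append_nil _).symm, rfl,
      ⟨p', rfl, rfl⟩, [], [], _, _, rfl, rfl, ⟨rfl, rfl⟩, rfl, q', rfl⟩
    simp
  · rintro ⟨_, _, _, _, rfl, rfl, ⟨p, rfl, rfl⟩, _, _, _, _, rfl, rfl, ⟨p', rfl, rfl⟩, _, _, _, _,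
      rfl, rfl, ⟨rfl, rfl⟩, rfl, q', rfl⟩
    exact ⟨p, p', q', by simp, by simp⟩

private theorem nq_c {E : Type} [Finite E] :
    RR (fun (u : List (Bool × Bool)) (v : List (E ⊕ E)) => ∃ (p p' : List E) (k : ℕ),
      u = List.replicate p.length nqO ++ List.replicate (p'.length + (k + 1)) nqC ∧
      v = p.map Sum.inl ++ p'.map Sum.inr) := by
  have h := RR.mul (nq_rr nqO (Sum.inl : E → E ⊕ E))
      (RR.mul (nq_rr nqC (Sum.inr : E → E ⊕ E))
        (RR.mul (RR.word [nqC] []) (RR.map (fun _ : Unit => [nqC])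
          (fun _ : Unit => ([] : List (E ⊕ E))))))
  refine h.congr ?_
  intro u v
  constructor
  · rintro ⟨p, p', k, rfl, rfl⟩
    refine ⟨_, _, _, _, ?_, rfl, ⟨p, rfl, rfl⟩, _, _, _, [], rfl, (List.append_nil _).symm,
      ⟨p', rfl, rfl⟩, [nqC], _, [], [], rfl, rfl, ⟨rfl, rfl⟩, List.replicate k (), rfl, ?_⟩
    · rw [nq_flat_const, List.length_replicate, List.replicate_add, List.replicate_succ]
      rfl
    · rw [nq_flat_nil]
  · rintro ⟨_, _, _, _, rfl, rfl, ⟨p, rfl, rfl⟩, _, _, _, _, rfl, rfl, ⟨p', rfl, rfl⟩, _, _, _, _,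
      rfl, rfl, ⟨rfl, rfl⟩, w, rfl, rfl⟩
    refine ⟨p, p', w.length, ?_, ?_⟩
    · rw [nq_flat_const, List.replicate_add, List.replicate_succ]
      rfl
    · rw [nq_flat_nil]
      simp

private theorem nq_class {E : Type} : ∀ x y : List E, x ≠ y →
    (∃ (e e' : E) (p q p' q' : List E), e ≠ e' ∧ p.length = p'.length ∧ x = p ++ e :: q ∧
      y = p' ++ e' :: q') ∨ x.length < y.length ∨ y.length < x.length := by
  intro x
  induction x with
  | nil =>
    intro y hxy
    cases y with
    | nil => exact absurd rfl hxy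
    | cons b y => exact Or.inr (Or.inl (by simp))
  | cons a x ih =>
    intro y hxy
    cases y with
    | nil => exact Or.inr (Or.inr (by simp))
    | cons b y =>
      by_cases hab : a = b
      · subst hab
        have hxy' : x ≠ y := fun h => hxy (by rw [h])
        rcases ih y hxy' with ⟨e, e', p, q, p', q', he, hl, rfl, rfl⟩ | h | h
        · exact Or.inl ⟨e, e', a :: p, q, a :: p', q', he, by simp [hl], rfl, rfl⟩
        · exact Or.inr (Or.inl (by simpa using h))
        · exact Or.inr (Or.inr (by simpa using h))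
      · exact Or.inl ⟨a, b, [], x, [], y, hab, rfl, rfl, rfl⟩

private theorem nq_split {E : Type} : ∀ (n : ℕ) (y : List E), n < y.length →
    ∃ (p' : List E) (e' : E) (q' : List E), p'.length = n ∧ y = p' ++ e' :: q' := by
  intro n y hn
  refine ⟨y.take n, y[n], y.drop (n + 1), by simp; omega, ?_⟩
  rw [List.getElem_cons_drop, List.take_append_drop]

theorem dom_neq {E : Type} [Finite E] :
    Dom Dyck2 ({z | ∃ x y : List E, x ≠ y ∧ z = x.map Sum.inl ++ y.map Sum.inr} :
      Language (E ⊕ E)) := by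
  have ha := Dom.iUnion (ι := {t : E × E // t.1 ≠ t.2}) fun t =>
    (nq_a t.1.1 t.1.2).dom Dyck2
  have hb := Dom.iUnion (ι := E) fun e' => (nq_b e').dom Dyck2
  have hc := (nq_c (E := E)).dom Dyck2
  have h := Dom.union ha (Dom.union hb hc)
  refine nq_congr h ?_
  intro z
  constructor
  · rintro ⟨x, y, hxy, rfl⟩
    rcases nq_class x y hxy with ⟨e, e', p, q, p', q', he, hl, rfl, rfl⟩ | hl | hl
    · left
      refine ⟨⟨(e, e'), he⟩, _, ?_, p, q, p', q', rfl, rfl⟩
      exact (dyck_count _ _).mpr hl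
    · right
      left
      obtain ⟨p', e', q', hp, rfl⟩ := nq_split x.length y hl
      refine ⟨e', _, ?_, x, p', q', rfl, rfl⟩
      exact (dyck_count _ _).mpr hp.symm
    · right
      right
      obtain ⟨k, hk⟩ := Nat.exists_eq_add_of_lt hl
      refine ⟨_, ?_, x, y, k, rfl, rfl⟩
      exact (dyck_count _ _).mpr (by omega)
  · rintro (⟨⟨⟨e, e'⟩, he⟩, u, hu, p, q, p', q', rfl, rfl⟩ |
      ⟨e', u, hu, p, p', q', rfl, rfl⟩ | ⟨u, hu, p, p', k, rfl, rfl⟩)
    · have hl : p.length = p'.length := (dyck_count _ _).mp hu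
      refine ⟨p ++ e :: q, p' ++ e' :: q', ?_, rfl⟩
      intro h
      have h1 := List.append_inj_right h hl
      exact he (List.cons.inj h1).1
    · have hl : p.length = p'.length := (dyck_count _ _).mp hu
      refine ⟨p, p' ++ e' :: q', ?_, rfl⟩
      intro h
      have h1 := congrArg List.length h
      simp only [List.length_append, List.length_cons] at h1
      omega
    · have hl : p.length = p'.length + (k + 1) := (dyck_count _ _).mp hu
      refine ⟨p, p', ?_, rfl⟩
      rintro rfl
      omega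

end Pool.Agent.H93NG
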