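import Pool.Agent.H93NG.Trans

/-!
# Rational relations

A calculus of the relations between words given by finite letter transducers.

PROOFS (all with explicit state types; `σ`, `τ` the states of the given transducers).
* `RR.one`: one state, no moves. `RR.zero`: two states, no moves. `RR.single`: two states, one move.
* `RR.add`: states `Bool ⊕ (σ ⊕ τ)`, silent moves from `inl false` to both starts and from both
  ends to `inl true` (compare `Dom.union` in `Ops.lean`).
* `RR.mul`: states `σ ⊕ τ` with a silent move from the end of the first to the start of the second.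
* `RR.star`: states `Option σ` with silent moves `none → some s` and `some f → none`, start and end
  `none`.
* `RR.word`: induction on the two words with `RR.single`, `RR.mul`, `RR.one`.
* `RR.iSup`: a finite type is equivalent to some `Fin k`: induction on `k`; or states
  `Bool ⊕ (Σ i, σ i)`.
* `RR.dom`: the definition of `TDom` and `dom_of_tdom`.
-/

namespace Pool.Agent.H93NG

variable {A B : Type}

/-- The relation of a finite letter transducer. -/
def RR (ρ : List A → List B → Prop) : Prop :=
  ∃ (σ : Type) (_ : Finite σ) (δ : σ → Option A → Option B → σ → Prop) (s f : σ),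
    ∀ u v, ρ u v ↔ Path δ s u v f

/-- Iteration of a relation. -/
inductive Star (ρ : List A → List B → Prop) : List A → List B → Prop
  | nil : Star ρ [] []
  | cons {u u' : List A} {v v' : List B} :
      ρ u v → Star ρ u' v' → Star ρ (u ++ u') (v ++ v')

theorem RR.congr {ρ ρ' : List A → List B → Prop} (h : RR ρ) (e : ∀ u v, ρ' u v ↔ ρ u v) :
    RR ρ' := by
  have : ρ' = ρ := by
    funext u v
    exact propext (e u v)
  rw [this]
  exact h

private theorem rr_false {σ : Type} {p q : σ} {u : List A} {v : List B}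
    (h : Path (fun (_ : σ) (_ : Option A) (_ : Option B) (_ : σ) => False) p u v q) :
    p = q ∧ u = [] ∧ v = [] := by
  cases h with
  | nil => exact ⟨rfl, rfl, rfl⟩
  | cons hd _ => exact hd.elim

theorem RR.one : RR (fun (u : List A) (v : List B) => u = [] ∧ v = []) := by
  refine ⟨Unit, inferInstance, fun _ _ _ _ => False, (), (), ?_⟩
  intro u v
  constructor
  · rintro ⟨rfl, rfl⟩
    exact Path.nil _
  · intro h
    exact (rr_false h).2

theorem RR.zero : RR (fun (_ : List A) (_ : List B) => False) := by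
  refine ⟨Bool, inferInstance, fun _ _ _ _ => False, false, true, ?_⟩
  intro u v
  constructor
  · exact fun h => h.elim
  · intro h
    exact absurd (rr_false h).1 (by simp)

private def rrSingle (a : Option A) (b : Option B) :
    Bool → Option A → Option B → Bool → Prop :=
  fun p x y q => p = false ∧ q = true ∧ x = a ∧ y = b

theorem RR.single (a : Option A) (b : Option B) :
    RR (fun (u : List A) (v : List B) => u = a.toList ∧ v = b.toList) := by
  refine ⟨Bool, inferInstance, rrSingle a b, false, true, ?_⟩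
  intro u v
  constructor
  · rintro ⟨rfl, rfl⟩
    exact Path.single ⟨rfl, rfl, rfl, rfl⟩
  · intro h
    cases h with
    | cons hd hp =>
      obtain ⟨_, rfl, rfl, rfl⟩ := hd
      cases hp with
      | nil => exact ⟨by simp, by simp⟩
      | cons hd' _ => exact absurd hd'.1 (by simp)

/-! ### Finite unions -/

private inductive SupMv {ι : Type} {σ : ι → Type}
    (δ : ∀ i, σ i → Option A → Option B → σ i → Prop) (s f : ∀ i, σ i) :
    Bool ⊕ (Σ i, σ i) → Option A → Option B → Bool ⊕ (Σ i, σ i) → Prop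
  | start (i : ι) : SupMv δ s f (Sum.inl false) none none (Sum.inr ⟨i, s i⟩)
  | move (i : ι) (p : σ i) (a : Option A) (b : Option B) (q : σ i) :
      δ i p a b q → SupMv δ s f (Sum.inr ⟨i, p⟩) a b (Sum.inr ⟨i, q⟩)
  | stop (i : ι) : SupMv δ s f (Sum.inr ⟨i, f i⟩) none none (Sum.inl true)

private theorem sup_lift {ι : Type} {σ : ι → Type}
    {δ : ∀ i, σ i → Option A → Option B → σ i → Prop} {s f : ∀ i, σ i} {i : ι} {p q : σ i}
    {u : List A} {v : List B} (h : Path (δ i) p u v q) :
    Path (SupMv δ s f) (Sum.inr ⟨i, p⟩) u v (Sum.inr ⟨i, q⟩) := by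
  induction h with
  | nil p => exact Path.nil _
  | cons hd _ ih => exact Path.cons (SupMv.move i _ _ _ _ hd) ih

private theorem sup_inv {ι : Type} {σ : ι → Type}
    {δ : ∀ i, σ i → Option A → Option B → σ i → Prop} {s f : ∀ i, σ i}
    {x y : Bool ⊕ (Σ i, σ i)} {u : List A} {v : List B} (h : Path (SupMv δ s f) x u v y) :
    y = Sum.inl true →
      (x = Sum.inl true → u = [] ∧ v = []) ∧
      (∀ i p, x = Sum.inr ⟨i, p⟩ → Path (δ i) p u v (f i)) ∧
      (x = Sum.inl false → ∃ i, Path (δ i) (s i) u v (f i)) := by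
  induction h with
  | nil p =>
    rintro rfl
    refine ⟨fun _ => ⟨rfl, rfl⟩, ?_, ?_⟩
    · intro i p hp
      cases hp
    · intro hp
      cases hp
  | cons hd _ ih =>
    intro hy
    obtain ⟨ih1, ih2, ih3⟩ := ih hy
    refine ⟨?_, ?_, ?_⟩
    · rintro rfl
      cases hd
    · rintro i p rfl
      cases hd with
      | move i p a b q hδ => exact Path.cons hδ (ih2 _ _ rfl)
      | stop i =>
        obtain ⟨rfl, rfl⟩ := ih1 rfl
        exact Path.nil _
    · rintro rfl
      cases hd with
      | start i => exact ⟨i, ih2 _ _ rfl⟩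

theorem RR.iSup {ι : Type} [Finite ι] {ρ : ι → List A → List B → Prop} (h : ∀ i, RR (ρ i)) :
    RR (fun u v => ∃ i, ρ i u v) := by
  choose σ hσ δ s f hρ using h
  have : ∀ i, Finite (σ i) := hσ
  refine ⟨Bool ⊕ (Σ i, σ i), inferInstance, SupMv δ s f, Sum.inl false, Sum.inl true, ?_⟩
  intro u v
  constructor
  · rintro ⟨i, hi⟩
    have h1 := (hρ i u v).mp hi
    have h2 : Path (SupMv δ s f) (Sum.inl false) ((none : Option A).toList ++ u)
        ((none : Option B).toList ++ v) (Sum.inr ⟨i, f i⟩) :=
      Path.cons (SupMv.start i) (sup_lift h1)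
    have h3 := h2.append (Path.single (SupMv.stop (δ := δ) (s := s) (f := f) i))
    simpa using h3
  · intro hp
    obtain ⟨i, hi⟩ := (sup_inv hp rfl).2.2 rfl
    exact ⟨i, (hρ i u v).mpr hi⟩

theorem RR.add {ρ ρ' : List A → List B → Prop} (h : RR ρ) (h' : RR ρ') :
    RR (fun u v => ρ u v ∨ ρ' u v) := by
  have h1 : ∀ b : Bool, RR (fun u v => (cond b (ρ u v) (ρ' u v) : Prop)) := by
    intro b
    cases b
    · exact h'
    · exact h
  refine (RR.iSup h1).congr ?_
  intro u v
  constructor
  · rintro (hr | hr)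
    · exact ⟨true, hr⟩
    · exact ⟨false, hr⟩
  · rintro ⟨b, hb⟩
    cases b
    · exact Or.inr hb
    · exact Or.inl hb

/-! ### Products -/

private inductive MulMv {σ τ : Type} (δ : σ → Option A → Option B → σ → Prop)
    (δ' : τ → Option A → Option B → τ → Prop) (f : σ) (s' : τ) :
    σ ⊕ τ → Option A → Option B → σ ⊕ τ → Prop
  | fst (p : σ) (a : Option A) (b : Option B) (q : σ) :
      δ p a b q → MulMv δ δ' f s' (Sum.inl p) a b (Sum.inl q)
  | link : MulMv δ δ' f s' (Sum.inl f) none none (Sum.inr s')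
  | snd (p : τ) (a : Option A) (b : Option B) (q : τ) :
      δ' p a b q → MulMv δ δ' f s' (Sum.inr p) a b (Sum.inr q)

private theorem mul_lift_fst {σ τ : Type} {δ : σ → Option A → Option B → σ → Prop}
    {δ' : τ → Option A → Option B → τ → Prop} {f : σ} {s' : τ} {p q : σ}
    {u : List A} {v : List B} (h : Path δ p u v q) :
    Path (MulMv δ δ' f s') (Sum.inl p) u v (Sum.inl q) := by
  induction h with
  | nil p => exact Path.nil _
  | cons hd _ ih => exact Path.cons (MulMv.fst _ _ _ _ hd) ih

private theorem mul_lift_snd {σ τ : Type} {δ : σ → Option A → Option B → σ → Prop}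
    {δ' : τ → Option A → Option B → τ → Prop} {f : σ} {s' : τ} {p q : τ}
    {u : List A} {v : List B} (h : Path δ' p u v q) :
    Path (MulMv δ δ' f s') (Sum.inr p) u v (Sum.inr q) := by
  induction h with
  | nil p => exact Path.nil _
  | cons hd _ ih => exact Path.cons (MulMv.snd _ _ _ _ hd) ih

private theorem mul_inv {σ τ : Type} {δ : σ → Option A → Option B → σ → Prop}
    {δ' : τ → Option A → Option B → τ → Prop} {f : σ} {s' f' : τ} {x y : σ ⊕ τ}
    {u : List A} {v : List B} (h : Path (MulMv δ δ' f s') x u v y) :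
    y = Sum.inr f' →
      (∀ p, x = Sum.inr p → Path δ' p u v f') ∧
      (∀ p, x = Sum.inl p → ∃ u₁ u₂ v₁ v₂, u = u₁ ++ u₂ ∧ v = v₁ ++ v₂ ∧ Path δ p u₁ v₁ f ∧
        Path δ' s' u₂ v₂ f') := by
  induction h with
  | nil p =>
    rintro rfl
    refine ⟨?_, ?_⟩
    · rintro p hp
      cases hp
      exact Path.nil _
    · intro p hp
      cases hp
  | cons hd _ ih =>
    intro hy
    obtain ⟨ih1, ih2⟩ := ih hy
    refine ⟨?_, ?_⟩
    · rintro p rfl
      cases hd with
      | snd p a b q hδ => exact Path.cons hδ (ih1 _ rfl)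
    · rintro p rfl
      cases hd with
      | fst p a b q hδ =>
        obtain ⟨u₁, u₂, v₁, v₂, rfl, rfl, h1, h2⟩ := ih2 _ rfl
        exact ⟨_, u₂, _, v₂, by simp, by simp, Path.cons hδ h1, h2⟩
      | link =>
        refine ⟨[], _, [], _, ?_, ?_, Path.nil _, ih1 _ rfl⟩
        · simp
        · simp

theorem RR.mul {ρ ρ' : List A → List B → Prop} (h : RR ρ) (h' : RR ρ') :
    RR (fun u v => ∃ u₁ u₂ v₁ v₂, u = u₁ ++ u₂ ∧ v = v₁ ++ v₂ ∧ ρ u₁ v₁ ∧ ρ' u₂ v₂) := by
  obtain ⟨σ, hσ, δ, s, f, hρ⟩ := h
  obtain ⟨τ, hτ, δ', s', f', hρ'⟩ := h'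
  refine ⟨σ ⊕ τ, inferInstance, MulMv δ δ' f s', Sum.inl s, Sum.inr f', ?_⟩
  intro u v
  constructor
  · rintro ⟨u₁, u₂, v₁, v₂, rfl, rfl, h1, h2⟩
    have h3 := mul_lift_fst (δ' := δ') (f := f) (s' := s') ((hρ _ _).mp h1)
    have h4 := mul_lift_snd (δ := δ) (f := f) (s' := s') ((hρ' _ _).mp h2)
    have h5 : Path (MulMv δ δ' f s') (Sum.inl f) ((none : Option A).toList ++ u₂)
        ((none : Option B).toList ++ v₂) (Sum.inr f') := Path.cons MulMv.link h4
    have h6 := h3.append h5
    simpa using h6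
  · intro hp
    obtain ⟨u₁, u₂, v₁, v₂, rfl, rfl, h1, h2⟩ := (mul_inv hp rfl).2 _ rfl
    exact ⟨u₁, u₂, v₁, v₂, rfl, rfl, (hρ _ _).mpr h1, (hρ' _ _).mpr h2⟩

/-! ### Iteration -/

private inductive StMv {σ : Type} (δ : σ → Option A → Option B → σ → Prop) (s f : σ) :
    Option σ → Option A → Option B → Option σ → Prop
  | start : StMv δ s f none none none (some s)
  | move (p : σ) (a : Option A) (b : Option B) (q : σ) :
      δ p a b q → StMv δ s f (some p) a b (some q)
  | stop : StMv δ s f (some f) none none none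

private theorem st_lift {σ : Type} {δ : σ → Option A → Option B → σ → Prop} {s f p q : σ}
    {u : List A} {v : List B} (h : Path δ p u v q) :
    Path (StMv δ s f) (some p) u v (some q) := by
  induction h with
  | nil p => exact Path.nil _
  | cons hd _ ih => exact Path.cons (StMv.move _ _ _ _ hd) ih

private theorem st_inv {σ : Type} {δ : σ → Option A → Option B → σ → Prop} {s f : σ}
    {ρ : List A → List B → Prop} (hρ : ∀ u v, ρ u v ↔ Path δ s u v f) {x y : Option σ}
    {u : List A} {v : List B} (h : Path (StMv δ s f) x u v y) :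
    y = none →
      (x = none → Star ρ u v) ∧
      (∀ p, x = some p → ∃ u₁ u₂ v₁ v₂, u = u₁ ++ u₂ ∧ v = v₁ ++ v₂ ∧ Path δ p u₁ v₁ f ∧
        Star ρ u₂ v₂) := by
  induction h with
  | nil p =>
    rintro rfl
    refine ⟨fun _ => Star.nil, ?_⟩
    intro p hp
    cases hp
  | cons hd _ ih =>
    intro hy
    obtain ⟨ih1, ih2⟩ := ih hy
    refine ⟨?_, ?_⟩
    · rintro rfl
      cases hd with
      | start =>
        obtain ⟨u₁, u₂, v₁, v₂, rfl, rfl, h1, h2⟩ := ih2 _ rfl
        have h3 := Star.cons ((hρ _ _).mpr h1) h2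
        simpa using h3
    · rintro p rfl
      cases hd with
      | move p a b q hδ =>
        obtain ⟨u₁, u₂, v₁, v₂, rfl, rfl, h1, h2⟩ := ih2 _ rfl
        exact ⟨_, u₂, _, v₂, by simp, by simp, Path.cons hδ h1, h2⟩
      | stop =>
        refine ⟨[], _, [], _, ?_, ?_, Path.nil _, ih1 rfl⟩
        · simp
        · simp

theorem RR.star {ρ : List A → List B → Prop} (h : RR ρ) : RR (Star ρ) := by
  obtain ⟨σ, hσ, δ, s, f, hρ⟩ := h
  refine ⟨Option σ, inferInstance, StMv δ s f, none, none, ?_⟩
  intro u v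
  constructor
  · intro h
    induction h with
    | nil => exact Path.nil _
    | @cons u u' v v' h1 _ ih =>
      have h2 := (hρ _ _).mp h1
      have h3 : Path (StMv δ s f) none ((none : Option A).toList ++ u)
          ((none : Option B).toList ++ v) (some f) := Path.cons StMv.start (st_lift h2)
      have h4 : Path (StMv δ s f) (some f) ((none : Option A).toList ++ u')
          ((none : Option B).toList ++ v') none := Path.cons StMv.stop ih
      have h5 := h3.append h4
      simpa using h5
  · intro hp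
    exact (st_inv hρ hp rfl).1 rfl

/-! ### Words -/

private theorem rr_word_in (x : List A) :
    RR (fun (u : List A) (v : List B) => u = x ∧ v = []) := by
  induction x with
  | nil => exact RR.one
  | cons a x ih =>
    refine (RR.mul (RR.single (some a) none) ih).congr ?_
    intro u v
    constructor
    · rintro ⟨rfl, rfl⟩
      exact ⟨[a], x, [], [], rfl, rfl, ⟨rfl, rfl⟩, rfl, rfl⟩
    · rintro ⟨u₁, u₂, v₁, v₂, rfl, rfl, ⟨rfl, rfl⟩, rfl, rfl⟩
      exact ⟨rfl, rfl⟩

private theorem rr_word_out (y : List B) :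
    RR (fun (u : List A) (v : List B) => u = [] ∧ v = y) := by
  induction y with
  | nil => exact RR.one
  | cons b y ih =>
    refine (RR.mul (RR.single none (some b)) ih).congr ?_
    intro u v
    constructor
    · rintro ⟨rfl, rfl⟩
      exact ⟨[], [], [b], y, rfl, rfl, ⟨rfl, rfl⟩, rfl, rfl⟩
    · rintro ⟨u₁, u₂, v₁, v₂, rfl, rfl, ⟨rfl, rfl⟩, rfl, rfl⟩
      exact ⟨rfl, rfl⟩

theorem RR.word (x : List A) (y : List B) :
    RR (fun (u : List A) (v : List B) => u = x ∧ v = y) := by
  refine (RR.mul (rr_word_in x) (rr_word_out y)).congr ?_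
  intro u v
  constructor
  · rintro ⟨rfl, rfl⟩
    exact ⟨u, [], [], v, by simp, by simp, ⟨rfl, rfl⟩, rfl, rfl⟩
  · rintro ⟨u₁, u₂, v₁, v₂, rfl, rfl, ⟨rfl, rfl⟩, rfl, rfl⟩
    exact ⟨by simp, by simp⟩

theorem RR.dom [Finite A] [Finite B] {ρ : List A → List B → Prop} (h : RR ρ) (L : Language A) :
    Dom L ({v | ∃ u ∈ L, ρ u v} : Language B) := by
  obtain ⟨σ, hσ, δ, s, f, hρ⟩ := h
  refine dom_of_tdom ⟨σ, hσ, δ, s, f, ?_⟩
  intro v
  constructor
  · rintro ⟨u, hu, hr⟩
    exact ⟨u, hu, (hρ u v).mp hr⟩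
  · rintro ⟨u, hu, hp⟩
    exact ⟨u, hu, (hρ u v).mpr hp⟩

/-- Reading a word and writing its image, letter by letter. -/
theorem RR.map {C : Type} [Finite C] (f : C → List A) (g : C → List B) :
    RR (fun (u : List A) (v : List B) => ∃ w : List C, u = w.flatMap f ∧ v = w.flatMap g) := by
  refine (RR.star (RR.iSup fun c : C => RR.word (f c) (g c))).congr ?_
  intro u v
  constructor
  · rintro ⟨w, rfl, rfl⟩
    induction w with
    | nil => exact Star.nil
    | cons c w ih => exact Star.cons ⟨c, rfl, rfl⟩ ih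
  · intro h
    induction h with
    | nil => exact ⟨[], rfl, rfl⟩
    | cons h1 _ ih =>
      obtain ⟨c, rfl, rfl⟩ := h1
      obtain ⟨w, rfl, rfl⟩ := ih
      exact ⟨c :: w, rfl, rfl⟩

/-- Writing any word over a set of letters, reading nothing. -/
theorem RR.free {C : Type} [Finite C] (g : C → List B) :
    RR (fun (u : List A) (v : List B) => u = [] ∧ ∃ w : List C, v = w.flatMap g) := by
  refine (RR.map (fun _ : C => ([] : List A)) g).congr ?_
  have key : ∀ w : List C, w.flatMap (fun _ : C => ([] : List A)) = [] := by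
    intro w
    induction w with
    | nil => rfl
    | cons c w ih => simp
  intro u v
  constructor
  · rintro ⟨rfl, w, rfl⟩
    exact ⟨w, (key w).symm, rfl⟩
  · rintro ⟨w, hu, rfl⟩
    rw [key] at hu
    exact ⟨hu, w, rfl⟩

end Pool.Agent.H93NG
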