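import Pool.Agent.H93NG.Dyck
import Pool.Agent.H93NG.Ops
import Pool.Agent.H93NG.Reg

/-!
# If the Dyck language is a union of two languages, one of them dominates it

PROOF of `dyck_split`. Code of the letter `(b, true)`: `[(false, true), (b, true)]`, code of
`(b, false)`: `[(b, false), (false, false)]`; `φ w` the code of the word `w`. For a base stack
`r = []` or `r = [true, true]`, and `en s = s.flatMap fun b => [b, false]`:
`Run (φ w) (en s ++ r) t ↔ ∃ s', t = en s' ++ r ∧ Run w s s'` (induction on `w`; popping
`b, false` from `en [] ++ r` is impossible). Let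
`E w w' = (true, true)² ++ φ w ++ (true, false)² ++ φ w'`. Then `E w w' ∈ Dyck2` iff `w ∈ Dyck2`
and `w' ∈ Dyck2`. If for each `w ∈ Dyck2` there is `w' ∈ Dyck2` with `E w w' ∈ K₁` then
`Dyck2 = {w | ∃ w', E w w' ∈ K₁}` (`K₁ ⊆ Dyck2`) is dominated by `K₁`. If not, there is
`w₀ ∈ Dyck2` such that `E w₀ w' ∈ K₂` for each `w' ∈ Dyck2`, and `Dyck2 = {w' | E w₀ w' ∈ K₂}`.

PROOF of `Dom.split`. By `tdom_of_dom` let `δ` be a transducer with `T (X ∪ Y) = Dyck2`; then
`Dyck2 = T X ∪ T Y`, and `Dom X (T X)` by `dom_of_tdom`; use `dyck_split` and `Dom.trans`.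

PROOF of `not_dom_regular`. Let `D` be a DFA for `R` and `δ` a transducer with
`v ∈ Dyck2 ↔ ∃ u ∈ R, Path δ s u v f`. For each `n` the word
`replicate n (false, true) ++ replicate n (false, false)` is in `Dyck2` (`dyck_count`); split its
path (`Path.split_out`) in the middle: states `m n`, and `k n` the state of `D` after the first
part of the input. Two different `n, n'` have the same pair of states; combining the first part of
`n` and the second of `n'` gives a word of `Dyck2` contradicting `dyck_count`.
-/

namespace Pool.Agent.H93NG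

/-- The code of a bracket. -/
private def cd : Bool × Bool → List (Bool × Bool)
  | (b, true) => [(false, true), (b, true)]
  | (b, false) => [(b, false), (false, false)]

/-- The code of a stack. -/
private def en (s : List Bool) : List Bool := s.flatMap fun b => [b, false]

private theorem en_cons (b : Bool) (s : List Bool) : en (b :: s) = b :: false :: en s := rfl

private theorem spl_nil_iff {s t : List Bool} : Run [] s t ↔ t = s := by
  constructor
  · intro h; cases h; rfl
  · rintro rfl; exact Run.nil _

private theorem spl_push_iff {a : Bool} {w : List (Bool × Bool)} {s t : List Bool} :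
    Run ((a, true) :: w) s t ↔ Run w (a :: s) t := by
  constructor
  · intro h; cases h; assumption
  · intro h; exact Run.push h

private theorem spl_pop_iff {a : Bool} {w : List (Bool × Bool)} {s t : List Bool} :
    Run ((a, false) :: w) s t ↔ ∃ s', s = a :: s' ∧ Run w s' t := by
  constructor
  · intro h
    cases h with
    | pop h => exact ⟨_, rfl, h⟩
  · rintro ⟨s', rfl, h⟩; exact Run.pop h

private theorem run_code (r : List Bool) (hr : ∀ b m, r ≠ b :: false :: m)
    (w : List (Bool × Bool)) : ∀ s t : List Bool,
    Run (w.flatMap cd) (en s ++ r) t ↔ ∃ s', t = en s' ++ r ∧ Run w s s' := by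
  induction w with
  | nil =>
    intro s t
    rw [List.flatMap_nil, spl_nil_iff]
    constructor
    · intro h; exact ⟨s, h, Run.nil _⟩
    · rintro ⟨s', h, h'⟩
      rw [spl_nil_iff] at h'
      rw [h, h']
  | cons a w ih =>
    intro s t
    obtain ⟨b, c⟩ := a
    cases c with
    | true =>
      have : List.flatMap cd ((b, true) :: w) = (false, true) :: (b, true) :: w.flatMap cd := rfl
      rw [this, spl_push_iff, spl_push_iff]
      have h2 := ih (b :: s) t
      rw [en_cons] at h2
      simp only [List.cons_append] at h2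
      rw [h2]
      simp only [spl_push_iff]
    | false =>
      have : List.flatMap cd ((b, false) :: w) = (b, false) :: (false, false) :: w.flatMap cd := rfl
      rw [this, spl_pop_iff]
      simp only [spl_pop_iff]
      constructor
      · rintro ⟨s₁, h1, s₂, rfl, h2⟩
        cases s with
        | nil => exact absurd h1 (hr b s₂)
        | cons c s =>
          rw [en_cons] at h1
          simp only [List.cons_append, List.cons.injEq, true_and] at h1
          obtain ⟨rfl, rfl⟩ := h1
          obtain ⟨s', h3, h4⟩ := (ih s t).1 h2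
          exact ⟨s', h3, s, rfl, h4⟩
      · rintro ⟨s', h1, s₁, rfl, h2⟩
        exact ⟨_, rfl, en s₁ ++ r, rfl, (ih s₁ t).2 ⟨s', h1, h2⟩⟩

/-- The combination of two words. -/
private def comb (w w' : List (Bool × Bool)) : List (Bool × Bool) :=
  [(true, true), (true, true)] ++ (w.flatMap cd ++ ([(true, false), (true, false)] ++ w'.flatMap cd))

private theorem comb_mem (w w' : List (Bool × Bool)) :
    comb w w' ∈ Dyck2 ↔ w ∈ Dyck2 ∧ w' ∈ Dyck2 := by
  have hr1 : ∀ (b : Bool) (m : List Bool), ([true, true] : List Bool) ≠ b :: false :: m := by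
    intro b m h; simp at h
  have hr2 : ∀ (b : Bool) (m : List Bool), ([] : List Bool) ≠ b :: false :: m := by
    intro b m h; simp at h
  have key : comb w w' ∈ Dyck2 ↔
      Run (w.flatMap cd ++ ((true, false) :: (true, false) :: w'.flatMap cd)) [true, true] [] := by
    change Run (comb w w') [] [] ↔ _
    unfold comb
    simp only [List.cons_append, List.nil_append, spl_push_iff]
  rw [key, run_append]
  have h1 := run_code [true, true] hr1 w [] 
  have h2 := run_code [] hr2 w' []
  change (∀ t, Run (w.flatMap cd) [true, true] t ↔ _) at h1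
  change (∀ t, Run (w'.flatMap cd) [] t ↔ _) at h2
  change _ ↔ Run w [] [] ∧ Run w' [] []
  simp only [h1, spl_pop_iff]
  constructor
  · rintro ⟨m, ⟨s', rfl, h3⟩, s₁, h4, s₂, rfl, h5⟩
    cases s' with
    | nil =>
      change [true, true] = _ at h4
      simp only [List.cons.injEq, true_and] at h4
      subst h4
      obtain ⟨s', h6, h7⟩ := (h2 []).1 h5
      refine ⟨h3, ?_⟩
      cases s' with
      | nil => exact h7
      | cons c s' =>
        rw [en_cons] at h6
        simp at h6
    | cons c s' =>
      rw [en_cons] at h4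
      simp at h4
  · rintro ⟨h3, h4⟩
    exact ⟨[true, true], ⟨[], rfl, h3⟩, [true], rfl, [], rfl, (h2 []).2 ⟨[], rfl, h4⟩⟩

/-- The letters of the alphabet of the first projection. -/
private def stp : Option Bool → Option (Bool × (Bool × Bool)) → Option Bool
  | some false, some (false, _) => some false
  | some false, none => some true
  | some true, some (true, _) => some true
  | _, _ => none

private def autm : DFA (Option (Bool × (Bool × Bool))) (Option Bool) where
  step := stp
  start := some false
  accept := {some true}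

private theorem autm_none (w : List (Option (Bool × (Bool × Bool)))) :
    autm.evalFrom none w = none := by
  induction w with
  | nil => rfl
  | cons a w ih => exact ih

private theorem autm_true (w : List (Option (Bool × (Bool × Bool)))) :
    autm.evalFrom (some true) w = some true ↔ ∃ w₂ : List (Bool × Bool),
      w = w₂.map fun a => some (true, a) := by
  induction w with
  | nil => exact ⟨fun _ => ⟨[], rfl⟩, fun _ => rfl⟩
  | cons a w ih =>
    change autm.evalFrom (stp (some true) a) w = some true ↔ _
    match a with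
    | none =>
      change autm.evalFrom none w = some true ↔ _
      rw [autm_none]
      constructor
      · intro h; cases h
      · rintro ⟨w₂, h⟩
        cases w₂ <;> simp at h
    | some (false, x) =>
      change autm.evalFrom none w = some true ↔ _
      rw [autm_none]
      constructor
      · intro h; cases h
      · rintro ⟨w₂, h⟩
        cases w₂ <;> simp at h
    | some (true, x) =>
      change autm.evalFrom (some true) w = some true ↔ _
      rw [ih]
      constructor
      · rintro ⟨w₂, h⟩
        exact ⟨x :: w₂, by rw [h]; rfl⟩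
      · rintro ⟨w₂, h⟩
        cases w₂ with
        | nil => simp at h
        | cons y w₂ =>
          rw [List.map_cons, List.cons.injEq] at h
          exact ⟨w₂, h.2⟩

private theorem autm_false (w : List (Option (Bool × (Bool × Bool)))) :
    autm.evalFrom (some false) w = some true ↔ ∃ w₁ w₂ : List (Bool × Bool),
      w = (w₁.map fun a => some (false, a)) ++ none :: (w₂.map fun a => some (true, a)) := by
  induction w with
  | nil =>
    constructor
    · intro h; cases h
    · rintro ⟨w₁, w₂, h⟩
      simp at h
  | cons a w ih =>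
    change autm.evalFrom (stp (some false) a) w = some true ↔ _
    match a with
    | none =>
      change autm.evalFrom (some true) w = some true ↔ _
      rw [autm_true]
      constructor
      · rintro ⟨w₂, h⟩
        exact ⟨[], w₂, by rw [h]; rfl⟩
      · rintro ⟨w₁, w₂, h⟩
        cases w₁ with
        | nil =>
          simp only [List.map_nil, List.nil_append, List.cons.injEq, true_and] at h
          exact ⟨w₂, h⟩
        | cons y w₁ => simp at h
    | some (true, x) =>
      change autm.evalFrom none w = some true ↔ _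
      rw [autm_none]
      constructor
      · intro h; cases h
      · rintro ⟨w₁, w₂, h⟩
        cases w₁ <;> simp at h
    | some (false, x) =>
      change autm.evalFrom (some false) w = some true ↔ _
      rw [ih]
      constructor
      · rintro ⟨w₁, w₂, h⟩
        exact ⟨x :: w₁, w₂, by rw [h]; rfl⟩
      · rintro ⟨w₁, w₂, h⟩
        cases w₁ with
        | nil => simp at h
        | cons y w₁ =>
          rw [List.map_cons, List.cons_append, List.cons.injEq] at h
          exact ⟨w₁, w₂, h.2⟩

private def gg : Option (Bool × (Bool × Bool)) → List (Bool × Bool)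
  | none => [(true, false), (true, false)]
  | some (_, a) => cd a

private def hh : Option (Bool × (Bool × Bool)) → List (Bool × Bool)
  | some (false, a) => [a]
  | _ => []

private theorem flat_gg (b : Bool) (w : List (Bool × Bool)) :
    (w.map fun a => some (b, a)).flatMap gg = w.flatMap cd := by
  induction w with
  | nil => rfl
  | cons a w ih => rw [List.map_cons, List.flatMap_cons, List.flatMap_cons, ih]; rfl

private theorem flat_hh_false (w : List (Bool × Bool)) :
    (w.map fun a => some (false, a)).flatMap hh = w := by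
  induction w with
  | nil => rfl
  | cons a w ih => rw [List.map_cons, List.flatMap_cons, ih]; rfl

private theorem flat_hh_true (w : List (Bool × Bool)) :
    (w.map fun a => some (true, a)).flatMap hh = [] := by
  induction w with
  | nil => rfl
  | cons a w ih => rw [List.map_cons, List.flatMap_cons, ih]; rfl

private theorem flat_single {Z : Type} (w : List Z) : (w.flatMap fun a => [a]) = w := by
  induction w with
  | nil => rfl
  | cons a w ih => rw [List.flatMap_cons, ih]; rfl

theorem dyck_split {K₁ K₂ : Language (Bool × Bool)}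
    (h : ∀ w, w ∈ Dyck2 ↔ w ∈ K₁ ∨ w ∈ K₂) : Dom K₁ Dyck2 ∨ Dom K₂ Dyck2 := by
  by_cases hA : ∀ w, w ∈ Dyck2 → ∃ w', w' ∈ Dyck2 ∧ comb w w' ∈ K₁
  · left
    have h1 := dom_quot (B := Bool × Bool) (C := Bool × Bool) K₁ [(true, true), (true, true)] []
      (fun a => [a]) (fun a => [a])
    refine Dom.trans h1 ?_
    refine ⟨Option (Bool × (Bool × Bool)), inferInstance, gg, hh, autm.accepts,
      ⟨Option Bool, inferInstance, autm, rfl⟩, ?_⟩
    intro v
    constructor
    · intro hv
      obtain ⟨w', _, hw⟩ := hA v hv
      refine ⟨(v.map fun a => some (false, a)) ++ none :: (w'.map fun a => some (true, a)),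
        ?_, ?_, ?_⟩
      · change autm.evalFrom (some false) _ = some true
        rw [autm_false]
        exact ⟨v, w', rfl⟩
      · refine ⟨_, ?_, flat_single _⟩
        rw [flat_single, List.flatMap_append, List.flatMap_cons, flat_gg, flat_gg,
          List.append_nil]
        exact hw
      · rw [List.flatMap_append, List.flatMap_cons, flat_hh_false, flat_hh_true]
        simp [hh]
    · rintro ⟨w, hw1, hw2, rfl⟩
      change autm.evalFrom (some false) _ = some true at hw1
      rw [autm_false] at hw1
      obtain ⟨w₁, w₂, rfl⟩ := hw1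
      obtain ⟨x, hx1, hx2⟩ := hw2
      rw [flat_single] at hx1 hx2
      subst hx2
      rw [List.flatMap_append, List.flatMap_cons, flat_gg, flat_gg,
          List.append_nil] at hx1
      have h3 : comb w₁ w₂ ∈ Dyck2 := (h _).2 (Or.inl hx1)
      rw [comb_mem] at h3
      rw [List.flatMap_append, List.flatMap_cons, flat_hh_false, flat_hh_true]
      simpa [hh] using h3.1
  · right
    push Not at hA
    obtain ⟨w₀, hw₀, h0⟩ := hA
    have h1 := dom_quot (B := Bool × Bool) (C := Bool × Bool) K₂
      ([(true, true), (true, true)] ++ (w₀.flatMap cd ++ [(true, false), (true, false)])) []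
      cd (fun a => [a])
    have h2 : ({v | ∃ w : List (Bool × Bool),
        [(true, true), (true, true)] ++ (w₀.flatMap cd ++ [(true, false), (true, false)]) ++
          w.flatMap cd ++ [] ∈ K₂ ∧ w.flatMap (fun a => [a]) = v} : Language (Bool × Bool)) =
        Dyck2 := by
      ext v
      change (∃ w : List (Bool × Bool),
        [(true, true), (true, true)] ++ (w₀.flatMap cd ++ [(true, false), (true, false)]) ++
          w.flatMap cd ++ [] ∈ K₂ ∧ w.flatMap (fun a => [a]) = v) ↔ v ∈ Dyck2
      have h4 : ∀ w : List (Bool × Bool),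
        [(true, true), (true, true)] ++ (w₀.flatMap cd ++ [(true, false), (true, false)]) ++
          w.flatMap cd ++ [] = comb w₀ w := by
        intro w
        simp [comb]
      simp only [h4, flat_single]
      constructor
      · rintro ⟨w, hw, rfl⟩
        exact ((comb_mem _ _).1 ((h _).2 (Or.inr hw))).2
      · intro hv
        refine ⟨v, ?_, rfl⟩
        rcases (h _).1 ((comb_mem _ _).2 ⟨hw₀, hv⟩) with h5 | h5
        · exact absurd h5 (h0 v hv)
        · exact h5
    rw [h2] at h1
    exact h1

theorem Dom.split {A : Type} [Finite A] {X Y : Language A}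
    (h : Dom ({z | z ∈ X ∨ z ∈ Y} : Language A) Dyck2) : Dom X Dyck2 ∨ Dom Y Dyck2 := by
  obtain ⟨σ, hσ, δ, s, f, hT⟩ := tdom_of_dom h
  have h1 : ∀ w, w ∈ Dyck2 ↔ w ∈ ({v | ∃ u, u ∈ X ∧ Path δ s u v f} : Language (Bool × Bool)) ∨
      w ∈ ({v | ∃ u, u ∈ Y ∧ Path δ s u v f} : Language (Bool × Bool)) := by
    intro w
    rw [hT]
    constructor
    · rintro ⟨u, hu | hu, hp⟩
      · exact Or.inl ⟨u, hu, hp⟩
      · exact Or.inr ⟨u, hu, hp⟩
    · rintro (⟨u, hu, hp⟩ | ⟨u, hu, hp⟩)
      · exact ⟨u, Or.inl hu, hp⟩
      · exact ⟨u, Or.inr hu, hp⟩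
  rcases dyck_split h1 with h2 | h2
  · exact Or.inl (Dom.trans (dom_of_tdom ⟨σ, hσ, δ, s, f, fun v => Iff.rfl⟩) h2)
  · exact Or.inr (Dom.trans (dom_of_tdom ⟨σ, hσ, δ, s, f, fun v => Iff.rfl⟩) h2)

theorem not_dom_regular {A : Type} [Finite A] {R : Language A} (hR : R.IsRegular) :
    ¬ Dom R Dyck2 := by
  intro h
  obtain ⟨σ, hσ, δ, s, f, hT⟩ := tdom_of_dom h
  obtain ⟨τ, hτ, D, rfl⟩ := hR
  have h1 : ∀ n : ℕ, ∃ (m : σ) (u₁ u₂ : List A), u₁ ++ u₂ ∈ D.accepts ∧
      Path δ s u₁ (List.replicate n (false, true)) m ∧
      Path δ m u₂ (List.replicate n (false, false)) f := by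
    intro n
    obtain ⟨u, hu, hp⟩ := (hT _).1 ((dyck_count n n).2 rfl)
    obtain ⟨m, u₁, u₂, rfl, hp1, hp2⟩ := hp.split_out
    exact ⟨m, u₁, u₂, hu, hp1, hp2⟩
  choose m u₁ u₂ hu hp1 hp2 using h1
  obtain ⟨n, n', hne, heq⟩ := Finite.exists_ne_map_eq_of_infinite
    (fun n : ℕ => (m n, D.eval (u₁ n)))
  simp only [Prod.mk.injEq] at heq
  apply hne
  rw [← dyck_count, hT]
  refine ⟨u₁ n ++ u₂ n', ?_, (hp1 n).append (heq.1 ▸ hp2 n')⟩
  have h2 := hu n'
  rw [DFA.mem_accepts] at h2 ⊢
  unfold DFA.eval at h2 heq ⊢
  rw [DFA.evalFrom_of_append] at h2 ⊢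
  rw [heq.2]
  exact h2

/-- Finite unions. -/
theorem Dom.split_finite {A : Type} [Finite A] {ι : Type} [Finite ι] {X : ι → Language A}
    (h : Dom ({z | ∃ i, z ∈ X i} : Language A) Dyck2) : ∃ i, Dom (X i) Dyck2 := by
  classical
  have : Fintype ι := Fintype.ofFinite ι
  have key : ∀ s : Finset ι, Dom ({z | ∃ i, i ∈ s ∧ z ∈ X i} : Language A) Dyck2 →
      ∃ i, Dom (X i) Dyck2 := by
    intro s
    induction s using Finset.induction_on with
    | empty =>
      intro h1
      exfalso
      refine not_dom_regular (R := ({z | ∃ i, i ∈ (∅ : Finset ι) ∧ z ∈ X i} : Language A)) ?_ h1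
      refine ⟨Unit, inferInstance, ⟨fun _ _ => (), (), ∅⟩, ?_⟩
      ext z
      rw [DFA.mem_accepts]
      change () ∈ (∅ : Set Unit) ↔ ∃ i, i ∈ (∅ : Finset ι) ∧ z ∈ X i
      simp
    | insert a s _ ih =>
      intro h1
      have h2 : ({z | ∃ i, i ∈ insert a s ∧ z ∈ X i} : Language A) =
          ({z | z ∈ X a ∨ z ∈ ({z | ∃ i, i ∈ s ∧ z ∈ X i} : Language A)} : Language A) := by
        ext z
        change (∃ i, i ∈ insert a s ∧ z ∈ X i) ↔ z ∈ X a ∨ ∃ i, i ∈ s ∧ z ∈ X i
        constructor
        · rintro ⟨i, hi, hz⟩
          rcases Finset.mem_insert.1 hi with rfl | hi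
          · exact Or.inl hz
          · exact Or.inr ⟨i, hi, hz⟩
        · rintro (hz | ⟨i, hi, hz⟩)
          · exact ⟨a, Finset.mem_insert_self _ _, hz⟩
          · exact ⟨i, Finset.mem_insert_of_mem hi, hz⟩
      rw [h2] at h1
      rcases Dom.split h1 with h3 | h3
      · exact ⟨a, h3⟩
      · exact ih h3
  refine key Finset.univ ?_
  have h2 : ({z | ∃ i, i ∈ (Finset.univ : Finset ι) ∧ z ∈ X i} : Language A) =
      ({z | ∃ i, z ∈ X i} : Language A) := by
    ext z
    change (∃ i, i ∈ (Finset.univ : Finset ι) ∧ z ∈ X i) ↔ ∃ i, z ∈ X i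
    simp
  rw [h2]
  exact h

end Pool.Agent.H93NG
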