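import Pool.Agent.H93NG.ZJoin
import Pool.Agent.H93NG.GAll
import Pool.Agent.H93NG.LinG

/-!
# The final form: recursively enumerable sets of grammars with arbitrary terminals
-/

namespace Pool.Agent.H93NG

theorem exists_bound_all (W : Set GnfN) (hW : REPred fun G => G ∈ W)
    (hN : ∀ G ∈ W, NonGen G.lang) :
    ∃ (A : Type) (_ : Finite A) (L : Language A), L.IsContextFree ∧ NonGen L ∧
      ∀ (B : Type) (M : Language B),
        SubCl (fun _ M => IsLinear M ∨ ∃ G ∈ W, Dom G.lang M) B M → Dom L M := by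
  obtain ⟨A, hA, L, hL, hLN, hLD⟩ := exists_bound_subCl (n := 2) {H | ∃ G, G ∈ W ∧ gcd2 G = H}
    (rePred_image hW gcd2_computable) (by
      rintro _ ⟨G, hG, rfl⟩
      exact nonGen_gcd2 G (hN G hG))
  refine ⟨A, hA, L, hL, hLN, ?_⟩
  intro B M hM
  refine hLD B M (hM.mono ?_)
  rintro B' M' hB' (h | ⟨G, hG, h⟩)
  · exact Or.inl (dom_of_isLinear h)
  · exact Or.inr ⟨_, ⟨G, hG, rfl⟩, (dom_gcd2 G).trans h⟩

/-- A grammar with terminals `Fin n` as a grammar whose terminals are natural numbers. -/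
def toN {n : ℕ} (G : Gnf n) : GnfN := G.map fun r => (r.1, r.2.1.val, r.2.2)

theorem toN_lang {n : ℕ} (G : Gnf n) : (toN G).lang = {w | ∃ u ∈ G.lang, w = u.map Fin.val} := by
  have h1 : ∀ {u : List (Fin n)} {st : List ℕ}, Der G u st → DerN (toN G) (u.map Fin.val) st := by
    intro u st h
    induction h with
    | nil => exact DerN.nil
    | step hr _ ih => exact DerN.step (List.mem_map.2 ⟨_, hr, rfl⟩) ih
  have h2 : ∀ {w : List ℕ} {st : List ℕ}, DerN (toN G) w st →
      ∃ u : List (Fin n), Der G u st ∧ w = u.map Fin.val := by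
    intro w st h
    induction h with
    | nil => exact ⟨[], Der.nil, rfl⟩
    | step hr _ ih =>
      obtain ⟨u, h3, rfl⟩ := ih
      obtain ⟨⟨A, b, α⟩, h4, h5⟩ := List.mem_map.1 hr
      simp only [Prod.mk.injEq] at h5
      obtain ⟨rfl, rfl, rfl⟩ := h5
      exact ⟨b :: u, Der.step h4 h3, rfl⟩
  ext w
  exact ⟨fun h => h2 h, fun ⟨u, h, e⟩ => e ▸ h1 h⟩

theorem dom_toN {n : ℕ} (G : Gnf n) {B : Type} {M : Language B} (h : Dom G.lang M) :
    Dom (toN G).lang M := by
  obtain ⟨C, hC, g, k, R, hR, hM⟩ := h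
  refine ⟨C, hC, fun c => (g c).map Fin.val, k, R, hR, ?_⟩
  intro v
  rw [hM]
  have key : ∀ w : List C, w.flatMap (fun c => (g c).map Fin.val) =
      (w.flatMap g).map Fin.val := fun w => by rw [List.map_flatMap]
  constructor
  · rintro ⟨w, h1, h2, h3⟩
    refine ⟨w, h1, ?_, h3⟩
    rw [key, toN_lang]
    exact ⟨_, h2, rfl⟩
  · rintro ⟨w, h1, h2, h3⟩
    rw [key, toN_lang] at h2
    obtain ⟨u, h4, h5⟩ := h2
    rw [← List.map_injective_iff.2 Fin.val_injective h5] at h4
    exact ⟨w, h1, h4, h3⟩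

theorem dom_lang_toN {n : ℕ} (G : Gnf n) : Dom G.lang (toN G).lang := by
  refine ⟨Fin n, inferInstance, fun i => [i], fun i => [i.val],
    Set.univ, ⟨Unit, inferInstance, ⟨fun _ _ => (), (), Set.univ⟩, ?_⟩, ?_⟩
  · ext z
    exact ⟨fun _ => trivial, fun _ => trivial⟩
  · intro v
    rw [toN_lang]
    constructor
    · rintro ⟨u, h, rfl⟩
      refine ⟨u, trivial, ?_, ?_⟩
      · rw [flatMap_single, List.map_id']
        exact h
      · rw [flatMap_single]
    · rintro ⟨w, _, h, rfl⟩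
      rw [flatMap_single, List.map_id'] at h
      exact ⟨w, h, by rw [flatMap_single]⟩

theorem nonGen_toN {n : ℕ} (G : Gnf n) (h : NonGen G.lang) : NonGen (toN G).lang := by
  intro h'
  exact h fun B hB M hM => (dom_lang_toN G).trans (h' B hB M hM)

theorem principal_iff_all :
    (∃ (A : Type) (_ : Finite A) (L : Language A), L.IsContextFree ∧ NonGen L ∧
        ∀ (B : Type) (_ : Finite B) (M : Language B), M.IsContextFree → NonGen M → Dom L M) ↔
      ∃ W : Set GnfN, REPred (fun G => G ∈ W) ∧ (∀ G ∈ W, NonGen G.lang) ∧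
        ∀ (B : Type) (_ : Finite B) (M : Language B), M.IsContextFree → NonGen M →
          SubCl (fun _ M => IsLinear M ∨ ∃ G ∈ W, Dom G.lang M) B M := by
  constructor
  · rintro ⟨A, _, L, hL, hN, hD⟩
    obtain ⟨n, G, hG1, hG2⟩ := exists_gnf_dom L hL
    refine ⟨{toN G}, ?_, ?_, ?_⟩
    · have h : PrimrecPred fun H : GnfN => H = toN G :=
        Primrec.eq.comp Primrec.id (Primrec.const (toN G))
      exact h.computablePred.to_re
    · rintro _ rfl
      exact nonGen_toN G (hG2 hN)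
    · intro B hB M hM hNM
      exact SubCl.base hB (Or.inr ⟨_, rfl, dom_toN G (hG1.trans (hD B inferInstance M hM hNM))⟩)
  · rintro ⟨W, hW, hN, hD⟩
    obtain ⟨A, _, L, hL, hLN, hLD⟩ := exists_bound_all W hW hN
    exact ⟨A, inferInstance, L, hL, hLN, fun B hB M hM hNM => hLD B M (hD B hB M hM hNM)⟩

end Pool.Agent.H93NG
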