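import Pool.Agent.H93NG.UDefs
import Pool.Agent.H93NG.RR

/-!
# The consistent words are an image of the Dyck language

PROOF. With the calculus of `RR.lean`, the relation
`ρ = ((false, true) / ε) (ε / inl e)* Unit*`, where `Unit` is the union over the letters `b` of
`Bd · (y / y)* · (ε / inl b) · (ε / e)* · (ε / b)` (all outputs with the tag `Sum.inr`, those in a
block with the tags `Sum.inr (Sum.inl _)`), `Bd` is `1` or `(ε / e)* · (ε / inl b')` for some `b'`,
and `(y / y)*` is `RR.map` over the letters `Bool × Bool`. `Unit` is the relation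
`∃ c b y, u = y ∧ v = block of (c, b) ∧ Opt c b y`, and `Unit*` (`RR.star`) is
`∃ cs ys, Forall₂ Opt cs ys ∧ u = ys.flatten ∧ v = (blocks cs).map Sum.inr` (induction). Conclude by
`RR.dom` and an equality of languages.
-/

namespace Pool.Agent.H93NG

/-- The alphabet of the universal language. -/
private abbrev ucT (n : ℕ) : Type := E n ⊕ (E n ⊕ Fin n)

private def ucW {n : ℕ} (e : E n) : ucT n := Sum.inr (Sum.inl e)

private theorem uc_flat_map {A B : Type} (g : A → B) (w : List A) :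
    w.flatMap (fun a => [g a]) = w.map g := by
  induction w with
  | nil => rfl
  | cons b w ih =>
    rw [List.flatMap_cons, ih]
    rfl

private theorem uc_free {A B C : Type} [Finite C] (g : C → B) :
    RR (fun (u : List A) (v : List B) => u = [] ∧ ∃ w : List C, v = w.map g) := by
  refine (RR.free (A := A) (fun b => [g b])).congr ?_
  intro u v
  simp only [uc_flat_map]

private theorem uc_copy {A B : Type} [Finite A] (g : A → B) :
    RR (fun (u : List A) (v : List B) => v = u.map g) := by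
  refine (RR.map (fun a : A => [a]) (fun a => [g a])).congr ?_
  intro u v
  simp only [uc_flat_map, List.map_id', exists_eq_left']

/-- Writing a word which is empty or ends with a terminal. -/
private theorem uc_bd (n : ℕ) : RR (fun (u : List (Bool × Bool)) (v : List (ucT n)) =>
    u = [] ∧ ∃ x : List (E n), v = x.map ucW ∧ ∀ e, x.getLast? = some e → e.isLeft) := by
  have h := RR.add (RR.one (A := Bool × Bool) (B := ucT n))
    (RR.iSup fun b : Fin n => RR.mul (uc_free (A := Bool × Bool) (ucW (n := n)))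
      (RR.word [] [ucW (Sum.inl b)]))
  refine h.congr ?_
  intro u v
  constructor
  · rintro ⟨rfl, x, rfl, hx⟩
    rcases List.eq_nil_or_concat x with rfl | ⟨x', e, rfl⟩
    · exact Or.inl ⟨rfl, rfl⟩
    · right
      have h1 := hx e (by simp)
      cases e with
      | inr e => exact absurd h1 (by simp)
      | inl b =>
        refine ⟨b, [], [], _, _, rfl, ?_, ⟨rfl, x', rfl⟩, rfl, rfl⟩
        simp
  · rintro (⟨rfl, rfl⟩ | ⟨b, _, _, _, _, rfl, rfl, ⟨rfl, x, rfl⟩, rfl, rfl⟩)
    · exact ⟨rfl, [], rfl, fun e he => by simp at he⟩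
    · refine ⟨rfl, x ++ [Sum.inl b], by simp, ?_⟩
      intro e he
      have : Sum.inl b = e := by simpa using he
      subst this
      rfl

/-- Reading an option and writing its block. -/
private theorem uc_unit {n : ℕ} (b : Fin n) :
    RR (fun (y : List (Bool × Bool)) (v : List (ucT n)) => ∃ c : List (E n), Opt c b y ∧
      v = (c.map Sum.inl ++ [Sum.inr b]).map Sum.inr) := by
  have h := RR.mul (uc_bd n) (RR.mul (uc_copy (A := Bool × Bool) (fun a => ucW (n := n) (Sum.inr a)))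
    (RR.mul (RR.word [] [ucW (Sum.inl b)]) (RR.mul (uc_free (ucW (n := n)))
      (RR.word [] [Sum.inr (Sum.inr b)]))))
  refine h.congr ?_
  intro u v
  constructor
  · rintro ⟨c, ⟨x, x', rfl, hx⟩, rfl⟩
    refine ⟨[], u, _, _, rfl, ?_, ⟨rfl, x, rfl, hx⟩, u, [], _, _, (List.append_nil _).symm, rfl, rfl,
      [], [], _, _, rfl, rfl, ⟨rfl, rfl⟩, [], [], _, _, rfl, rfl, ⟨rfl, x', rfl⟩, rfl, rfl⟩
    simp [ucW, Function.comp_def]
    rfl
  · rintro ⟨_, _, _, _, rfl, rfl, ⟨rfl, x, rfl, hx⟩, y, _, _, _, rfl, rfl, rfl,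
      _, _, _, _, rfl, rfl, ⟨rfl, rfl⟩, _, _, _, _, rfl, rfl, ⟨rfl, x', rfl⟩, rfl, rfl⟩
    refine ⟨_, ⟨x, x', rfl, hx⟩, ?_⟩
    simp [ucW, Function.comp_def]
    rfl

private theorem uc_star {n : ℕ} :
    RR (fun (u : List (Bool × Bool)) (v : List (ucT n)) =>
      ∃ (cs : List (List (E n) × Fin n)) (ys : List (List (Bool × Bool))),
        List.Forall₂ (fun p y => Opt p.1 p.2 y) cs ys ∧ u = ys.flatten ∧
        v = (blocks cs).map Sum.inr) := by
  refine (RR.star (RR.iSup fun b : Fin n => uc_unit b)).congr ?_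
  intro u v
  constructor
  · rintro ⟨cs, ys, h, rfl, rfl⟩
    induction h with
    | nil => exact Star.nil
    | @cons p y cs ys h1 _ ih =>
      have h2 := Star.cons (ρ := fun (u : List (Bool × Bool)) (v : List (ucT n)) =>
        ∃ b : Fin n, ∃ c : List (E n), Opt c b u ∧
          v = (c.map Sum.inl ++ [Sum.inr b]).map Sum.inr) ⟨p.2, p.1, h1, rfl⟩ ih
      have h3 : (blocks (p :: cs)).map (Sum.inr : E n ⊕ Fin n → ucT n) =
          (p.1.map Sum.inl ++ [Sum.inr p.2]).map Sum.inr ++ (blocks cs).map Sum.inr := by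
        rw [← List.map_append]
        rfl
      rw [h3]
      exact h2
  · intro h
    induction h with
    | nil => exact ⟨[], [], List.Forall₂.nil, rfl, rfl⟩
    | cons h1 _ ih =>
      obtain ⟨b, c, hc, rfl⟩ := h1
      obtain ⟨cs, ys, h2, rfl, rfl⟩ := ih
      refine ⟨(c, b) :: cs, _ :: ys, List.Forall₂.cons hc h2, rfl, ?_⟩
      rw [← List.map_append]
      rfl

theorem dom_cons (n : ℕ) : Dom Dyck2 (Cons n) := by
  have h := (RR.mul (RR.word [(false, true)] []) (RR.mul
    (uc_free (A := Bool × Bool) (Sum.inl : E n → ucT n)) (uc_star (n := n)))).dom Dyck2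
  have key : ∀ z, z ∈ Cons n ↔ z ∈ ({v | ∃ u ∈ Dyck2, ∃ (u₁ u₂ : List (Bool × Bool))
      (v₁ v₂ : List (ucT n)), u = u₁ ++ u₂ ∧ v = v₁ ++ v₂ ∧ (u₁ = [(false, true)] ∧ v₁ = []) ∧
      ∃ u₁ u₂' v₁ v₂', u₂ = u₁ ++ u₂' ∧ v₂ = v₁ ++ v₂' ∧
        (u₁ = [] ∧ ∃ w : List (E n), v₁ = w.map Sum.inl) ∧
        ∃ (cs : List (List (E n) × Fin n)) (ys : List (List (Bool × Bool))),
        List.Forall₂ (fun p y => Opt p.1 p.2 y) cs ys ∧ u₂' = ys.flatten ∧
        v₂' = (blocks cs).map Sum.inr} : Language (ucT n)) := by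
    intro z
    constructor
    · rintro ⟨x, cs, rfl, ys, h1, h2⟩
      exact ⟨_, h2, [(false, true)], ys.flatten, [], _, rfl, rfl, ⟨rfl, rfl⟩, [], _, _, _, rfl, rfl,
        ⟨rfl, x, rfl⟩, cs, ys, h1, rfl, rfl⟩
    · rintro ⟨_, h2, _, _, _, _, rfl, rfl, ⟨rfl, rfl⟩, _, _, _, _, rfl, rfl, ⟨rfl, x, rfl⟩, cs, ys,
        h1, rfl, rfl⟩
      exact ⟨x, cs, rfl, ys, h1, h2⟩
  have e : Cons n = _ := Set.ext key
  rw [e]
  exact h

end Pool.Agent.H93NG
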