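import Pool.Agent.H93NG.UDefs
import Pool.Agent.H93NG.Neq
import Pool.Agent.H93NG.Reg

/-!
# The words with a wrong annotation are an image of the Dyck language

PROOF. Let `w : List (E n ⊕ Fin n)`. Then `w` is not of the form `ann x v` iff one of:
(1) `w` ends with a letter `Sum.inl _`;
(2) `w = α ++ (c.map inl ++ inr b :: w')` with `c ≠ x` and (`α = []` or the last letter of `α` is
    some `inr _`).
(If none holds: by induction on `w` it is `blocks cs` (every word that is empty or ends with a
letter `inr _` is; lemma), all blocks are equal to `x` by (2). Conversely the blocks of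
`ann x v` are determined.)
Each of the two sets of words `x.map inl ++ w.map inr` is dominated by `Dyck2`:
(1) is regular (the format `inl* inr*` is `isRegular_factor`, and the last letter
`isRegular_last`), use `dom_regular` with `[] ∈ Dyck2`;
(2) is the image of `dom_neq` by a rational relation.
-/

namespace Pool.Agent.H93NG

private theorem uerr_congr {A B : Type} {L : Language A} {M M' : Language B} (h : Dom L M)
    (e : ∀ v, v ∈ M' ↔ v ∈ M) : Dom L M' := by
  have : M' = M := Set.ext e
  rw [this]; exact h

private theorem uerr_split {X Y : Type} {p q : List X} {b c : Y} {u v : List (X ⊕ Y)}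
    (h : p.map Sum.inl ++ Sum.inr b :: u = q.map Sum.inl ++ Sum.inr c :: v) :
    p = q ∧ b = c ∧ u = v := by
  induction p generalizing q with
  | nil =>
    cases q with
    | nil =>
      simp only [List.map_nil, List.nil_append, List.cons.injEq, Sum.inr.injEq] at h
      exact ⟨rfl, h.1, h.2⟩
    | cons a q => simp at h
  | cons a p ih =>
    cases q with
    | nil => simp at h
    | cons a' q =>
      simp only [List.map_cons, List.cons_append, List.cons.injEq, Sum.inl.injEq] at h
      obtain ⟨h1, h2, h3⟩ := ih h.2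
      exact ⟨by rw [h.1, h1], h2, h3⟩

private theorem uerr_blocks_cons {n : ℕ} (p : List (E n) × Fin n)
    (cs : List (List (E n) × Fin n)) :
    blocks (p :: cs) = p.1.map Sum.inl ++ Sum.inr p.2 :: blocks cs := by
  simp [blocks]

private theorem uerr_blocks_append {n : ℕ} (cs cs' : List (List (E n) × Fin n)) :
    blocks (cs ++ cs') = blocks cs ++ blocks cs' := by
  simp [blocks]

private theorem uerr_ann {n : ℕ} (x : List (E n)) (v : List (Fin n)) :
    ann x v = blocks (v.map fun b => (x, b)) := by
  simp [blocks, ann, List.flatMap_map]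

private theorem uerr_blocks_inj {n : ℕ} {cs cs' : List (List (E n) × Fin n)}
    (h : blocks cs = blocks cs') : cs = cs' := by
  induction cs generalizing cs' with
  | nil =>
    cases cs' with
    | nil => rfl
    | cons p cs' =>
      rw [uerr_blocks_cons] at h
      simp [blocks] at h
  | cons p cs ih =>
    cases cs' with
    | nil =>
      rw [uerr_blocks_cons] at h
      simp [blocks] at h
    | cons p' cs' =>
      rw [uerr_blocks_cons, uerr_blocks_cons] at h
      obtain ⟨h1, h2, h3⟩ := uerr_split h
      rw [ih h3, Prod.ext h1 h2]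

private theorem uerr_last {n : ℕ} (cs : List (List (E n) × Fin n)) (e : E n ⊕ Fin n)
    (he : (blocks cs).getLast? = some e) : e.isRight := by
  induction cs using List.reverseRecOn with
  | nil => simp [blocks] at he
  | append_singleton l r _ =>
    have h1 : blocks (l ++ [r]) = (blocks l ++ r.1.map Sum.inl) ++ [Sum.inr r.2] := by
      simp [blocks]
    rw [h1, List.getLast?_append] at he
    simp at he
    rw [← he]
    rfl

private theorem uerr_exists {n : ℕ} (w : List (E n ⊕ Fin n)) :
    ∃ (cs : List (List (E n) × Fin n)) (c : List (E n)), w = blocks cs ++ c.map Sum.inl := by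
  induction w with
  | nil => exact ⟨[], [], rfl⟩
  | cons a w ih =>
    obtain ⟨cs, c, rfl⟩ := ih
    rcases a with e | b
    · cases cs with
      | nil => exact ⟨[], e :: c, by simp [blocks]⟩
      | cons p cs =>
        refine ⟨(e :: p.1, p.2) :: cs, c, ?_⟩
        rw [uerr_blocks_cons, uerr_blocks_cons]
        simp
    · refine ⟨([], b) :: cs, c, ?_⟩
      rw [uerr_blocks_cons]
      simp

private theorem uerr_exists' {n : ℕ} (w : List (E n ⊕ Fin n))
    (hw : ∀ e, w.getLast? = some e → e.isRight) :
    ∃ (cs : List (List (E n) × Fin n)), w = blocks cs := by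
  obtain ⟨cs, c, rfl⟩ := uerr_exists w
  induction c using List.reverseRecOn with
  | nil => exact ⟨cs, by simp⟩
  | append_singleton c e _ =>
    have := hw (Sum.inl e) (by
      rw [List.map_append, ← List.append_assoc, List.getLast?_append]
      simp)
    simp at this

/-- A word determines its blocks. -/
theorem blocks_eq_ann {n : ℕ} {cs : List (List (E n) × Fin n)} {x : List (E n)}
    {v : List (Fin n)} (h : blocks cs = ann x v) : cs = v.map fun b => (x, b) :=
  uerr_blocks_inj (h.trans (uerr_ann x v))

/-- The words with a bad block. -/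
private def uerrBad (n : ℕ) : Language (E n ⊕ (E n ⊕ Fin n)) :=
  {z | ∃ (x c : List (E n)) (α w' : List (E n ⊕ Fin n)) (b : Fin n), x ≠ c ∧
    (∀ e, α.getLast? = some e → e.isRight) ∧
    z = x.map Sum.inl ++ (α ++ (c.map Sum.inl ++ Sum.inr b :: w')).map Sum.inr}

/-- The words which end with a letter of a code. -/
private def uerrEnd (n : ℕ) : Language (E n ⊕ (E n ⊕ Fin n)) :=
  {z | ∃ (x : List (E n)) (w : List (E n ⊕ Fin n)) (e : E n),
    z = x.map Sum.inl ++ (w ++ [Sum.inl e]).map Sum.inr}

private theorem uerr_err (n : ℕ) (z : List (E n ⊕ (E n ⊕ Fin n))) :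
    z ∈ Err n ↔ z ∈ uerrBad n ∨ z ∈ uerrEnd n := by
  constructor
  · rintro ⟨x, w, rfl, hw⟩
    by_cases hl : ∀ e, w.getLast? = some e → e.isRight
    · left
      obtain ⟨cs, rfl⟩ := uerr_exists' w hl
      have h1 : ∃ p ∈ cs, p.1 ≠ x := by
        by_contra hcon
        push Not at hcon
        apply hw (cs.map Prod.snd)
        rw [uerr_ann, List.map_map]
        congr 1
        conv_lhs => rw [← List.map_id cs]
        apply List.map_congr_left
        intro p hp
        exact Prod.ext (hcon p hp) rfl
      obtain ⟨p, hp, hpx⟩ := h1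
      obtain ⟨cs1, cs2, rfl⟩ := List.append_of_mem hp
      refine ⟨x, p.1, blocks cs1, blocks cs2, p.2, hpx.symm, uerr_last cs1, ?_⟩
      rw [uerr_blocks_append, uerr_blocks_cons]
    · right
      push Not at hl
      obtain ⟨e, he, hr⟩ := hl
      rcases e with e | b
      · obtain ⟨w', rfl⟩ := List.getLast?_eq_some_iff.1 he
        exact ⟨x, w', e, rfl⟩
      · simp at hr
  · rintro (⟨x, c, α, w', b, hxc, hα, rfl⟩ | ⟨x, w, e, rfl⟩)
    · refine ⟨x, _, rfl, ?_⟩
      intro v hv
      obtain ⟨cs1, rfl⟩ := uerr_exists' α hα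
      have hw' : ∀ e, w'.getLast? = some e → e.isRight := by
        intro e he
        rw [uerr_ann] at hv
        apply uerr_last (v.map fun b => (x, b)) e
        rw [← hv, List.getLast?_append, List.getLast?_append, List.getLast?_cons, he]
        rfl
      obtain ⟨cs2, rfl⟩ := uerr_exists' w' hw'
      have h1 : blocks (cs1 ++ (c, b) :: cs2) = ann x v := by
        rw [uerr_blocks_append, uerr_blocks_cons]
        exact hv
      have h2 := blocks_eq_ann h1
      have h3 : (c, b) ∈ v.map fun b => (x, b) := by
        rw [← h2]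
        simp
      obtain ⟨b', _, hb'⟩ := List.mem_map.1 h3
      exact hxc (congrArg Prod.fst hb')
    · refine ⟨x, _, rfl, ?_⟩
      intro v hv
      rw [uerr_ann] at hv
      have := uerr_last (v.map fun b => (x, b)) (Sum.inl e) (by rw [← hv]; simp)
      simp at this

private theorem uerr_fm {X Y : Type} (f : X → Y) (l : List X) :
    l.flatMap (fun a => [f a]) = l.map f := by
  induction l with
  | nil => rfl
  | cons a l ih => simp [ih]

private theorem uerr_dom_bad (n : ℕ) : Dom Dyck2 (uerrBad n) := by
  have h1 := RR.map (C := E n) (A := E n ⊕ E n) (B := E n ⊕ (E n ⊕ Fin n))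
    (fun e => [Sum.inl e]) (fun e => [Sum.inl e])
  have h2 := RR.add (RR.one (A := E n ⊕ E n) (B := E n ⊕ (E n ⊕ Fin n)))
    (RR.iSup (ι := Fin n) fun b' =>
      RR.mul (RR.free (A := E n ⊕ E n) (C := E n ⊕ Fin n)
        (fun a => [(Sum.inr a : E n ⊕ (E n ⊕ Fin n))]))
        (RR.word (A := E n ⊕ E n) [] [(Sum.inr (Sum.inr b') : E n ⊕ (E n ⊕ Fin n))]))
  have h3 := RR.map (C := E n) (A := E n ⊕ E n) (B := E n ⊕ (E n ⊕ Fin n))
    (fun e => [Sum.inr e]) (fun e => [Sum.inr (Sum.inl e)])
  have h4 := RR.iSup (ι := Fin n) fun b =>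
      RR.word (A := E n ⊕ E n) [] [(Sum.inr (Sum.inr b) : E n ⊕ (E n ⊕ Fin n))]
  have h5 := RR.free (A := E n ⊕ E n) (C := E n ⊕ Fin n)
        (fun a => [(Sum.inr a : E n ⊕ (E n ⊕ Fin n))])
  have h := (RR.mul h1 (RR.mul h2 (RR.mul h3 (RR.mul h4 h5)))).dom
    ({z | ∃ x y : List (E n), x ≠ y ∧ z = x.map Sum.inl ++ y.map Sum.inr} :
      Language (E n ⊕ E n))
  refine uerr_congr (Dom.trans dom_neq h) ?_
  intro z
  simp only [uerr_fm]
  constructor
  · rintro ⟨x, c, α, w', b, hxc, hα, rfl⟩
    refine ⟨_, ⟨x, c, hxc, rfl⟩, x.map Sum.inl, c.map Sum.inr, x.map Sum.inl,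
      (α ++ (c.map Sum.inl ++ Sum.inr b :: w')).map Sum.inr, rfl, rfl, ⟨x, rfl, rfl⟩,
      [], c.map Sum.inr, α.map Sum.inr, (c.map Sum.inl ++ Sum.inr b :: w').map Sum.inr, rfl,
      by simp, ?_, c.map Sum.inr, [], c.map fun e => Sum.inr (Sum.inl e),
      (Sum.inr b :: w').map Sum.inr, by simp, by simp, ⟨c, rfl, rfl⟩, [], [],
      [Sum.inr (Sum.inr b)], w'.map Sum.inr, rfl, by simp, ⟨b, rfl, rfl⟩, rfl, w', rfl⟩
    rcases List.eq_nil_or_concat α with rfl | ⟨α', e, rfl⟩
    · left; exact ⟨rfl, rfl⟩
    · right
      rcases e with e | b'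
      · have := hα (Sum.inl e) (by simp)
        simp at this
      · exact ⟨b', [], [], α'.map Sum.inr, [Sum.inr (Sum.inr b')], rfl, by simp,
          ⟨rfl, α', rfl⟩, rfl, rfl⟩
  · rintro ⟨u, ⟨x, c, hxc, hu⟩, u1, u2, v1, v2, hu12, rfl, ⟨x', rfl, rfl⟩, u3, u4, v3, v4, rfl,
      rfl, ha, u5, u6, v5, v6, rfl, rfl, ⟨c', rfl, rfl⟩, u7, u8, v7, v8, rfl, rfl,
      ⟨b, rfl, rfl⟩, rfl, w', rfl⟩
    have hα : u3 = [] ∧ ∃ α : List (E n ⊕ Fin n), v3 = α.map Sum.inr ∧
        ∀ e, α.getLast? = some e → e.isRight := by
      rcases ha with ⟨rfl, rfl⟩ | ⟨b', u9, u10, v9, v10, rfl, rfl, ⟨rfl, α', rfl⟩, rfl, rfl⟩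
      · exact ⟨rfl, [], rfl, by simp⟩
      · refine ⟨rfl, α' ++ [Sum.inr b'], by simp, ?_⟩
        intro e he
        simp at he
        rw [← he]
        rfl
    obtain ⟨rfl, α, rfl, hα⟩ := hα
    have h6 : x = x' ∧ c = c' := by
      have h7 : x.map Sum.inl ++ c.map Sum.inr = x'.map Sum.inl ++ c'.map Sum.inr := by
        rw [← hu, hu12]
        simp
      clear hu hu12 hxc
      induction x generalizing x' with
      | nil =>
        cases x' with
        | nil =>
          refine ⟨rfl, ?_⟩
          simp only [List.map_nil, List.nil_append] at h7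
          exact List.map_injective_iff.2 Sum.inr_injective h7
        | cons a x' =>
          cases c with
          | nil => simp at h7
          | cons e c => simp at h7
      | cons a x ih =>
        cases x' with
        | nil =>
          cases c' with
          | nil => simp at h7
          | cons e c' => simp at h7
        | cons a' x' =>
          simp only [List.map_cons, List.cons_append, List.cons.injEq, Sum.inl.injEq] at h7
          obtain ⟨h8, h9⟩ := ih x' h7.2
          exact ⟨by rw [h7.1, h8], h9⟩
    obtain ⟨rfl, rfl⟩ := h6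
    refine ⟨x, c, α, w', b, hxc, hα, ?_⟩
    simp

private theorem uerr_dom_end (n : ℕ) : Dom Dyck2 (uerrEnd n) := by
  have hr1 : Language.IsRegular ({z | ∃ f ∈ {f : List (E n ⊕ (E n ⊕ Fin n)) |
      ∃ a b, f = [Sum.inr a, Sum.inl b]}, f <:+: z} : Language (E n ⊕ (E n ⊕ Fin n))) :=
    isRegular_factor _ 2 (by rintro _ ⟨a, b, rfl⟩; simp)
  have hr2 : Language.IsRegular ({z | z.getLast? ∈ {o | ∃ e : E n, o = some (Sum.inr (Sum.inl e))}} :
      Language (E n ⊕ (E n ⊕ Fin n))) := isRegular_last _
  have hr := hr1.compl.inf hr2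
  refine uerr_congr (dom_regular (L := Dyck2) (z := []) (Run.nil _) hr) ?_
  intro z
  constructor
  · rintro ⟨x, w, e, rfl⟩
    refine ⟨?_, ⟨e, ?_⟩⟩
    · rintro ⟨_, ⟨a, b, rfl⟩, hf⟩
      obtain ⟨s, t, hst⟩ := hf
      generalize (w ++ [Sum.inl e]) = w' at hst
      clear e
      induction x generalizing s with
      | nil =>
        have h1 : (Sum.inl b : E n ⊕ (E n ⊕ Fin n)) ∈
            ([].map Sum.inl ++ w'.map Sum.inr : List (E n ⊕ (E n ⊕ Fin n))) := by
          rw [← hst]; simp
        simp at h1
      | cons a' x ih =>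
        cases s with
        | nil => simp at hst
        | cons c s =>
          simp only [List.map_cons, List.cons_append, List.cons.injEq] at hst
          exact ih s hst.2
    · simp
  · rintro ⟨h1, e, h2⟩
    obtain ⟨z', rfl⟩ := List.getLast?_eq_some_iff.1 h2
    have h3 : ∃ (x : List (E n)) (w : List (E n ⊕ Fin n)),
        z' = x.map Sum.inl ++ w.map Sum.inr := by
      have h4 : ∀ a b, ¬ [Sum.inr a, Sum.inl b] <:+: z' := by
        intro a b hab
        exact h1 ⟨_, ⟨a, b, rfl⟩, hab.trans (List.prefix_append _ _).isInfix⟩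
      clear h1 h2
      induction z' using List.reverseRecOn with
      | nil => exact ⟨[], [], rfl⟩
      | append_singleton z' c ih =>
        obtain ⟨x, w, rfl⟩ := ih fun a b hab => h4 a b (hab.trans (List.prefix_append _ _).isInfix)
        rcases c with c | c
        · rcases List.eq_nil_or_concat w with rfl | ⟨w', a, rfl⟩
          · exact ⟨x ++ [c], [], by simp⟩
          · exact absurd (⟨x.map Sum.inl ++ w'.map Sum.inr, [], by simp⟩) (h4 a c)
        · exact ⟨x, w ++ [c], by simp⟩
    obtain ⟨x, w, rfl⟩ := h3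
    exact ⟨x, w, e, by simp⟩

theorem dom_err (n : ℕ) : Dom Dyck2 (Err n) :=
  uerr_congr (Dom.union (uerr_dom_bad n) (uerr_dom_end n)) (uerr_err n)

/-- For a fixed `x` the annotated words form a regular language. -/
theorem isRegular_ann {n : ℕ} (x : List (E n)) :
    Language.IsRegular ({w | ∃ v, w = ann x v} : Language (E n ⊕ Fin n)) := by
  apply Language.IsRegular.of_finite_range_leftQuotient
  set L : Language (E n ⊕ Fin n) := {w | ∃ v, w = ann x v} with hL
  have hcons : ∀ (b : Fin n) (w : List (E n ⊕ Fin n)),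
      x.map Sum.inl ++ Sum.inr b :: w ∈ L ↔ w ∈ L := by
    intro b w
    constructor
    · rintro ⟨v, hv⟩
      cases v with
      | nil => simp [ann] at hv
      | cons b' v =>
        refine ⟨v, ?_⟩
        have h1 : ann x (b' :: v) = x.map Sum.inl ++ Sum.inr b' :: ann x v := by simp [ann]
        rw [h1] at hv
        exact (uerr_split hv).2.2
    · rintro ⟨v, rfl⟩
      exact ⟨b :: v, by simp [ann]⟩
  refine ((Set.finite_singleton (∅ : Set (List (E n ⊕ Fin n)))).union
    ((Set.finite_Iic x.length).image fun k => L.leftQuotient ((x.take k).map Sum.inl))).subset ?_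
  rintro _ ⟨u, rfl⟩
  by_cases hu : ∃ y, u ++ y ∈ L
  · right
    obtain ⟨y, v, hy⟩ := hu
    induction v generalizing u with
    | nil =>
      simp only [ann, List.flatMap_nil, List.append_eq_nil_iff] at hy
      exact ⟨0, Nat.zero_le _, by simp [hy.1]⟩
    | cons b v ih =>
      have h1 : ann x (b :: v) = x.map Sum.inl ++ Sum.inr b :: ann x v := by simp [ann]
      rw [h1] at hy
      rcases List.append_eq_append_iff.1 hy with ⟨a, ha1, ha2⟩ | ⟨a, ha1, ha2⟩
      · -- x.map inl = u ++ a
        refine ⟨u.length, ?_, ?_⟩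
        · have := congrArg List.length ha1
          simp at this
          exact Set.mem_Iic.2 (by omega)
        · have h2 : u = (x.take u.length).map Sum.inl := by
            rw [List.map_take, ha1]
            simp
          conv_rhs => rw [h2]
      · -- u = x.map inl ++ a
        cases a with
        | nil =>
          refine ⟨x.length, Set.mem_Iic.2 le_rfl, ?_⟩
          simp [ha1]
        | cons c a =>
          simp only [List.cons_append, List.cons.injEq] at ha2
          obtain ⟨k, hk1, hk2⟩ := ih a ha2.2.symm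
          refine ⟨k, hk1, ?_⟩
          change L.leftQuotient _ = _ at hk2
          change L.leftQuotient _ = _
          rw [hk2, ha1, ← ha2.1]
          apply Set.ext
          intro z
          change a ++ z ∈ L ↔ (x.map Sum.inl ++ Sum.inr b :: a) ++ z ∈ L
          rw [List.append_assoc, List.cons_append, hcons]
  · left
    apply Set.eq_empty_iff_forall_notMem.2
    intro y hy
    exact hu ⟨y, hy⟩

end Pool.Agent.H93NG
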