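import Pool.Agent.H93NG.USlice
import Pool.Agent.H93NG.GCode
import Pool.Agent.H93NG.BoundE
import Pool.Agent.H93NG.GnfC

/-!
# Recursively enumerable families of grammars of non-generators are bounded
-/

namespace Pool.Agent.H93NG

theorem exists_bound_gnf {n : ℕ} (W : Set (Gnf n)) (hW : REPred fun G => G ∈ W)
    (hN : ∀ G ∈ W, NonGen G.lang) :
    ∃ (A : Type) (_ : Finite A) (L : Language A), L.IsContextFree ∧ NonGen L ∧
      ∀ G ∈ W, Dom L G.lang := by
  obtain ⟨A, hA, L, h1, h2, h3⟩ := exists_boundE (Univ n) {z | ∃ G, G ∈ W ∧ gcode G = z}
    (univ_isContextFree n) (rePred_image hW gcode_computable) (by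
      rintro _ ⟨G, hG, rfl⟩
      rw [nonGen_iff]
      apply slice_not_dom
      rw [ml_gcode, ← nonGen_iff]
      exact hN G hG)
  refine ⟨A, hA, L, h1, h2, ?_⟩
  intro G hG
  have h4 := h3 (gcode G) ⟨G, hG, rfl⟩
  have h5 := slice_dom (gcode G)
  rw [ml_gcode] at h5
  exact h4.trans h5

/-- A context-free language has an equivalent one generated by a grammar in normal form, up to the
relation `Dom`. -/
theorem exists_gnf_dom {A : Type} [Finite A] (L : Language A) (hL : L.IsContextFree) :
    ∃ (n : ℕ) (G : Gnf n), Dom G.lang L ∧ (NonGen L → NonGen G.lang) := by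
  obtain ⟨k, ⟨e⟩⟩ := Finite.exists_equiv_fin A
  -- the copy of `L` over `Fin (k + 1)`
  let f : A → Fin (k + 1) := fun a => (e a).castSucc
  have hf : Function.Injective f := fun a b h => e.injective (Fin.castSucc_injective k h)
  let M : Language (Fin (k + 1)) := {z | ∃ w ∈ L, z = w.map f}
  have hM : Dom L M := by
    have h := dom_quot L [] [] (fun a : A => [a]) (fun a : A => [f a])
    convert h using 1
    ext z
    simp only [flatMap_single, List.map_id', List.nil_append, List.append_nil]
    constructor
    · rintro ⟨w, h1, rfl⟩
      exact ⟨w, h1, rfl⟩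
    · rintro ⟨w, h1, rfl⟩
      exact ⟨w, h1, rfl⟩
  have hMcf : M.IsContextFree :=
    isContextFree_of_dom ((dom_of_isContextFree hL).trans hM)
  have hML : Dom M L := by
    have h := dom_quot M [] [] (fun a : A => [f a]) (fun a : A => [a])
    convert h using 1
    ext z
    simp only [flatMap_single, List.map_id', List.nil_append, List.append_nil]
    constructor
    · intro hz
      exact ⟨z, ⟨z, hz, rfl⟩, rfl⟩
    · rintro ⟨w, ⟨w', h1, h2⟩, rfl⟩
      rw [List.map_injective_iff.2 hf h2]
      exact h1
  by_cases hne : ∃ v, v ∈ M ∧ v ≠ []
  · obtain ⟨v0, hv0, hv0'⟩ := hne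
    obtain ⟨G, hG⟩ := exists_gnf M hMcf
    have hGne : ∀ v ∈ G.lang, v ≠ [] := by
      rintro v hv rfl
      cases hv
    have h1 : Dom M G.lang := by
      have h2 : Language.IsRegular ({z | z.take 1 ∉ ({[]} : Set (List (Fin (k + 1))))} :
          Language (Fin (k + 1))) := isRegular_take 1 {[]}ᶜ
      have h := dom_inter_regular (Dom.refl M) h2
      convert h using 1
      ext v
      constructor
      · intro hv
        have hv' := hGne v hv
        refine ⟨(hG v hv').2 hv, ?_⟩
        intro (h3 : v.take 1 = [])
        cases v with
        | nil => exact hv' rfl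
        | cons a v => simp at h3
      · rintro ⟨h3, h4⟩
        refine (hG v ?_).1 h3
        rintro rfl
        exact h4 rfl
    have h2 : Dom G.lang M := by
      by_cases h0 : [] ∈ M
      · have hR : Language.IsRegular ({z | z.take 1 ∈ ({[]} : Set (List (Fin (k + 1))))} :
            Language (Fin (k + 1))) := isRegular_take 1 {[]}
        have h := (Dom.refl G.lang).union (dom_regular ((hG v0 hv0').1 hv0) hR)
        convert h using 1
        ext v
        constructor
        · intro hv
          by_cases hv' : v = []
          · right
            rw [hv']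
            rfl
          · left
            exact (hG v hv').1 hv
        · rintro (hv | hv)
          · exact (hG v (hGne v hv)).2 hv
          · have h3 : v.take 1 = [] := hv
            have h4 : v = [] := by
              cases v with
              | nil => rfl
              | cons a v => simp at h3
            rw [h4]
            exact h0
      · convert Dom.refl G.lang using 1
        ext v
        constructor
        · intro hv
          refine (hG v ?_).1 hv
          rintro rfl
          exact h0 hv
        · intro hv
          exact (hG v (hGne v hv)).2 hv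
    refine ⟨k + 1, G, h2.trans hML, ?_⟩
    intro hN
    rw [nonGen_iff] at hN ⊢
    intro h3
    exact hN (hM.trans (h1.trans h3))
  · -- `M` is contained in `{[]}`
    let G : Gnf (k + 1) := [(0, 0, [])]
    have hG : [(0 : Fin (k + 1))] ∈ G.lang :=
      Der.step (A := 0) (α := []) (by simp [G]) Der.nil
    have hMR : M.IsRegular := by
      by_cases h0 : [] ∈ M
      · convert isRegular_take (Z := Fin (k + 1)) 1 {[]} using 1
        ext v
        constructor
        · intro hv
          by_cases hv' : v = []
          · rw [hv']; rfl
          · exact absurd ⟨v, hv, hv'⟩ hne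
        · intro hv
          have h3 : v.take 1 = [] := hv
          have h4 : v = [] := by
            cases v with
            | nil => rfl
            | cons a v => simp at h3
          rw [h4]
          exact h0
      · convert isRegular_take (Z := Fin (k + 1)) 1 ∅ using 1
        ext v
        constructor
        · intro hv
          by_cases hv' : v = []
          · rw [hv'] at hv; exact absurd hv h0
          · exact absurd ⟨v, hv, hv'⟩ hne
        · intro hv
          exact absurd hv id
    have hGR : G.lang.IsRegular := by
      convert isRegular_take (Z := Fin (k + 1)) 2 {[0]} using 1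
      ext v
      constructor
      · intro hv
        rcases hv with _ | ⟨h1, h2⟩
        rename_i b α w
        simp only [G, List.mem_singleton, Prod.mk.injEq, true_and] at h1
        obtain ⟨rfl, rfl⟩ := h1
        cases h2
        rfl
      · intro hv
        have h3 : v.take 2 = [0] := hv
        have h4 : v = [0] := by
          match v with
          | [] => simp at h3
          | [a] => simpa using h3
          | a :: b :: v => simp at h3
        rw [h4]
        exact hG
    refine ⟨k + 1, G, (dom_regular hG hMR).trans hML, ?_⟩
    intro _
    rw [nonGen_iff]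
    exact not_dom_regular hGR

/-- The cone of the context-free non-generators is principal iff it has a recursively enumerable
cofinal family of grammars. -/
theorem principal_iff :
    (∃ (A : Type) (_ : Finite A) (L : Language A), L.IsContextFree ∧ NonGen L ∧
        ∀ (B : Type) (_ : Finite B) (M : Language B), M.IsContextFree → NonGen M → Dom L M) ↔
      ∃ (n : ℕ) (W : Set (Gnf n)), REPred (fun G => G ∈ W) ∧ (∀ G ∈ W, NonGen G.lang) ∧
        ∀ (B : Type) (_ : Finite B) (M : Language B), M.IsContextFree → NonGen M →
          ∃ G ∈ W, Dom G.lang M := by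
  constructor
  · rintro ⟨A, _, L, hL, hN, hD⟩
    obtain ⟨n, G, hG1, hG2⟩ := exists_gnf_dom L hL
    refine ⟨n, {G}, ?_, ?_, ?_⟩
    · have h : PrimrecPred fun H : Gnf n => H = G := Primrec.eq.comp Primrec.id (Primrec.const G)
      exact h.computablePred.to_re
    · rintro _ rfl
      exact hG2 hN
    · intro B _ M hM hNM
      exact ⟨G, rfl, hG1.trans (hD B inferInstance M hM hNM)⟩
  · rintro ⟨n, W, hW, hN, hD⟩
    obtain ⟨A, _, L, hL, hLN, hLD⟩ := exists_bound_gnf W hW hN
    refine ⟨A, inferInstance, L, hL, hLN, ?_⟩
    intro B _ M hM hNM
    obtain ⟨G, hG, h⟩ := hD B inferInstance M hM hNM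
    exact (hLD G hG).trans h

end Pool.Agent.H93NG
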