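import Pool.Agent.H93NG.UCons
import Pool.Agent.H93NG.UErr
import Pool.Agent.H93NG.CFL
import Pool.Agent.H93NG.CS
import Pool.Agent.H93NG.Split

/-!
# The universal language is context-free, and its slices

PROOFS. `univ_isContextFree`: `Univ n` is the union of `Cons n` and `Err n` (if `w = ann x v` then
`w = blocks (v.map fun b => (x, b))`, and the options of the blocks are the options of `x`;
`blocks_eq_ann` for the converse; the decomposition of a word `x.map inl ++ w.map inr` is unique),
so `isContextFree_of_dom` applies to `(dom_cons n).union (dom_err n)`.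
`slice_dom`: intersect with the regular language of the annotated words (`isRegular_ann`) and
erase all letters `Sum.inl _`.
`slice_nonGen`: the slice is the union of the regular language of the words not of the form
`ann x v` and of the image of `ML x` by `v ↦ ann x v`. If it dominated `Dyck2` then by `Dom.split`
one of the two would; the first does not (`not_dom_regular`), and the second is dominated by
`ML x` (`dom_quot` with `g b = [b]`, `h b = x.map inl ++ [inr b]`), so `ML x` would dominate
`Dyck2`.
-/

namespace Pool.Agent.H93NG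

private theorem usl_congr {A B : Type} {L : Language A} {M M' : Language B} (h : Dom L M)
    (e : ∀ v, v ∈ M' ↔ v ∈ M) : Dom L M' := by
  have : M' = M := Set.ext e
  rw [this]
  exact h

private theorem usl_flat_single {A : Type} (w : List A) : w.flatMap (fun a => [a]) = w := by
  induction w with
  | nil => rfl
  | cons a w ih =>
    rw [List.flatMap_cons, ih]
    rfl

/-- The decomposition of a word is unique. -/
private theorem usl_split {X Y : Type} : ∀ {x x' : List X} {w w' : List Y},
    x.map (Sum.inl : X → X ⊕ Y) ++ w.map Sum.inr = x'.map Sum.inl ++ w'.map Sum.inr →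
    x = x' ∧ w = w' := by
  intro x
  induction x with
  | nil =>
    intro x' w w' h
    cases x' with
    | nil =>
      refine ⟨rfl, ?_⟩
      have h' : w.map (Sum.inr : Y → X ⊕ Y) = w'.map Sum.inr := by simpa using h
      exact (List.map_injective_iff.mpr Sum.inr_injective) h'
    | cons a x' =>
      cases w with
      | nil => simp at h
      | cons b w => simp at h
  | cons a x ih =>
    intro x' w w' h
    cases x' with
    | nil =>
      cases w' with
      | nil => simp at h
      | cons b w' => simp at h
    | cons a' x' =>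
      have h' : a = a' ∧ x.map (Sum.inl : X → X ⊕ Y) ++ w.map Sum.inr =
          x'.map Sum.inl ++ w'.map Sum.inr := by simpa using h
      obtain ⟨rfl, h2⟩ := h'
      obtain ⟨rfl, rfl⟩ := ih h2
      exact ⟨rfl, rfl⟩

private theorem usl_blocks {n : ℕ} (x : List (E n)) (v : List (Fin n)) :
    blocks (v.map fun b => (x, b)) = ann x v := by
  unfold blocks ann
  rw [List.flatMap_map]

private theorem usl_forall {n : ℕ} (x : List (E n)) (v : List (Fin n))
    (ys : List (List (Bool × Bool))) :
    List.Forall₂ (fun (p : List (E n) × Fin n) y => Opt p.1 p.2 y) (v.map fun b => (x, b)) ys ↔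
      List.Forall₂ (Opt x) v ys := by
  rw [List.forall₂_map_left_iff]

theorem univ_isContextFree (n : ℕ) : (Univ n).IsContextFree := by
  refine isContextFree_of_dom (usl_congr ((dom_cons n).union (dom_err n)) ?_)
  intro z
  constructor
  · rintro ⟨x, w, rfl, hw⟩
    by_cases h : ∃ v, w = ann x v
    · left
      obtain ⟨v, rfl⟩ := h
      obtain ⟨ys, h1, h2⟩ := hw v rfl
      refine ⟨x, v.map fun b => (x, b), ?_, ys, (usl_forall x v ys).mpr h1, h2⟩
      rw [usl_blocks]
    · right
      exact ⟨x, w, rfl, fun v hv => h ⟨v, hv⟩⟩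
  · rintro (⟨x, cs, rfl, ys, h1, h2⟩ | ⟨x, w, rfl, hw⟩)
    · refine ⟨x, _, rfl, ?_⟩
      intro v hv
      have h3 := blocks_eq_ann hv
      subst h3
      exact ⟨ys, (usl_forall x v ys).mp h1, h2⟩
    · exact ⟨x, w, rfl, fun v hv => absurd hv (hw v)⟩

private theorem usl_mem {n : ℕ} (x : List (E n)) (w : List (E n ⊕ Fin n)) :
    w ∈ sliceE (Univ n) x ↔ ∀ v, w = ann x v → v ∈ ML x := by
  constructor
  · rintro ⟨x', w', h, hw⟩
    obtain ⟨rfl, rfl⟩ := usl_split h
    exact hw
  · intro h
    exact ⟨x, w, rfl, h⟩

private theorem usl_erase {n : ℕ} (x : List (E n)) (v : List (Fin n)) :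
    (ann x v).flatMap (Sum.elim (fun _ => []) fun b => [b]) = v := by
  have h0 : (x.map (Sum.inl : E n → E n ⊕ Fin n)).flatMap
      (Sum.elim (fun _ => ([] : List (Fin n))) fun b => [b]) = [] := by
    induction x with
    | nil => rfl
    | cons a x ih =>
      rw [List.map_cons, List.flatMap_cons, ih]
      rfl
  induction v with
  | nil => rfl
  | cons b v ih =>
    have h1 : ann x (b :: v) = (x.map Sum.inl ++ [Sum.inr b]) ++ ann x v := rfl
    rw [h1, List.flatMap_append, ih, List.flatMap_append, h0]
    rfl

theorem slice_dom {n : ℕ} (x : List (E n)) : Dom (sliceE (Univ n) x) (ML x) := by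
  have h1 := dom_inter_regular (Dom.refl (sliceE (Univ n) x)) (isRegular_ann x)
  have h2 := h1.trans (dom_quot _ [] [] (fun c : E n ⊕ Fin n => [c])
    (Sum.elim (fun _ => ([] : List (Fin n))) fun b => [b]))
  refine usl_congr h2 ?_
  intro v
  constructor
  · intro hv
    refine ⟨ann x v, ?_, usl_erase x v⟩
    rw [usl_flat_single, List.append_nil, List.nil_append]
    refine ⟨(usl_mem x _).mpr ?_, v, rfl⟩
    intro v' hv'
    have h3 := congrArg (List.flatMap (Sum.elim (fun _ => ([] : List (Fin n))) fun b => [b])) hv'
    rw [usl_erase, usl_erase] at h3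
    rw [← h3]
    exact hv
  · rintro ⟨w, hw, rfl⟩
    rw [usl_flat_single, List.append_nil, List.nil_append] at hw
    obtain ⟨hw1, v, rfl⟩ := hw
    rw [usl_erase]
    exact (usl_mem x _).mp hw1 v rfl

theorem slice_not_dom {n : ℕ} (x : List (E n)) (h : ¬ Dom (ML x) Dyck2) :
    ¬ Dom (sliceE (Univ n) x) Dyck2 := by
  intro hd
  have hX : Language.IsRegular ({w | ¬ ∃ v, w = ann x v} : Language (E n ⊕ Fin n)) :=
    (isRegular_ann x).compl
  have key : sliceE (Univ n) x = ({w | w ∈ ({w | ¬ ∃ v, w = ann x v} :
      Language (E n ⊕ Fin n)) ∨ w ∈ ({w | ∃ v, v ∈ ML x ∧ w = ann x v} :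
      Language (E n ⊕ Fin n))} : Language (E n ⊕ Fin n)) := by
    refine Set.ext fun w => ?_
    constructor
    · intro hw
      have hw' := (usl_mem x w).mp hw
      by_cases hv : ∃ v, w = ann x v
      · obtain ⟨v, rfl⟩ := hv
        exact Or.inr ⟨v, hw' v rfl, rfl⟩
      · exact Or.inl hv
    · rintro (hw | ⟨v, hv, rfl⟩)
      · exact (usl_mem x w).mpr fun v hv => absurd ⟨v, hv⟩ hw
      · refine (usl_mem x _).mpr ?_
        intro v' hv'
        have h3 := congrArg (List.flatMap (Sum.elim (fun _ => ([] : List (Fin n))) fun b => [b])) hv'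
        rw [usl_erase, usl_erase] at h3
        rw [← h3]
        exact hv
  rw [key] at hd
  rcases hd.split with h1 | h1
  · exact not_dom_regular hX h1
  · apply h
    refine Dom.trans (usl_congr (dom_quot (ML x) [] [] (fun b : Fin n => [b])
      (fun b => x.map Sum.inl ++ [Sum.inr b])) ?_) h1
    intro w
    constructor
    · rintro ⟨v, hv, rfl⟩
      refine ⟨v, ?_, rfl⟩
      rw [usl_flat_single, List.append_nil, List.nil_append]
      exact hv
    · rintro ⟨v, hv, rfl⟩
      rw [usl_flat_single, List.append_nil, List.nil_append] at hv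
      exact ⟨v, hv, rfl⟩

end Pool.Agent.H93NG
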