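import Pool.Agent.H93NG.ZStrip
import Pool.Agent.H93NG.Gram
import Pool.Agent.H93NG.CS

/-!
# The union of all iterated insertions is context-free

PROOF. Let `G` be a grammar for `V`. New grammar `G'`: nonterminals `G.NT ⊕ Bool`
(`S = inr true`, initial, `P = inr false`), rules
* `S → (inl G.initial) P`;
* `P → ε`, `P → (inr true) S (inr false) P` (the brackets as terminals);
* for each rule `X → γ` of `G`: `inl X → γ'`, where in `γ'` each terminal `a` is replaced by
  `P (inl a)` and each nonterminal `Y` by `inl Y`.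
Meaning: `I S = Winf V`; `I P = ` the sequences of bracketed pieces from `Winf V` (that is
`{z | Nest (Winf V) [] z}`); `I (inl X) = {z | ∃ v, AR G v [X] ∧ NestL v z}` where in `NestL` pieces
are inserted only before letters: `NestL [] []`, and `NestL (a :: v) (p ++ inl a :: z)` for
`Nest (Winf V) [] p` and `NestL v z`. `ar_sem` gives that everything derived is in the meaning
(`winf_iff` for the first rule). Conversely, by induction on `k`: `z ∈ Wk V k` implies
`AR G' z [S]`; every `Nest (Wk V k) v z` splits as `NestL v z'` followed by pieces, the pieces are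
derived from `P`, and `AR G v st`, `NestL v z'` imply `AR G' z' st'` by induction on `AR G v st`.
-/

namespace Pool.Agent.H93NG

/-- Pieces are inserted only before letters. -/
inductive ZcfNestL {A : Type} (K : Set (List (A ⊕ Bool))) : List A → List (A ⊕ Bool) → Prop
  | nil : ZcfNestL K [] []
  | letter {a : A} {v : List A} {p z : List (A ⊕ Bool)} :
      Nest K [] p → ZcfNestL K v z → ZcfNestL K (a :: v) (p ++ Sum.inl a :: z)

theorem zcf_nestL_append {A : Type} {K : Set (List (A ⊕ Bool))} {v₁ v₂ : List A}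
    {z₁ z₂ : List (A ⊕ Bool)} (h₁ : ZcfNestL K v₁ z₁) (h₂ : ZcfNestL K v₂ z₂) :
    ZcfNestL K (v₁ ++ v₂) (z₁ ++ z₂) := by
  induction h₁ with
  | nil => exact h₂
  | @letter a v p z hp _ ih =>
    have := ZcfNestL.letter (a := a) hp ih
    simpa using this

theorem zcf_nest_append {A : Type} {K : Set (List (A ⊕ Bool))} {v : List A}
    {p z : List (A ⊕ Bool)} (hp : Nest K [] p) (hz : Nest K v z) : Nest K v (p ++ z) := by
  generalize he : ([] : List A) = e at hp
  induction hp with
  | nil => exact hz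
  | letter _ _ => exact absurd he (by simp)
  | piece hk _ ih =>
    have := Nest.piece hk (ih he)
    simpa using this

theorem zcf_nest_of_nestL {A : Type} {K : Set (List (A ⊕ Bool))} {v : List A}
    {z p : List (A ⊕ Bool)} (h : ZcfNestL K v z) (hp : Nest K [] p) : Nest K v (z ++ p) := by
  induction h with
  | nil => exact hp
  | @letter a v q z hq _ ih =>
    have := zcf_nest_append hq (Nest.letter (a := a) ih)
    simpa using this

theorem zcf_split {A : Type} {K : Set (List (A ⊕ Bool))} {v : List A}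
    {z : List (A ⊕ Bool)} (h : Nest K v z) :
    ∃ z' p, z = z' ++ p ∧ ZcfNestL K v z' ∧ Nest K [] p := by
  induction h with
  | nil => exact ⟨[], [], rfl, ZcfNestL.nil, Nest.nil⟩
  | @letter a v z _ ih =>
    obtain ⟨z', p, rfl, h1, h2⟩ := ih
    exact ⟨Sum.inl a :: z', p, rfl, by simpa using ZcfNestL.letter (a := a) Nest.nil h1, h2⟩
  | @piece k v z hk _ ih =>
    obtain ⟨z', p, rfl, h1, h2⟩ := ih
    cases h1 with
    | nil => exact ⟨[], _, rfl, ZcfNestL.nil, Nest.piece hk h2⟩
    | @letter a v q y hq hy =>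
      refine ⟨(Sum.inr true :: (k ++ Sum.inr false :: q)) ++ Sum.inl a :: y, p, by simp, ?_, h2⟩
      exact ZcfNestL.letter (Nest.piece hk hq) hy

/-- Translation of symbols. -/
def zcfTr {A N : Type} : Symbol A N → List (Symbol (A ⊕ Bool) (N ⊕ Bool))
  | Symbol.terminal a => [Symbol.nonterminal (Sum.inr false), Symbol.terminal (Sum.inl a)]
  | Symbol.nonterminal n => [Symbol.nonterminal (Sum.inl n)]

/-- The rules for the start symbol and the pieces. -/
def zcfR1 {A N : Type} (n : N) : ContextFreeRule (A ⊕ Bool) (N ⊕ Bool) :=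
  ⟨Sum.inr true, [Symbol.nonterminal (Sum.inl n), Symbol.nonterminal (Sum.inr false)]⟩

def zcfR2 {A N : Type} : ContextFreeRule (A ⊕ Bool) (N ⊕ Bool) := ⟨Sum.inr false, []⟩

def zcfR3 {A N : Type} : ContextFreeRule (A ⊕ Bool) (N ⊕ Bool) :=
  ⟨Sum.inr false, [Symbol.terminal (Sum.inr true), Symbol.nonterminal (Sum.inr true),
    Symbol.terminal (Sum.inr false), Symbol.nonterminal (Sum.inr false)]⟩

def zcfR {A N : Type} (r : ContextFreeRule A N) : ContextFreeRule (A ⊕ Bool) (N ⊕ Bool) :=
  ⟨Sum.inl r.input, r.output.flatMap zcfTr⟩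

open Classical in
/-- The grammar. -/
noncomputable def zcfG {A : Type} (G : ContextFreeGrammar A) : ContextFreeGrammar (A ⊕ Bool) where
  NT := G.NT ⊕ Bool
  initial := Sum.inr true
  rules := insert (zcfR1 G.initial) (insert zcfR2 (insert zcfR3 (G.rules.image zcfR)))

theorem zcf_mem {A : Type} (G : ContextFreeGrammar A) (r : ContextFreeRule (A ⊕ Bool) (G.NT ⊕ Bool)) :
    r ∈ (zcfG G).rules ↔ r = zcfR1 G.initial ∨ r = zcfR2 ∨ r = zcfR3 ∨ ∃ s ∈ G.rules, zcfR s = r := by
  classical
  unfold zcfG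
  change r ∈ (insert (zcfR1 G.initial) (insert zcfR2 (insert zcfR3 (G.rules.image zcfR))) :
    Finset (ContextFreeRule (A ⊕ Bool) (G.NT ⊕ Bool))) ↔ _
  simp only [Finset.mem_insert, Finset.mem_image]

theorem zcf_pieces {A : Type} (G : ContextFreeGrammar A) {K : Set (List (A ⊕ Bool))}
    (hK : ∀ k ∈ K, AR (zcfG G) k [Symbol.nonterminal (Sum.inr true)]) {p : List (A ⊕ Bool)}
    (hp : Nest K [] p) : AR (zcfG G) p [Symbol.nonterminal (Sum.inr false)] := by
  generalize he : ([] : List A) = e at hp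
  induction hp with
  | nil =>
    exact AR.expand (G := zcfG G) (r := zcfR2) ((zcf_mem G _).2 (Or.inr (Or.inl rfl))) AR.nil
  | letter _ _ => exact absurd he (by simp)
  | @piece k v z hk _ ih =>
    refine AR.expand (G := zcfG G) (r := zcfR3)
      ((zcf_mem G _).2 (Or.inr (Or.inr (Or.inl rfl)))) ?_
    change AR (zcfG G) _ [Symbol.terminal (Sum.inr true), Symbol.nonterminal (Sum.inr true),
      Symbol.terminal (Sum.inr false), Symbol.nonterminal (Sum.inr false)]
    refine AR.term ?_
    exact ar_append (α := [Symbol.nonterminal (Sum.inr true)]).2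
      ⟨k, _, rfl, hK k hk, AR.term (ih he)⟩

theorem zcf_complete {A : Type} (G : ContextFreeGrammar A) {K : Set (List (A ⊕ Bool))}
    (hK : ∀ k ∈ K, AR (zcfG G) k [Symbol.nonterminal (Sum.inr true)]) {v : List A}
    {st : List (Symbol A G.NT)} (h : AR G v st) {z : List (A ⊕ Bool)} (hz : ZcfNestL K v z) :
    AR (zcfG G) z (st.flatMap zcfTr) := by
  induction h generalizing z with
  | nil =>
    cases hz
    exact AR.nil
  | @term b w st _ ih =>
    cases hz with
    | @letter _ _ p y hp hy =>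
      have h1 := ih hy
      have h2 := zcf_pieces G hK hp
      exact ar_append (α := [Symbol.nonterminal (Sum.inr false)]).2
        ⟨p, _, rfl, h2, AR.term h1⟩
  | @expand r w st hr _ ih =>
    have h1 := ih hz
    rw [List.flatMap_append] at h1
    exact AR.expand (G := zcfG G) (r := zcfR r)
      ((zcf_mem G _).2 (Or.inr (Or.inr (Or.inr ⟨r, hr, rfl⟩)))) h1

theorem zcf_wk {A : Type} (G : ContextFreeGrammar A) (V : Language A) (hG : G.language = V)
    (k : ℕ) {z : List (A ⊕ Bool)} (hz : z ∈ Wk V k) :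
    AR (zcfG G) z [Symbol.nonterminal (Sum.inr true)] := by
  induction k generalizing z with
  | zero => exact absurd hz id
  | succ k ih =>
    obtain ⟨v, hv, hn⟩ := hz
    obtain ⟨z', p, rfl, h1, h2⟩ := zcf_split hn
    rw [← hG, mem_language_iff_ar] at hv
    have h3 := zcf_complete G (K := Wk V k) (fun y hy => ih hy) hv h1
    have h4 := zcf_pieces G (K := Wk V k) (fun y hy => ih hy) h2
    refine AR.expand (G := zcfG G) (r := zcfR1 G.initial) ((zcf_mem G _).2 (Or.inl rfl)) ?_
    exact ar_append (α := [Symbol.nonterminal (Sum.inl G.initial)]).2 ⟨z', p, rfl, h3, h4⟩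

/-- The meaning of the nonterminals. -/
def zcfI {A : Type} (G : ContextFreeGrammar A) (V : Language A) :
    G.NT ⊕ Bool → Set (List (A ⊕ Bool))
  | Sum.inr true => {z | z ∈ Winf V}
  | Sum.inr false => {z | Nest (Winf V) [] z}
  | Sum.inl X => {z | ∃ v, AR G v [Symbol.nonterminal X] ∧ ZcfNestL (Winf V) v z}

theorem zcf_sem {A : Type} (G : ContextFreeGrammar A) (V : Language A)
    (st : List (Symbol A G.NT)) {w : List (A ⊕ Bool)} (h : Sem (zcfI G V) (st.flatMap zcfTr) w) :
    ∃ v, AR G v st ∧ ZcfNestL (Winf V) v w := by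
  induction st generalizing w with
  | nil =>
    have : w = [] := h
    subst this
    exact ⟨[], AR.nil, ZcfNestL.nil⟩
  | cons a st ih =>
    cases a with
    | terminal a =>
      obtain ⟨w₁, w₂, rfl, h1, w₃, rfl, h2⟩ := h
      obtain ⟨v, hv, hn⟩ := ih h2
      exact ⟨a :: v, AR.term hv, ZcfNestL.letter h1 hn⟩
    | nonterminal n =>
      obtain ⟨w₁, w₂, rfl, ⟨v₁, hv₁, hn₁⟩, h2⟩ := h
      obtain ⟨v, hv, hn⟩ := ih h2
      exact ⟨v₁ ++ v, ar_append (α := [Symbol.nonterminal n]).2 ⟨v₁, v, rfl, hv₁, hv⟩,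
        zcf_nestL_append hn₁ hn⟩

theorem zcf_sound {A : Type} (G : ContextFreeGrammar A) (V : Language A) (hG : G.language = V)
    (r : ContextFreeRule (A ⊕ Bool) (G.NT ⊕ Bool)) (hr : r ∈ (zcfG G).rules)
    (w : List (A ⊕ Bool)) (h : Sem (zcfI G V) r.output w) : w ∈ zcfI G V r.input := by
  rcases (zcf_mem G r).1 hr with rfl | rfl | rfl | ⟨s, hs, rfl⟩
  · obtain ⟨w₁, w₂, rfl, ⟨v, hv, hn⟩, w₃, w₄, rfl, h2, h3⟩ := h
    have : w₄ = [] := h3
    subst this
    rw [List.append_nil]
    refine (winf_iff V _).2 ⟨v, ?_, zcf_nest_of_nestL hn h2⟩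
    rw [← hG, mem_language_iff_ar]
    exact hv
  · have : w = [] := h
    subst this
    exact Nest.nil
  · obtain ⟨w₁, rfl, k, w₂, rfl, hk, w₃, rfl, w₄, w₅, rfl, h2, h3⟩ := h
    have : w₅ = [] := h3
    subst this
    rw [List.append_nil]
    exact Nest.piece hk h2
  · obtain ⟨v, hv, hn⟩ := zcf_sem G V s.output h
    refine ⟨v, AR.expand hs ?_, hn⟩
    rw [List.append_nil]
    exact hv

theorem winf_isContextFree {A : Type} (V : Language A) (hV : V.IsContextFree) :
    (Winf V).IsContextFree := by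
  obtain ⟨G, hG⟩ := hV
  refine ⟨zcfG G, ?_⟩
  ext z
  rw [mem_language_iff_ar]
  constructor
  · intro h
    have h1 := ar_sem (G := zcfG G) (zcfI G V) (fun r hr w hw => zcf_sound G V hG r hr w hw) h
    obtain ⟨w₁, w₂, rfl, h2, h3⟩ := h1
    have : w₂ = [] := h3
    subst this
    rw [List.append_nil]
    exact h2
  · rintro ⟨k, hk⟩
    exact zcf_wk G V hG k hk

end Pool.Agent.H93NG
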