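import Pool.Agent.H93NG.SDefs

/-!
# Nested insertions: definitions

Alphabet `A ⊕ Bool`: letters and brackets (`inr true` opens, `inr false` closes).
`Ins V K`: words of `V` with bracketed pieces from `K` inserted anywhere. `Wk V k`: nesting depth
`< k`. `Strip k n z`: the bracket level of `z`, started at `n`, as long as it stays in `0..k`.
-/

namespace Pool.Agent.H93NG

/-- `Nest K v z`: `z` is `v` with bracketed pieces from `K` inserted. -/
inductive Nest {A : Type} (K : Set (List (A ⊕ Bool))) : List A → List (A ⊕ Bool) → Prop
  | nil : Nest K [] []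
  | letter {a : A} {v : List A} {z : List (A ⊕ Bool)} :
      Nest K v z → Nest K (a :: v) (Sum.inl a :: z)
  | piece {k : List (A ⊕ Bool)} {v : List A} {z : List (A ⊕ Bool)} :
      k ∈ K → Nest K v z → Nest K v (Sum.inr true :: (k ++ Sum.inr false :: z))

/-- Insertion of bracketed pieces. -/
def Ins {A : Type} (V : Language A) (K : Set (List (A ⊕ Bool))) : Language (A ⊕ Bool) :=
  {z | ∃ v ∈ V, Nest K v z}

/-- Iterated insertion. -/
def Wk {A : Type} (V : Language A) : ℕ → Language (A ⊕ Bool)
  | 0 => {z | False}
  | k + 1 => Ins V (Wk V k)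

/-- The union of all iterated insertions. -/
def Winf {A : Type} (V : Language A) : Language (A ⊕ Bool) := {z | ∃ k, z ∈ Wk V k}

/-- The final bracket level, started at `n`, if it stays in `0..k`. -/
def strip {A : Type} (k : ℕ) : ℕ → List (A ⊕ Bool) → Option ℕ
  | n, [] => some n
  | n, Sum.inl _ :: z => strip k n z
  | n, Sum.inr true :: z => if n < k then strip k (n + 1) z else none
  | n, Sum.inr false :: z => if n = 0 then none else strip k (n - 1) z

/-- Balanced words of depth at most `k`. -/
def Fit {A : Type} (k : ℕ) (z : List (A ⊕ Bool)) : Prop := strip k 0 z = some 0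

end Pool.Agent.H93NG
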