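import Pool.Agent.H93NG.Ops
import Pool.Agent.H93NG.Dyck

/-!
# The Dyck language on three pairs of brackets

PROOFS. `dom_dyck3`: code `c none = [false]`, `c (some b) = [true, b]`; a push of `a` becomes the
pushes of `(c a).reverse`, a pop of `a` the pops of `c a`. Claim:
`Run (w.flatMap g) (s.flatMap c) t ↔ ∃ t', t = t'.flatMap c ∧ RunG w s t'` (induction on `w`;
`run_push`, `run_pop`; the code is a prefix code). Then `dom_quot` with `P = Q = []`.
`run_emb`: induction on `w`; the brackets `some b` never touch the `none` below.
`dyck3_factor`: split the run of the whole word (`runG_append`) and use `run_emb`.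
`dyck3_insert`: induction on `w` with any stack, using that `w₀` runs from any stack to itself.
-/

namespace Pool.Agent.H93NG

/-- Runs over any set of brackets. -/
inductive RunG {Γ : Type} : List (Γ × Bool) → List Γ → List Γ → Prop
  | nil (s : List Γ) : RunG [] s s
  | push {a : Γ} {w : List (Γ × Bool)} {s t : List Γ} :
      RunG w (a :: s) t → RunG ((a, true) :: w) s t
  | pop {a : Γ} {w : List (Γ × Bool)} {s t : List Γ} :
      RunG w s t → RunG ((a, false) :: w) (a :: s) t

/-- The Dyck language on three pairs of brackets. -/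
def Dyck3 : Language (Option Bool × Bool) := {w | RunG w [] []}

/-- The embedding of the words on two pairs of brackets. -/
def emb (w : List (Bool × Bool)) : List (Option Bool × Bool) := w.map fun a => (some a.1, a.2)

/-- The word `< w >`. -/
def brk (w : List (Bool × Bool)) : List (Option Bool × Bool) :=
  (none, true) :: (emb w ++ [(none, false)])

/-- The word with `< w₀ >` after each letter. -/
def hins (w₀ w : List (Bool × Bool)) : List (Option Bool × Bool) :=
  w.flatMap fun a => (some a.1, a.2) :: brk w₀

theorem runG_nil_iff {Γ : Type} {s t : List Γ} : RunG [] s t ↔ s = t := by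
  constructor
  · intro h
    cases h
    rfl
  · rintro rfl
    exact RunG.nil _

theorem runG_push_iff {Γ : Type} {a : Γ} {w : List (Γ × Bool)} {s t : List Γ} :
    RunG ((a, true) :: w) s t ↔ RunG w (a :: s) t := by
  constructor
  · intro h
    cases h
    assumption
  · exact RunG.push

theorem runG_pop_iff {Γ : Type} {a : Γ} {w : List (Γ × Bool)} {s t : List Γ} :
    RunG ((a, false) :: w) s t ↔ ∃ s', s = a :: s' ∧ RunG w s' t := by
  constructor
  · intro h
    cases h
    exact ⟨_, rfl, by assumption⟩
  · rintro ⟨s', rfl, h⟩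
    exact RunG.pop h

/-- The code of a bracket. -/
def cd3 : Option Bool → List Bool
  | none => [false]
  | some b => [true, b]

/-- The translation of a letter. -/
def tr3 (a : Option Bool × Bool) : List (Bool × Bool) :=
  bif a.2 then (cd3 a.1).reverse.map (fun b => (b, true)) else (cd3 a.1).map fun b => (b, false)

theorem cd3_prefix (s : List (Option Bool)) (a : Option Bool) (s' : List Bool) :
    s.flatMap cd3 = cd3 a ++ s' ↔ ∃ s'', s = a :: s'' ∧ s' = s''.flatMap cd3 := by
  constructor
  · intro h
    cases s with
    | nil =>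
      cases a <;> simp [cd3] at h
    | cons b s =>
      rw [List.flatMap_cons] at h
      cases a with
      | none =>
        cases b with
        | none =>
          simp only [cd3, List.cons_append, List.nil_append, List.cons.injEq, true_and] at h
          exact ⟨s, rfl, h.symm⟩
        | some b => simp [cd3] at h
      | some a =>
        cases b with
        | none => simp [cd3] at h
        | some b =>
          simp only [cd3, List.cons_append, List.nil_append, List.cons.injEq, true_and] at h
          obtain ⟨rfl, h⟩ := h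
          exact ⟨s, rfl, h.symm⟩
  · rintro ⟨s'', rfl, rfl⟩
    rw [List.flatMap_cons]

theorem run_tr3 (w : List (Option Bool × Bool)) (s : List (Option Bool)) (t : List Bool) :
    Run (w.flatMap tr3) (s.flatMap cd3) t ↔ ∃ t', t = t'.flatMap cd3 ∧ RunG w s t' := by
  induction w generalizing s with
  | nil =>
    rw [List.flatMap_nil, run_nil_iff]
    constructor
    · rintro rfl
      exact ⟨s, rfl, RunG.nil s⟩
    · rintro ⟨t', rfl, h⟩
      rw [runG_nil_iff.1 h]
  | cons c w ih =>
    obtain ⟨a, b⟩ := c
    rw [List.flatMap_cons]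
    cases b
    · change Run ((cd3 a).map (fun b => (b, false)) ++ _) _ _ ↔ _
      rw [run_pop]
      constructor
      · rintro ⟨s', h1, h2⟩
        obtain ⟨s'', rfl, rfl⟩ := (cd3_prefix _ _ _).1 h1
        obtain ⟨t', h3, h4⟩ := (ih s'').1 h2
        exact ⟨t', h3, RunG.pop h4⟩
      · rintro ⟨t', h3, h4⟩
        obtain ⟨s'', rfl, h5⟩ := runG_pop_iff.1 h4
        exact ⟨s''.flatMap cd3, (cd3_prefix _ _ _).2 ⟨s'', rfl, rfl⟩, (ih s'').2 ⟨t', h3, h5⟩⟩
    · change Run ((cd3 a).reverse.map (fun b => (b, true)) ++ _) _ _ ↔ _
      rw [run_push, ← List.flatMap_cons, ih]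
      simp only [runG_push_iff]

theorem cd3_eq_nil {t : List (Option Bool)} (h : t.flatMap cd3 = []) : t = [] := by
  cases t with
  | nil => rfl
  | cons a t => cases a <;> simp [cd3] at h

theorem dom_dyck3 : Dom Dyck2 Dyck3 := by
  have h := dom_quot (A := Bool × Bool) (B := Option Bool × Bool) (C := Option Bool × Bool)
    Dyck2 [] [] tr3 (fun c => [c])
  have h1 : ({v | ∃ w : List (Option Bool × Bool), [] ++ w.flatMap tr3 ++ [] ∈ Dyck2 ∧
      w.flatMap (fun c => [c]) = v} : Language (Option Bool × Bool)) = Dyck3 := by
    apply Set.ext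
    intro v
    have h2 : ∀ w : List (Option Bool × Bool), w.flatMap (fun c => [c]) = w := by
      intro w
      induction w with
      | nil => rfl
      | cons a w ih => rw [List.flatMap_cons, ih]; rfl
    have h3 : v.flatMap tr3 ∈ Dyck2 ↔ v ∈ Dyck3 := by
      have h4 := run_tr3 v [] []
      rw [List.flatMap_nil] at h4
      change Run _ [] [] ↔ RunG _ [] []
      rw [h4]
      constructor
      · rintro ⟨t', h5, h6⟩
        rwa [cd3_eq_nil h5.symm] at h6
      · intro h6
        exact ⟨[], rfl, h6⟩
    constructor
    · rintro ⟨w, hw, hv⟩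
      rw [h2] at hv
      subst hv
      rw [List.nil_append, List.append_nil] at hw
      exact h3.1 hw
    · intro hv
      refine ⟨v, ?_, h2 v⟩
      rw [List.nil_append, List.append_nil]
      exact h3.2 hv
  rwa [h1] at h

theorem runG_append {Γ : Type} {u w : List (Γ × Bool)} {s t : List Γ} :
    RunG (u ++ w) s t ↔ ∃ m, RunG u s m ∧ RunG w m t := by
  induction u generalizing s with
  | nil => simp [runG_nil_iff]
  | cons c u ih =>
    obtain ⟨a, b⟩ := c
    cases b
    · simp only [List.cons_append, runG_pop_iff, ih]
      constructor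
      · rintro ⟨s', hs, m, h1, h2⟩
        exact ⟨m, ⟨s', hs, h1⟩, h2⟩
      · rintro ⟨m, ⟨s', hs, h1⟩, h2⟩
        exact ⟨s', hs, m, h1, h2⟩
    · simp only [List.cons_append, runG_push_iff, ih]

theorem run_emb {w : List (Bool × Bool)} {st : List Bool} {r t : List (Option Bool)} :
    RunG (emb w) (st.map some ++ none :: r) t ↔
      ∃ st', t = st'.map some ++ none :: r ∧ Run w st st' := by
  induction w generalizing st with
  | nil =>
    change RunG [] _ _ ↔ _
    rw [runG_nil_iff]
    constructor
    · rintro rfl
      exact ⟨st, rfl, Run.nil _⟩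
    · rintro ⟨st', rfl, h⟩
      rw [run_nil_iff.1 h]
  | cons c w ih =>
    obtain ⟨a, b⟩ := c
    cases b
    · change RunG ((some a, false) :: emb w) _ _ ↔ _
      rw [runG_pop_iff]
      constructor
      · rintro ⟨s', h1, h2⟩
        cases st with
        | nil => simp at h1
        | cons b st =>
          rw [List.map_cons, List.cons_append, List.cons.injEq, Option.some.injEq] at h1
          obtain ⟨rfl, rfl⟩ := h1
          obtain ⟨st', h3, h4⟩ := ih.1 h2
          exact ⟨st', h3, Run.pop h4⟩
      · rintro ⟨st', h1, h2⟩
        obtain ⟨s'', rfl, h3⟩ := run_pop_iff.1 h2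
        exact ⟨_, rfl, ih.2 ⟨st', h1, h3⟩⟩
    · change RunG ((some a, true) :: emb w) _ _ ↔ _
      rw [runG_push_iff, ← List.cons_append, ← List.map_cons, ih]
      simp only [run_push_iff]

/-- The runs of `brk w`. -/
theorem run_brk {w : List (Bool × Bool)} {s m : List (Option Bool)} :
    RunG (brk w) s m ↔ m = s ∧ w ∈ Dyck2 := by
  unfold brk
  rw [runG_push_iff, runG_append]
  constructor
  · rintro ⟨m2, h1, h2⟩
    obtain ⟨st', rfl, h3⟩ := (run_emb (st := [])).1 h1
    obtain ⟨s', h4, h5⟩ := runG_pop_iff.1 h2
    rw [runG_nil_iff] at h5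
    cases st' with
    | nil =>
      rw [List.map_nil, List.nil_append, List.cons.injEq] at h4
      exact ⟨h5.symm.trans h4.2.symm, h3⟩
    | cons b st' => simp at h4
  · rintro ⟨rfl, h⟩
    refine ⟨none :: m, (run_emb (st := [])).2 ⟨[], rfl, h⟩, RunG.pop (RunG.nil _)⟩

theorem dyck3_factor {w : List (Bool × Bool)} {x y : List (Option Bool × Bool)}
    (h : x ++ brk w ++ y ∈ Dyck3) : w ∈ Dyck2 := by
  obtain ⟨m, h1, _⟩ := runG_append.1 h
  obtain ⟨m1, _, h2⟩ := runG_append.1 h1
  exact (run_brk.1 h2).2

theorem run_hins {w₀ : List (Bool × Bool)} (h : w₀ ∈ Dyck2) (w : List (Bool × Bool))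
    (st : List Bool) (t : List (Option Bool)) :
    RunG (hins w₀ w) (st.map some) t ↔ ∃ st', t = st'.map some ∧ Run w st st' := by
  induction w generalizing st with
  | nil =>
    change RunG [] _ _ ↔ _
    rw [runG_nil_iff]
    constructor
    · rintro rfl
      exact ⟨st, rfl, Run.nil _⟩
    · rintro ⟨st', rfl, h⟩
      rw [run_nil_iff.1 h]
  | cons c w ih =>
    obtain ⟨a, b⟩ := c
    have hb : ∀ s t : List (Option Bool), RunG (brk w₀ ++ hins w₀ w) s t ↔
        RunG (hins w₀ w) s t := by
      intro s t
      rw [runG_append]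
      constructor
      · rintro ⟨m, h1, h2⟩
        obtain ⟨rfl, _⟩ := run_brk.1 h1
        exact h2
      · intro h2
        exact ⟨s, run_brk.2 ⟨rfl, h⟩, h2⟩
    cases b
    · change RunG ((some a, false) :: (brk w₀ ++ hins w₀ w)) _ _ ↔ _
      rw [runG_pop_iff]
      constructor
      · rintro ⟨s', h1, h2⟩
        rw [hb] at h2
        cases st with
        | nil => simp at h1
        | cons b st =>
          rw [List.map_cons, List.cons.injEq, Option.some.injEq] at h1
          obtain ⟨rfl, rfl⟩ := h1
          obtain ⟨st', h3, h4⟩ := (ih st).1 h2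
          exact ⟨st', h3, Run.pop h4⟩
      · rintro ⟨st', h1, h2⟩
        obtain ⟨s'', rfl, h3⟩ := run_pop_iff.1 h2
        exact ⟨s''.map some, rfl, (hb _ _).2 ((ih s'').2 ⟨st', h1, h3⟩)⟩
    · change RunG ((some a, true) :: (brk w₀ ++ hins w₀ w)) _ _ ↔ _
      rw [runG_push_iff, hb, ← List.map_cons, ih]
      simp only [run_push_iff]

theorem dyck3_insert {w₀ : List (Bool × Bool)} (h : w₀ ∈ Dyck2) (w : List (Bool × Bool)) :
    hins w₀ w ∈ Dyck3 ↔ w ∈ Dyck2 := by
  have h1 := run_hins h w [] []
  rw [List.map_nil] at h1
  change RunG _ [] [] ↔ Run _ [] []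
  rw [h1]
  constructor
  · rintro ⟨st', h2, h3⟩
    rwa [List.map_eq_nil_iff.1 h2.symm] at h3
  · intro h3
    exact ⟨[], rfl, h3⟩

/-- A factor of `hins w₀ w` which does not contain `brk w₀` is short. -/
theorem hins_short (w₀ w : List (Bool × Bool)) (y : List (Option Bool × Bool))
    (h : y <:+: hins w₀ w) (h' : ¬ brk w₀ <:+: y) : y.length ≤ 2 * ((brk w₀).length + 1) := by
  by_contra hlen
  rw [Nat.not_le] at hlen
  apply h'
  obtain ⟨s, t, hst⟩ := h
  induction w generalizing s with
  | nil =>
    have h1 : s ++ y ++ t = [] := hst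
    have h2 := congrArg List.length h1
    simp only [List.length_append, List.length_nil] at h2
    omega
  | cons a w ih =>
    have h0 : s ++ (y ++ t) = ((some a.1, a.2) :: brk w₀) ++ hins w₀ w := by
      rw [← List.append_assoc, hst]
      rfl
    have hB : ((some a.1, a.2) :: brk w₀).length = (brk w₀).length + 1 := rfl
    have h1 := congrArg (List.drop ((brk w₀).length + 1)) h0
    rw [List.drop_left' hB] at h1
    rcases Nat.lt_or_ge s.length ((brk w₀).length + 1) with h2 | h2
    · rw [List.drop_append, List.drop_of_length_le h2.le, List.nil_append,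
        List.drop_append_of_le_length (by omega)] at h1
      set y2 := y.drop ((brk w₀).length + 1 - s.length) with hy2
      have hy2l : (brk w₀).length + 1 < y2.length := by
        rw [hy2, List.length_drop]
        omega
      have hy : y2 <:+: y := (List.drop_suffix _ _).isInfix
      refine List.IsInfix.trans ?_ hy
      cases w with
      | nil =>
        have h3 : y2 ++ t = [] := h1
        have h4 := congrArg List.length h3
        simp only [List.length_append, List.length_nil] at h4
        omega
      | cons b w =>
        have h3 : y2 ++ t = ((some b.1, b.2) :: brk w₀) ++ hins w₀ w := h1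
        have hB' : ((some b.1, b.2) :: brk w₀).length = (brk w₀).length + 1 := rfl
        have h4 := congrArg (List.take ((brk w₀).length + 1)) h3
        rw [List.take_left' hB', List.take_append_of_le_length (by omega)] at h4
        have h5 : brk w₀ <:+: ((some b.1, b.2) :: brk w₀) :=
          (List.suffix_cons _ _).isInfix
        rw [← h4] at h5
        exact h5.trans (List.take_prefix _ _).isInfix
    · rw [List.drop_append_of_le_length h2, ← List.append_assoc] at h1
      exact ih _ h1

end Pool.Agent.H93NG
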