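import Pool.Agent.H93NG.ZJump
import Pool.Agent.H93NG.ZDyck3
import Pool.Agent.H93NG.RR

/-!
# Insertions of non-generators are non-generators

PROOF. `Dom (Ins V K) Dyck3` by `dom_dyck3`; by `tdom_of_dom` let `δ, s, f` be a transducer with
`y ∈ Dyck3 ↔ ∃ z ∈ Ins V K, Path δ s z y f`. For states `p, q` let
`Kpq = {y | ∃ k ∈ K, Path δ p ([k]) y q}` (`[k] = inr true :: (k ++ [inr false])`), and call `(p, q)`
useful if there are `z₁ z₂ x x'` with `z₁ ++ [k] ++ z₂ ∈ Ins V K` for all `k ∈ K`,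
`Path δ s z₁ x p` and `Path δ q z₂ x' f`; then `x ++ y ++ x' ∈ Dyck3` for all `y ∈ Kpq`.
Case A: for each `d ∈ Dyck2` there are a useful `(p, q)` and `y ∈ Kpq` with `brk d <:+: y`. Then
`Dyck2 = {d | ∃ (p, q) useful, ∃ y ∈ Kpq, brk d <:+: y}` (`dyck3_factor`), which is dominated by `K`:
for each `(p, q)` compose `K → {[k]}` (`dom_quot`), the transducer `δ` from `p` to `q`
(`dom_of_tdom`), and `y ↦ d`, `brk d <:+: y` (the relation
`(a / ε)* ((none, true) / ε) ((some b, i) / (b, i))* ((none, false) / ε) (a / ε)*` of the calculus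
`RR.lean`: `RR.map`, `RR.word`, `RR.mul`, `RR.dom`); then `Dom.iUnion`.
Case B: there is `d₀ ∈ Dyck2` such that `brk d₀` is a factor of no `y ∈ Kpq`, `(p, q)` useful. Let
`N = 2 * ((brk d₀).length + 1)` and `J p q = {y ∈ Kpq | (p, q) useful and y.length ≤ N}`.
`T = {y | ∃ v ∈ V, VP δ J s v y f}` is dominated by `V` (`vp_dom`), `T ⊆ Dyck3` (`vp_lift`), and
`hins d₀ w ∈ Dyck3` implies `hins d₀ w ∈ T`: claim for `Nest K v z`: if `Nest K u₁ z₁`,
`u₁ ++ v ∈ V`, `Path δ s z₁ x p`, `Path δ p z y f` and `x ++ y = hins d₀ w` then `VP δ J p v y f`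
(induction on `Nest K v z`: split the path by `Path.split_in` after the letter or the piece;
`vp_of_letter`, `vp_of_nil`; the output of a piece is a factor of `hins d₀ w` of a useful pair, so it
is short by `hins_short` and is a jump). So `Dyck2 = {w | hins d₀ w ∈ T}` by `dyck3_insert`, which is
dominated by `V` (`dom_quot` with `P = Q = []`).
-/

namespace Pool.Agent.H93NG

private theorem zgreib_congr {A B : Type} {L : Language A} {M M' : Language B} (h : Dom L M)
    (e : ∀ v, v ∈ M' ↔ v ∈ M) : Dom L M' := by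
  have : M' = M := Set.ext e
  rw [this]; exact h

private theorem zgreib_nest_append {A : Type} {K : Set (List (A ⊕ Bool))} {v v' : List A}
    {z z' : List (A ⊕ Bool)} (h : Nest K v z) (h' : Nest K v' z') :
    Nest K (v ++ v') (z ++ z') := by
  induction h with
  | nil => exact h'
  | letter _ ih => exact Nest.letter ih
  | piece hk _ ih =>
    have := Nest.piece hk ih
    simpa using this

/-- The relation `brk d <:+: y`. -/
private theorem zgreib_rr_brk :
    RR (fun (y : List (Option Bool × Bool)) (d : List (Bool × Bool)) => brk d <:+: y) := by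
  have h1 : RR (fun (u : List (Option Bool × Bool)) (v : List (Bool × Bool)) =>
      ∃ w : List (Option Bool × Bool), u = w.flatMap (fun c => [c]) ∧
        v = w.flatMap (fun _ => [])) := RR.map _ _
  have h2 : RR (fun (u : List (Option Bool × Bool)) (v : List (Bool × Bool)) =>
      ∃ w : List (Bool × Bool), u = w.flatMap (fun a => [(some a.1, a.2)]) ∧
        v = w.flatMap (fun a => [a])) := RR.map _ _
  have h3 := RR.mul h1 (RR.mul (RR.word (A := Option Bool × Bool) (B := Bool × Bool)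
    [(none, true)] []) (RR.mul h2 (RR.mul (RR.word (A := Option Bool × Bool)
      (B := Bool × Bool) [(none, false)] []) h1)))
  refine h3.congr ?_
  intro y d
  have e1 : ∀ (D : Type) (w : List D), w.flatMap (fun c => [c]) = w := by
    intro D w
    induction w with
    | nil => rfl
    | cons a w ih => simp
  have e2 : ∀ (D E : Type) (w : List D), w.flatMap (fun _ => ([] : List E)) = [] := by
    intro D E w
    induction w with
    | nil => rfl
    | cons a w ih => simp
  have e3 : ∀ (w : List (Bool × Bool)),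
      w.flatMap (fun a => [((some a.1, a.2) : Option Bool × Bool)]) = emb w := by
    intro w
    unfold emb
    induction w with
    | nil => rfl
    | cons a w ih => simp only [List.flatMap_cons, List.map_cons, ih]; rfl
  constructor
  · rintro ⟨s, t, hst⟩
    refine ⟨s, brk d ++ t, [], d, ?_, rfl, ⟨s, (e1 _ s).symm, (e2 _ _ s).symm⟩, ?_⟩
    · rw [← hst, List.append_assoc]
    refine ⟨[(none, true)], emb d ++ ((none, false) :: t), [], d, ?_, rfl, ⟨rfl, rfl⟩, ?_⟩
    · simp [brk]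
    refine ⟨emb d, (none, false) :: t, d, [], rfl, by simp, ⟨d, (e3 d).symm, (e1 _ d).symm⟩, ?_⟩
    exact ⟨[(none, false)], t, [], [], rfl, rfl, ⟨rfl, rfl⟩, t, (e1 _ t).symm, (e2 _ _ t).symm⟩
  · rintro ⟨u₁, u₂, v₁, v₂, rfl, rfl, ⟨s, rfl, rfl⟩, u₃, u₄, v₃, v₄, rfl, rfl, ⟨rfl, rfl⟩, u₅, u₆,
      v₅, v₆, rfl, rfl, ⟨d, rfl, rfl⟩, u₇, u₈, v₇, v₈, rfl, rfl, ⟨rfl, rfl⟩, t, rfl, rfl⟩
    refine ⟨s, t, ?_⟩
    simp only [e1, e2, e3, List.nil_append, List.append_nil]
    simp [brk]

private theorem zgreib_rr_wrap {A : Type} [Finite A] :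
    RR (fun (u : List (A ⊕ Bool)) (v : List (A ⊕ Bool)) =>
      v = Sum.inr true :: (u ++ [Sum.inr false])) := by
  have h1 : RR (fun (u : List (A ⊕ Bool)) (v : List (A ⊕ Bool)) =>
      ∃ w : List (A ⊕ Bool), u = w.flatMap (fun c => [c]) ∧
        v = w.flatMap (fun c => [c])) := RR.map _ _
  have h3 := RR.mul (RR.word (A := A ⊕ Bool) (B := A ⊕ Bool)
    [] [Sum.inr true]) (RR.mul h1 (RR.word (A := A ⊕ Bool) (B := A ⊕ Bool) [] [Sum.inr false]))
  refine h3.congr ?_
  intro u v
  have e1 : ∀ (w : List (A ⊕ Bool)), w.flatMap (fun c => [c]) = w := by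
    intro w
    induction w with
    | nil => rfl
    | cons a w ih => simp
  constructor
  · rintro rfl
    refine ⟨[], u, [Sum.inr true], u ++ [Sum.inr false], rfl, rfl, ⟨rfl, rfl⟩, ?_⟩
    exact ⟨u, [], u, [Sum.inr false], by simp, rfl, ⟨u, (e1 u).symm, (e1 u).symm⟩, rfl, rfl⟩
  · rintro ⟨u₁, u₂, v₁, v₂, rfl, rfl, ⟨rfl, rfl⟩, u₃, u₄, v₃, v₄, rfl, rfl, ⟨s, rfl, rfl⟩, rfl, rfl⟩
    simp [e1]

theorem ins_split {A : Type} [Finite A] (V : Language A) (K : Language (A ⊕ Bool))
    (h : Dom (Ins V K) Dyck2) : Dom V Dyck2 ∨ Dom K Dyck2 := by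
  classical
  obtain ⟨σ, hσ, δ, s, f, hM⟩ := tdom_of_dom (h.trans dom_dyck3)
  -- outputs of the pieces
  set KO : σ → σ → Set (List (Option Bool × Bool)) := fun p q =>
    {y | ∃ k ∈ K, Path δ p (Sum.inr true :: (k ++ [Sum.inr false])) y q} with hKO
  set Us : σ → σ → Prop := fun p q => ∃ z₁ z₂ x x',
    (∀ k ∈ K, z₁ ++ (Sum.inr true :: (k ++ Sum.inr false :: z₂)) ∈ Ins V K) ∧
      Path δ s z₁ x p ∧ Path δ q z₂ x' f with hUs
  have hU : ∀ p q, Us p q → ∀ y ∈ KO p q, ∃ x x', x ++ y ++ x' ∈ Dyck3 := by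
    rintro p q ⟨z₁, z₂, x, x', hz, h1, h2⟩ y ⟨k, hk, hy⟩
    refine ⟨x, x', (hM _).mpr ⟨_, hz k hk, ?_⟩⟩
    have h3 := (h1.append hy).append h2
    simpa using h3
  by_cases hA : ∀ d ∈ Dyck2, ∃ p q, Us p q ∧ ∃ y ∈ KO p q, brk d <:+: y
  · right
    have hpq : ∀ i : σ × σ, Dom K ({d | Us i.1 i.2 ∧ ∃ y ∈ KO i.1 i.2, brk d <:+: y} :
        Language (Bool × Bool)) := by
      rintro ⟨p, q⟩
      by_cases hu : Us p q
      · have h1 := RR.dom (zgreib_rr_wrap (A := A)) K
        have h2 := RR.dom (⟨σ, hσ, δ, p, q, fun _ _ => Iff.rfl⟩ :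
          RR (fun u v => Path δ p u v q)) ({v | ∃ u ∈ K, v = Sum.inr true :: (u ++ [Sum.inr false])})
        have h3 := RR.dom zgreib_rr_brk ({v | ∃ u ∈ ({v | ∃ u ∈ K,
          v = Sum.inr true :: (u ++ [Sum.inr false])} : Language (A ⊕ Bool)), Path δ p u v q})
        refine zgreib_congr ((h1.trans h2).trans h3) ?_
        intro d
        constructor
        · rintro ⟨_, y, ⟨k, hk, hy⟩, hd⟩
          exact ⟨y, ⟨_, ⟨k, hk, rfl⟩, hy⟩, hd⟩
        · rintro ⟨y, ⟨_, ⟨k, hk, rfl⟩, hy⟩, hd⟩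
          exact ⟨hu, y, ⟨k, hk, hy⟩, hd⟩
      · refine zgreib_congr (dom_empty K) ?_
        intro d
        constructor
        · rintro ⟨h1, _⟩
          exact (hu h1).elim
        · intro h1
          exact h1.elim
    refine zgreib_congr (Dom.iUnion hpq) ?_
    intro d
    constructor
    · intro hd
      obtain ⟨p, q, hu, hy⟩ := hA d hd
      exact ⟨(p, q), hu, hy⟩
    · rintro ⟨⟨p, q⟩, hu, y, hy, ⟨a, b, hab⟩⟩
      obtain ⟨x, x', hx⟩ := hU p q hu y hy
      refine dyck3_factor (x := x ++ a) (y := b ++ x') ?_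
      have : x ++ a ++ brk d ++ (b ++ x') = x ++ y ++ x' := by
        rw [← hab]; simp
      rw [this]
      exact hx
  · left
    push Not at hA
    obtain ⟨d₀, hd₀, hno⟩ := hA
    set N : ℕ := 2 * ((brk d₀).length + 1) with hN
    set J : σ → σ → Set (List (Option Bool × Bool)) := fun p q =>
      {y | Us p q ∧ y ∈ KO p q ∧ y.length ≤ N} with hJ
    have hT : Dom V ({y | ∃ v ∈ V, VP δ J s v y f} : Language (Option Bool × Bool)) :=
      vp_dom V δ J N (fun p q y hy => hy.2.2) s f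
    have hTD : ∀ y, (∃ v ∈ V, VP δ J s v y f) → y ∈ Dyck3 := by
      rintro y ⟨v, hv, hp⟩
      obtain ⟨z, hz, hzp⟩ := vp_lift (K := K) (fun p q y hy => hy.2.1) hp
      exact (hM y).mpr ⟨z, ⟨v, hv, hz⟩, hzp⟩
    have key : ∀ (w : List (Bool × Bool)) (v : List A) (z : List (A ⊕ Bool)), Nest K v z →
        ∀ (u₁ : List A) (z₁ : List (A ⊕ Bool)) (x y : List (Option Bool × Bool)) (p : σ),
        Nest K u₁ z₁ → u₁ ++ v ∈ V → Path δ s z₁ x p → Path δ p z y f → x ++ y = hins d₀ w →
        VP δ J p v y f := by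
      intro w v z hn
      induction hn with
      | nil =>
        intro u₁ z₁ x y p _ _ _ hp _
        exact vp_of_nil hp
      | @letter a v z hn ih =>
        intro u₁ z₁ x y p hn1 hV h1 h2 hxy
        obtain ⟨m, y₁, y₂, rfl, h3, h4⟩ :=
          Path.split_in (u := [Sum.inl a]) (u' := z) h2
        refine vp_of_letter h3 ?_
        refine ih (u₁ ++ [a]) (z₁ ++ [Sum.inl a]) (x ++ y₁) y₂ m
          (zgreib_nest_append hn1 (Nest.letter Nest.nil)) ?_ (h1.append h3) h4 ?_
        · simpa using hV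
        · rw [← hxy, List.append_assoc]
      | @piece k v z hk hn ih =>
        intro u₁ z₁ x y p hn1 hV h1 h2 hxy
        have e : (Sum.inr true :: (k ++ Sum.inr false :: z) : List (A ⊕ Bool)) =
            (Sum.inr true :: (k ++ [Sum.inr false])) ++ z := by simp
        rw [e] at h2
        obtain ⟨m, y₁, y₂, rfl, h3, h4⟩ := Path.split_in h2
        have hu : Us p m := by
          refine ⟨z₁, z, x, y₂, ?_, h1, h4⟩
          intro k' hk'
          exact ⟨u₁ ++ v, hV, zgreib_nest_append hn1 (Nest.piece hk' hn)⟩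
        have hy1 : y₁ ∈ KO p m := ⟨k, hk, h3⟩
        have hl : y₁.length ≤ N := by
          refine hins_short d₀ w y₁ ⟨x, y₂, ?_⟩ (hno p m hu y₁ hy1)
          rw [← hxy, List.append_assoc]
        refine VP.jump (J := J) ⟨hu, hy1, hl⟩ ?_
        refine ih u₁ (z₁ ++ (Sum.inr true :: (k ++ [Sum.inr false]))) (x ++ y₁) y₂ m ?_ hV
          (h1.append h3) h4 ?_
        · have h5 := zgreib_nest_append hn1 (Nest.piece hk (Nest.nil (K := K)))
          simpa using h5
        · rw [← hxy, List.append_assoc]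
    have hq := dom_quot (A := Option Bool × Bool) (B := Bool × Bool) (C := Bool × Bool)
      ({y | ∃ v ∈ V, VP δ J s v y f}) [] []
      (fun a => (some a.1, a.2) :: brk d₀) (fun a => [a])
    refine zgreib_congr (hT.trans hq) ?_
    intro w
    have e1 : ∀ (w : List (Bool × Bool)), w.flatMap (fun c => [c]) = w := by
      intro w
      induction w with
      | nil => rfl
      | cons a w ih => simp
    constructor
    · intro hw
      refine ⟨w, ?_, e1 w⟩
      have h1 : hins d₀ w ∈ Dyck3 := (dyck3_insert hd₀ w).mpr hw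
      obtain ⟨z, ⟨v, hv, hz⟩, hzp⟩ := (hM _).mp h1
      have h2 := key w v z hz [] [] [] (hins d₀ w) s Nest.nil hv (Path.nil s) hzp rfl
      have h3 : ([] : List (Option Bool × Bool)) ++ w.flatMap (fun a => (some a.1, a.2) :: brk d₀) ++
          [] = hins d₀ w := by simp [hins]
      rw [h3]
      exact ⟨v, hv, h2⟩
    · rintro ⟨w', hw', rfl⟩
      rw [e1]
      have h3 : ([] : List (Option Bool × Bool)) ++ w'.flatMap
          (fun a => (some a.1, a.2) :: brk d₀) ++ [] = hins d₀ w' := by simp [hins]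
      rw [h3] at hw'
      exact (dyck3_insert hd₀ w').mp (hTD _ hw')

theorem wk_not_dom {A : Type} [Finite A] (V : Language A) (h : ¬ Dom V Dyck2) (k : ℕ) :
    ¬ Dom (Wk V k) Dyck2 := by
  induction k with
  | zero =>
    rintro ⟨C, _, g, k, R, _, hR⟩
    obtain ⟨w, _, hw, _⟩ := (hR []).mp (Run.nil [])
    exact hw
  | succ k ih =>
    intro h1
    rcases ins_split V (Wk V k) h1 with h2 | h2
    · exact h h2
    · exact ih h2

end Pool.Agent.H93NG
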