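import Pool.Agent.H93NG.ZCF
import Pool.Agent.H93NG.ZGreib
import Pool.Agent.H93NG.Final
import Pool.Agent.H93NG.RR

/-!
# A non-generator above all iterated insertions

PROOF of `dom_unfit`. The words `x.map inl ++ w.map inr` with `¬ Fit x.length w` are of three kinds:
(1) `w = u ++ inr true :: v` where the counter started at `x.length`, with `inr true` = pop and
    `inr false` = push, runs on `u` without going below `0` and ends at `0`;
(2) `w = u ++ inr false :: v` where the counter started at `0`, with `inr true` = push and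
    `inr false` = pop, runs on `u` without going below `0` and ends at `0`;
(3) the counter of (2) runs on `w` and ends at a positive number.
(Each kind implies `¬ Fit`: in (1) the level at the end of `u`, if it is defined, is `x.length`;
conversely follow `strip x.length 0 w` to the first failure; state the claim for any starting
level.) Each kind is the image of `Dyck2` by a relation of the calculus `RR.lean`, for example (1):
`(o / inl x)* ((c / inr (inr true)) + (o / inr (inr false)) + (ε / inr (inl a)))* (ε / inr (inr true))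
(ε / inr any)*` with `o = (false, true)`, `c = (false, false)` (the relation in the middle is one
`RR.map` over the letters `A ⊕ Bool`); membership in `Dyck2` of a word on `o`, `c` is the run of the
counter. `RR.dom`, `Dom.union`.

PROOF of `exists_above`. `U = {z | ∃ x w, z = x.map inl ++ w.map inr ∧ (w ∈ Winf V ∨
¬ Fit x.length w)}` over `Bool ⊕ (A ⊕ Bool)` is context-free (`winf_isContextFree`,
`Dom.concat_left`, `dom_unfit`, `isContextFree_of_dom`). Its slice at a word of length `k` is
`Winf V` union the regular language `¬ Fit k`, that is `Wk V (k + 1)` union it (`wk_iff`), a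
non-generator by `Dom.split`, `not_dom_regular`, `wk_not_dom`; it dominates `Wk V (k + 1)`
(`dom_inter_regular`, `isRegular_fit`). Apply `exists_bound` with `W` = all words
(`REPred` of `True`).
-/

namespace Pool.Agent.H93NG

/-- A one-sided counter: `inr b` pushes and `inr (!b)` pops. -/
private def zfamCnt {A : Type} (b : Bool) : ℕ → List (A ⊕ Bool) → Option ℕ
  | n, [] => some n
  | n, Sum.inl _ :: z => zfamCnt b n z
  | n, Sum.inr c :: z =>
    if c = b then zfamCnt b (n + 1) z else if n = 0 then none else zfamCnt b (n - 1) z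

/-- The pushes and pops of the counter. -/
private def zfamW {A : Type} (b : Bool) : A ⊕ Bool → List (Bool × Bool)
  | Sum.inl _ => []
  | Sum.inr c => [(false, decide (c = b))]

private theorem zfam_run {A : Type} (b : Bool) (u : List (A ⊕ Bool)) (n : ℕ) (s : List Bool)
    (r : List (Bool × Bool)) :
    Run (u.flatMap (zfamW b) ++ r) (List.replicate n false) s ↔
      ∃ m, zfamCnt b n u = some m ∧ Run r (List.replicate m false) s := by
  induction u generalizing n with
  | nil =>
    simp only [List.flatMap_nil, List.nil_append, zfamCnt, Option.some.injEq]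
    constructor
    · intro h
      exact ⟨n, rfl, h⟩
    · rintro ⟨m, rfl, h⟩
      exact h
  | cons a u ih =>
    rcases a with a | c
    · simp only [List.flatMap_cons, zfamW, List.nil_append, zfamCnt]
      exact ih n
    · simp only [List.flatMap_cons, zfamW, List.cons_append, List.nil_append, zfamCnt]
      by_cases hc : c = b
      · simp only [hc, decide_true, if_true]
        rw [run_push_iff]
        exact ih (n + 1)
      · simp only [hc, decide_false, if_false]
        cases n with
        | zero =>
          simp only [List.replicate_zero, if_true]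
          constructor
          · intro h
            cases h
          · rintro ⟨m, hm, _⟩
            exact absurd hm (by simp)
        | succ n =>
          simp only [Nat.add_sub_cancel, Nat.succ_ne_zero, if_false, List.replicate_succ]
          rw [← ih n]
          constructor
          · intro h
            cases h
            assumption
          · intro h
            exact Run.pop h

private theorem zfam_cnt_true {A : Type} {k n m : ℕ} {z : List (A ⊕ Bool)}
    (h : strip k n z = some m) : zfamCnt true n z = some m := by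
  induction z generalizing n with
  | nil => exact h
  | cons a z ih =>
    rcases a with a | (_ | _)
    · exact ih h
    · have e1 : strip k n (Sum.inr false :: z : List (A ⊕ Bool)) =
        if n = 0 then none else strip k (n - 1) z := rfl
      have e2 : zfamCnt true n (Sum.inr false :: z : List (A ⊕ Bool)) =
        if n = 0 then none else zfamCnt true (n - 1) z := rfl
      rw [e1] at h
      rw [e2]
      split_ifs at h ⊢ with h1
      exact ih h
    · have e1 : strip k n (Sum.inr true :: z : List (A ⊕ Bool)) =
        if n < k then strip k (n + 1) z else none := rfl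
      have e2 : zfamCnt true n (Sum.inr true :: z : List (A ⊕ Bool)) =
        zfamCnt true (n + 1) z := rfl
      rw [e1] at h
      rw [e2]
      split_ifs at h with h1
      exact ih h

private theorem zfam_cnt_false {A : Type} {k n m : ℕ} {z : List (A ⊕ Bool)} (hn : n ≤ k)
    (h : strip k n z = some m) : m ≤ k ∧ zfamCnt false (k - n) z = some (k - m) := by
  induction z generalizing n with
  | nil =>
    simp only [strip, Option.some.injEq] at h
    subst h
    exact ⟨hn, rfl⟩
  | cons a z ih =>
    rcases a with a | (_ | _)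
    · exact ih hn h
    · have e1 : strip k n (Sum.inr false :: z : List (A ⊕ Bool)) =
        if n = 0 then none else strip k (n - 1) z := rfl
      have e2 : zfamCnt false (k - n) (Sum.inr false :: z : List (A ⊕ Bool)) =
        zfamCnt false (k - n + 1) z := rfl
      rw [e1] at h
      rw [e2]
      split_ifs at h with h1
      have h2 := ih (by omega) h
      have h3 : k - (n - 1) = k - n + 1 := by omega
      rw [h3] at h2
      exact h2
    · have e1 : strip k n (Sum.inr true :: z : List (A ⊕ Bool)) =
        if n < k then strip k (n + 1) z else none := rfl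
      have e2 : zfamCnt false (k - n) (Sum.inr true :: z : List (A ⊕ Bool)) =
        if k - n = 0 then none else zfamCnt false (k - n - 1) z := rfl
      rw [e1] at h
      rw [e2]
      split_ifs at h with h1
      rw [if_neg (by omega)]
      have h2 := ih (by omega) h
      have h3 : k - (n + 1) = k - n - 1 := by omega
      rw [h3] at h2
      exact h2

private theorem zfam_congr {A B : Type} {L : Language A} {M M' : Language B} (h : Dom L M)
    (e : ∀ v, v ∈ M' ↔ v ∈ M) : Dom L M' := by
  have : M' = M := Set.ext e
  rw [this]; exact h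

/-- The three kinds of failure. -/
private theorem zfam_kinds {A : Type} (k : ℕ) (w : List (A ⊕ Bool)) :
    ∀ n, n ≤ k → (¬ strip k n w = some 0 ↔
      ((∃ u v, w = u ++ Sum.inr true :: v ∧ zfamCnt false (k - n) u = some 0) ∨
       (∃ u v, w = u ++ Sum.inr false :: v ∧ zfamCnt true n u = some 0)) ∨
       ∃ m, zfamCnt true n w = some (m + 1)) := by
  intro n hn
  constructor
  · induction w generalizing n with
    | nil =>
      intro h
      right
      cases n with
      | zero => exact absurd rfl h
      | succ n => exact ⟨n, rfl⟩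
    | cons a w ih =>
      intro h
      rcases a with a | (_ | _)
      · rcases ih n hn h with (⟨u, v, rfl, hu⟩ | ⟨u, v, rfl, hu⟩) | ⟨m, hm⟩
        · exact Or.inl (Or.inl ⟨Sum.inl a :: u, v, rfl, hu⟩)
        · exact Or.inl (Or.inr ⟨Sum.inl a :: u, v, rfl, hu⟩)
        · exact Or.inr ⟨m, hm⟩
      · cases n with
        | zero => exact Or.inl (Or.inr ⟨[], w, rfl, rfl⟩)
        | succ n =>
          have h' : ¬ strip k n w = some 0 := h
          rcases ih n (by omega) h' with (⟨u, v, rfl, hu⟩ | ⟨u, v, rfl, hu⟩) | ⟨m, hm⟩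
          · refine Or.inl (Or.inl ⟨Sum.inr false :: u, v, rfl, ?_⟩)
            have h3 : k - n = k - (n + 1) + 1 := by omega
            rw [h3] at hu
            simpa [zfamCnt] using hu
          · refine Or.inl (Or.inr ⟨Sum.inr false :: u, v, rfl, ?_⟩)
            simpa [zfamCnt] using hu
          · refine Or.inr ⟨m, ?_⟩
            simpa [zfamCnt] using hm
      · by_cases hnk : n < k
        · have h' : ¬ strip k (n + 1) w = some 0 := by
            simpa [strip, hnk] using h
          rcases ih (n + 1) (by omega) h' with (⟨u, v, rfl, hu⟩ | ⟨u, v, rfl, hu⟩) | ⟨m, hm⟩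
          · refine Or.inl (Or.inl ⟨Sum.inr true :: u, v, rfl, ?_⟩)
            have h3 : k - (n + 1) = k - n - 1 := by omega
            rw [h3] at hu
            have h4 : k - n ≠ 0 := by omega
            simpa [zfamCnt, h4] using hu
          · refine Or.inl (Or.inr ⟨Sum.inr true :: u, v, rfl, ?_⟩)
            simpa [zfamCnt] using hu
          · refine Or.inr ⟨m, ?_⟩
            simpa [zfamCnt] using hm
        · refine Or.inl (Or.inl ⟨[], w, rfl, ?_⟩)
          have : k - n = 0 := by omega
          rw [this]
          rfl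
  · rintro ((⟨u, v, rfl, hu⟩ | ⟨u, v, rfl, hu⟩) | ⟨m, hm⟩) h
    · rw [strip_append] at h
      cases hs : strip k n u with
      | none => rw [hs] at h; exact absurd h (by simp)
      | some m =>
        rw [hs] at h
        obtain ⟨h1, h2⟩ := zfam_cnt_false hn hs
        rw [h2, Option.some.injEq] at hu
        have h3 : ¬ m < k := by omega
        simp [strip, h3] at h
    · rw [strip_append] at h
      cases hs : strip k n u with
      | none => rw [hs] at h; exact absurd h (by simp)
      | some m =>
        rw [hs] at h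
        have h2 := zfam_cnt_true hs
        rw [h2, Option.some.injEq] at hu
        simp [strip, hu] at h
    · have h2 := zfam_cnt_true h
      rw [h2, Option.some.injEq] at hm
      omega

private theorem zfam_flat_left {C D : Type} (x : List C) :
    x.flatMap (fun a => [(Sum.inl a : C ⊕ D)]) = x.map Sum.inl := by
  induction x with
  | nil => rfl
  | cons a x ih => rw [List.flatMap_cons, ih]; rfl

private theorem zfam_flat_right {C D : Type} (x : List D) :
    x.flatMap (fun a => [(Sum.inr a : C ⊕ D)]) = x.map Sum.inr := by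
  induction x with
  | nil => rfl
  | cons a x ih => rw [List.flatMap_cons, ih]; rfl

private theorem zfam_flat_nil {C D : Type} (x : List C) :
    x.flatMap (fun _ => ([] : List D)) = [] := by
  induction x with
  | nil => rfl
  | cons a x ih => rw [List.flatMap_cons, ih]; rfl

private theorem zfam_flat_self {C : Type} (x : List C) : x.flatMap (fun a => [a]) = x := by
  induction x with
  | nil => rfl
  | cons a x ih => rw [List.flatMap_cons, ih]; rfl

private theorem zfam_flat_const {C : Type} (x : List C) :
    x.flatMap (fun _ => [((false, true) : Bool × Bool)]) =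
      List.replicate x.length (false, true) := by
  induction x with
  | nil => rfl
  | cons a x ih => rw [List.flatMap_cons, ih]; rfl

private theorem zfam_flat_constc {C : Type} (x : List C) :
    x.flatMap (fun _ => [((false, false) : Bool × Bool)]) =
      List.replicate x.length (false, false) := by
  induction x with
  | nil => rfl
  | cons a x ih => rw [List.flatMap_cons, ih]; rfl

private theorem zfam_push (n : ℕ) (r : List (Bool × Bool)) : ∀ s t : List Bool,
    Run (List.replicate n (false, true) ++ r) s t ↔ Run r (List.replicate n false ++ s) t := by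
  induction n with
  | zero => intro s t; rfl
  | succ n ih =>
    intro s t
    rw [List.replicate_succ, List.cons_append, run_push_iff, ih]
    have : List.replicate n false ++ false :: s = List.replicate (n + 1) false ++ s := by
      rw [List.replicate_succ', List.append_assoc]; rfl
    rw [this]

private theorem zfam_pop (n : ℕ) : ∀ m : ℕ,
    Run (List.replicate n (false, false)) (List.replicate m false) [] ↔ n = m := by
  induction n with
  | zero =>
    intro m
    rw [List.replicate_zero, run_nil_iff]
    constructor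
    · intro h
      have := congrArg List.length h
      simpa using this.symm
    · rintro rfl
      rfl
  | succ n ih =>
    intro m
    cases m with
    | zero =>
      constructor
      · intro h
        rw [List.replicate_succ, List.replicate_zero] at h
        cases h
      · intro h
        exact absurd h (by omega)
    | succ m =>
      rw [List.replicate_succ, List.replicate_succ]
      constructor
      · intro h
        cases h with
        | pop h => rw [(ih m).1 h]
      · intro h
        exact Run.pop ((ih m).2 (by omega))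

/-- Kind (1). -/
private theorem zfam_dom1 {A : Type} [Finite A] :
    Dom Dyck2 ({z | ∃ (x : List Bool) (u v : List (A ⊕ Bool)),
      z = x.map Sum.inl ++ (u ++ Sum.inr true :: v).map Sum.inr ∧
        zfamCnt false x.length u = some 0} : Language (Bool ⊕ (A ⊕ Bool))) := by
  have h1 : RR (fun (q : List (Bool × Bool)) (y : List (Bool ⊕ (A ⊕ Bool))) =>
      ∃ w : List Bool, q = w.flatMap (fun _ => [(false, true)]) ∧
        y = w.flatMap (fun a => [Sum.inl a])) := RR.map _ _
  have h2 : RR (fun (q : List (Bool × Bool)) (y : List (Bool ⊕ (A ⊕ Bool))) =>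
      ∃ w : List (A ⊕ Bool), q = w.flatMap (zfamW false) ∧
        y = w.flatMap (fun a => [Sum.inr a])) := RR.map _ _
  have h3 : RR (fun (q : List (Bool × Bool)) (y : List (Bool ⊕ (A ⊕ Bool))) =>
      ∃ w : List (A ⊕ Bool), q = w.flatMap (fun _ => []) ∧
        y = w.flatMap (fun a => [Sum.inr a])) := RR.map _ _
  have h4 := RR.mul h1 (RR.mul h2 (RR.mul (RR.word (A := Bool × Bool)
    (B := Bool ⊕ (A ⊕ Bool)) [] [Sum.inr (Sum.inr true)]) h3))
  refine zfam_congr (h4.dom Dyck2) ?_
  intro z
  constructor
  · rintro ⟨x, u, v, rfl, hu⟩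
    refine ⟨List.replicate x.length (false, true) ++ (u.flatMap (zfamW false) ++ []), ?_,
      _, _, x.map Sum.inl, (u ++ Sum.inr true :: v).map Sum.inr, rfl, rfl,
      ⟨x, (zfam_flat_const x).symm, (zfam_flat_left x).symm⟩, ?_⟩
    · change Run _ _ _
      rw [zfam_push, List.append_nil (List.replicate _ _), zfam_run]
      exact ⟨0, hu, Run.nil _⟩
    · refine ⟨u.flatMap (zfamW false), [], u.map Sum.inr, (Sum.inr true :: v).map Sum.inr, rfl,
        by simp, ⟨u, rfl, (zfam_flat_right u).symm⟩, ?_⟩
      exact ⟨[], [], [Sum.inr (Sum.inr true)], v.map Sum.inr, rfl, rfl, ⟨rfl, rfl⟩, v,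
        (zfam_flat_nil v).symm, (zfam_flat_right v).symm⟩
  · rintro ⟨q, hq, q₁, q₂, y₁, y₂, rfl, rfl, ⟨x, rfl, rfl⟩, q₃, q₄, y₃, y₄, rfl, rfl,
      ⟨u, rfl, rfl⟩, q₅, q₆, y₅, y₆, rfl, rfl, ⟨rfl, rfl⟩, v, rfl, rfl⟩
    refine ⟨x, u, v, ?_, ?_⟩
    · rw [zfam_flat_left, zfam_flat_right, zfam_flat_right]
      simp
    · rw [zfam_flat_const, zfam_flat_nil] at hq
      have hq' : Run (List.replicate x.length (false, true) ++
        (u.flatMap (zfamW false) ++ ([] ++ []))) [] [] := hq
      rw [zfam_push, List.append_nil (List.replicate _ _), zfam_run] at hq'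
      obtain ⟨m, hm, hr⟩ := hq'
      rw [List.append_nil, run_nil_iff] at hr
      have : m = 0 := by
        have := congrArg List.length hr
        simpa using this
      rw [hm, this]

/-- Kind (2). -/
private theorem zfam_dom2 {A : Type} [Finite A] :
    Dom Dyck2 ({z | ∃ (x : List Bool) (u v : List (A ⊕ Bool)),
      z = x.map Sum.inl ++ (u ++ Sum.inr false :: v).map Sum.inr ∧
        zfamCnt true 0 u = some 0} : Language (Bool ⊕ (A ⊕ Bool))) := by
  have h1 : RR (fun (q : List (Bool × Bool)) (y : List (Bool ⊕ (A ⊕ Bool))) =>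
      ∃ w : List Bool, q = w.flatMap (fun _ => []) ∧
        y = w.flatMap (fun a => [Sum.inl a])) := RR.map _ _
  have h2 : RR (fun (q : List (Bool × Bool)) (y : List (Bool ⊕ (A ⊕ Bool))) =>
      ∃ w : List (A ⊕ Bool), q = w.flatMap (zfamW true) ∧
        y = w.flatMap (fun a => [Sum.inr a])) := RR.map _ _
  have h3 : RR (fun (q : List (Bool × Bool)) (y : List (Bool ⊕ (A ⊕ Bool))) =>
      ∃ w : List (A ⊕ Bool), q = w.flatMap (fun _ => []) ∧
        y = w.flatMap (fun a => [Sum.inr a])) := RR.map _ _
  have h4 := RR.mul h1 (RR.mul h2 (RR.mul (RR.word (A := Bool × Bool)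
    (B := Bool ⊕ (A ⊕ Bool)) [] [Sum.inr (Sum.inr false)]) h3))
  refine zfam_congr (h4.dom Dyck2) ?_
  intro z
  constructor
  · rintro ⟨x, u, v, rfl, hu⟩
    refine ⟨[] ++ (u.flatMap (zfamW true) ++ []), ?_,
      _, _, x.map Sum.inl, (u ++ Sum.inr false :: v).map Sum.inr, rfl, rfl,
      ⟨x, (zfam_flat_nil x).symm, (zfam_flat_left x).symm⟩, ?_⟩
    · change Run _ _ _
      rw [List.nil_append]
      exact (zfam_run true u 0 [] []).2 ⟨0, hu, Run.nil _⟩
    · refine ⟨u.flatMap (zfamW true), [], u.map Sum.inr, (Sum.inr false :: v).map Sum.inr, rfl,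
        by simp, ⟨u, rfl, (zfam_flat_right u).symm⟩, ?_⟩
      exact ⟨[], [], [Sum.inr (Sum.inr false)], v.map Sum.inr, rfl, rfl, ⟨rfl, rfl⟩, v,
        (zfam_flat_nil v).symm, (zfam_flat_right v).symm⟩
  · rintro ⟨q, hq, q₁, q₂, y₁, y₂, rfl, rfl, ⟨x, rfl, rfl⟩, q₃, q₄, y₃, y₄, rfl, rfl,
      ⟨u, rfl, rfl⟩, q₅, q₆, y₅, y₆, rfl, rfl, ⟨rfl, rfl⟩, v, rfl, rfl⟩
    refine ⟨x, u, v, ?_, ?_⟩
    · rw [zfam_flat_left, zfam_flat_right, zfam_flat_right]
      simp
    · rw [zfam_flat_nil, zfam_flat_nil] at hq
      have hq' : Run (u.flatMap (zfamW true) ++ []) (List.replicate 0 false) [] := hq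
      rw [zfam_run] at hq'
      obtain ⟨m, hm, hr⟩ := hq'
      rw [run_nil_iff] at hr
      have : m = 0 := by
        have := congrArg List.length hr
        simpa using this
      rw [hm, this]

/-- Kind (3). -/
private theorem zfam_dom3 {A : Type} [Finite A] :
    Dom Dyck2 ({z | ∃ (x : List Bool) (w : List (A ⊕ Bool)),
      z = x.map Sum.inl ++ w.map Sum.inr ∧
        ∃ m, zfamCnt true 0 w = some (m + 1)} : Language (Bool ⊕ (A ⊕ Bool))) := by
  have h1 : RR (fun (q : List (Bool × Bool)) (y : List (Bool ⊕ (A ⊕ Bool))) =>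
      ∃ w : List Bool, q = w.flatMap (fun _ => []) ∧
        y = w.flatMap (fun a => [Sum.inl a])) := RR.map _ _
  have h2 : RR (fun (q : List (Bool × Bool)) (y : List (Bool ⊕ (A ⊕ Bool))) =>
      ∃ w : List (A ⊕ Bool), q = w.flatMap (zfamW true) ∧
        y = w.flatMap (fun a => [Sum.inr a])) := RR.map _ _
  have h3 : RR (fun (q : List (Bool × Bool)) (y : List (Bool ⊕ (A ⊕ Bool))) =>
      ∃ w : List Unit, q = w.flatMap (fun _ => [(false, false)]) ∧
        y = w.flatMap (fun _ => [])) := RR.map _ _
  have h4 := RR.mul h1 (RR.mul h2 (RR.mul (RR.word (A := Bool × Bool)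
    (B := Bool ⊕ (A ⊕ Bool)) [(false, false)] []) h3))
  refine zfam_congr (h4.dom Dyck2) ?_
  intro z
  constructor
  · rintro ⟨x, u, rfl, m, hu⟩
    refine ⟨[] ++ (u.flatMap (zfamW true) ++ List.replicate (m + 1) (false, false)), ?_,
      _, _, x.map Sum.inl, u.map Sum.inr, rfl, rfl,
      ⟨x, (zfam_flat_nil x).symm, (zfam_flat_left x).symm⟩, ?_⟩
    · change Run _ _ _
      rw [List.nil_append]
      exact (zfam_run true u 0 [] _).2 ⟨m + 1, hu, (zfam_pop _ _).2 rfl⟩
    · refine ⟨u.flatMap (zfamW true), _, u.map Sum.inr, [], rfl,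
        by simp, ⟨u, rfl, (zfam_flat_right u).symm⟩, ?_⟩
      refine ⟨[(false, false)], List.replicate m (false, false), [], [],
        by rw [List.replicate_succ]; rfl, rfl, ⟨rfl, rfl⟩, List.replicate m (), ?_,
        (zfam_flat_nil _).symm⟩
      rw [zfam_flat_constc, List.length_replicate]
  · rintro ⟨q, hq, q₁, q₂, y₁, y₂, rfl, rfl, ⟨x, rfl, rfl⟩, q₃, q₄, y₃, y₄, rfl, rfl,
      ⟨u, rfl, rfl⟩, q₅, q₆, y₅, y₆, rfl, rfl, ⟨rfl, rfl⟩, v, rfl, rfl⟩
    refine ⟨x, u, ?_, v.length, ?_⟩
    · rw [zfam_flat_left, zfam_flat_right, zfam_flat_nil]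
      simp
    · rw [zfam_flat_nil, zfam_flat_constc] at hq
      have hq' : Run (u.flatMap (zfamW true) ++ List.replicate (v.length + 1) (false, false))
        (List.replicate 0 false) [] := hq
      rw [zfam_run] at hq'
      obtain ⟨m, hm, hr⟩ := hq'
      rw [zfam_pop] at hr
      rw [hm, hr]

theorem dom_unfit {A : Type} [Finite A] :
    Dom Dyck2 ({z | ∃ (x : List Bool) (w : List (A ⊕ Bool)),
      z = x.map Sum.inl ++ w.map Sum.inr ∧ ¬ Fit x.length w} : Language (Bool ⊕ (A ⊕ Bool))) := by
  have h := (Dom.union (Dom.union (zfam_dom1 (A := A)) zfam_dom2) zfam_dom3)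
  refine zfam_congr h ?_
  intro z
  constructor
  · rintro ⟨x, w, rfl, hw⟩
    unfold Fit at hw
    rcases (zfam_kinds x.length w 0 (Nat.zero_le _)).1 hw with
      (⟨u, v, rfl, hu⟩ | ⟨u, v, rfl, hu⟩) | ⟨m, hm⟩
    · exact Or.inl (Or.inl ⟨x, u, v, rfl, hu⟩)
    · exact Or.inl (Or.inr ⟨x, u, v, rfl, hu⟩)
    · exact Or.inr ⟨x, w, rfl, m, hm⟩
  · rintro ((⟨x, u, v, rfl, hu⟩ | ⟨x, u, v, rfl, hu⟩) | ⟨x, w, rfl, m, hm⟩)
    · exact ⟨x, _, rfl, (zfam_kinds x.length _ 0 (Nat.zero_le _)).2
        (Or.inl (Or.inl ⟨u, v, rfl, hu⟩))⟩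
    · exact ⟨x, _, rfl, (zfam_kinds x.length _ 0 (Nat.zero_le _)).2
        (Or.inl (Or.inr ⟨u, v, rfl, hu⟩))⟩
    · exact ⟨x, w, rfl, (zfam_kinds x.length _ 0 (Nat.zero_le _)).2 (Or.inr ⟨m, hm⟩)⟩

theorem exists_above {A : Type} [Finite A] (V : Language A) (hV : V.IsContextFree)
    (hN : NonGen V) :
    ∃ (B : Type) (_ : Finite B) (L : Language B), L.IsContextFree ∧ NonGen L ∧
      ∀ k, Dom L (Wk V k) := by
  have hV' : ¬ Dom V Dyck2 := (nonGen_iff V).1 hN
  let U : Language (Bool ⊕ (A ⊕ Bool)) := {z | ∃ (x : List Bool) (w : List (A ⊕ Bool)),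
    z = x.map Sum.inl ++ w.map Sum.inr ∧ (w ∈ Winf V ∨ ¬ Fit x.length w)}
  have hU : U.IsContextFree := by
    apply isContextFree_of_dom
    have h1 : RR (fun (q : List (A ⊕ Bool)) (y : List (Bool ⊕ (A ⊕ Bool))) =>
        ∃ w : List Bool, q = w.flatMap (fun _ => []) ∧
          y = w.flatMap (fun a => [Sum.inl a])) := RR.map _ _
    have h2 : RR (fun (q : List (A ⊕ Bool)) (y : List (Bool ⊕ (A ⊕ Bool))) =>
        ∃ w : List (A ⊕ Bool), q = w.flatMap (fun a => [a]) ∧
          y = w.flatMap (fun a => [Sum.inr a])) := RR.map _ _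
    have h3 := (dom_of_isContextFree (winf_isContextFree V hV)).trans
      ((RR.mul h1 h2).dom (Winf V))
    refine zfam_congr (Dom.union h3 (dom_unfit (A := A))) ?_
    intro z
    constructor
    · rintro ⟨x, w, rfl, hw | hw⟩
      · refine Or.inl ⟨w, hw, [], w, x.map Sum.inl, w.map Sum.inr, rfl, rfl,
          ⟨x, (zfam_flat_nil x).symm, (zfam_flat_left x).symm⟩,
          ⟨w, (zfam_flat_self w).symm, (zfam_flat_right w).symm⟩⟩
      · exact Or.inr ⟨x, w, rfl, hw⟩
    · rintro (⟨q, hq, q₁, q₂, y₁, y₂, rfl, rfl, ⟨x, rfl, rfl⟩, ⟨w, rfl, rfl⟩⟩ |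
        ⟨x, w, rfl, hw⟩)
      · rw [zfam_flat_nil, zfam_flat_self, List.nil_append] at hq
        refine ⟨x, w, ?_, Or.inl hq⟩
        rw [zfam_flat_left, zfam_flat_right]
      · exact ⟨x, w, rfl, Or.inr hw⟩
  have hslice : ∀ (x : List Bool) (w : List (A ⊕ Bool)), w ∈ slice U x ↔
      w ∈ Wk V (x.length + 1) ∨ ¬ Fit x.length w := by
    intro x w
    constructor
    · rintro ⟨x', w', e, hw⟩
      obtain ⟨rfl, rfl⟩ := split_unique e
      rcases hw with hw | hw
      · by_cases hf : Fit x.length w
        · exact Or.inl ((wk_iff V _ w).2 ⟨hw, hf⟩)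
        · exact Or.inr hf
      · exact Or.inr hw
    · rintro (hw | hw)
      · exact ⟨x, w, rfl, Or.inl ((wk_iff V _ w).1 hw).1⟩
      · exact ⟨x, w, rfl, Or.inr hw⟩
  have hre : REPred fun x : List Bool => x ∈ (Set.univ : Set (List Bool)) := by
    have h1 : ComputablePred fun x : List Bool => x ∈ (Set.univ : Set (List Bool)) := by
      refine ⟨fun _ => isTrue trivial, ?_⟩
      exact (Computable.const true)
    exact h1.to_re
  have hnon : ∀ x ∈ (Set.univ : Set (List Bool)), NonGen (slice U x) := by
    intro x _
    rw [nonGen_iff]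
    intro h
    have e : slice U x = ({z | z ∈ Wk V (x.length + 1) ∨
        z ∈ ({z | ¬ Fit x.length z} : Language (A ⊕ Bool))} : Language (A ⊕ Bool)) :=
      Set.ext fun w => hslice x w
    rw [e] at h
    rcases h.split with h1 | h1
    · exact wk_not_dom V hV' _ h1
    · exact not_dom_regular (isRegular_fit (A := A) x.length).compl h1
  obtain ⟨B, hB, L, hL, hLN, hLD⟩ := exists_bound U Set.univ hU hre hnon
  refine ⟨B, hB, L, hL, hLN, ?_⟩
  intro k
  cases k with
  | zero => exact dom_empty _
  | succ k =>
    have h1 := dom_inter_regular (hLD (List.replicate k false) trivial)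
      (isRegular_fit (A := A) k)
    refine zfam_congr h1 ?_
    intro w
    have h2 := hslice (List.replicate k false) w
    rw [List.length_replicate] at h2
    constructor
    · intro hw
      exact ⟨h2.2 (Or.inl hw), ((wk_iff V k w).1 hw).2⟩
    · rintro ⟨hw, hf⟩
      rcases h2.1 hw with h3 | h3
      · exact h3
      · exact absurd hf h3

end Pool.Agent.H93NG
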