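import Pool.Agent.H93NG.ZStrip

/-!
# Inserting and removing one piece

Both by induction on the nesting level, and inside by induction on `Nest`.
-/

namespace Pool.Agent.H93NG

variable {A : Type}

private theorem zins_nest {V : Language A} {k : ℕ} {y : List (A ⊕ Bool)} (hy : y ∈ Winf V)
    (ihk : ∀ x x' : List (A ⊕ Bool), x ++ x' ∈ Wk V k →
      x ++ Sum.inr true :: (y ++ Sum.inr false :: x') ∈ Winf V)
    {v : List A} {z : List (A ⊕ Bool)} (h : Nest (Wk V k) v z) :
    ∀ x x' : List (A ⊕ Bool), z = x ++ x' →
      Nest (Winf V) v (x ++ Sum.inr true :: (y ++ Sum.inr false :: x')) := by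
  have up : ∀ w ∈ Wk V k, w ∈ Winf V := fun w hw => ⟨k, hw⟩
  induction h with
  | nil =>
    intro x x' e
    have e' := e.symm
    rw [List.append_eq_nil_iff] at e'
    obtain ⟨rfl, rfl⟩ := e'
    exact Nest.piece hy Nest.nil
  | @letter a v z h ih =>
    intro x x' e
    cases x with
    | nil =>
      simp only [List.nil_append] at e
      subst e
      exact Nest.piece hy (Nest.letter (nest_mono up h))
    | cons b x =>
      simp only [List.cons_append, List.cons.injEq] at e
      obtain ⟨rfl, rfl⟩ := e
      exact Nest.letter (ih x x' rfl)
  | @piece κ v z hκ h ih =>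
    intro x x' e
    cases x with
    | nil =>
      simp only [List.nil_append] at e
      subst e
      exact Nest.piece hy (Nest.piece (up _ hκ) (nest_mono up h))
    | cons b x =>
      simp only [List.cons_append, List.cons.injEq] at e
      obtain ⟨rfl, e⟩ := e
      rw [List.append_eq_append_iff] at e
      rcases e with ⟨t, rfl, h2⟩ | ⟨t, rfl, rfl⟩
      · cases t with
        | nil =>
          simp only [List.nil_append] at h2
          subst h2
          have h3 := ihk κ [] (by rw [List.append_nil]; exact hκ)
          have h4 := Nest.piece h3 (nest_mono up h)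
          simpa using h4
        | cons c t =>
          simp only [List.cons_append, List.cons.injEq] at h2
          obtain ⟨rfl, rfl⟩ := h2
          have h3 := Nest.piece (up _ hκ) (ih t x' rfl)
          simpa using h3
      · have h3 := ihk x t hκ
        have h4 := Nest.piece h3 (nest_mono up h)
        simpa using h4

theorem insert_piece (V : Language A) {x x' y : List (A ⊕ Bool)} (h : x ++ x' ∈ Winf V)
    (hy : y ∈ Winf V) : x ++ Sum.inr true :: (y ++ Sum.inr false :: x') ∈ Winf V := by
  obtain ⟨k, hk⟩ := h
  induction k generalizing x x' with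
  | zero => exact absurd hk id
  | succ k ih =>
    obtain ⟨v, hv, hn⟩ := hk
    exact (winf_iff V _).2 ⟨v, hv, zins_nest hy (fun x x' h => ih h) hn x x' rfl⟩

private theorem zins_bal (V : Language A) {k : ℕ} {y : List (A ⊕ Bool)} (hy : y ∈ Wk V k) :
    ∃ j, Fit j y := by
  cases k with
  | zero => exact absurd hy id
  | succ k => exact ⟨k, ((wk_iff V k y).1 hy).2⟩

/-- A balanced word does not end inside a bracket whose content is a beginning of a balanced
word. -/
private theorem zins_no {j m : ℕ} {x t s : List (A ⊕ Bool)}
    (h : Fit j (x ++ Sum.inr true :: t)) (h' : Fit m (t ++ s)) : False := by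
  unfold Fit at h h'
  rw [strip_append] at h h'
  cases hx : strip j 0 x with
  | none =>
    rw [hx] at h
    exact absurd h (by simp)
  | some n =>
    rw [hx] at h
    simp only [Option.bind_some, strip] at h
    split_ifs at h with hn
    cases ht : strip m 0 t with
    | none =>
      rw [ht] at h'
      exact absurd h' (by simp)
    | some l =>
      have h1 := strip_shift (n + 1) ht
      rw [Nat.zero_add] at h1
      have h2 := strip_mono (le_max_left j (m + (n + 1))) h
      have h3 := strip_mono (le_max_right j (m + (n + 1))) h1
      rw [h2] at h3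
      have h4 := Option.some.inj h3
      omega

private theorem zins_rem {V : Language A} {k m : ℕ} {y : List (A ⊕ Bool)} (hy : Fit m y)
    (ihk : ∀ x x' : List (A ⊕ Bool), x ++ Sum.inr true :: (y ++ Sum.inr false :: x') ∈ Wk V k →
      y ∈ Winf V ∧ x ++ x' ∈ Winf V)
    {v : List A} {z : List (A ⊕ Bool)} (h : Nest (Wk V k) v z) :
    ∀ x x' : List (A ⊕ Bool), z = x ++ Sum.inr true :: (y ++ Sum.inr false :: x') →
      y ∈ Winf V ∧ Nest (Winf V) v (x ++ x') := by
  have up : ∀ w ∈ Wk V k, w ∈ Winf V := fun w hw => ⟨k, hw⟩
  induction h with
  | nil =>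
    intro x x' e
    have := congrArg List.length e
    simp at this
  | @letter a v z h ih =>
    intro x x' e
    cases x with
    | nil => simp at e
    | cons b x =>
      simp only [List.cons_append, List.cons.injEq] at e
      obtain ⟨rfl, e⟩ := e
      obtain ⟨h1, h2⟩ := ih x x' e
      exact ⟨h1, Nest.letter h2⟩
  | @piece κ v z hκ h ih =>
    intro x x' e
    obtain ⟨j, hj⟩ := zins_bal V hκ
    cases x with
    | nil =>
      simp only [List.nil_append, List.cons.injEq, true_and] at e
      obtain ⟨rfl, rfl⟩ := strip_unique hj hy e
      exact ⟨up _ hκ, nest_mono up h⟩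
    | cons b x =>
      simp only [List.cons_append, List.cons.injEq] at e
      obtain ⟨rfl, e⟩ := e
      rw [List.append_eq_append_iff] at e
      rcases e with ⟨t, rfl, h2⟩ | ⟨t, rfl, h2⟩
      · cases t with
        | nil => simp at h2
        | cons c t =>
          simp only [List.cons_append, List.cons.injEq] at h2
          obtain ⟨rfl, h2⟩ := h2
          obtain ⟨h3, h4⟩ := ih t x' h2
          refine ⟨h3, ?_⟩
          have h5 := Nest.piece (up _ hκ) h4
          simpa using h5
      · cases t with
        | nil => simp at h2
        | cons c t =>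
          simp only [List.cons_append, List.cons.injEq] at h2
          obtain ⟨rfl, h2⟩ := h2
          rw [List.append_eq_append_iff] at h2
          rcases h2 with ⟨s, rfl, h3⟩ | ⟨s, rfl, h3⟩
          · cases s with
            | nil =>
              rw [List.append_nil] at hj hκ
              exact (zins_no (s := []) hj (by rw [List.append_nil]; exact hy)).elim
            | cons c s =>
              simp only [List.cons_append, List.cons.injEq] at h3
              obtain ⟨rfl, rfl⟩ := h3
              obtain ⟨h4, h5⟩ := ihk x s hκ
              refine ⟨h4, ?_⟩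
              have h6 := Nest.piece h5 (nest_mono up h)
              simpa using h6
          · exact (zins_no hj hy).elim

theorem remove_piece (V : Language A) {m : ℕ} {x x' y : List (A ⊕ Bool)} (hy : Fit m y)
    (h : x ++ Sum.inr true :: (y ++ Sum.inr false :: x') ∈ Winf V) :
    y ∈ Winf V ∧ x ++ x' ∈ Winf V := by
  obtain ⟨k, hk⟩ := h
  induction k generalizing x x' with
  | zero => exact absurd hk id
  | succ k ih =>
    obtain ⟨v, hv, hn⟩ := hk
    obtain ⟨h1, h2⟩ := zins_rem hy (fun x x' h => ih h) hn x x' rfl
    exact ⟨h1, (winf_iff V _).2 ⟨v, hv, h2⟩⟩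

end Pool.Agent.H93NG
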