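import Pool.Agent.H93NG.ZMain

/-!
# Two non-generators have a common upper bound; the final form of the bound
-/

namespace Pool.Agent.H93NG

private theorem isRegular_single {Z : Type} (a : Z) :
    Language.IsRegular ({z | z = [a]} : Language Z) := by
  apply Language.IsRegular.of_finite_range_leftQuotient
  refine (Set.toFinite {({z | z = [a]} : Language Z), ({z | z = []} : Language Z),
    ({z | False} : Language Z)}).subset ?_
  rintro _ ⟨x, rfl⟩
  match x with
  | [] => left; rfl
  | [b] =>
    by_cases hb : b = a
    · right; left
      subst hb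
      ext y
      constructor
      · intro h
        have h' : b :: y = [b] := h
        exact (List.cons.inj h').2
      · intro h
        have h' : y = [] := h
        change b :: y = [b]
        rw [h']
    · right; right
      ext y
      constructor
      · intro h
        have h' : b :: y = [a] := h
        exact hb (List.cons.inj h').1
      · intro h
        exact absurd h id
  | b :: c :: x =>
    right; right
    ext y
    constructor
    · intro h
      have h' : b :: c :: (x ++ y) = [a] := h
      simp at h'
    · intro h
      exact absurd h id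

/-- Two context-free non-generators lie below a third one (their marked union). -/
theorem exists_join {A B : Type} [Finite A] [Finite B] (V : Language A) (U : Language B)
    (hV : V.IsContextFree) (hU : U.IsContextFree) (hVN : NonGen V) (hUN : NonGen U) :
    ∃ (C : Type) (_ : Finite C) (L : Language C), L.IsContextFree ∧ NonGen L ∧ Dom L V ∧
      Dom L U := by
  let X : Language (Option (A ⊕ B)) :=
    {z | ∃ v ∈ V, z = none :: v.map (fun a => some (Sum.inl a))}
  let Y : Language (Option (A ⊕ B)) := {z | ∃ u ∈ U, z = u.map (fun b => some (Sum.inr b))}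
  let L : Language (Option (A ⊕ B)) := {z | z ∈ X ∨ z ∈ Y}
  have hVX : Dom V X := by
    have h := (dom_quot V [] [] (fun a : A => [a]) (fun a : A => [(some (Sum.inl a) :
      Option (A ⊕ B))])).concat_left (R := {z | z = [none]}) (isRegular_single none)
    convert h using 1
    ext z
    simp only [flatMap_single, List.map_id', List.nil_append, List.append_nil]
    constructor
    · rintro ⟨w, h1, rfl⟩
      exact ⟨_, rfl, _, ⟨w, h1, rfl⟩, rfl⟩
    · rintro ⟨_, rfl, _, ⟨w, h1, rfl⟩, rfl⟩
      exact ⟨w, h1, rfl⟩
  have hUY : Dom U Y := by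
    have h := dom_quot U [] [] (fun b : B => [b]) (fun b : B => [(some (Sum.inr b) :
      Option (A ⊕ B))])
    convert h using 1
    ext z
    simp only [flatMap_single, List.map_id', List.nil_append, List.append_nil]
    constructor
    · rintro ⟨w, h1, rfl⟩
      exact ⟨w, h1, rfl⟩
    · rintro ⟨w, h1, rfl⟩
      exact ⟨w, h1, rfl⟩
  refine ⟨Option (A ⊕ B), inferInstance, L, ?_, ?_, ?_, ?_⟩
  · exact isContextFree_of_dom
      (((dom_of_isContextFree hV).trans hVX).union ((dom_of_isContextFree hU).trans hUY))
  · rw [nonGen_iff]
    intro h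
    rcases h.split with h | h
    · exact (nonGen_iff V).1 hVN (hVX.trans h)
    · exact (nonGen_iff U).1 hUN (hUY.trans h)
  · have h := dom_quot L [none] [] (fun a : A => [some (Sum.inl a)]) (fun a : A => [a])
    convert h using 1
    ext z
    simp only [flatMap_single, List.map_id', List.append_nil, List.cons_append, List.nil_append]
    constructor
    · intro hz
      exact ⟨z, Or.inl ⟨z, hz, rfl⟩, rfl⟩
    · rintro ⟨w, ⟨v, h1, h2⟩ | ⟨u, h1, h2⟩, rfl⟩
      · rw [List.cons.injEq] at h2
        have h3 := List.map_injective_iff.2 (fun a b h => by simpa using h :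
          Function.Injective fun a : A => (some (Sum.inl a) : Option (A ⊕ B))) h2.2
        rw [h3]
        exact h1
      · cases u with
        | nil => simp at h2
        | cons b u => simp at h2
  · have h := dom_quot L [] [] (fun b : B => [some (Sum.inr b)]) (fun b : B => [b])
    convert h using 1
    ext z
    simp only [flatMap_single, List.map_id', List.append_nil, List.nil_append]
    constructor
    · intro hz
      exact ⟨z, Or.inr ⟨z, hz, rfl⟩, rfl⟩
    · rintro ⟨w, ⟨v, h1, h2⟩ | ⟨u, h1, h2⟩, rfl⟩
      · cases w with
        | nil => simp at h2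
        | cons b w => simp at h2
      · have h3 := List.map_injective_iff.2 (fun a b h => by simpa using h :
          Function.Injective fun b : B => (some (Sum.inr b) : Option (A ⊕ B))) h2
        rw [h3]
        exact h1

/-- The bound of a recursively enumerable family can be chosen above the closure of the family and
of the linear languages under rational transductions and substitutions. -/
theorem exists_bound_subCl {n : ℕ} (W : Set (Gnf n)) (hW : REPred fun G => G ∈ W)
    (hN : ∀ G ∈ W, NonGen G.lang) :
    ∃ (A : Type) (_ : Finite A) (L : Language A), L.IsContextFree ∧ NonGen L ∧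
      ∀ (B : Type) (M : Language B),
        SubCl (fun _ M => Dom Lin2 M ∨ ∃ G ∈ W, Dom G.lang M) B M → Dom L M := by
  obtain ⟨A, _, V, hV, hVN, hVD⟩ := exists_bound_gnf W hW hN
  obtain ⟨C, _, V', hV', hVN', h1, h2⟩ := exists_join V Lin2 hV lin2_isContextFree hVN
    ((nonGen_iff _).2 lin2_not_dom)
  obtain ⟨A', hA', L, hL, hLN, hLD⟩ := exists_above_subCl V' hV' hVN'
  refine ⟨A', hA', L, hL, hLN, ?_⟩
  intro B M hM
  have hB : Finite B := by
    cases hM with
    | base h _ => exact h
    | dom _ h _ _ => exact h
    | subst _ h _ _ => exact h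
  refine hLD B M hB (hM.mono ?_)
  rintro B' M' hB' (h | ⟨G, hG, h⟩)
  · exact h2.trans h
  · exact h1.trans ((hVD G hG).trans h)

theorem principal_iff_subCl :
    (∃ (A : Type) (_ : Finite A) (L : Language A), L.IsContextFree ∧ NonGen L ∧
        ∀ (B : Type) (_ : Finite B) (M : Language B), M.IsContextFree → NonGen M → Dom L M) ↔
      ∃ (n : ℕ) (W : Set (Gnf n)), REPred (fun G => G ∈ W) ∧ (∀ G ∈ W, NonGen G.lang) ∧
        ∀ (B : Type) (_ : Finite B) (M : Language B), M.IsContextFree → NonGen M →
          SubCl (fun _ M => Dom Lin2 M ∨ ∃ G ∈ W, Dom G.lang M) B M := by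
  constructor
  · intro h
    obtain ⟨n, W, hW, hN, hD⟩ := principal_iff.1 h
    refine ⟨n, W, hW, hN, ?_⟩
    intro B hB M hM hNM
    exact SubCl.base hB (Or.inr (hD B hB M hM hNM))
  · rintro ⟨n, W, hW, hN, hD⟩
    obtain ⟨A, _, L, hL, hLN, hLD⟩ := exists_bound_subCl W hW hN
    exact ⟨A, inferInstance, L, hL, hLN, fun B hB M hM hNM => hLD B M (hD B hB M hM hNM)⟩

end Pool.Agent.H93NG
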