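import Pool.Agent.H93NG.ZDefs
import Pool.Agent.H93NG.Trans

/-!
# Transducers with finitely many word jumps

`VP δ J p v y q`: from `p` to `q`, reading the word `v` over `A` (through the letters `inl a` of
`δ`) and writing `y`, where a jump from `p` to `q` may write any word of `J p q`.

PROOFS.
* `vp_dom`: the frozen form of `Dom` with the finite alphabet `C` of the edges: silent edges and
  letter edges `σ × Option A × Option B × σ`, and jump edges `{(p, y, q) | y.length ≤ N}`
  (`List.finite_length_le`); `g`, `h` the labels; the automaton with states `Option σ` follows the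
  edges that are allowed (compare `dom_of_tdom` in `Trans.lean`). `VP δ J p v y q` iff there is a
  word of edges from `p` to `q` with labels `v`, `y`.
* `vp_lift`: induction; a jump is a piece.
* `vp_of_letter`: induction on the path (it reads exactly the letter `inl a`).
* `vp_of_nil`: induction on the path (all moves are silent).
-/

namespace Pool.Agent.H93NG

variable {A B σ : Type}

/-- Computations with jumps. -/
inductive VP (δ : σ → Option (A ⊕ Bool) → Option B → σ → Prop) (J : σ → σ → Set (List B)) :
    σ → List A → List B → σ → Prop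
  | nil (p : σ) : VP δ J p [] [] p
  | silent {p q r : σ} {b : Option B} {v : List A} {y : List B} :
      δ p none b q → VP δ J q v y r → VP δ J p v (b.toList ++ y) r
  | letter {p q r : σ} {a : A} {b : Option B} {v : List A} {y : List B} :
      δ p (some (Sum.inl a)) b q → VP δ J q v y r → VP δ J p (a :: v) (b.toList ++ y) r
  | jump {p q r : σ} {x : List B} {v : List A} {y : List B} :
      x ∈ J p q → VP δ J q v y r → VP δ J p v (x ++ y) r

theorem VP.append {δ : σ → Option (A ⊕ Bool) → Option B → σ → Prop} {J : σ → σ → Set (List B)}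
    {p q r : σ} {v v' : List A} {y y' : List B} (h : VP δ J p v y q) (h' : VP δ J q v' y' r) :
    VP δ J p (v ++ v') (y ++ y') r := by
  induction h with
  | nil p => simpa using h'
  | silent hd _ ih =>
    rw [List.append_assoc]
    exact VP.silent hd (ih h')
  | letter hd _ ih =>
    rw [List.append_assoc, List.cons_append]
    exact VP.letter hd (ih h')
  | jump hx _ ih =>
    rw [List.append_assoc]
    exact VP.jump hx (ih h')

/-- The allowed edges. -/
private def Edge (δ : σ → Option (A ⊕ Bool) → Option B → σ → Prop) (J : σ → σ → Set (List B))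
    (p : σ) (a : Option A) (y : List B) (q : σ) : Prop :=
  (∃ b : Option B, y = b.toList ∧ δ p (a.map Sum.inl) b q) ∨ (a = none ∧ y ∈ J p q)

private theorem vp_of_edge {δ : σ → Option (A ⊕ Bool) → Option B → σ → Prop}
    {J : σ → σ → Set (List B)} {p q r : σ} {a : Option A} {x : List B} {v : List A} {y : List B}
    (h : Edge δ J p a x q) (h' : VP δ J q v y r) : VP δ J p (a.toList ++ v) (x ++ y) r := by
  rcases h with ⟨b, rfl, hb⟩ | ⟨rfl, hx⟩
  · cases a with
    | none => exact VP.silent hb h'
    | some a => exact VP.letter hb h'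
  · exact VP.jump hx h'

open Classical in
private noncomputable def autV (N : ℕ) (δ : σ → Option (A ⊕ Bool) → Option B → σ → Prop)
    (J : σ → σ → Set (List B)) (s f : σ) :
    DFA (σ × Option A × {y : List B // y.length ≤ N + 1} × σ) (Option σ) where
  step o c := match o with
    | none => none
    | some p => if p = c.1 ∧ Edge δ J c.1 c.2.1 c.2.2.1.1 c.2.2.2 then some c.2.2.2 else none
  start := some s
  accept := {some f}

private theorem autV_none (N : ℕ) (δ : σ → Option (A ⊕ Bool) → Option B → σ → Prop)
    (J : σ → σ → Set (List B)) (s f : σ)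
    (w : List (σ × Option A × {y : List B // y.length ≤ N + 1} × σ)) :
    (autV N δ J s f).evalFrom none w = none := by
  induction w with
  | nil => rfl
  | cons c w ih => exact ih

private theorem vp_of_autV (N : ℕ) (δ : σ → Option (A ⊕ Bool) → Option B → σ → Prop)
    (J : σ → σ → Set (List B)) (s f : σ)
    (w : List (σ × Option A × {y : List B // y.length ≤ N + 1} × σ)) :
    ∀ p q, (autV N δ J s f).evalFrom (some p) w = some q →
    VP δ J p (w.flatMap fun c => c.2.1.toList) (w.flatMap fun c => c.2.2.1.1) q := by
  induction w with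
  | nil =>
    intro p q hpq
    have : p = q := by simpa using hpq
    subst this
    exact VP.nil p
  | cons c w ih =>
    intro p q hpq
    have h1 : (autV N δ J s f).evalFrom ((autV N δ J s f).step (some p) c) w = some q := hpq
    by_cases hc : p = c.1 ∧ Edge δ J c.1 c.2.1 c.2.2.1.1 c.2.2.2
    · have h2 : (autV N δ J s f).step (some p) c = some c.2.2.2 := by
        simp only [autV]
        rw [if_pos hc]
      rw [h2] at h1
      have h3 := ih _ _ h1
      obtain ⟨rfl, hδ⟩ := hc
      simpa using vp_of_edge hδ h3
    · have h2 : (autV N δ J s f).step (some p) c = none := by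
        simp only [autV]
        rw [if_neg hc]
      rw [h2, autV_none] at h1
      cases h1

private theorem autV_cons (N : ℕ) {δ : σ → Option (A ⊕ Bool) → Option B → σ → Prop}
    {J : σ → σ → Set (List B)} (s f : σ) {p q : σ} {a : Option A} {x : List B}
    (h : Edge δ J p a x q) (hx : x.length ≤ N + 1)
    (w : List (σ × Option A × {y : List B // y.length ≤ N + 1} × σ)) :
    (autV N δ J s f).evalFrom (some p) ((p, a, ⟨x, hx⟩, q) :: w) =
      (autV N δ J s f).evalFrom (some q) w := by
  have h2 : (autV N δ J s f).step (some p) (p, a, ⟨x, hx⟩, q) = some q := by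
    simp only [autV]
    rw [if_pos ⟨rfl, h⟩]
  show (autV N δ J s f).evalFrom ((autV N δ J s f).step (some p) (p, a, ⟨x, hx⟩, q)) w = _
  rw [h2]

private theorem toList_length_le (b : Option B) : b.toList.length ≤ 1 := by
  cases b <;> simp

private theorem autV_of_vp (N : ℕ) {δ : σ → Option (A ⊕ Bool) → Option B → σ → Prop}
    {J : σ → σ → Set (List B)} (hJ : ∀ p q, ∀ y ∈ J p q, y.length ≤ N) (s f : σ) {p q : σ}
    {v : List A} {y : List B} (h : VP δ J p v y q) :
    ∃ w : List (σ × Option A × {y : List B // y.length ≤ N + 1} × σ),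
      (autV N δ J s f).evalFrom (some p) w = some q ∧
      (w.flatMap fun c => c.2.1.toList) = v ∧ (w.flatMap fun c => c.2.2.1.1) = y := by
  induction h with
  | nil p => exact ⟨[], rfl, rfl, rfl⟩
  | @silent p q r b v y hd _ ih =>
    obtain ⟨w, hw, rfl, rfl⟩ := ih
    have hE : Edge δ J p none b.toList q := Or.inl ⟨b, rfl, hd⟩
    have hl : b.toList.length ≤ N + 1 := (toList_length_le b).trans (Nat.le_add_left 1 N)
    exact ⟨(p, none, ⟨b.toList, hl⟩, q) :: w, by rw [autV_cons N s f hE hl w, hw], by simp,
      by simp⟩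
  | @letter p q r a b v y hd _ ih =>
    obtain ⟨w, hw, rfl, rfl⟩ := ih
    have hE : Edge δ J p (some a) b.toList q := Or.inl ⟨b, rfl, hd⟩
    have hl : b.toList.length ≤ N + 1 := (toList_length_le b).trans (Nat.le_add_left 1 N)
    exact ⟨(p, some a, ⟨b.toList, hl⟩, q) :: w, by rw [autV_cons N s f hE hl w, hw], by simp,
      by simp⟩
  | @jump p q r x v y hx _ ih =>
    obtain ⟨w, hw, rfl, rfl⟩ := ih
    have hE : Edge δ J p none x q := Or.inr ⟨rfl, hx⟩
    have hl : x.length ≤ N + 1 := (hJ _ _ _ hx).trans (Nat.le_succ N)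
    exact ⟨(p, none, ⟨x, hl⟩, q) :: w, by rw [autV_cons N s f hE hl w, hw], by simp, by simp⟩

theorem vp_dom [Finite A] [Finite B] [Finite σ] (V : Language A)
    (δ : σ → Option (A ⊕ Bool) → Option B → σ → Prop) (J : σ → σ → Set (List B)) (N : ℕ)
    (hJ : ∀ p q, ∀ y ∈ J p q, y.length ≤ N) (s f : σ) :
    Dom V ({y | ∃ v ∈ V, VP δ J s v y f} : Language B) := by
  have hfin : Finite {y : List B // y.length ≤ N + 1} :=
    (List.finite_length_le B (N + 1)).to_subtype
  refine ⟨σ × Option A × {y : List B // y.length ≤ N + 1} × σ, inferInstance,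
    fun c => c.2.1.toList, fun c => c.2.2.1.1, (autV N δ J s f).accepts,
    ⟨Option σ, Fintype.ofFinite _, autV N δ J s f, rfl⟩, ?_⟩
  intro y
  constructor
  · rintro ⟨v, hv, hp⟩
    obtain ⟨w, hw, rfl, rfl⟩ := autV_of_vp N hJ s f hp
    exact ⟨w, hw, hv, rfl⟩
  · rintro ⟨w, hw, hv, rfl⟩
    exact ⟨_, hv, vp_of_autV N δ J s f w s f hw⟩

/-- If the jumps are outputs of pieces then computations with jumps lift to insertions. -/
theorem vp_lift {δ : σ → Option (A ⊕ Bool) → Option B → σ → Prop} {J : σ → σ → Set (List B)}
    {K : Set (List (A ⊕ Bool))}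
    (hJ : ∀ p q, ∀ y ∈ J p q, ∃ k ∈ K, Path δ p (Sum.inr true :: (k ++ [Sum.inr false])) y q)
    {p q : σ} {v : List A} {y : List B} (h : VP δ J p v y q) :
    ∃ z, Nest K v z ∧ Path δ p z y q := by
  induction h with
  | nil p => exact ⟨[], Nest.nil, Path.nil p⟩
  | silent hd _ ih =>
    obtain ⟨z, hn, hp⟩ := ih
    exact ⟨z, hn, Path.cons hd hp⟩
  | letter hd _ ih =>
    obtain ⟨z, hn, hp⟩ := ih
    exact ⟨_, Nest.letter hn, Path.cons hd hp⟩
  | jump hx _ ih =>
    obtain ⟨z, hn, hp⟩ := ih
    obtain ⟨k, hk, hkp⟩ := hJ _ _ _ hx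
    refine ⟨_, Nest.piece hk hn, ?_⟩
    have := hkp.append hp
    simpa using this

private theorem vp_of_nil' {δ : σ → Option (A ⊕ Bool) → Option B → σ → Prop}
    {J : σ → σ → Set (List B)} {p q : σ} {u : List (A ⊕ Bool)} {y : List B}
    (h : Path δ p u y q) : u = [] → VP δ J p [] y q := by
  induction h with
  | nil p => exact fun _ => VP.nil p
  | @cons p q r a b u y hd _ ih =>
    intro hu
    cases a with
    | none => exact VP.silent hd (ih (by simpa using hu))
    | some x => exact absurd hu (by simp)

theorem vp_of_nil {δ : σ → Option (A ⊕ Bool) → Option B → σ → Prop} {J : σ → σ → Set (List B)}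
    {p q : σ} {y : List B} (h : Path δ p [] y q) : VP δ J p [] y q :=
  vp_of_nil' h rfl

private theorem vp_of_letter' {δ : σ → Option (A ⊕ Bool) → Option B → σ → Prop}
    {J : σ → σ → Set (List B)} {p q : σ} {u : List (A ⊕ Bool)} {y : List B}
    (h : Path δ p u y q) : ∀ {a : A}, u = [Sum.inl a] → VP δ J p [a] y q := by
  induction h with
  | nil p =>
    intro a hu
    cases hu
  | @cons p q r a b u y hd hp ih =>
    intro a' hu
    cases a with
    | none => exact VP.silent hd (ih (by simpa using hu))
    | some x =>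
      have hu' : x = Sum.inl a' ∧ u = [] := by simpa using hu
      obtain ⟨rfl, rfl⟩ := hu'
      exact VP.letter hd (vp_of_nil hp)

theorem vp_of_letter {δ : σ → Option (A ⊕ Bool) → Option B → σ → Prop}
    {J : σ → σ → Set (List B)} {p q r : σ} {a : A} {v : List A} {y y' : List B}
    (h : Path δ p [Sum.inl a] y q) (h' : VP δ J q v y' r) : VP δ J p (a :: v) (y ++ y') r := by
  simpa using (vp_of_letter' h rfl).append h'

end Pool.Agent.H93NG
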