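import Pool.Agent.H93NG.SDefs
import Pool.Agent.H93NG.CFL
import Pool.Agent.H93NG.Ops
import Pool.Agent.H93NG.Split

/-!
# The linear language `Lin2` is a context-free non-generator

PROOF. `Lin2` is `Dyck2` intersected with the words without a factor (pop, push):
`isRegular_factor`, `dom_inter_regular`, `isContextFree_of_dom`. (A run of pushes `u` and then pops
`v` from `[]` to `[]` has `v = u.reverse`: `run_push`, `run_pop`.)
`Lin2` does not dominate `Dyck2`: let `δ, s, f` be a transducer (`tdom_of_dom`) and consider for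
each `n` the word `0ⁿ 0̄ⁿ 1ⁿ 1̄ⁿ` (`0 = (false, true)`, `0̄ = (false, false)`, `1 = (true, true)`,
`1̄ = (true, false)`) with its input `u ū` and path. Cut the path at the turn (`Path.split_in`): the
output is `y y'`, `y` written while reading `u`. Case 1: `y` contains all of `0ⁿ 0̄ⁿ`. Cut the path
at the output `0ⁿ` (`Path.split_out`): `u = a b`, `a` read from `s` to `p` writing `0ⁿ`, and
`ū = b̄ ā` with `ā` read from `p'` to `f`. Case 2: `y` is a proper prefix of `0ⁿ 0̄ⁿ`, so `y'`
contains `1ⁿ 1̄ⁿ`; cut at the output `1̄ⁿ` at the end: `ū = b̄ ā` with `ā` read from `p'` to `f`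
writing `1̄ⁿ`, and `a` read from `s` to `p`. By the pigeonhole principle there are `n ≠ n'` in the same case with the same
`(p, p')`. Take the parts `a`, `ā` of `n` and the rest of `n'`: the input is again in `Lin2`, the
output is in `Dyck2`. In case 1 it begins with `0ⁿ 0̄ⁿ'` and has no other letters `0`, `0̄`
(the rest of the outputs are the letters `1`, `1̄`): the numbers of `0` and `0̄` agree, so `n = n'`.
In case 2 it ends with `1ⁿ' 1̄ⁿ` and has no other letters `1`, `1̄`, so `n = n'`. (Every word of
`Dyck2` has as many `(a, true)` as `(a, false)`: induction on `Run`.)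
-/

namespace Pool.Agent.H93NG

private def psh (a : Bool) : Bool × Bool := (a, true)

private def pp (a : Bool) : Bool × Bool := (a, false)

private theorem lin_mem (u : List Bool) : u.map psh ++ u.reverse.map pp ∈ Lin2 := ⟨u, rfl⟩

private theorem lin_factor (w : List (Bool × Bool))
    (hw : ¬ ∃ f ∈ ({f | ∃ a b : Bool, f = [(a, false), (b, true)]} : Set (List (Bool × Bool))),
      f <:+: w) : ∃ x y : List Bool, w = x.map psh ++ y.map pp := by
  induction w with
  | nil => exact ⟨[], [], rfl⟩
  | cons c w ih =>
    obtain ⟨x, y, rfl⟩ := ih (by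
      rintro ⟨f, hf, hi⟩
      exact hw ⟨f, hf, hi.trans (List.suffix_cons _ _).isInfix⟩)
    obtain ⟨a, b⟩ := c
    cases b with
    | true => exact ⟨a :: x, y, rfl⟩
    | false =>
      cases x with
      | nil => exact ⟨[], a :: y, rfl⟩
      | cons b x =>
        exfalso
        exact hw ⟨[(a, false), (b, true)], ⟨a, b, rfl⟩, [], x.map psh ++ y.map pp, rfl⟩

private theorem lin_run (x y : List Bool) :
    Run (x.map psh ++ y.map pp) [] [] ↔ y = x.reverse := by
  have h1 := run_push (l := x.reverse) (w := y.map pp) (s := []) (t := [])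
  rw [List.reverse_reverse] at h1
  have h2 := run_pop (l := y) (w := []) (s := x.reverse ++ []) (t := [])
  rw [List.append_nil, List.append_nil] at h2
  have h3 : Run (x.map psh ++ y.map pp) [] [] ↔ Run (y.map pp) (x.reverse ++ []) [] := h1
  rw [h3, List.append_nil]
  have h4 : Run (y.map pp) x.reverse [] ↔ ∃ s', x.reverse = y ++ s' ∧ Run [] s' [] := h2
  rw [h4]
  constructor
  · rintro ⟨s', hs, hr⟩
    rw [run_nil_iff] at hr
    rw [hs, hr, List.append_nil]
  · intro h
    exact ⟨[], by rw [h, List.append_nil], Run.nil _⟩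

theorem lin2_isContextFree : Lin2.IsContextFree := by
  apply isContextFree_of_dom
  have h1 := dom_inter_regular (Dom.refl Dyck2)
    (isRegular_factor ({f | ∃ a b : Bool, f = [(a, false), (b, true)]} :
      Set (List (Bool × Bool))) 2 (by rintro f ⟨a, b, rfl⟩; simp)).compl
  have h2 : Lin2 = ({v | v ∈ Dyck2 ∧ v ∈ (({z | ∃ f ∈ ({f | ∃ a b : Bool,
      f = [(a, false), (b, true)]} : Set (List (Bool × Bool))), f <:+: z} :
      Language (Bool × Bool))ᶜ : Language (Bool × Bool))} : Language (Bool × Bool)) := by
    ext w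
    constructor
    · rintro ⟨u, rfl⟩
      refine ⟨(lin_run u u.reverse).2 rfl, ?_⟩
      rintro ⟨f, ⟨a, b, rfl⟩, l, r, h⟩
      have h3 : l ++ ([(a, false)] ++ ([(b, true)] ++ r)) = u.map psh ++ u.reverse.map pp := by
        have h' : l ++ [(a, false), (b, true)] ++ r = u.map psh ++ u.reverse.map pp := h
        rw [← h', List.append_assoc]
        rfl
      rcases List.append_eq_append_iff.1 h3 with ⟨c, hc, hc'⟩ | ⟨c, hc, hc'⟩
      · cases c with
        | nil =>
          have h4 : (b, true) ∈ u.reverse.map pp := by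
            rw [List.nil_append] at hc'
            rw [← hc']; simp
          obtain ⟨z, -, hz⟩ := List.mem_map.1 h4
          simp [pp] at hz
        | cons e c =>
          have h4 : e = (a, false) := by
            simp at hc'; exact hc'.1.symm
          have h5 : (a, false) ∈ u.map psh := by rw [hc, h4]; simp
          obtain ⟨z, -, hz⟩ := List.mem_map.1 h5
          simp [psh] at hz
      · have h4 : (b, true) ∈ u.reverse.map pp := by rw [hc']; simp
        obtain ⟨z, -, hz⟩ := List.mem_map.1 h4
        simp [pp] at hz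
    · rintro ⟨hw, hw'⟩
      obtain ⟨x, y, rfl⟩ := lin_factor w hw'
      rw [(lin_run x y).1 hw]
      exact lin_mem x
  rw [h2]
  exact h1

private theorem run_count {w : List (Bool × Bool)} {s t : List Bool} (h : Run w s t) (c : Bool) :
    w.count (c, true) + s.count c = w.count (c, false) + t.count c := by
  induction h with
  | nil s => simp
  | push h ih =>
    rename_i a w s t
    cases a <;> cases c <;> simp at ih ⊢ <;> omega
  | pop h ih =>
    rename_i a w s t
    cases a <;> cases c <;> simp at ih ⊢ <;> omega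

private theorem count_of_fst {w : List (Bool × Bool)} {c c' : Bool} (hc : c' ≠ c)
    (h : ∀ x ∈ w, x.1 = c) (b : Bool) : w.count (c', b) = 0 := by
  rw [List.count_eq_zero]
  intro h1
  exact hc (h _ h1)

/-- The data of one word. -/
private def Dat {σ : Type} (δ : σ → Option (Bool × Bool) → Option (Bool × Bool) → σ → Prop)
    (s f : σ) (n : ℕ) (c : Bool) (p p' : σ) (a b : List Bool) (v₁ v₂ v₃ : List (Bool × Bool)) :
    Prop :=
  Path δ s (a.map psh) v₁ p ∧ Path δ p (b.map psh ++ b.reverse.map pp) v₂ p' ∧
    Path δ p' (a.reverse.map pp) v₃ f ∧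
    ((v₁.count (c, true) + v₃.count (c, true) : ℕ) : ℤ) -
      ((v₁.count (c, false) + v₃.count (c, false) : ℕ) : ℤ) = cond c (-(n : ℤ)) n ∧
    ((v₂.count (c, false) : ℕ) : ℤ) - ((v₂.count (c, true) : ℕ) : ℤ) = cond c (-(n : ℤ)) n

private theorem exists_dat {σ : Type}
    {δ : σ → Option (Bool × Bool) → Option (Bool × Bool) → σ → Prop} {s f : σ}
    (hT : ∀ v : List (Bool × Bool), v ∈ Dyck2 ↔ ∃ u, u ∈ Lin2 ∧ Path δ s u v f) (n : ℕ) :
    ∃ c p p' a b v₁ v₂ v₃, Dat δ s f n c p p' a b v₁ v₂ v₃ := by
  have hD : (List.replicate n (false, true) ++ List.replicate n (false, false)) ++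
      (List.replicate n (true, true) ++ List.replicate n (true, false)) ∈ Dyck2 := by
    have h1 : List.replicate n (false, true) ++ List.replicate n (false, false) ∈ Dyck2 :=
      (dyck_count n n).2 rfl
    refine run_append.2 ⟨[], h1, ?_⟩
    have h2 := (lin_run (List.replicate n true) (List.replicate n true)).2 (by simp)
    simpa [psh, pp] using h2
  obtain ⟨u, ⟨x, rfl⟩, hp⟩ := (hT _).1 hD
  obtain ⟨m, y₁, y₂, hy, hp1, hp2⟩ := hp.split_in
  change Path δ s (x.map psh) y₁ m at hp1
  change Path δ m (x.reverse.map pp) y₂ f at hp2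
  rcases List.append_eq_append_iff.1 hy with ⟨z, hz, hz'⟩ | ⟨z, hz, hz'⟩
  · -- the first half is read before the turn
    rw [hz, List.append_assoc] at hp1
    obtain ⟨p, u₁, u₂, hu, h1, h2⟩ := hp1.split_out
    obtain ⟨a, b, rfl, rfl, rfl⟩ := List.map_eq_append_iff.1 hu
    rw [List.reverse_append, List.map_append] at hp2
    obtain ⟨p', y, y', rfl, h3, h4⟩ := hp2.split_in
    have hB : ∀ e ∈ z ++ (y ++ y'), e.1 = true := by
      intro e he
      rw [← hz'] at he
      rcases List.mem_append.1 he with he | he <;> rw [List.eq_of_mem_replicate he]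
    have c1 : ∀ b, z.count (false, b) = 0 := fun b =>
      count_of_fst (c := true) (by simp) (fun e he => hB e (by simp [he])) b
    have c2 : ∀ b, y.count (false, b) = 0 := fun b =>
      count_of_fst (c := true) (by simp) (fun e he => hB e (by simp [he])) b
    have c3 : ∀ b, y'.count (false, b) = 0 := fun b =>
      count_of_fst (c := true) (by simp) (fun e he => hB e (by simp [he])) b
    refine ⟨false, p, p', a, b, _, _, _, h1, h2.append h3, h4, ?_, ?_⟩
    · simp [List.count_replicate, c3]
    · simp [List.count_replicate, c1, c2]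
  · -- the second half is read after the turn
    rw [hz', ← List.append_assoc] at hp2
    obtain ⟨p', u₁, u₂, hu, h3, h4⟩ := hp2.split_out
    obtain ⟨b', a', hx, rfl, rfl⟩ := List.map_eq_append_iff.1 hu
    have hx' : x = a'.reverse ++ b'.reverse := by
      rw [← List.reverse_reverse x, hx, List.reverse_append]
    rw [hx', List.map_append] at hp1
    obtain ⟨p, y, y', rfl, h1, h2⟩ := hp1.split_in
    have hB : ∀ e ∈ (y ++ y') ++ z, e.1 = false := by
      intro e he
      rw [← hz] at he
      rcases List.mem_append.1 he with he | he <;> rw [List.eq_of_mem_replicate he]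
    have c1 : ∀ b, z.count (true, b) = 0 := fun b =>
      count_of_fst (c := false) (by simp) (fun e he => hB e (by simp [he])) b
    have c2 : ∀ b, y.count (true, b) = 0 := fun b =>
      count_of_fst (c := false) (by simp) (fun e he => hB e (by simp [he])) b
    have c3 : ∀ b, y'.count (true, b) = 0 := fun b =>
      count_of_fst (c := false) (by simp) (fun e he => hB e (by simp [he])) b
    refine ⟨true, p, p', a'.reverse, b'.reverse, _, _, _, h1, h2.append
      (by rw [List.reverse_reverse]; exact h3), by rw [List.reverse_reverse]; exact h4, ?_, ?_⟩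
    · simp [List.count_replicate, c2]
    · simp [List.count_replicate, c1, c3]

theorem lin2_not_dom : ¬ Dom Lin2 Dyck2 := by
  intro h
  obtain ⟨σ, hσ, δ, s, f, hT⟩ := tdom_of_dom h
  choose c p p' a b v₁ v₂ v₃ hd using exists_dat hT
  obtain ⟨n, n', hne, heq⟩ := Finite.exists_ne_map_eq_of_infinite
    (fun n : ℕ => (c n, p n, p' n))
  simp only [Prod.mk.injEq] at heq
  obtain ⟨e1, e2, e3⟩ := heq
  apply hne
  obtain ⟨h1, -, h3, h4, -⟩ := hd n
  obtain ⟨-, h2', -, -, h5'⟩ := hd n'
  rw [← e2, ← e3] at h2'
  rw [← e1] at h5'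
  have hw : v₁ n ++ (v₂ n' ++ v₃ n) ∈ Dyck2 := by
    rw [hT]
    refine ⟨_, ?_, h1.append (h2'.append h3)⟩
    have h6 := lin_mem (a n ++ b n')
    rw [List.reverse_append, List.map_append, List.map_append] at h6
    simpa [List.append_assoc] using h6
  have h7 := run_count (w := v₁ n ++ (v₂ n' ++ v₃ n)) hw (c n)
  simp only [List.count_append, List.count_nil, add_zero] at h7
  have h8 : (cond (c n) (-(n : ℤ)) n : ℤ) = cond (c n) (-(n' : ℤ)) n' := by
    rw [← h4, ← h5']
    push_cast
    have h9 : ((v₁ n).count (c n, true) : ℤ) + ((v₂ n').count (c n, true) +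
      (v₃ n).count (c n, true)) = (v₁ n).count (c n, false) + ((v₂ n').count (c n, false) +
      (v₃ n).count (c n, false)) := by exact_mod_cast h7
    linarith
  cases hc : c n <;> rw [hc] at h8 <;> simp at h8 <;> exact h8

end Pool.Agent.H93NG
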