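import Pool.Agent.H93NG.ZMark
import Pool.Agent.H93NG.ZIns
import Pool.Agent.H93NG.Ops

/-!
# Iterated insertions dominate typed insertions of iterated insertions

PROOF. `untag` forgets the types. Automaton with states `Option (Fin (j + 1) × Option (Fin (m + 1)))`
(outer level, inner level if inside a piece) for the typed words whose outer letters stay in the
levels `0..j` and return to `0`, and whose pieces contain only inner letters, stay in `0..m`, and
return to `0`; let `R` be its (regular) language: `z ∈ R` iff there is `v` with `Fit j v` and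
`NestT {y | Fit m y} v z` (generalise to any starting state).
Claim: `z ∈ InsT (Wk V (j+1)) (Wk V (m+1))` iff `z ∈ R` and `untag z ∈ Wk V (j+m+2)`, equivalently
`untag z ∈ Winf V` (the depth of `untag z` is at most `j + m + 1` for `z ∈ R`).
From left to right: `wk_iff` and `insert_piece` (induction on `NestT (Winf V) v z` with a left
context: `x ++ v ∈ Winf V` implies `x ++ untag z ∈ Winf V`). From right to left: `remove_piece`
(induction on `NestT {y | Fit m y} v z` with a left context: `x ++ untag z ∈ Winf V` implies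
`x ++ v ∈ Winf V` and `NestT (Winf V) v z`), and `wk_iff`. So the typed language is the
intersection of `R` with the preimage of `Wk V (j+m+2)` by `untag` (`dom_quot`,
`dom_inter_regular`).
-/

namespace Pool.Agent.H93NG

variable {A : Type}

/-- Forget the types. -/
def untag : (A ⊕ Bool) ⊕ ((A ⊕ Bool) ⊕ Bool) → A ⊕ Bool
  | Sum.inl n => n
  | Sum.inr (Sum.inl n) => n
  | Sum.inr (Sum.inr b) => Sum.inr b

private theorem ztype_map_piece (y : List (A ⊕ Bool)) (z : List ((A ⊕ Bool) ⊕ ((A ⊕ Bool) ⊕ Bool))) :
    List.map untag (Sum.inr (Sum.inr true) ::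
      (y.map (fun q => Sum.inr (Sum.inl q)) ++ Sum.inr (Sum.inr false) :: z)) =
      Sum.inr true :: (y ++ Sum.inr false :: z.map untag) := by
  simp only [List.map_cons, List.map_append, List.map_map]
  congr 2
  have : (untag ∘ fun q => Sum.inr (Sum.inl q) : A ⊕ Bool → A ⊕ Bool) = id := by
    funext q; rfl
  rw [this, List.map_id]

private theorem ztype_mono {P Q : Type} {Y Y' : Set (List Q)} (h : ∀ y ∈ Y, y ∈ Y') {v : List P}
    {z : List (P ⊕ (Q ⊕ Bool))} (hz : NestT Y v z) : NestT Y' v z := by
  induction hz with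
  | nil => exact NestT.nil
  | letter _ ih => exact NestT.letter ih
  | piece hk _ ih => exact NestT.piece (h _ hk) ih

private theorem ztype_insert (V : Language A) {v : List (A ⊕ Bool)}
    {z : List ((A ⊕ Bool) ⊕ ((A ⊕ Bool) ⊕ Bool))} (hz : NestT (Winf V) v z) :
    ∀ x : List (A ⊕ Bool), x ++ v ∈ Winf V → x ++ z.map untag ∈ Winf V := by
  induction hz with
  | nil => intro x h; exact h
  | @letter a v z _ ih =>
    intro x h
    have h1 : (x ++ [a]) ++ v ∈ Winf V := by
      rw [List.append_assoc]; exact h
    have h2 := ih _ h1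
    rw [List.append_assoc] at h2
    exact h2
  | @piece y v z hy _ ih =>
    intro x h
    rw [ztype_map_piece]
    exact insert_piece V (ih x h) hy

private theorem ztype_remove (V : Language A) {m : ℕ} {v : List (A ⊕ Bool)}
    {z : List ((A ⊕ Bool) ⊕ ((A ⊕ Bool) ⊕ Bool))} (hz : NestT {y | Fit m y} v z) :
    ∀ x : List (A ⊕ Bool), x ++ z.map untag ∈ Winf V →
      x ++ v ∈ Winf V ∧ NestT (Wk V (m + 1)) v z := by
  induction hz with
  | nil => intro x h; exact ⟨h, NestT.nil⟩
  | @letter a v z _ ih =>
    intro x h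
    have h1 : (x ++ [a]) ++ z.map untag ∈ Winf V := by
      rw [List.append_assoc]; exact h
    obtain ⟨h2, h3⟩ := ih _ h1
    rw [List.append_assoc] at h2
    exact ⟨h2, NestT.letter h3⟩
  | @piece y v z hy _ ih =>
    intro x h
    rw [ztype_map_piece] at h
    obtain ⟨h1, h2⟩ := remove_piece V hy h
    obtain ⟨h3, h4⟩ := ih x h2
    exact ⟨h3, NestT.piece ((wk_iff V m y).2 ⟨h1, hy⟩) h4⟩

private theorem ztype_fit {j m : ℕ} {v : List (A ⊕ Bool)}
    {z : List ((A ⊕ Bool) ⊕ ((A ⊕ Bool) ⊕ Bool))} (hz : NestT {y | Fit m y} v z) :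
    ∀ n n' : ℕ, n ≤ j → strip j n v = some n' → strip (j + m + 1) n (z.map untag) = some n' := by
  induction hz with
  | nil => intro n n' _ h; exact h
  | @letter a v z _ ih =>
    intro n n' hn h
    rcases a with a | (_ | _)
    · exact ih n n' hn h
    · simp only [strip, List.map_cons, untag] at h ⊢
      split_ifs at h ⊢
      exact ih _ _ (by omega) h
    · simp only [strip, List.map_cons, untag] at h ⊢
      split_ifs at h ⊢
      · exact ih _ _ (by omega) h
      · omega
  | @piece y v z hy _ ih =>
    intro n n' hn h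
    rw [ztype_map_piece]
    have h1 : strip (j + m + 1) (n + 1) y = some (n + 1) := by
      have h2 := strip_shift (n + 1) (show strip m 0 y = some 0 from hy)
      have h3 : (0 : ℕ) + (n + 1) = n + 1 := by omega
      rw [h3] at h2
      exact strip_mono (by omega) h2
    simp only [strip]
    rw [if_pos (by omega), strip_append, h1]
    simp only [Option.bind_some, strip]
    rw [if_neg (by omega)]
    exact ih n n' hn h

/-- One step of the automaton: outer level, inner level. -/
private def ztypeStep (j m : ℕ) : ℕ × Option ℕ → (A ⊕ Bool) ⊕ ((A ⊕ Bool) ⊕ Bool) →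
    Option (ℕ × Option ℕ)
  | (n, none), Sum.inl (Sum.inl _) => some (n, none)
  | (n, none), Sum.inl (Sum.inr true) => if n < j then some (n + 1, none) else none
  | (n, none), Sum.inl (Sum.inr false) => if n = 0 then none else some (n - 1, none)
  | (_, none), Sum.inr (Sum.inl _) => none
  | (n, none), Sum.inr (Sum.inr true) => some (n, some 0)
  | (_, none), Sum.inr (Sum.inr false) => none
  | (_, some _), Sum.inl _ => none
  | (n, some i), Sum.inr (Sum.inl (Sum.inl _)) => some (n, some i)
  | (n, some i), Sum.inr (Sum.inl (Sum.inr true)) => if i < m then some (n, some (i + 1)) else none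
  | (n, some i), Sum.inr (Sum.inl (Sum.inr false)) => if i = 0 then none else some (n, some (i - 1))
  | (_, some _), Sum.inr (Sum.inr true) => none
  | (n, some i), Sum.inr (Sum.inr false) => if i = 0 then some (n, none) else none

/-- The run of the automaton. -/
private def ztypeRun (j m : ℕ) : ℕ × Option ℕ → List ((A ⊕ Bool) ⊕ ((A ⊕ Bool) ⊕ Bool)) →
    Option (ℕ × Option ℕ)
  | s, [] => some s
  | s, a :: z => (ztypeStep j m s a).bind fun s' => ztypeRun j m s' z

private theorem ztype_run_append (j m : ℕ) (u v : List ((A ⊕ Bool) ⊕ ((A ⊕ Bool) ⊕ Bool)))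
    (s : ℕ × Option ℕ) :
    ztypeRun j m s (u ++ v) = (ztypeRun j m s u).bind fun s' => ztypeRun j m s' v := by
  induction u generalizing s with
  | nil => rfl
  | cons a u ih =>
    simp only [List.cons_append, ztypeRun]
    rw [Option.bind_assoc]
    congr 1
    funext s'
    exact ih s'

private theorem ztype_step_bound {j m : ℕ} {s s' : ℕ × Option ℕ}
    {a : (A ⊕ Bool) ⊕ ((A ⊕ Bool) ⊕ Bool)} (h : ztypeStep j m s a = some s')
    (h1 : s.1 ≤ j) (h2 : ∀ i, s.2 = some i → i ≤ m) :
    s'.1 ≤ j ∧ ∀ i, s'.2 = some i → i ≤ m := by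
  obtain ⟨n, o⟩ := s
  obtain ⟨n', o'⟩ := s'
  rcases o with _ | i <;> rcases a with (a | (_ | _)) | ((a | (_ | _)) | (_ | _)) <;>
    simp only [ztypeStep] at h <;> (try split_ifs at h) <;>
    (try simp only [reduceCtorEq, Option.some.injEq, Prod.mk.injEq] at h) <;>
    (try obtain ⟨rfl, rfl⟩ := h) <;>
    refine ⟨by simp only at h1 ⊢; omega, ?_⟩ <;> intro i' hi' <;>
    simp only [reduceCtorEq, Option.some.injEq] at hi' h2 <;> (try subst hi') <;>
    (try have := h2 _ rfl) <;> (try omega)

private theorem ztype_run_bound {j m : ℕ} {s s' : ℕ × Option ℕ}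
    {z : List ((A ⊕ Bool) ⊕ ((A ⊕ Bool) ⊕ Bool))} (h : ztypeRun j m s z = some s')
    (h1 : s.1 ≤ j) (h2 : ∀ i, s.2 = some i → i ≤ m) :
    s'.1 ≤ j ∧ ∀ i, s'.2 = some i → i ≤ m := by
  induction z generalizing s with
  | nil =>
    simp only [ztypeRun, Option.some.injEq] at h
    subst h
    exact ⟨h1, h2⟩
  | cons a z ih =>
    simp only [ztypeRun] at h
    rw [Option.bind_eq_some_iff] at h
    obtain ⟨t, h3, h4⟩ := h
    obtain ⟨h5, h6⟩ := ztype_step_bound h3 h1 h2
    exact ih h4 h5 h6

private theorem ztype_regular [Finite A] (j m : ℕ) :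
    Language.IsRegular ({z | ztypeRun j m (0, none) z = some (0, none)} :
      Language ((A ⊕ Bool) ⊕ ((A ⊕ Bool) ⊕ Bool))) := by
  apply Language.IsRegular.of_finite_range_leftQuotient
  refine ((Set.finite_range (fun p : Fin (j + 1) × Option (Fin (m + 1)) =>
    ({z | ztypeRun j m (p.1, p.2.map Fin.val) z = some (0, none)} :
      Language ((A ⊕ Bool) ⊕ ((A ⊕ Bool) ⊕ Bool))))).insert
      ({z | False} : Language ((A ⊕ Bool) ⊕ ((A ⊕ Bool) ⊕ Bool)))).subset ?_
  rintro _ ⟨x, rfl⟩
  cases hs : ztypeRun j m (0, none) x with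
  | none =>
    left
    ext z
    constructor
    · intro (h : ztypeRun j m (0, none) (x ++ z) = some (0, none))
      rw [ztype_run_append, hs] at h
      exact absurd h (by simp)
    · intro h
      exact absurd h id
  | some s =>
    right
    obtain ⟨h1, h2⟩ := ztype_run_bound hs (Nat.zero_le _) (by simp)
    obtain ⟨n, o⟩ := s
    have key : ∃ p : Fin (j + 1) × Option (Fin (m + 1)), ((p.1 : ℕ), p.2.map Fin.val) = (n, o) := by
      rcases o with _ | i
      · exact ⟨(⟨n, Nat.lt_succ_of_le h1⟩, none), rfl⟩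
      · exact ⟨(⟨n, Nat.lt_succ_of_le h1⟩, some ⟨i, Nat.lt_succ_of_le (h2 i rfl)⟩), rfl⟩
    obtain ⟨p, hp⟩ := key
    refine ⟨p, ?_⟩
    show ({z | ztypeRun j m ((p.1 : ℕ), p.2.map Fin.val) z = some (0, none)} :
      Language ((A ⊕ Bool) ⊕ ((A ⊕ Bool) ⊕ Bool))) = _
    rw [hp]
    ext z
    constructor
    · intro (h : ztypeRun j m (n, o) z = some (0, none))
      change ztypeRun j m (0, none) (x ++ z) = some (0, none)
      rw [ztype_run_append, hs]
      exact h
    · intro (h : ztypeRun j m (0, none) (x ++ z) = some (0, none))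
      rw [ztype_run_append, hs] at h
      exact h

/-- The run inside a piece. -/
private theorem ztype_run_inner (j m n : ℕ) (y : List (A ⊕ Bool)) :
    ∀ i i' : ℕ, strip m i y = some i' →
      ztypeRun j m (n, some i) (y.map fun q => Sum.inr (Sum.inl q)) = some (n, some i') := by
  induction y with
  | nil =>
    intro i i' h
    simp only [strip, Option.some.injEq] at h
    subst h
    rfl
  | cons a y ih =>
    intro i i' h
    rcases a with a | (_ | _)
    · exact ih i i' h
    · simp only [strip] at h
      split_ifs at h with h1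
      simp only [List.map_cons, ztypeRun, ztypeStep]
      rw [if_neg h1]
      exact ih _ _ h
    · simp only [strip] at h
      split_ifs at h with h1
      simp only [List.map_cons, ztypeRun, ztypeStep]
      rw [if_pos h1]
      exact ih _ _ h

private theorem ztype_run_of_nest {j m : ℕ} {v : List (A ⊕ Bool)}
    {z : List ((A ⊕ Bool) ⊕ ((A ⊕ Bool) ⊕ Bool))} (hz : NestT {y | Fit m y} v z) :
    ∀ n : ℕ, strip j n v = some 0 → ztypeRun j m (n, none) z = some (0, none) := by
  induction hz with
  | nil =>
    intro n h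
    simp only [strip, Option.some.injEq] at h
    subst h
    rfl
  | @letter a v z _ ih =>
    intro n h
    rcases a with a | (_ | _)
    · exact ih n h
    · simp only [strip] at h
      split_ifs at h with h1
      simp only [ztypeRun, ztypeStep]
      rw [if_neg h1]
      exact ih _ h
    · simp only [strip] at h
      split_ifs at h with h1
      simp only [ztypeRun, ztypeStep]
      rw [if_pos h1]
      exact ih _ h
  | @piece y v z hy _ ih =>
    intro n h
    simp only [ztypeRun, ztypeStep, Option.bind_some]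
    rw [ztype_run_append, ztype_run_inner j m n y 0 0 hy]
    simp only [Option.bind_some, ztypeRun, ztypeStep, if_true]
    exact ih n h

private theorem ztype_nest_of_run {j m : ℕ} (z : List ((A ⊕ Bool) ⊕ ((A ⊕ Bool) ⊕ Bool))) :
    (∀ n : ℕ, ztypeRun j m (n, none) z = some (0, none) →
      ∃ v, strip j n v = some 0 ∧ NestT {y | Fit m y} v z) ∧
    (∀ n i : ℕ, ztypeRun j m (n, some i) z = some (0, none) →
      ∃ y z', z = y.map (fun q => Sum.inr (Sum.inl q)) ++ Sum.inr (Sum.inr false) :: z' ∧
        strip m i y = some 0 ∧ ∃ v, strip j n v = some 0 ∧ NestT {y | Fit m y} v z') := by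
  induction z with
  | nil =>
    constructor
    · intro n h
      simp only [ztypeRun, Option.some.injEq, Prod.mk.injEq, and_true] at h
      subst h
      exact ⟨[], rfl, NestT.nil⟩
    · intro n i h
      simp [ztypeRun] at h
  | cons a z ih =>
    obtain ⟨ih1, ih2⟩ := ih
    constructor
    · intro n h
      rcases a with (a | (_ | _)) | (a | (_ | _))
      · obtain ⟨v, hv, hn⟩ := ih1 n h
        exact ⟨Sum.inl a :: v, hv, NestT.letter hn⟩
      · simp only [ztypeRun, ztypeStep] at h
        split_ifs at h with h1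
        · exact absurd h (by simp)
        · obtain ⟨v, hv, hn⟩ := ih1 _ h
          refine ⟨Sum.inr false :: v, ?_, NestT.letter hn⟩
          simp only [strip]
          rw [if_neg h1]
          exact hv
      · simp only [ztypeRun, ztypeStep] at h
        split_ifs at h with h1
        · obtain ⟨v, hv, hn⟩ := ih1 _ h
          refine ⟨Sum.inr true :: v, ?_, NestT.letter hn⟩
          simp only [strip]
          rw [if_pos h1]
          exact hv
        · exact absurd h (by simp)
      · exact absurd h (by simp [ztypeRun, ztypeStep])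
      · exact absurd h (by simp [ztypeRun, ztypeStep])
      · obtain ⟨y, z', rfl, hy, v, hv, hn⟩ := ih2 n 0 h
        exact ⟨v, hv, NestT.piece hy hn⟩
    · intro n i h
      rcases a with a | ((a | (_ | _)) | (_ | _))
      · exact absurd h (by simp [ztypeRun, ztypeStep])
      · obtain ⟨y, z', rfl, hy, hv⟩ := ih2 n i h
        exact ⟨Sum.inl a :: y, z', rfl, hy, hv⟩
      · simp only [ztypeRun, ztypeStep] at h
        split_ifs at h with h1
        · exact absurd h (by simp)
        · obtain ⟨y, z', rfl, hy, hv⟩ := ih2 _ _ h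
          refine ⟨Sum.inr false :: y, z', rfl, ?_, hv⟩
          simp only [strip]
          rw [if_neg h1]
          exact hy
      · simp only [ztypeRun, ztypeStep] at h
        split_ifs at h with h1
        · obtain ⟨y, z', rfl, hy, hv⟩ := ih2 _ _ h
          refine ⟨Sum.inr true :: y, z', rfl, ?_, hv⟩
          simp only [strip]
          rw [if_pos h1]
          exact hy
        · exact absurd h (by simp)
      · simp only [ztypeRun, ztypeStep] at h
        split_ifs at h with h1
        · subst h1
          obtain ⟨v, hv, hn⟩ := ih1 n h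
          exact ⟨[], z, rfl, rfl, v, hv, hn⟩
        · exact absurd h (by simp)
      · exact absurd h (by simp [ztypeRun, ztypeStep])

private theorem ztype_iff (V : Language A) (j m : ℕ)
    (z : List ((A ⊕ Bool) ⊕ ((A ⊕ Bool) ⊕ Bool))) :
    z ∈ InsT (Wk V (j + 1)) (Wk V (m + 1)) ↔
      z.map untag ∈ Wk V (j + m + 2) ∧ ztypeRun j m (0, none) z = some (0, none) := by
  have hk : j + m + 2 = (j + m + 1) + 1 := rfl
  constructor
  · rintro ⟨v, hv, hn⟩
    obtain ⟨hv1, hv2⟩ := (wk_iff V j v).1 hv
    have hn1 : NestT {y | Fit m y} v z := ztype_mono (fun y hy => ((wk_iff V m y).1 hy).2) hn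
    have hn2 : NestT (Winf V) v z := ztype_mono (fun y hy => ((wk_iff V m y).1 hy).1) hn
    have h1 := ztype_insert V hn2 [] hv1
    have h2 := ztype_fit hn1 0 0 (Nat.zero_le j) hv2
    refine ⟨?_, ztype_run_of_nest hn1 0 hv2⟩
    rw [hk, wk_iff]
    exact ⟨h1, h2⟩
  · rintro ⟨h1, h2⟩
    rw [hk, wk_iff] at h1
    obtain ⟨v, hv, hn⟩ := (ztype_nest_of_run z).1 0 h2
    obtain ⟨h3, h4⟩ := ztype_remove V hn [] h1.1
    exact ⟨v, (wk_iff V j v).2 ⟨h3, hv⟩, h4⟩

theorem wk_dom_insT [Finite A] (V : Language A) (j m : ℕ) :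
    Dom (Wk V (j + m + 2)) (InsT (Wk V (j + 1)) (Wk V (m + 1))) := by
  have h1 := dom_quot (Wk V (j + m + 2)) [] []
    (fun c : (A ⊕ Bool) ⊕ ((A ⊕ Bool) ⊕ Bool) => [untag c]) (fun c => [c])
  have h2 := dom_inter_regular h1 (ztype_regular (A := A) j m)
  have e : InsT (Wk V (j + 1)) (Wk V (m + 1)) =
      ({v | v ∈ ({v | ∃ w : List ((A ⊕ Bool) ⊕ ((A ⊕ Bool) ⊕ Bool)),
        [] ++ w.flatMap (fun c => [untag c]) ++ [] ∈ Wk V (j + m + 2) ∧
          w.flatMap (fun c => [c]) = v} : Language ((A ⊕ Bool) ⊕ ((A ⊕ Bool) ⊕ Bool))) ∧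
        v ∈ ({z | ztypeRun j m (0, none) z = some (0, none)} :
          Language ((A ⊕ Bool) ⊕ ((A ⊕ Bool) ⊕ Bool)))} :
        Language ((A ⊕ Bool) ⊕ ((A ⊕ Bool) ⊕ Bool))) := by
    have hid : ∀ w : List ((A ⊕ Bool) ⊕ ((A ⊕ Bool) ⊕ Bool)), w.flatMap (fun c => [c]) = w := by
      intro w
      induction w with
      | nil => rfl
      | cons a w ih => simp
    have hun : ∀ w : List ((A ⊕ Bool) ⊕ ((A ⊕ Bool) ⊕ Bool)),
        w.flatMap (fun c => [untag c]) = w.map untag := by
      intro w
      induction w with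
      | nil => rfl
      | cons a w ih => simp [ih]
    apply Set.ext
    intro z
    refine (ztype_iff V j m z).trans ?_
    constructor
    · rintro ⟨h3, h4⟩
      refine ⟨⟨z, ?_, hid z⟩, h4⟩
      rw [hun, List.nil_append, List.append_nil]
      exact h3
    · rintro ⟨⟨w, h3, h4⟩, h5⟩
      rw [hid] at h4
      subst h4
      rw [hun, List.nil_append, List.append_nil] at h3
      exact ⟨h3, h5⟩
  rw [e]
  exact h2

end Pool.Agent.H93NG
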