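import Pool.Agent.H93NG.ZFam
import Pool.Agent.H93NG.ZType
import Pool.Agent.H93NG.ZLin
import Pool.Agent.H93NG.UMain

/-!
# The bound can be chosen above the closure under substitution
-/

namespace Pool.Agent.H93NG

theorem wk_dom_mono {A : Type} [Finite A] (V : Language A) {j k : ℕ} (h : j ≤ k) :
    Dom (Wk V k) (Wk V j) := by
  cases j with
  | zero => exact dom_empty _
  | succ j =>
    have h1 := dom_inter_regular (Dom.refl (Wk V k)) (isRegular_fit (A := A) j)
    convert h1 using 1
    ext z
    constructor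
    · intro hz
      exact ⟨wk_mono V h hz, ((wk_iff V j z).1 hz).2⟩
    · rintro ⟨hz, hf⟩
      exact (wk_iff V j z).2 ⟨⟨k, hz⟩, hf⟩

/-- `Wk V 1` is `V`. -/
theorem wk_one_dom {A : Type} [Finite A] (V : Language A) : Dom (Wk V 1) V := by
  have h := dom_quot (Wk V 1) [] [] (fun a : A => [(Sum.inl a : A ⊕ Bool)]) (fun a : A => [a])
  have key : ∀ (v : List A) (z : List (A ⊕ Bool)), Nest (Wk V 0) v z → z = v.map Sum.inl := by
    intro v z hz
    induction hz with
    | nil => rfl
    | letter _ ih => rw [ih]; rfl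
    | piece hk _ _ => exact absurd hk id
  have key2 : ∀ v : List A, Nest (Wk V 0) v (v.map Sum.inl) := by
    intro v
    induction v with
    | nil => exact Nest.nil
    | cons a v ih => exact Nest.letter ih
  convert h using 1
  ext z
  simp only [flatMap_single, List.map_id', List.nil_append, List.append_nil]
  constructor
  · intro hz
    exact ⟨z, ⟨z, hz, key2 z⟩, rfl⟩
  · rintro ⟨w, ⟨v, hv, hn⟩, rfl⟩
    have h1 := key v _ hn
    have h2 := List.map_injective_iff.2 Sum.inl_injective h1
    rw [h2]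
    exact hv

theorem subCl_wk {A : Type} [Finite A] (V : Language A)
    (𝓑 : ∀ B : Type, Language B → Prop) (h𝓑 : ∀ B M, 𝓑 B M → Dom V M) {B : Type}
    {M : Language B} (h : SubCl 𝓑 B M) : ∃ k, Dom (Wk V k) M := by
  induction h with
  | base hB hM =>
    have := hB
    exact ⟨1, (wk_one_dom V).trans (h𝓑 _ _ hM)⟩
  | dom hA hB _ hd ih =>
    obtain ⟨k, hk⟩ := ih
    have := hA
    have := hB
    exact ⟨k, hk.trans hd⟩
  | @subst A' B' M f hA hB _ _ ih1 ih2 =>
    have := hA
    have := hB
    obtain ⟨j, hj⟩ := ih1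
    choose m hm using ih2
    obtain ⟨N, hN⟩ : ∃ N, ∀ a, m a ≤ N := by
      obtain ⟨N, hN⟩ := (Set.finite_range m).bddAbove
      exact ⟨N, fun a => hN ⟨a, rfl⟩⟩
    refine ⟨j + N + 2, (wk_dom_insT V j N).trans ?_⟩
    refine insT_dom ((wk_dom_mono V (by omega)).trans hj) fun a => ?_
    exact (wk_dom_mono V ((hN a).trans (by omega))).trans (hm a)

/-- A non-generator has an upper bound of its closure under transductions and substitutions. -/
theorem exists_above_subCl {A : Type} [Finite A] (V : Language A) (hV : V.IsContextFree)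
    (hN : NonGen V) :
    ∃ (A : Type) (_ : Finite A) (L : Language A), L.IsContextFree ∧ NonGen L ∧
      ∀ (B : Type) (M : Language B), Finite B → SubCl (fun _ M => Dom V M) B M → Dom L M := by
  obtain ⟨B, hB, L, hL, hLN, hLD⟩ := exists_above V hV hN
  refine ⟨B, hB, L, hL, hLN, ?_⟩
  intro B' M hB' hM
  obtain ⟨k, hk⟩ := subCl_wk V _ (fun _ _ h => h) hM
  exact (hLD k).trans hk

/-- The closure is monotone. -/
theorem SubCl.mono {𝓑 𝓑' : ∀ B : Type, Language B → Prop}
    (h : ∀ B M, Finite B → 𝓑 B M → 𝓑' B M) {B : Type} {M : Language B} (hM : SubCl 𝓑 B M) :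
    SubCl 𝓑' B M := by
  induction hM with
  | base hB hM => exact SubCl.base hB (h _ _ hB hM)
  | dom hA hB _ hd ih => exact SubCl.dom hA hB ih hd
  | subst hA hB _ _ ih1 ih2 => exact SubCl.subst hA hB ih1 ih2

/-- Recursively enumerable families, with the closure under substitution. -/
theorem exists_bound_gnf_subCl {n : ℕ} (W : Set (Gnf n)) (hW : REPred fun G => G ∈ W)
    (hN : ∀ G ∈ W, NonGen G.lang) :
    ∃ (A : Type) (_ : Finite A) (L : Language A), L.IsContextFree ∧ NonGen L ∧
      ∀ (B : Type) (M : Language B), Finite B →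
        SubCl (fun _ M => ∃ G ∈ W, Dom G.lang M) B M → Dom L M := by
  obtain ⟨A, _, V, hV, hVN, hVD⟩ := exists_bound_gnf W hW hN
  obtain ⟨A', hA', L, hL, hLN, hLD⟩ := exists_above_subCl V hV hVN
  refine ⟨A', hA', L, hL, hLN, ?_⟩
  intro B M hB hM
  refine hLD B M hB (hM.mono ?_)
  rintro B' M' hB' ⟨G, hG, h⟩
  exact (hVD G hG).trans h

/-- There is a context-free non-generator above all quasi-rational languages. -/
theorem exists_above_quasirational :
    ∃ (A : Type) (_ : Finite A) (L : Language A), L.IsContextFree ∧ NonGen L ∧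
      ∀ (B : Type) (M : Language B), Finite B → SubCl (fun _ M => Dom Lin2 M) B M → Dom L M :=
  exists_above_subCl Lin2 lin2_isContextFree ((nonGen_iff _).2 lin2_not_dom)

end Pool.Agent.H93NG
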