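import Pool.Agent.H93NG.SDefs
import Pool.Agent.H93NG.RR

/-!
# Typed insertions dominate substitutions

`InsT X Y`: words of `X` (letters `inl`) with pieces from `Y` (letters `inr (inl _)`, brackets
`inr (inr _)`) inserted anywhere.

PROOF of `insT_dom`. Step 1: the language
`M' = {a₁ <y₁> a₂ <y₂> ... aₙ <yₙ> | a₁ ... aₙ ∈ M, yᵢ ∈ Y}` over `A ⊕ (Q ⊕ Bool)` is dominated by
`InsT X Y`: take a transducer `δ, s, f` for `M` from `X` (`tdom_of_dom`) with states `σ`; new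
transducer with states `σ ⊕ (σ ⊕ σ)` (outside, want a piece, copy a piece): from `p` outside a move
`p, u, none, q` is simulated reading `u` (with `inl`), a move `p, u, some a, q` writes `inl a` and
goes to `want q`; `want q` copies the opening bracket and goes to `copy q`; `copy q` copies letters
`inr (inl _)` and, with the closing bracket, goes to `q` outside. (So pieces are read exactly after
each output letter.) `z' ∈ M'` iff there is `z ∈ InsT X Y` and a path reading `z` and writing `z'`: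
two inductions on paths.
Step 2: with transducers `T a` for `f a` from `Y`, the relation `Star` of the union over `a` of
`(inl a / ε) (< / ε) T a (> / ε)` (in `RR.lean`: `RR.single`, `RR.mul`, `RR.iSup`, `RR.star`; `T a`
reads letters with the tag `inr (inl _)`: compose with a renaming) maps `M'` onto `Subst M f`.
`RR.dom` and `Dom.trans`.
-/

namespace Pool.Agent.H93NG

variable {P Q : Type}

/-- `NestT Y v z`: `z` is `v` with typed pieces from `Y` inserted. -/
inductive NestT (Y : Set (List Q)) : List P → List (P ⊕ (Q ⊕ Bool)) → Prop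
  | nil : NestT Y [] []
  | letter {a : P} {v : List P} {z : List (P ⊕ (Q ⊕ Bool))} :
      NestT Y v z → NestT Y (a :: v) (Sum.inl a :: z)
  | piece {y : List Q} {v : List P} {z : List (P ⊕ (Q ⊕ Bool))} :
      y ∈ Y → NestT Y v z → NestT Y v (Sum.inr (Sum.inr true) ::
        (y.map (fun q => Sum.inr (Sum.inl q)) ++ Sum.inr (Sum.inr false) :: z))

/-- Typed insertion. -/
def InsT (X : Language P) (Y : Language Q) : Language (P ⊕ (Q ⊕ Bool)) :=
  {z | ∃ v ∈ X, NestT Y v z}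

private abbrev zmO {R : Type} : R ⊕ (Q ⊕ Bool) := Sum.inr (Sum.inr true)

private abbrev zmC {R : Type} : R ⊕ (Q ⊕ Bool) := Sum.inr (Sum.inr false)

private abbrev zmT {R : Type} (y : List Q) : List (R ⊕ (Q ⊕ Bool)) :=
  y.map (fun q => Sum.inr (Sum.inl q))

private theorem zm_cancel {R : Type} : ∀ (y y' : List Q) (z z' : List (R ⊕ (Q ⊕ Bool))),
    zmT y ++ zmC :: z = zmT y' ++ zmC :: z' → y = y' ∧ z = z'
  | [], [], z, z', h => by
    simp only [List.map_nil, List.nil_append, List.cons.injEq, true_and] at h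
    exact ⟨rfl, h⟩
  | [], q :: y', z, z', h => by simp at h
  | q :: y, [], z, z', h => by simp at h
  | q :: y, q' :: y', z, z', h => by
    simp only [List.map_cons, List.cons_append, List.cons.injEq, Sum.inr.injEq,
      Sum.inl.injEq] at h
    obtain ⟨rfl, h⟩ := h
    obtain ⟨rfl, rfl⟩ := zm_cancel y y' z z' h
    exact ⟨rfl, rfl⟩

/-- `ZmFol Y v z`: `z` is `v` with a piece from `Y` after each letter. -/
private inductive ZmFol {R : Type} (Y : Set (List Q)) : List R → List (R ⊕ (Q ⊕ Bool)) → Prop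
  | nil : ZmFol Y [] []
  | cons {a : R} {y : List Q} {v : List R} {z : List (R ⊕ (Q ⊕ Bool))} :
      y ∈ Y → ZmFol Y v z → ZmFol Y (a :: v) (Sum.inl a :: zmO :: (zmT y ++ zmC :: z))

private inductive ZmMv {A σ : Type} (δ : σ → Option P → Option A → σ → Prop) :
    σ ⊕ (σ ⊕ σ) → Option (P ⊕ (Q ⊕ Bool)) → Option (A ⊕ (Q ⊕ Bool)) → σ ⊕ (σ ⊕ σ) → Prop
  | sil0 {p q : σ} : δ p none none q → ZmMv δ (Sum.inl p) none none (Sum.inl q)
  | sil1 {p q : σ} {u : P} :
      δ p (some u) none q → ZmMv δ (Sum.inl p) (some (Sum.inl u)) none (Sum.inl q)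
  | out0 {p q : σ} {a : A} :
      δ p none (some a) q → ZmMv δ (Sum.inl p) none (some (Sum.inl a)) (Sum.inr (Sum.inl q))
  | out1 {p q : σ} {u : P} {a : A} : δ p (some u) (some a) q →
      ZmMv δ (Sum.inl p) (some (Sum.inl u)) (some (Sum.inl a)) (Sum.inr (Sum.inl q))
  | opn {q : σ} : ZmMv δ (Sum.inr (Sum.inl q)) (some zmO) (some zmO) (Sum.inr (Sum.inr q))
  | cpy {q : σ} {x : Q} : ZmMv δ (Sum.inr (Sum.inr q)) (some (Sum.inr (Sum.inl x)))
      (some (Sum.inr (Sum.inl x))) (Sum.inr (Sum.inr q))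
  | cls {q : σ} : ZmMv δ (Sum.inr (Sum.inr q)) (some zmC) (some zmC) (Sum.inl q)

private theorem zm_piece {A σ : Type} {δ : σ → Option P → Option A → σ → Prop} {q : σ}
    (y : List Q) {z : List (P ⊕ (Q ⊕ Bool))} {z' : List (A ⊕ (Q ⊕ Bool))} {r : σ ⊕ (σ ⊕ σ)}
    (h : Path (ZmMv δ) (Sum.inl q) z z' r) :
    Path (ZmMv δ) (Sum.inr (Sum.inl q)) (zmO :: (zmT y ++ zmC :: z))
      (zmO :: (zmT y ++ zmC :: z')) r := by
  have h1 : Path (ZmMv δ) (Sum.inr (Sum.inr q)) (zmT y ++ zmC :: z) (zmT y ++ zmC :: z') r := by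
    induction y with
    | nil =>
      have := Path.cons (ZmMv.cls (δ := δ) (Q := Q) (q := q)) h
      simpa using this
    | cons a y ih =>
      have := Path.cons (ZmMv.cpy (δ := δ) (Q := Q) (q := q) (x := a)) ih
      simpa using this
  have := Path.cons (ZmMv.opn (δ := δ) (Q := Q) (q := q)) h1
  simpa using this

private theorem zm_forward {A σ : Type} {δ : σ → Option P → Option A → σ → Prop} {p r : σ}
    {Y : Set (List Q)} {u : List P} {v : List A} (h : Path δ p u v r) :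
    ∀ z' : List (A ⊕ (Q ⊕ Bool)), ZmFol Y v z' →
      ∃ z, NestT Y u z ∧ Path (ZmMv δ) (Sum.inl p) z z' (Sum.inl r) := by
  induction h with
  | nil p =>
    intro z' hz'
    cases hz'
    exact ⟨[], NestT.nil, Path.nil _⟩
  | @cons p q r a b u v hd _ ih =>
    intro z' hz'
    cases b with
    | none =>
      obtain ⟨z, hz, hp⟩ := ih z' hz'
      cases a with
      | none => exact ⟨z, hz, Path.cons (ZmMv.sil0 hd) hp⟩
      | some a => exact ⟨Sum.inl a :: z, NestT.letter hz, Path.cons (ZmMv.sil1 hd) hp⟩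
    | some b =>
      cases hz' with
      | @cons _ y _ z₁ hy hz₁ =>
        obtain ⟨z, hz, hp⟩ := ih z₁ hz₁
        have h2 := zm_piece y hp
        cases a with
        | none => exact ⟨_, NestT.piece hy hz, Path.cons (ZmMv.out0 hd) h2⟩
        | some a => exact ⟨_, NestT.letter (NestT.piece hy hz), Path.cons (ZmMv.out1 hd) h2⟩

private theorem zm_nest_letter {Y : Set (List Q)} {u : List P} {a : P}
    {z : List (P ⊕ (Q ⊕ Bool))} (h : NestT Y u (Sum.inl a :: z)) :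
    ∃ u', u = a :: u' ∧ NestT Y u' z := by
  cases h with
  | letter h => exact ⟨_, rfl, h⟩

private theorem zm_nest_open {Y : Set (List Q)} {u : List P}
    {z : List (P ⊕ (Q ⊕ Bool))} (h : NestT Y u (zmO :: z)) :
    ∃ y z', y ∈ Y ∧ NestT Y u z' ∧ z = zmT y ++ zmC :: z' := by
  cases h with
  | piece hy h => exact ⟨_, _, hy, h, rfl⟩

private theorem zm_backward {A σ : Type} {δ : σ → Option P → Option A → σ → Prop} {r : σ}
    {Y : Set (List Q)} {x t : σ ⊕ (σ ⊕ σ)} {z : List (P ⊕ (Q ⊕ Bool))}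
    {z' : List (A ⊕ (Q ⊕ Bool))} (h : Path (ZmMv δ) x z z' t) : t = Sum.inl r →
    (∀ p, x = Sum.inl p → ∀ u, NestT Y u z → ∃ v, Path δ p u v r ∧ ZmFol Y v z') ∧
    (∀ q, x = Sum.inr (Sum.inl q) → ∀ u, NestT Y u z → ∃ y ∈ Y, ∃ v z'',
      z' = zmO :: (zmT y ++ zmC :: z'') ∧ Path δ q u v r ∧ ZmFol Y v z'') ∧
    (∀ q, x = Sum.inr (Sum.inr q) → ∀ y u z₁, NestT Y u z₁ → z = zmT y ++ zmC :: z₁ →
      ∃ v z'', z' = zmT y ++ zmC :: z'' ∧ Path δ q u v r ∧ ZmFol Y v z'') := by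
  induction h with
  | nil p =>
    rintro rfl
    refine ⟨?_, ?_, ?_⟩
    · intro p hp u hu
      cases hp
      cases hu
      exact ⟨[], Path.nil _, ZmFol.nil⟩
    · intro q hq
      cases hq
    · intro q hq
      cases hq
  | cons hd _ ih =>
    intro ht
    obtain ⟨ih1, ih2, ih3⟩ := ih ht
    refine ⟨?_, ?_, ?_⟩
    · rintro p rfl u hu
      cases hd with
      | sil0 hd =>
        obtain ⟨v, hv, hf⟩ := ih1 _ rfl u hu
        exact ⟨v, Path.cons hd hv, hf⟩
      | sil1 hd =>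
        obtain ⟨u', rfl, hu'⟩ := zm_nest_letter hu
        obtain ⟨v, hv, hf⟩ := ih1 _ rfl u' hu'
        exact ⟨v, Path.cons hd hv, hf⟩
      | out0 hd =>
        obtain ⟨y, hy, v, z'', rfl, hv, hf⟩ := ih2 _ rfl u hu
        exact ⟨_, Path.cons hd hv, ZmFol.cons hy hf⟩
      | out1 hd =>
        obtain ⟨u', rfl, hu'⟩ := zm_nest_letter hu
        obtain ⟨y, hy, v, z'', rfl, hv, hf⟩ := ih2 _ rfl u' hu'
        exact ⟨_, Path.cons hd hv, ZmFol.cons hy hf⟩
    · rintro q rfl u hu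
      cases hd with
      | opn =>
        obtain ⟨y, z₁, hy, hn, rfl⟩ := zm_nest_open hu
        obtain ⟨v, z'', rfl, hv, hf⟩ := ih3 _ rfl y u z₁ hn rfl
        exact ⟨y, hy, v, z'', rfl, hv, hf⟩
    · rintro q rfl y u z₁ hn hz
      cases hd with
      | cpy =>
        cases y with
        | nil => simp at hz
        | cons a y =>
          simp only [Option.toList_some, List.map_cons, List.cons_append, List.nil_append,
            List.cons.injEq, Sum.inr.injEq, Sum.inl.injEq] at hz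
          obtain ⟨rfl, rfl⟩ := hz
          obtain ⟨v, z'', rfl, hv, hf⟩ := ih3 _ rfl y u z₁ hn rfl
          exact ⟨v, z'', rfl, hv, hf⟩
      | cls =>
        cases y with
        | nil =>
          simp only [Option.toList_some, List.map_nil, List.cons_append, List.nil_append,
            List.cons.injEq, true_and] at hz
          subst hz
          obtain ⟨v, hv, hf⟩ := ih1 _ rfl u hn
          exact ⟨v, _, rfl, hv, hf⟩
        | cons a y => simp at hz

private theorem zm_step1 {A : Type} [Finite P] [Finite Q] [Finite A] {X : Language P}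
    {Y : Language Q} {M : Language A} (hM : Dom X M) :
    Dom (InsT X Y) ({z | ∃ v ∈ M, ZmFol Y v z} : Language (A ⊕ (Q ⊕ Bool))) := by
  obtain ⟨σ, hσ, δ, s, f, h⟩ := tdom_of_dom hM
  refine dom_of_tdom ⟨σ ⊕ (σ ⊕ σ), inferInstance, ZmMv δ, Sum.inl s, Sum.inl f, ?_⟩
  intro z'
  constructor
  · rintro ⟨v, hv, hf⟩
    obtain ⟨u, hu, hp⟩ := (h v).mp hv
    obtain ⟨z, hz, hzp⟩ := zm_forward hp z' hf
    exact ⟨z, ⟨u, hu, hz⟩, hzp⟩
  · rintro ⟨z, ⟨u, hu, hz⟩, hzp⟩
    obtain ⟨v, hv, hf⟩ := (zm_backward (Y := Y) hzp rfl).1 s rfl u hz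
    exact ⟨v, (h v).mpr ⟨u, hu, hv⟩, hf⟩

private theorem zm_tag {A B σ : Type} (δ : σ → Option Q → Option B → σ → Prop) (s f : σ)
    (u : List (A ⊕ (Q ⊕ Bool))) (v : List B) :
    (∃ u₀ : List Q, u = zmT u₀ ∧ Path δ s u₀ v f) ↔
      Path (fun p x b q => ∃ y : Option Q, x = y.map (fun q => Sum.inr (Sum.inl q)) ∧ δ p y b q)
        s u v f := by
  constructor
  · rintro ⟨u₀, rfl, h⟩
    induction h with
    | nil p => exact Path.nil _
    | @cons p q r a b u v hd _ ih =>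
      have := Path.cons (δ := fun p x b q => ∃ y : Option Q, x = y.map (fun q =>
        (Sum.inr (Sum.inl q) : A ⊕ (Q ⊕ Bool))) ∧ δ p y b q) ⟨a, rfl, hd⟩ ih
      cases a with
      | none => simpa using this
      | some a => simpa using this
  · intro h
    induction h with
    | nil p => exact ⟨[], rfl, Path.nil _⟩
    | cons hd _ ih =>
      obtain ⟨y, rfl, hd⟩ := hd
      obtain ⟨u₀, rfl, hu⟩ := ih
      refine ⟨y.toList ++ u₀, ?_, Path.cons hd hu⟩
      cases y <;> simp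

theorem insT_dom {A B : Type} [Finite P] [Finite Q] [Finite A] [Finite B] {X : Language P}
    {Y : Language Q} {M : Language A} {f : A → Language B} (hM : Dom X M)
    (hf : ∀ a, Dom Y (f a)) : Dom (InsT X Y) (Subst M f) := by
  obtain h1 := zm_step1 (Y := Y) hM
  choose τ hτ ε s t hε using fun a => tdom_of_dom (hf a)
  have hr : ∀ a, RR (fun (u : List (A ⊕ (Q ⊕ Bool))) (v : List B) =>
      ∃ u₁ u₂ v₁ v₂, u = u₁ ++ u₂ ∧ v = v₁ ++ v₂ ∧ (u₁ = [Sum.inl a, zmO] ∧ v₁ = []) ∧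
        ∃ u₃ u₄ v₃ v₄, u₂ = u₃ ++ u₄ ∧ v₂ = v₃ ++ v₄ ∧
          (∃ u₀ : List Q, u₃ = zmT u₀ ∧ Path (ε a) (s a) u₀ v₃ (t a)) ∧
            (u₄ = [zmC] ∧ v₄ = [])) := by
    intro a
    have h2 : RR (fun (u : List (A ⊕ (Q ⊕ Bool))) (v : List B) =>
        ∃ u₀ : List Q, u = zmT u₀ ∧ Path (ε a) (s a) u₀ v (t a)) :=
      ⟨τ a, hτ a, _, s a, t a, fun u v => zm_tag (ε a) (s a) (t a) u v⟩
    exact RR.mul (RR.word [Sum.inl a, zmO] []) (RR.mul h2 (RR.word [zmC] []))
  have h3 := RR.dom (RR.star (RR.iSup hr))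
    ({z | ∃ v ∈ M, ZmFol Y v z} : Language (A ⊕ (Q ⊕ Bool)))
  have h4 := h1.trans h3
  have key : Subst M f = {w | ∃ z ∈ ({z | ∃ v ∈ M, ZmFol Y v z} : Language (A ⊕ (Q ⊕ Bool))),
      Star (fun u v => ∃ a, ∃ u₁ u₂ v₁ v₂, u = u₁ ++ u₂ ∧ v = v₁ ++ v₂ ∧
        (u₁ = [Sum.inl a, zmO] ∧ v₁ = []) ∧
        ∃ u₃ u₄ v₃ v₄, u₂ = u₃ ++ u₄ ∧ v₂ = v₃ ++ v₄ ∧
          (∃ u₀ : List Q, u₃ = zmT u₀ ∧ Path (ε a) (s a) u₀ v₃ (t a)) ∧
            (u₄ = [zmC] ∧ v₄ = [])) z w} := by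
    apply Set.ext
    intro w
    constructor
    · rintro ⟨u, hu, vs, hvs, rfl⟩
      have h5 : ∃ z, ZmFol Y u z ∧ Star (fun u v => ∃ a, ∃ u₁ u₂ v₁ v₂, u = u₁ ++ u₂ ∧
          v = v₁ ++ v₂ ∧ (u₁ = [Sum.inl a, zmO] ∧ v₁ = []) ∧
          ∃ u₃ u₄ v₃ v₄, u₂ = u₃ ++ u₄ ∧ v₂ = v₃ ++ v₄ ∧
          (∃ u₀ : List Q, u₃ = zmT u₀ ∧ Path (ε a) (s a) u₀ v₃ (t a)) ∧
            (u₄ = [zmC] ∧ v₄ = [])) z vs.flatten := by
        clear hu
        induction hvs with
        | nil => exact ⟨[], ZmFol.nil, Star.nil⟩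
        | @cons a v u vs hav _ ih =>
          obtain ⟨z, hz, hst⟩ := ih
          obtain ⟨y, hy, hp⟩ := (hε a v).mp hav
          refine ⟨Sum.inl a :: zmO :: (zmT y ++ zmC :: z), ZmFol.cons hy hz, ?_⟩
          have h6 := Star.cons (ρ := fun u v => ∃ a, ∃ u₁ u₂ v₁ v₂, u = u₁ ++ u₂ ∧
            v = v₁ ++ v₂ ∧ (u₁ = [Sum.inl a, zmO] ∧ v₁ = []) ∧
            ∃ u₃ u₄ v₃ v₄, u₂ = u₃ ++ u₄ ∧ v₂ = v₃ ++ v₄ ∧
            (∃ u₀ : List Q, u₃ = zmT u₀ ∧ Path (ε a) (s a) u₀ v₃ (t a)) ∧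
            (u₄ = [zmC] ∧ v₄ = []))
            (u := [Sum.inl a, zmO] ++ (zmT y ++ [zmC])) (v := [] ++ (v ++ []))
            ⟨a, _, _, _, _, rfl, rfl, ⟨rfl, rfl⟩, _, _, _, _, rfl, rfl, ⟨y, rfl, hp⟩, rfl, rfl⟩ hst
          simpa using h6
      obtain ⟨z, hz, hst⟩ := h5
      exact ⟨z, ⟨u, hu, hz⟩, hst⟩
    · rintro ⟨z, ⟨u, hu, hz⟩, hst⟩
      refine ⟨u, hu, ?_⟩
      clear hu
      induction hst generalizing u with
      | nil =>
        cases hz
        exact ⟨[], List.Forall₂.nil, rfl⟩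
      | cons hk _ ih =>
        obtain ⟨a, _, _, _, _, rfl, rfl, ⟨rfl, rfl⟩, _, _, _, _, rfl, rfl, ⟨y, rfl, hp⟩, rfl, rfl⟩ := hk
        generalize hzz : ([Sum.inl a, zmO] ++ (zmT y ++ [zmC]) ++ _ :
          List (A ⊕ (Q ⊕ Bool))) = zz at hz
        cases hz with
        | nil => simp at hzz
        | @cons b y' v' z' hy' hz' =>
          simp only [List.cons_append, List.nil_append, List.append_assoc, List.cons.injEq,
            Sum.inl.injEq, true_and] at hzz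
          obtain ⟨rfl, hzz⟩ := hzz
          obtain ⟨rfl, rfl⟩ := zm_cancel _ _ _ _ hzz
          obtain ⟨vs, hvs, rfl⟩ := ih _ hz'
          refine ⟨_ :: vs, List.Forall₂.cons ((hε a _).mpr ⟨y, hy', hp⟩) hvs, ?_⟩
          simp
  rw [key]
  exact h4

end Pool.Agent.H93NG
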