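import Pool.Agent.H93NG.ZDefs
import Pool.Agent.H93NG.Reg

/-!
# Bracket levels of nested insertions
-/

namespace Pool.Agent.H93NG

variable {A : Type}

theorem strip_append (k : ℕ) (u v : List (A ⊕ Bool)) (n : ℕ) :
    strip k n (u ++ v) = (strip k n u).bind fun m => strip k m v := by
  induction u generalizing n with
  | nil => rfl
  | cons a u ih =>
    rcases a with a | (_ | _)
    · simp only [List.cons_append, strip]
      exact ih n
    · simp only [List.cons_append, strip]
      split_ifs
      · rfl
      · exact ih _
    · simp only [List.cons_append, strip]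
      split_ifs
      · exact ih _
      · rfl

theorem strip_mono {k k' n m : ℕ} {z : List (A ⊕ Bool)} (hk : k ≤ k')
    (h : strip k n z = some m) : strip k' n z = some m := by
  induction z generalizing n with
  | nil => exact h
  | cons a z ih =>
    rcases a with a | (_ | _)
    · exact ih h
    · simp only [strip] at h ⊢
      split_ifs at h ⊢
      · exact ih h
    · simp only [strip] at h ⊢
      split_ifs at h ⊢ with h1 h2 h2
      · exact ih h
      · omega

theorem strip_shift {k n m : ℕ} {z : List (A ⊕ Bool)} (c : ℕ) (h : strip k n z = some m) :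
    strip (k + c) (n + c) z = some (m + c) := by
  induction z generalizing n with
  | nil =>
    simp only [strip, Option.some.injEq] at h ⊢
    omega
  | cons a z ih =>
    rcases a with a | (_ | _)
    · exact ih h
    · simp only [strip] at h ⊢
      split_ifs at h ⊢ with h1 h2
      · omega
      · have h3 := ih h
        have h4 : n - 1 + c = n + c - 1 := by omega
        rwa [h4] at h3
    · simp only [strip] at h ⊢
      split_ifs at h ⊢ with h1 h2
      · have h3 := ih h
        have h4 : n + 1 + c = n + c + 1 := by omega
        rwa [h4] at h3
      · omega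

/-- Two strips with different bounds agree when both are defined. -/
private theorem zstrip_agree {k k' n m m' : ℕ} {z : List (A ⊕ Bool)}
    (h : strip k n z = some m) (h' : strip k' n z = some m') : m = m' := by
  have h1 := strip_mono (le_max_left k k') h
  have h2 := strip_mono (le_max_right k k') h'
  rw [h1] at h2
  exact Option.some.inj h2

private theorem zstrip_fit_close {k : ℕ} {y t : List (A ⊕ Bool)} (h : Fit k y) :
    strip k 0 (y ++ Sum.inr false :: t) = none := by
  rw [strip_append, h]
  rfl

theorem strip_unique {k k' : ℕ} {y y' z z' : List (A ⊕ Bool)} (h : Fit k y) (h' : Fit k' y')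
    (e : y ++ Sum.inr false :: z = y' ++ Sum.inr false :: z') : y = y' ∧ z = z' := by
  rw [List.append_eq_append_iff] at e
  rcases e with ⟨t, h1, h2⟩ | ⟨t, h1, h2⟩
  · cases t with
    | nil =>
      simp only [List.append_nil] at h1
      simp only [List.nil_append, List.cons.injEq, true_and] at h2
      exact ⟨h1.symm, h2⟩
    | cons a t =>
      simp only [List.cons_append, List.cons.injEq] at h2
      obtain ⟨rfl, h3⟩ := h2
      have h4 : strip (max k k') 0 y' = some 0 := strip_mono (le_max_right k k') h'
      have h5 : Fit (max k k') y := strip_mono (le_max_left k k') h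
      rw [h1, zstrip_fit_close h5] at h4
      exact absurd h4 (by simp)
  · cases t with
    | nil =>
      simp only [List.append_nil] at h1
      simp only [List.nil_append, List.cons.injEq, true_and] at h2
      exact ⟨h1, h2.symm⟩
    | cons a t =>
      simp only [List.cons_append, List.cons.injEq] at h2
      obtain ⟨rfl, h3⟩ := h2
      have h4 : strip (max k k') 0 y = some 0 := strip_mono (le_max_left k k') h
      have h5 : Fit (max k k') y' := strip_mono (le_max_right k k') h'
      rw [h1, zstrip_fit_close h5] at h4
      exact absurd h4 (by simp)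

theorem nest_mono {K K' : Set (List (A ⊕ Bool))} (h : ∀ k ∈ K, k ∈ K') {v : List A}
    {z : List (A ⊕ Bool)} (hz : Nest K v z) : Nest K' v z := by
  induction hz with
  | nil => exact Nest.nil
  | letter _ ih => exact Nest.letter ih
  | piece hk _ ih => exact Nest.piece (h _ hk) ih

private theorem zstrip_wk_succ (V : Language A) (k : ℕ) {z : List (A ⊕ Bool)}
    (hz : z ∈ Wk V k) : z ∈ Wk V (k + 1) := by
  induction k generalizing z with
  | zero => exact absurd hz id
  | succ k ih =>
    obtain ⟨v, hv, hn⟩ := hz
    exact ⟨v, hv, nest_mono (fun y hy => ih hy) hn⟩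

theorem wk_mono (V : Language A) {j k : ℕ} (h : j ≤ k) {z : List (A ⊕ Bool)}
    (hz : z ∈ Wk V j) : z ∈ Wk V k := by
  induction h with
  | refl => exact hz
  | step _ ih => exact zstrip_wk_succ V _ ih

theorem winf_iff (V : Language A) (z : List (A ⊕ Bool)) :
    z ∈ Winf V ↔ ∃ v ∈ V, Nest (Winf V) v z := by
  constructor
  · rintro ⟨k, hk⟩
    cases k with
    | zero => exact absurd hk id
    | succ k =>
      obtain ⟨v, hv, hn⟩ := hk
      exact ⟨v, hv, nest_mono (fun y (hy : y ∈ Wk V k) => (⟨k, hy⟩ : y ∈ Winf V)) hn⟩
  · rintro ⟨v, hv, hn⟩
    have key : ∀ {v : List A} {z : List (A ⊕ Bool)}, Nest (Winf V) v z →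
        ∃ k, Nest (Wk V k) v z := by
      intro v z h
      induction h with
      | nil => exact ⟨0, Nest.nil⟩
      | letter _ ih =>
        obtain ⟨k, hk⟩ := ih
        exact ⟨k, Nest.letter hk⟩
      | piece hy _ ih =>
        obtain ⟨k, hk⟩ := ih
        obtain ⟨j, hj⟩ := hy
        exact ⟨max j k, Nest.piece (wk_mono V (le_max_left j k) hj)
          (nest_mono (fun y hy => wk_mono V (le_max_right j k) hy) hk)⟩
    obtain ⟨k, hk⟩ := key hn
    exact ⟨k + 1, v, hv, hk⟩

private theorem zstrip_wk_fit (V : Language A) (k : ℕ) {z : List (A ⊕ Bool)}
    (hz : z ∈ Wk V (k + 1)) : Fit k z := by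
  induction k generalizing z with
  | zero =>
    obtain ⟨v, -, hn⟩ := hz
    induction hn with
    | nil => rfl
    | letter _ ih => exact ih
    | piece hk _ _ => exact absurd hk id
  | succ k ih =>
    obtain ⟨v, -, hn⟩ := hz
    induction hn with
    | nil => rfl
    | letter _ ih' => exact ih'
    | @piece y v z hy _ ih' =>
      have h1 : strip (k + 1) 1 y = some 1 := by
        have h2 := strip_shift 1 (ih hy)
        simpa using h2
      unfold Fit
      simp only [strip]
      rw [if_pos (by omega), strip_append, h1]
      simp only [Option.bind_some, strip]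
      rw [if_neg (by omega)]
      exact ih'

/-- The level inside a piece: if it is defined from `n + 1` and the word is balanced, then it is
defined from `n` with the smaller bound. -/
private theorem zstrip_down {k j n m c : ℕ} {z : List (A ⊕ Bool)}
    (h : strip j n z = some m) (h' : strip k (n + c) z = some (m + c)) (hn : c + n ≤ k) :
    strip (k - c) n z = some m := by
  induction z generalizing n with
  | nil => exact h
  | cons a z ih =>
    rcases a with a | (_ | _)
    · exact ih h h' hn
    · simp only [strip] at h h' ⊢
      split_ifs at h h' ⊢ with h1 h2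
      · have h3 : n + c - 1 = n - 1 + c := by omega
        rw [h3] at h'
        exact ih h h' (by omega)
    · simp only [strip] at h h' ⊢
      split_ifs at h h' ⊢ with h1 h2 h3
      · have h4 : n + c + 1 = n + 1 + c := by omega
        rw [h4] at h'
        exact ih h h' (by omega)
      · omega

private theorem zstrip_bal (V : Language A) {y : List (A ⊕ Bool)} (hy : y ∈ Winf V) :
    ∃ j, Fit j y := by
  obtain ⟨k, hk⟩ := hy
  cases k with
  | zero => exact absurd hk id
  | succ k => exact ⟨k, zstrip_wk_fit V k hk⟩

private theorem zstrip_fit_wk (V : Language A) (k : ℕ) {z : List (A ⊕ Bool)}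
    (hz : z ∈ Winf V) (hf : Fit k z) : z ∈ Wk V (k + 1) := by
  induction k generalizing z with
  | zero =>
    obtain ⟨v, hv, hn⟩ := (winf_iff V z).1 hz
    refine ⟨v, hv, ?_⟩
    clear hz hv
    induction hn with
    | nil => exact Nest.nil
    | letter _ ih => exact Nest.letter (ih hf)
    | piece _ _ _ =>
      unfold Fit at hf
      simp [strip] at hf
  | succ k ih =>
    obtain ⟨v, hv, hn⟩ := (winf_iff V z).1 hz
    refine ⟨v, hv, ?_⟩
    clear hz hv
    induction hn with
    | nil => exact Nest.nil
    | letter _ ih' => exact Nest.letter (ih' hf)
    | @piece y v z hy _ ih' =>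
      unfold Fit at hf
      simp only [strip] at hf
      rw [if_pos (by omega), strip_append] at hf
      obtain ⟨j, hj⟩ := zstrip_bal V hy
      cases hs : strip (k + 1) 1 y with
      | none =>
        rw [hs] at hf
        exact absurd hf (by simp)
      | some m =>
        have h1 : strip (j + 1) 1 y = some 1 := by
          have h2 := strip_shift 1 hj
          simpa using h2
        have h2 : m = 1 := zstrip_agree hs h1
        subst h2
        have hy' : Fit k y := zstrip_down (c := 1) (k := k + 1) hj (by simpa using hs) (by omega)
        rw [hs] at hf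
        simp only [Option.bind_some, strip] at hf
        rw [if_neg (by omega)] at hf
        exact Nest.piece (ih hy hy') (ih' hf)

theorem wk_iff (V : Language A) (k : ℕ) (z : List (A ⊕ Bool)) :
    z ∈ Wk V (k + 1) ↔ z ∈ Winf V ∧ Fit k z :=
  ⟨fun h => ⟨⟨k + 1, h⟩, zstrip_wk_fit V k h⟩, fun h => zstrip_fit_wk V k h.1 h.2⟩

private theorem zstrip_bound {k n m : ℕ} {z : List (A ⊕ Bool)} (hn : n ≤ k)
    (h : strip k n z = some m) : m ≤ k := by
  induction z generalizing n with
  | nil =>
    simp only [strip, Option.some.injEq] at h
    omega
  | cons a z ih =>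
    rcases a with a | (_ | _)
    · exact ih hn h
    · simp only [strip] at h
      split_ifs at h
      · exact ih (by omega) h
    · simp only [strip] at h
      split_ifs at h
      · exact ih (by omega) h

theorem isRegular_fit [Finite A] (k : ℕ) :
    Language.IsRegular ({z | Fit k z} : Language (A ⊕ Bool)) := by
  apply Language.IsRegular.of_finite_range_leftQuotient
  refine ((Set.finite_range (fun n : Fin (k + 1) =>
    ({z | strip k n z = some 0} : Language (A ⊕ Bool)))).insert
      ({z | False} : Language (A ⊕ Bool))).subset ?_
  rintro _ ⟨x, rfl⟩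
  cases hs : strip k 0 x with
  | none =>
    left
    ext z
    constructor
    · intro (h : strip k 0 (x ++ z) = some 0)
      rw [strip_append, hs] at h
      exact absurd h (by simp)
    · intro h
      exact absurd h id
  | some m =>
    right
    refine ⟨⟨m, by have := zstrip_bound (Nat.zero_le k) hs; omega⟩, ?_⟩
    ext z
    constructor
    · intro (h : strip k m z = some 0)
      change strip k 0 (x ++ z) = some 0
      rw [strip_append, hs]
      exact h
    · intro (h : strip k 0 (x ++ z) = some 0)
      rw [strip_append, hs] at h
      exact h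

end Pool.Agent.H93NG
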